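import Pool.Agent.Lib.MP_f0744f_nt.E.P3_1

/-! # Row P3_2: three nodes -/

set_option autoImplicit false

open Polynomial

namespace F0744E

open F0744C F0744D

variable {S : Finset ℤ} {a b : ℤ}

variable {f : PM S a 3} {g : PM S b 3} {A : AbsoluteValue ℚ ℝ} {R m θ : ℝ} {J : ℕ} {T : Finset ℤ}

/-- `Rel.eq`: `H x = G x - c3 F x`, `A (H x) ≤ R + exp (2 θ m) R ≤ R exp (3 θ m)` (`e8`). -/
theorem PB.hle (h : PB f g A R m θ J T) {c0 c1 c2 c3 : ℚ} (hr : Rel f g A m θ c0 c1 c2 c3)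
    {x : ℤ} (hx : x ∈ S0 S a b) :
    A (c2 * (x : ℚ) ^ 2 + c1 * x + c0) ≤ R * Real.exp (3 * θ * m) := by
  have h0 := mem_S0.mp hx
  have hR : 0 < R := lt_of_lt_of_le one_pos h.R1
  have hm := h.m0
  have ht := h.t0
  have e1 : c2 * (x : ℚ) ^ 2 + c1 * x + c0 = ((g.ph x : ℤ) : ℚ) - c3 * ((f.ph x : ℤ) : ℚ) := by
    rw [hr.eq x hx]; ring
  have h1 : A ((g.ph x : ℤ) : ℚ) ≤ R := h.bd _ (g.maps x h0.1 h0.2.2)
  have h2 : A ((f.ph x : ℤ) : ℚ) ≤ R := h.bd _ (f.maps x h0.1 h0.2.1)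
  have h3 : A (c3 * ((f.ph x : ℤ) : ℚ)) ≤ Real.exp (2 * θ * m) * R := by
    rw [map_mul]
    exact mul_le_mul hr.u3 h2 (A.nonneg _) (Real.exp_pos _).le
  have h4 : A (((g.ph x : ℤ) : ℚ) - c3 * ((f.ph x : ℤ) : ℚ)) ≤ R + Real.exp (2 * θ * m) * R :=
    (A.sub_le_add _ _).trans (add_le_add h1 h3)
  have h5 : (1 : ℝ) ≤ Real.exp (2 * θ * m) := Real.one_le_exp (by positivity)
  have h6 : (2 : ℝ) ≤ Real.exp (θ * m) := by linarith [h.e8]
  have h7 : Real.exp (3 * θ * m) = Real.exp (2 * θ * m) * Real.exp (θ * m) := by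
    rw [← Real.exp_add]; ring_nf
  rw [e1]
  refine h4.trans ?_
  rw [h7]
  have h8 : 2 * Real.exp (2 * θ * m) ≤ Real.exp (2 * θ * m) * Real.exp (θ * m) := by
    rw [mul_comm 2]
    exact mul_le_mul_of_nonneg_left h6 (Real.exp_pos _).le
  calc R + Real.exp (2 * θ * m) * R ≤ R * (2 * Real.exp (2 * θ * m)) := by nlinarith
    _ ≤ R * (Real.exp (2 * θ * m) * Real.exp (θ * m)) := mul_le_mul_of_nonneg_left h8 hR.le

/-- The same for `c1 + c2 (x + y) = (H x - H y) / (x - y)`: `2 R exp (3 θ m) / (R exp (- u m))`. -/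
theorem PB.lam0 (h : PB f g A R m θ J T) {c0 c1 c2 c3 : ℚ} (hr : Rel f g A m θ c0 c1 c2 c3)
    {x y : ℤ} (hx : x ∈ S0 S a b) (hy : y ∈ S0 S a b) {u : ℝ}
    (h1 : R * Real.exp (-(u * m)) ≤ A ((x : ℚ) - y)) :
    A (c2 * ((x : ℚ) + y) + c1) ≤ Real.exp ((u + 4 * θ) * m) := by
  have hR : 0 < R := lt_of_lt_of_le one_pos h.R1
  have e1 : (c2 * ((x : ℚ) + y) + c1) * ((x : ℚ) - y) =
      (c2 * (x : ℚ) ^ 2 + c1 * x + c0) - (c2 * (y : ℚ) ^ 2 + c1 * y + c0) := by ring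
  have h2 : A (c2 * ((x : ℚ) + y) + c1) * A ((x : ℚ) - y) ≤
      R * Real.exp (3 * θ * m) + R * Real.exp (3 * θ * m) := by
    rw [← map_mul, e1]
    exact (A.sub_le_add _ _).trans (add_le_add (h.hle hr hx) (h.hle hr hy))
  have h3 : A (c2 * ((x : ℚ) + y) + c1) * (R * Real.exp (-(u * m))) ≤
      R * Real.exp (3 * θ * m) + R * Real.exp (3 * θ * m) :=
    (mul_le_mul_of_nonneg_left h1 (A.nonneg _)).trans h2
  have h6 : (2 : ℝ) ≤ Real.exp (θ * m) := by linarith [h.e8]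
  have h7 : Real.exp ((u + 4 * θ) * m) * Real.exp (-(u * m)) =
      Real.exp (3 * θ * m) * Real.exp (θ * m) := by
    rw [← Real.exp_add, ← Real.exp_add]; ring_nf
  have h8 : 0 < R * Real.exp (-(u * m)) := mul_pos hR (Real.exp_pos _)
  refine le_of_mul_le_mul_right ?_ h8
  refine h3.trans ?_
  have h9 : Real.exp ((u + 4 * θ) * m) * (R * Real.exp (-(u * m))) =
      R * (Real.exp (3 * θ * m) * Real.exp (θ * m)) := by
    rw [← h7]; ring
  rw [h9]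
  have h10 : Real.exp (3 * θ * m) * 2 ≤ Real.exp (3 * θ * m) * Real.exp (θ * m) :=
    mul_le_mul_of_nonneg_left h6 (Real.exp_pos _).le
  nlinarith

end F0744E
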