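import Pool.Agent.Lib.MP_f0744f_nt.E.M4
import Pool.Agent.Lib.MP_f0744f_nt.E.P3

/-! # Row A2a: three simple classes: a permutation for each class -/

set_option autoImplicit false

open Polynomial

namespace F0744E

open F0744C F0744D

variable {S : Finset ℤ} {a b : ℤ}

variable {f : PM S a 3} {g : PM S b 3} {A : AbsoluteValue ℚ ℝ} {R m θ : ℝ} {J : ℕ} {T : Finset ℤ}

/-- the sizes as products of powers -/
theorem A2a_exp3 (m θ : ℝ) : Real.exp (-((1 - 3 * θ) * m)) = Real.exp (-m) * Real.exp (θ * m) ^ 3 := by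
  rw [← Real.exp_nat_mul, ← Real.exp_add]
  congr 1
  push_cast
  ring

theorem A2a_exp12 (m θ : ℝ) :
    Real.exp (-((1 - 12 * θ) * m)) = Real.exp (-m) * Real.exp (θ * m) ^ 12 := by
  rw [← Real.exp_nat_mul, ← Real.exp_add]
  congr 1
  push_cast
  ring

theorem A2a_exp2 (m θ : ℝ) : Real.exp (2 * θ * m) = Real.exp (θ * m) ^ 2 := by
  rw [← Real.exp_nat_mul]
  congr 1
  push_cast
  ring

theorem A2a_exp5 (m θ : ℝ) : Real.exp ((θ + 4 * θ) * m) = Real.exp (θ * m) ^ 5 := by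
  rw [← Real.exp_nat_mul]
  congr 1
  push_cast
  ring

/-- three terms -/
theorem A2a_sum {A : AbsoluteValue ℚ ℝ} {R e E : ℝ} (hR : 0 ≤ R) (hE : 0 ≤ E) (he : 8 ≤ e)
    {c1 c3 p q r : ℚ} (h3 : A c3 ≤ e ^ 2) (h1 : A c1 ≤ e ^ 5) (hp : A p ≤ R * (E * e ^ 3))
    (hq : A q ≤ R * (E * e ^ 3)) (hr : A r ≤ R * (E * e ^ 3)) :
    A (c3 * p + q + c1 * r) ≤ R * (E * e ^ 12) := by
  have hRE : 0 ≤ R * E := mul_nonneg hR hE
  have he0 : (0 : ℝ) ≤ e := by linarith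
  have t1 : A (c3 * p) ≤ R * E * e ^ 5 := by
    rw [map_mul]
    calc A c3 * A p ≤ e ^ 2 * (R * (E * e ^ 3)) :=
          mul_le_mul h3 hp (A.nonneg _) (by positivity)
      _ = R * E * e ^ 5 := by ring
  have t3 : A (c1 * r) ≤ R * E * e ^ 8 := by
    rw [map_mul]
    calc A c1 * A r ≤ e ^ 5 * (R * (E * e ^ 3)) :=
          mul_le_mul h1 hr (A.nonneg _) (by positivity)
      _ = R * E * e ^ 8 := by ring
  have t2 : A q ≤ R * E * e ^ 3 := by
    calc A q ≤ _ := hq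
      _ = R * E * e ^ 3 := by ring
  have k : A (c3 * p + q + c1 * r) ≤ A (c3 * p) + A q + A (c1 * r) :=
    (A.add_le _ _).trans (add_le_add_left (A.add_le _ _) _)
  have e1 : (1 : ℝ) ≤ e := by linarith
  have p5 : e ^ 5 ≤ e ^ 8 := pow_le_pow_right₀ e1 (by norm_num)
  have p3 : e ^ 3 ≤ e ^ 8 := pow_le_pow_right₀ e1 (by norm_num)
  have p9 : 3 * e ^ 8 ≤ e ^ 12 := by
    have : e ^ 12 = e ^ 4 * e ^ 8 := by ring
    rw [this]
    have h4 : (3 : ℝ) ≤ e ^ 4 := by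
      calc (3 : ℝ) ≤ e := by linarith
        _ = e ^ 1 := (pow_one e).symm
        _ ≤ e ^ 4 := pow_le_pow_right₀ e1 (by norm_num)
    exact mul_le_mul_of_nonneg_right h4 (by positivity)
  have q1 : R * E * e ^ 5 ≤ R * E * e ^ 8 := mul_le_mul_of_nonneg_left p5 hRE
  have q2 : R * E * e ^ 3 ≤ R * E * e ^ 8 := mul_le_mul_of_nonneg_left p3 hRE
  have q3 : R * E * (3 * e ^ 8) ≤ R * E * e ^ 12 := mul_le_mul_of_nonneg_left p9 hRE
  calc A (c3 * p + q + c1 * r) ≤ R * E * (3 * e ^ 8) := by linarith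
    _ ≤ R * E * e ^ 12 := q3
    _ = R * (E * e ^ 12) := by ring

/-- the contradiction -/
theorem A2a_contra {R m θ : ℝ} (hR : 0 < R) (hm : 0 < m) (h8 : 8 ≤ Real.exp (θ * m))
    (hθ : θ ≤ 1 / 10000)
    (h : Real.exp (-(2 * θ * m)) * (R * Real.exp (-(θ * m))) ≤
      2 * (R * Real.exp (-((1 - 12 * θ) * m)))) : False := by
  have h2 : 2 * (R * Real.exp (-((1 - 12 * θ) * m))) ≤ R * Real.exp (-((1 - 13 * θ) * m)) := by
    have e1 : Real.exp (-((1 - 13 * θ) * m)) =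
        Real.exp (θ * m) * Real.exp (-((1 - 12 * θ) * m)) := by
      rw [← Real.exp_add]
      congr 1
      ring
    rw [e1]
    have : 0 < R * Real.exp (-((1 - 12 * θ) * m)) := mul_pos hR (Real.exp_pos _)
    have h3 := mul_le_mul_of_nonneg_right h8 this.le
    linarith
  have e2 : Real.exp (-(2 * θ * m)) * (R * Real.exp (-(θ * m))) =
      R * Real.exp (-(3 * θ * m)) := by
    have : Real.exp (-(3 * θ * m)) = Real.exp (-(2 * θ * m)) * Real.exp (-(θ * m)) := by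
      rw [← Real.exp_add]
      congr 1
      ring
    rw [this]
    ring
  rw [e2] at h
  have h4 := le_of_mul_le_mul_left (h.trans h2) hR
  have h5 := Real.exp_le_exp.mp h4
  nlinarith

/-- `z i` = an element of `T` in the class `i` (`TA.many`, `S.card > 0`); `lam0` with `c2 = 0` and `z 0, z 1`: `A c1 ≤ exp (5 θ m)`.
Fix `i`. For `j` take `x ∈ T` with `cl x = i`, `cl (f.ph x) = j` (`TA.hit`) and put `π j = cl (g.ph x)`. By `PB.close` (`simf`)
`A (x - z i), A (f.ph x - z j), A (g.ph x - z (π j)) ≤ R exp (- (1 - 3 θ) m)`, so by `Rel.eq`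
`c3 z j + (c1 z i + c0) - z (π j) = c3 (z j - f.ph x) + (g.ph x - z (π j)) + c1 (z i - x)` has size at most `R exp (- (1 - 12 θ) m)`.
`π` is injective: if `π j = π j'`, `j ≠ j'` then `A (c3 (z j - z j')) ≤ 2 R exp (- (1 - 12 θ) m)`, but it is at least
`R exp (- 3 θ m)` (`l3`, `sep`). An injective map of `Fin 3` is a permutation (`Equiv.ofBijective`, `Finite.injective_iff_bijective`). -/
theorem TA.perm {cl : ℤ → Fin 3} (h : TA f g A R m θ J T cl) (hθ : θ ≤ 1 / 10000)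
    {c0 c1 c3 : ℚ} (hr : Rel f g A m θ c0 c1 0 c3) :
    ∃ z : Fin 3 → ℤ, (∀ i, z i ∈ S0 S a b ∧ cl (z i) = i) ∧ ∀ i, ∃ π : Equiv.Perm (Fin 3),
      ∀ j, A (c3 * (z j : ℚ) + (c1 * (z i : ℚ) + c0) - z (π j)) ≤
        R * Real.exp (-((1 - 12 * θ) * m)) := by
  have hb := h.base
  have hm := hb.m0
  have h8 := hb.e8
  have hR := hb.R1
  have hR0 : 0 < R := by linarith
  obtain ⟨z, hz⟩ : ∃ z : Fin 3 → ℤ, ∀ i, z i ∈ T ∧ cl (z i) = i := by
    have h0 : ∀ i : Fin 3, ∃ y, y ∈ T ∧ cl y = i := fun i => by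
      obtain ⟨x, hx, h1, -⟩ := h.hit hθ i 0
      exact ⟨x, hx, h1⟩
    choose z hz using h0
    exact ⟨z, hz⟩
  have hzS : ∀ i, z i ∈ S0 S a b := fun i => (hb.Tm _ (hz i).1).1
  have hzc : ∀ i, cl (z i) = i := fun i => (hz i).2
  have hclose : ∀ x ∈ S0 S a b, ∀ y ∈ S0 S a b, cl x = cl y →
      A ((x : ℚ) - y) ≤ R * (Real.exp (-m) * Real.exp (θ * m) ^ 3) := by
    intro x hx y hy hc
    rw [← A2a_exp3]
    exact hb.close hx hy (h.simf x hx y hy hc)
  have hc1 : A c1 ≤ Real.exp (θ * m) ^ 5 := by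
    have h1 := hb.lam0 hr (hzS 0) (hzS 1) (u := θ)
      (h.sep _ (hzS 0) _ (hzS 1) (by rw [hzc 0, hzc 1]; decide))
    rw [A2a_exp5, zero_mul, zero_add] at h1
    exact h1
  have hc3 : A c3 ≤ Real.exp (θ * m) ^ 2 := by
    rw [← A2a_exp2]
    exact hr.u3
  refine ⟨z, fun i => ⟨hzS i, hzc i⟩, fun i => ?_⟩
  have hx : ∀ j : Fin 3, ∃ x, x ∈ T ∧ cl x = i ∧ cl (f.ph x) = j := fun j => by
    obtain ⟨x, hx, h1, h2⟩ := h.hit hθ i j
    exact ⟨x, hx, h1, h2⟩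
  choose x hxT hxi hxj using hx
  have key : ∀ j, A (c3 * (z j : ℚ) + (c1 * (z i : ℚ) + c0) - z (cl (g.ph (x j)))) ≤
      R * Real.exp (-((1 - 12 * θ) * m)) := by
    intro j
    obtain ⟨m1, m2, m3⟩ := hb.Tm _ (hxT j)
    have e1 : c3 * (z j : ℚ) + (c1 * (z i : ℚ) + c0) - z (cl (g.ph (x j))) =
        c3 * ((z j : ℚ) - (f.ph (x j) : ℤ)) + (((g.ph (x j) : ℤ) : ℚ) - z (cl (g.ph (x j)))) +
          c1 * ((z i : ℚ) - (x j : ℤ)) := by
      rw [hr.eq _ m1]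
      ring
    rw [e1, A2a_exp12]
    refine A2a_sum hR0.le (Real.exp_pos _).le h8 hc3 hc1 ?_ ?_ ?_
    · exact hclose _ (hzS j) _ m2 (by rw [hzc j, hxj j])
    · exact hclose _ m3 _ (hzS _) (by rw [hzc])
    · exact hclose _ (hzS i) _ m1 (by rw [hzc i, hxi j])
  have hinj : Function.Injective (fun j => cl (g.ph (x j))) := by
    intro j j' hj
    by_contra hne
    have hj' : cl (g.ph (x j)) = cl (g.ph (x j')) := hj
    have k1 := key j
    have k2 := key j'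
    rw [← hj'] at k2
    have k3 : A (c3 * ((z j : ℚ) - z j')) ≤ 2 * (R * Real.exp (-((1 - 12 * θ) * m))) := by
      have e1 : c3 * ((z j : ℚ) - z j') =
          (c3 * (z j : ℚ) + (c1 * (z i : ℚ) + c0) - z (cl (g.ph (x j)))) -
            (c3 * (z j' : ℚ) + (c1 * (z i : ℚ) + c0) - z (cl (g.ph (x j)))) := by ring
      rw [e1]
      refine (A.sub_le_add _ _).trans ?_
      linarith
    rw [map_mul] at k3
    have k4 := h.sep _ (hzS j) _ (hzS j') (by rw [hzc j, hzc j']; exact hne)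
    have k5 := mul_le_mul hr.l3 k4 (mul_nonneg hR0.le (Real.exp_pos _).le) (A.nonneg _)
    exact A2a_contra hR0 hm h8 hθ (k5.trans k3)
  exact ⟨Equiv.ofBijective _ (Finite.injective_iff_bijective.mp hinj), key⟩

end F0744E
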