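import Pool.Agent.Lib.MP_f0744f_nt.E.A2b_1

/-! # Row A2b_2: three simple classes: the coefficients -/

set_option autoImplicit false

open Polynomial

namespace F0744E

open F0744C F0744D

variable {S : Finset ℤ} {a b : ℤ}

variable {f : PM S a 3} {g : PM S b 3} {A : AbsoluteValue ℚ ℝ} {R m θ : ℝ} {J : ℕ} {T : Finset ℤ}

theorem A2b_2_sub (A : AbsoluteValue ℚ ℝ) (x y : ℚ) : A (x - y) ≤ A x + A y := by
  have h := A.add_le x (-y)
  rw [A.map_neg, ← sub_eq_add_neg] at h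
  exact h

/-- `TA.perm` with `i = 0`, `π`. For `j, k`: `c3 (z j - z k) - (z (π j) - z (π k))` has size at most `2 δ`, `δ = R exp (- (1 - 12 θ) m)`. By
induction on `n`: `c3 ^ n (z j - z k) - (z (π ^ n j) - z (π ^ n k))` has size at most `2 n exp (2 n θ m) δ`. For `n = 6`, `π ^ 6 = 1` (`decide` or
`pow_card_eq_one`, `Fintype.card (Perm (Fin 3)) = 6`): `A (c3 ^ 6 - 1) * A (z 0 - z 1) ≤ 12 exp (12 θ m) δ`; `sep`. -/
theorem TA.c3 {cl : ℤ → Fin 3} (h : TA f g A R m θ J T cl) (hθ : θ ≤ 1 / 10000)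
    {c0 c1 c3 : ℚ} (hr : Rel f g A m θ c0 c1 0 c3) :
    A (c3 ^ 6 - 1) ≤ Real.exp (-(1 / 2 * m)) := by
  obtain ⟨z, hz, hπ⟩ := h.perm hθ hr
  obtain ⟨π, hp⟩ := hπ 0
  have hm := h.base.m0
  have hR0 : 0 < R := lt_of_lt_of_le one_pos h.base.R1
  have ht0 := h.base.t0
  obtain ⟨δ, hδ⟩ : ∃ δ : ℝ, δ = R * Real.exp (-((1 - 12 * θ) * m)) := ⟨_, rfl⟩
  have hδ0 : 0 < δ := by rw [hδ]; positivity
  rw [← hδ] at hp
  have hstep : ∀ j k : Fin 3, A (c3 * ((z j : ℚ) - z k) - ((z (π j) : ℚ) - z (π k))) ≤ 2 * δ := by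
    intro j k
    have e : c3 * ((z j : ℚ) - z k) - ((z (π j) : ℚ) - z (π k)) =
        (c3 * (z j : ℚ) + (c1 * (z 0 : ℚ) + c0) - z (π j)) -
          (c3 * (z k : ℚ) + (c1 * (z 0 : ℚ) + c0) - z (π k)) := by ring
    rw [e]
    refine (A2b_2_sub A _ _).trans ?_
    have h1 := hp j
    have h2 := hp k
    linarith
  have hind : ∀ n : ℕ, ∀ j k : Fin 3,
      A (c3 ^ n * ((z j : ℚ) - z k) - ((z ((π ^ n) j) : ℚ) - z ((π ^ n) k))) ≤
        2 * n * Real.exp (2 * n * θ * m) * δ := by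
    intro n
    induction n with
    | zero =>
      intro j k
      simp
    | succ n ih =>
      intro j k
      have e : c3 ^ (n + 1) * ((z j : ℚ) - z k) -
          ((z ((π ^ (n + 1)) j) : ℚ) - z ((π ^ (n + 1)) k)) =
          c3 * (c3 ^ n * ((z j : ℚ) - z k) - ((z ((π ^ n) j) : ℚ) - z ((π ^ n) k))) +
          (c3 * ((z ((π ^ n) j) : ℚ) - z ((π ^ n) k)) -
            ((z (π ((π ^ n) j)) : ℚ) - z (π ((π ^ n) k)))) := by
        rw [pow_succ' π n, Equiv.Perm.mul_apply, Equiv.Perm.mul_apply]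
        ring
      rw [e]
      refine (A.add_le _ _).trans ?_
      rw [A.map_mul]
      have h1 := mul_le_mul hr.u3 (ih j k) (A.nonneg _) (Real.exp_pos _).le
      have h2 := hstep ((π ^ n) j) ((π ^ n) k)
      have h3 : Real.exp (2 * θ * m) * (2 * n * Real.exp (2 * n * θ * m) * δ) =
          2 * n * Real.exp (2 * ((n + 1 : ℕ) : ℝ) * θ * m) * δ := by
        have e2 : Real.exp (2 * ((n + 1 : ℕ) : ℝ) * θ * m) =
            Real.exp (2 * θ * m) * Real.exp (2 * n * θ * m) := by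
          rw [← Real.exp_add]
          congr 1
          push_cast
          ring
        rw [e2]
        ring
      rw [h3] at h1
      have h4 : 1 ≤ Real.exp (2 * ((n + 1 : ℕ) : ℝ) * θ * m) := by
        apply Real.one_le_exp
        positivity
      have h5 : 2 * δ ≤ 2 * Real.exp (2 * ((n + 1 : ℕ) : ℝ) * θ * m) * δ := by
        have := mul_le_mul_of_nonneg_right h4 hδ0.le
        linarith
      have e3 : 2 * ((n + 1 : ℕ) : ℝ) * Real.exp (2 * ((n + 1 : ℕ) : ℝ) * θ * m) * δ =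
          2 * n * Real.exp (2 * ((n + 1 : ℕ) : ℝ) * θ * m) * δ +
            2 * Real.exp (2 * ((n + 1 : ℕ) : ℝ) * θ * m) * δ := by
        have e4 : ((n + 1 : ℕ) : ℝ) = n + 1 := by norm_cast
        generalize Real.exp (2 * ((n + 1 : ℕ) : ℝ) * θ * m) = X
        rw [e4]
        ring
      rw [e3]
      exact add_le_add h1 (h2.trans h5)
  have h6 := hind 6 0 1
  have hπ6 : π ^ 6 = 1 := by
    have h7 : Fintype.card (Equiv.Perm (Fin 3)) = 6 := by
      rw [Fintype.card_perm, Fintype.card_fin]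
      rfl
    have h8 := pow_card_eq_one (x := π)
    rw [h7] at h8
    exact h8
  rw [hπ6, Equiv.Perm.one_apply, Equiv.Perm.one_apply] at h6
  have e6 : c3 ^ 6 * ((z 0 : ℚ) - z 1) - ((z 0 : ℚ) - z 1) = (c3 ^ 6 - 1) * ((z 0 : ℚ) - z 1) := by
    ring
  rw [e6, A.map_mul] at h6
  have hsep := h.sep (z 0) (hz 0).1 (z 1) (hz 1).1 (by
    rw [(hz 0).2, (hz 1).2]
    decide)
  have h7 : A (c3 ^ 6 - 1) * (R * Real.exp (-(θ * m))) ≤ A (c3 ^ 6 - 1) * A ((z 0 : ℚ) - z 1) :=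
    mul_le_mul_of_nonneg_left hsep (A.nonneg _)
  have h8 : A (c3 ^ 6 - 1) * (R * Real.exp (-(θ * m))) ≤
      2 * (6 : ℕ) * Real.exp (2 * (6 : ℕ) * θ * m) * δ := h7.trans h6
  have h9 : (2 : ℝ) * (6 : ℕ) ≤ Real.exp (2 * θ * m) := by
    have h10 := h.base.e8
    have h11 : Real.exp (2 * θ * m) = Real.exp (θ * m) * Real.exp (θ * m) := by
      rw [← Real.exp_add]
      congr 1
      ring
    rw [h11]
    push_cast
    nlinarith
  have h12 : 2 * (6 : ℕ) * Real.exp (2 * (6 : ℕ) * θ * m) * δ ≤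
      Real.exp (2 * θ * m) * Real.exp (2 * (6 : ℕ) * θ * m) * δ := by
    gcongr
  have h13 : Real.exp (2 * θ * m) * Real.exp (2 * (6 : ℕ) * θ * m) * δ ≤
      Real.exp (-(1 / 2 * m)) * (R * Real.exp (-(θ * m))) := by
    rw [hδ]
    have e1 : Real.exp (2 * θ * m) * Real.exp (2 * (6 : ℕ) * θ * m) *
        (R * Real.exp (-((1 - 12 * θ) * m))) =
        R * Real.exp (2 * θ * m + 2 * (6 : ℕ) * θ * m + -((1 - 12 * θ) * m)) := by
      rw [Real.exp_add, Real.exp_add]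
      ring
    have e2 : Real.exp (-(1 / 2 * m)) * (R * Real.exp (-(θ * m))) =
        R * Real.exp (-(1 / 2 * m) + -(θ * m)) := by
      rw [Real.exp_add]
      ring
    rw [e1, e2]
    refine mul_le_mul_of_nonneg_left (Real.exp_le_exp.2 ?_) hR0.le
    push_cast
    have h14 : θ * m ≤ 1 / 10000 * m := mul_le_mul_of_nonneg_right hθ hm.le
    linarith
  have h15 : A (c3 ^ 6 - 1) * (R * Real.exp (-(θ * m))) ≤
      Real.exp (-(1 / 2 * m)) * (R * Real.exp (-(θ * m))) := h8.trans (h12.trans h13)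
  exact le_of_mul_le_mul_right h15 (by positivity)

end F0744E
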