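import Pool.Agent.Lib.MP_f0744f_nt.E.A2b_2

/-! # Row A2b_3: three simple classes: the coefficients -/

set_option autoImplicit false

open Polynomial

namespace F0744E

open F0744C F0744D

variable {S : Finset ℤ} {a b : ℤ}

variable {f : PM S a 3} {g : PM S b 3} {A : AbsoluteValue ℚ ℝ} {R m θ : ℝ} {J : ℕ} {T : Finset ℤ}

theorem A2b_3_pt {cl : ℤ → Fin 3} (h : TA f g A R m θ J T cl) (hθ : θ ≤ 1 / 10000) (i : Fin 3) :
    ∃ x ∈ T, cl x = i := by
  have hB := h.base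
  have hθ0 := hB.t0
  have hN : (0 : ℝ) < (S.card : ℝ) := by
    by_contra hcon
    have : θ * (S.card : ℝ) ≤ 0 := mul_nonpos_of_nonneg_of_nonpos hθ0.le (not_lt.1 hcon)
    linarith [hB.big]
  have h1 := h.many hθ i
  have h2 : (0 : ℝ) < ((T.filter (fun x => cl x = i)).card : ℝ) := by linarith
  have h3 : 0 < (T.filter (fun x => cl x = i)).card := by exact_mod_cast h2
  obtain ⟨x, hx⟩ := Finset.card_pos.1 h3
  exact ⟨x, (Finset.mem_filter.1 hx).1, (Finset.mem_filter.1 hx).2⟩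

/-- `PB.nodes` for points of `T` in the three classes (`TA.many`), `PB.hle`, `sep`. -/
theorem TA.c2 {cl : ℤ → Fin 3} (h : TA f g A R m θ J T cl) (hθ : θ ≤ 1 / 10000)
    {c0 c1 c2 c3 : ℚ} (hr : Rel f g A m θ c0 c1 c2 c3) :
    A c2 * R ≤ Real.exp (1 / 100 * m) := by
  have hB := h.base
  have hR : 0 < R := lt_of_lt_of_le one_pos hB.R1
  obtain ⟨x, hxT, hx⟩ := A2b_3_pt h hθ 0
  obtain ⟨y, hyT, hy⟩ := A2b_3_pt h hθ 1
  obtain ⟨z, hzT, hz⟩ := A2b_3_pt h hθ 2
  have hx0 := (hB.Tm x hxT).1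
  have hy0 := (hB.Tm y hyT).1
  have hz0 := (hB.Tm z hzT).1
  have hS : ∀ w, w ∈ S0 S a b → w ∈ S := fun w hw => (Finset.mem_filter.1 hw).1
  have hxy : cl x ≠ cl y := by rw [hx, hy]; decide
  have hxz : cl x ≠ cl z := by rw [hx, hz]; decide
  have hyz : cl y ≠ cl z := by rw [hy, hz]; decide
  have key := hB.nodes (hS x hx0) (hS y hy0) (hS z hz0) (u := θ) (v := θ) (w := θ)
    (h.sep x hx0 y hy0 hxy) (h.sep x hx0 z hz0 hxz) (h.sep y hy0 z hz0 hyz)
    (hB.hle hr hx0) (hB.hle hr hy0) (hB.hle hr hz0)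
  have h1 : A c2 * R * R ≤ Real.exp (7 * θ * m) * R := by
    calc A c2 * R * R = A c2 * R ^ 2 := by ring
      _ ≤ R * Real.exp (3 * θ * m) * Real.exp ((θ + θ + θ + θ) * m) := key
      _ = (Real.exp (3 * θ * m) * Real.exp ((θ + θ + θ + θ) * m)) * R := by ring
      _ = Real.exp (7 * θ * m) * R := by
          rw [← Real.exp_add]
          congr 2
          ring
  have h2 : A c2 * R ≤ Real.exp (7 * θ * m) := le_of_mul_le_mul_right h1 hR
  refine h2.trans (Real.exp_le_exp.2 ?_)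
  exact mul_le_mul_of_nonneg_right (by linarith) hB.m0.le

end F0744E
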