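import Pool.Agent.Lib.MP_f0744f_nt.E.A2b_1
import Pool.Agent.Lib.MP_f0744f_nt.E.A2b_2
import Pool.Agent.Lib.MP_f0744f_nt.E.A2b_3

/-! # three simple classes: the coefficients -/
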