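import Pool.Agent.Lib.MP_f0744f_nt.E.A2a

/-! # Row A2b_1: three simple classes: the coefficients -/

set_option autoImplicit false

open Polynomial

namespace F0744E

open F0744C F0744D

variable {S : Finset ℤ} {a b : ℤ}

variable {f : PM S a 3} {g : PM S b 3} {A : AbsoluteValue ℚ ℝ} {R m θ : ℝ} {J : ℕ} {T : Finset ℤ}

theorem A2b_1_sum (A : AbsoluteValue ℚ ℝ) {z : Fin 3 → ℤ} {c3 w : ℚ} {E : ℝ} (π : Equiv.Perm (Fin 3))
    (h : ∀ j, A (c3 * (z j : ℚ) + w - z (π j)) ≤ E) :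
    A (c3 * (∑ j, (z j : ℚ)) + 3 * w - ∑ j, (z j : ℚ)) ≤ 3 * E := by
  have h1 : c3 * (∑ j, (z j : ℚ)) + 3 * w - ∑ j, (z j : ℚ) =
      ∑ j, (c3 * (z j : ℚ) + w - z (π j)) := by
    rw [Finset.sum_sub_distrib, Finset.sum_add_distrib, ← Finset.mul_sum,
      Equiv.sum_comp π (fun j => (z j : ℚ))]
    simp
  rw [h1]
  calc A (∑ j, (c3 * (z j : ℚ) + w - z (π j))) ≤ ∑ j, A (c3 * (z j : ℚ) + w - z (π j)) :=
        A.sum_le _ _
    _ ≤ ∑ _j : Fin 3, E := Finset.sum_le_sum fun j _ => h j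
    _ = 3 * E := by simp

/-- `TA.perm`. Sum over `j` (`Equiv.sum_comp`): `c3 Z + 3 (c1 z i + c0) - Z` has size at most `3 R exp (- (1 - 12 θ) m)`, `Z = ∑ z j`, for each
`i`; the difference for `i = 0, 1` gives `A 3 * A c1 * A (z 0 - z 1) ≤ 6 R exp (- (1 - 12 θ) m)`; `athree`, `sep`, `θ ≤ 1 / 10000`. -/
theorem TA.c1 {cl : ℤ → Fin 3} (h : TA f g A R m θ J T cl) (hθ : θ ≤ 1 / 10000)
    {c0 c1 c3 : ℚ} (hr : Rel f g A m θ c0 c1 0 c3) : A c1 ≤ Real.exp (-(1 / 2 * m)) := by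
  obtain ⟨z, hz, hp⟩ := h.perm hθ hr
  have hR : 0 < R := lt_of_lt_of_le one_pos h.base.R1
  have hm := h.base.m0
  have h8 := h.base.e8
  have h3 := h.base.athree
  obtain ⟨π0, h0⟩ := hp 0
  obtain ⟨π1, h1⟩ := hp 1
  have s0 := A2b_1_sum A π0 h0
  have s1 := A2b_1_sum A π1 h1
  have hsep : R * Real.exp (-(θ * m)) ≤ A ((z 0 : ℚ) - z 1) := by
    refine h.sep _ (hz 0).1 _ (hz 1).1 ?_
    rw [(hz 0).2, (hz 1).2]
    decide
  have hd : A (3 * (c1 * ((z 0 : ℚ) - z 1))) ≤ 6 * (R * Real.exp (-((1 - 12 * θ) * m))) := by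
    have e : 3 * (c1 * ((z 0 : ℚ) - z 1)) =
        (c3 * (∑ j, (z j : ℚ)) + 3 * (c1 * (z 0 : ℚ) + c0) - ∑ j, (z j : ℚ)) -
        (c3 * (∑ j, (z j : ℚ)) + 3 * (c1 * (z 1 : ℚ) + c0) - ∑ j, (z j : ℚ)) := by ring
    rw [e]
    have := A.sub_le_add (c3 * (∑ j, (z j : ℚ)) + 3 * (c1 * (z 0 : ℚ) + c0) - ∑ j, (z j : ℚ))
      (c3 * (∑ j, (z j : ℚ)) + 3 * (c1 * (z 1 : ℚ) + c0) - ∑ j, (z j : ℚ))
    linarith
  rw [map_mul, map_mul] at hd
  have hc : 0 ≤ A c1 := A.nonneg _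
  have e1 : 0 < Real.exp (-(θ * m)) := Real.exp_pos _
  have hlow : Real.exp (-(θ * m)) * (A c1 * (R * Real.exp (-(θ * m)))) ≤
      A 3 * (A c1 * A ((z 0 : ℚ) - z 1)) :=
    mul_le_mul h3 (mul_le_mul_of_nonneg_left hsep hc) (by positivity) (A.nonneg _)
  have hup : 6 * (R * Real.exp (-((1 - 12 * θ) * m))) ≤
      Real.exp (-(1 / 2 * m)) * (Real.exp (-(θ * m)) * (R * Real.exp (-(θ * m)))) := by
    have i1 : 6 * Real.exp (-((1 - 12 * θ) * m)) ≤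
        Real.exp (-(1 / 2 * m) + (-(θ * m) + -(θ * m))) := by
      calc 6 * Real.exp (-((1 - 12 * θ) * m)) ≤ Real.exp (θ * m) * Real.exp (-((1 - 12 * θ) * m)) :=
            mul_le_mul_of_nonneg_right (by linarith) (Real.exp_pos _).le
        _ = Real.exp (θ * m + -((1 - 12 * θ) * m)) := (Real.exp_add _ _).symm
        _ ≤ _ := by
            apply Real.exp_le_exp.2
            nlinarith
    rw [Real.exp_add, Real.exp_add] at i1
    calc 6 * (R * Real.exp (-((1 - 12 * θ) * m))) = R * (6 * Real.exp (-((1 - 12 * θ) * m))) := by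
          ring
      _ ≤ R * (Real.exp (-(1 / 2 * m)) * (Real.exp (-(θ * m)) * Real.exp (-(θ * m)))) :=
          mul_le_mul_of_nonneg_left i1 hR.le
      _ = _ := by ring
  have hfin : A c1 * (Real.exp (-(θ * m)) * (R * Real.exp (-(θ * m)))) ≤
      Real.exp (-(1 / 2 * m)) * (Real.exp (-(θ * m)) * (R * Real.exp (-(θ * m)))) := by
    calc A c1 * (Real.exp (-(θ * m)) * (R * Real.exp (-(θ * m)))) =
        Real.exp (-(θ * m)) * (A c1 * (R * Real.exp (-(θ * m)))) := by ring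
      _ ≤ _ := hlow.trans (hd.trans hup)
  exact le_of_mul_le_mul_right hfin (by positivity)

end F0744E
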