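import Pool.Agent.Lib.MP_f0744f_nt.E.Ap1_1

/-! # Row Ap1_2: chains -/

set_option autoImplicit false

open Polynomial

namespace F0744E

open F0744C F0744D

variable {S : Finset ℤ} {a b : ℤ}

/-- By `chain` and the pigeonhole principle (`Finset.exists_le_card_fiber_of_mul_le_card_of_maps_to`-like) some `e ∈ E` belongs to a set of `n` elements `y` with `S.card ≤ k n`; their numbers `j` are
different, so the greatest is at least `n - 1`. -/
theorem long_chain {S E : Finset ℤ} {k : ℕ} (hE : E.card ≤ k) {δ : ℤ} (hδ : δ ≠ 0)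
    (h : ∀ y ∈ S, y ∉ E → y + δ ∈ S) (hS : S.Nonempty) :
    ∃ e ∈ E, ∃ n : ℕ, S.card ≤ k * n ∧ ∀ i : ℕ, i < n → e - i * δ ∈ S := by
  classical
  choose! e he j _ hj2 hj3 using fun y (hy : y ∈ S) => chain hδ h hy
  obtain ⟨y0, hy0⟩ := hS
  obtain ⟨e0, he0, hmax⟩ := Finset.exists_max_image E (fun c => (S.filter fun y => e y = c).card) ⟨e y0, he y0 hy0⟩
  have hcard : S.card ≤ k * (S.filter fun y => e y = e0).card := by
    have h1 : S.card = ∑ c ∈ E, (S.filter fun y => e y = c).card := Finset.card_eq_sum_card_fiberwise he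
    have h2 : ∑ c ∈ E, (S.filter fun y => e y = c).card ≤ E.card • (S.filter fun y => e y = e0).card :=
      Finset.sum_le_card_nsmul E _ _ hmax
    rw [h1]
    exact h2.trans (by rw [smul_eq_mul]; exact Nat.mul_le_mul_right _ hE)
  have hpos : 0 < (S.filter fun y => e y = e0).card := by
    rcases Nat.eq_zero_or_pos (S.filter fun y => e y = e0).card with h0 | h0
    · rw [h0, mul_zero] at hcard
      exact absurd (Finset.card_pos.2 ⟨y0, hy0⟩) (by omega)
    · exact h0
  obtain ⟨y, hy, hyj⟩ : ∃ y ∈ S.filter fun y => e y = e0, (S.filter fun y => e y = e0).card - 1 ≤ j y := by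
    by_contra hcon
    push Not at hcon
    have hinj : Set.InjOn j (S.filter fun y => e y = e0 : Finset ℤ) := by
      intro x hx z hz hxz
      rw [Finset.mem_coe, Finset.mem_filter] at hx hz
      rw [hj2 x hx.1, hj2 z hz.1, hx.2, hz.2, hxz]
    have h3 : (Finset.image j (S.filter fun y => e y = e0)).card = (S.filter fun y => e y = e0).card :=
      Finset.card_image_of_injOn hinj
    have h4 : Finset.image j (S.filter fun y => e y = e0) ⊆ Finset.range ((S.filter fun y => e y = e0).card - 1) := by
      intro i hi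
      obtain ⟨x, hx, rfl⟩ := Finset.mem_image.1 hi
      exact Finset.mem_range.2 (hcon x hx)
    have h5 := Finset.card_le_card h4
    rw [h3, Finset.card_range] at h5
    omega
  refine ⟨e0, he0, (S.filter fun y => e y = e0).card, hcard, fun i hi => ?_⟩
  rw [Finset.mem_filter] at hy
  have h6 := hj3 y hy.1 i (by omega)
  rwa [hy.2] at h6

end F0744E
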