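import Pool.Agent.Lib.MP_f0744f_nt.E.Defs

/-! # Row Ap1_1: chains -/

set_option autoImplicit false

open Polynomial

namespace F0744E

open F0744C F0744D

variable {S : Finset ℤ} {a b : ℤ}

/-- Otherwise all `y + j δ`, `j : ℕ`, are in `S` (induction), infinitely many different numbers. Take the least `j` with `y + j δ ∈ E`, `e = y + j δ`; `y, y + δ, …, y + j δ` are in `S` and different, so
`j < S.card`. -/
theorem chain {S E : Finset ℤ} {δ : ℤ} (hδ : δ ≠ 0) (h : ∀ y ∈ S, y ∉ E → y + δ ∈ S) {y : ℤ}
    (hy : y ∈ S) : ∃ e ∈ E, ∃ j : ℕ, j < S.card ∧ y = e - j * δ ∧ ∀ i : ℕ, i ≤ j → e - i * δ ∈ S := by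
  have key : ∀ n : ℕ, (∀ i : ℕ, i < n → y + i * δ ∉ E) → ∀ i : ℕ, i ≤ n → y + i * δ ∈ S := by
    intro n hn i
    induction i with
    | zero => intro _; simpa using hy
    | succ i ih =>
      intro hi
      have h1 := h _ (ih (by omega)) (hn i (by omega))
      have h2 : y + ((i + 1 : ℕ) : ℤ) * δ = y + i * δ + δ := by push_cast; ring
      rw [h2]; exact h1
  have hcard : ∀ n : ℕ, (∀ i : ℕ, i < n → y + i * δ ∉ E) → n < S.card := by
    intro n hn
    have hk := key n hn
    have hinj : Function.Injective (fun i : ℕ => y + (i : ℤ) * δ) := by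
      intro i j hij
      have h1 : (i : ℤ) * δ = j * δ := by simpa using hij
      exact_mod_cast mul_right_cancel₀ hδ h1
    have hsub : (Finset.range (n + 1)).image (fun i : ℕ => y + (i : ℤ) * δ) ⊆ S := by
      intro z hz
      obtain ⟨i, hi, rfl⟩ := Finset.mem_image.mp hz
      exact hk i (by have := Finset.mem_range.mp hi; omega)
    have h2 := Finset.card_le_card hsub
    rw [Finset.card_image_of_injective _ hinj, Finset.card_range] at h2
    omega
  have hex : ∃ j : ℕ, y + j * δ ∈ E := by
    by_contra hne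
    push Not at hne
    exact lt_irrefl _ (hcard S.card (fun i _ => hne i))
  classical
  refine ⟨y + (Nat.find hex : ℕ) * δ, Nat.find_spec hex, Nat.find hex, ?_, by ring, ?_⟩
  · exact hcard _ (fun i hi => Nat.find_min hex hi)
  · intro i hi
    have h1 := key (Nat.find hex) (fun i hi => Nat.find_min hex hi) (Nat.find hex - i) (by omega)
    have h2 : y + ((Nat.find hex - i : ℕ) : ℤ) * δ = y + (Nat.find hex : ℕ) * δ - i * δ := by
      rw [Nat.cast_sub hi]; ring
    rw [← h2]; exact h1

end F0744E
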