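import Pool.Agent.Lib.MP_f0744f_nt.E.Ap2_1

/-! # Row Ap2_2: divided differences -/

set_option autoImplicit false

open Polynomial

namespace F0744E

open F0744C F0744D

variable {S : Finset ℤ} {a b : ℤ}

theorem Ap2_2_cast {i : Fin 4 → ℤ} (r : Fin 4) :
    (∏ s ∈ Finset.univ.erase r, ((i r : ℚ) - i s)) =
      ((∏ s ∈ Finset.univ.erase r, (i r - i s) : ℤ) : ℚ) := by
  push_cast
  rfl

theorem Ap2_2_ne {i : Fin 4 → ℤ} (hi : Function.Injective i) (r : Fin 4) :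
    (∏ s ∈ Finset.univ.erase r, (i r - i s) : ℤ) ≠ 0 := by
  rw [Finset.prod_ne_zero_iff]
  intro s hs
  have h1 : s ≠ r := (Finset.mem_erase.1 hs).1
  intro h2
  exact h1 (hi (sub_eq_zero.1 h2)).symm

theorem Ap2_2_card (r : Fin 4) : (Finset.univ.erase r : Finset (Fin 4)).card = 3 := by
  rw [Finset.card_erase_of_mem (Finset.mem_univ r)]
  rfl

/-- Multiply the sum by the product of the four integers `P r = ∏_{s ≠ r} (i r - i s)`, `|P r| ≤ W ^ 3`: a nonzero integer. -/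
theorem dd_lo {i j : Fin 4 → ℤ} (hi : Function.Injective i) {W : ℕ}
    (hW : ∀ r s, |i r - i s| ≤ W)
    (h : ∑ r, (j r : ℚ) / ∏ s ∈ Finset.univ.erase r, ((i r : ℚ) - i s) ≠ 0) :
    1 / (W : ℚ) ^ 12 ≤ |∑ r, (j r : ℚ) / ∏ s ∈ Finset.univ.erase r, ((i r : ℚ) - i s)| := by
  set d : Fin 4 → ℤ := fun r => ∏ s ∈ Finset.univ.erase r, (i r - i s) with hd
  have hd0 : ∀ r, d r ≠ 0 := fun r => Ap2_2_ne hi r
  have hdW : ∀ r, |d r| ≤ (W : ℤ) ^ 3 := by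
    intro r
    rw [hd]
    simp only
    rw [Finset.abs_prod, ← Ap2_2_card r, ← Finset.prod_const]
    exact Finset.prod_le_prod (fun s _ => abs_nonneg _) fun s _ => hW r s
  have hsum : ∑ r, (j r : ℚ) / ∏ s ∈ Finset.univ.erase r, ((i r : ℚ) - i s) =
      ∑ r, (j r : ℚ) / (d r : ℚ) := by
    refine Finset.sum_congr rfl fun r _ => ?_
    rw [Ap2_2_cast]
  rw [hsum] at h ⊢
  set Nn : ℤ := ∏ r, d r with hN
  have hN0 : Nn ≠ 0 := Finset.prod_ne_zero_iff.2 fun r _ => hd0 r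
  have hNW : |Nn| ≤ (W : ℤ) ^ 12 := by
    rw [hN, Finset.abs_prod]
    calc ∏ r, |d r| ≤ ∏ _r : Fin 4, (W : ℤ) ^ 3 :=
          Finset.prod_le_prod (fun r _ => abs_nonneg _) fun r _ => hdW r
      _ = (W : ℤ) ^ 12 := by
          rw [Finset.prod_const, Finset.card_univ, Fintype.card_fin, ← pow_mul]
  have hkey : (Nn : ℚ) * ∑ r, (j r : ℚ) / (d r : ℚ) =
      ((∑ r, j r * ∏ s ∈ Finset.univ.erase r, d s : ℤ) : ℚ) := by
    push_cast
    rw [Finset.mul_sum]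
    refine Finset.sum_congr rfl fun r _ => ?_
    have h1 : (Nn : ℚ) = (d r : ℚ) * ∏ s ∈ Finset.univ.erase r, (d s : ℚ) := by
      rw [hN]
      push_cast
      exact (Finset.mul_prod_erase Finset.univ (fun s => (d s : ℚ)) (Finset.mem_univ r)).symm
    have h2 : (d r : ℚ) ≠ 0 := by exact_mod_cast hd0 r
    rw [h1]
    field_simp
  have hNq : (Nn : ℚ) ≠ 0 := by exact_mod_cast hN0
  have hne : (∑ r, j r * ∏ s ∈ Finset.univ.erase r, d s : ℤ) ≠ 0 := by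
    intro h0
    rw [h0] at hkey
    have := mul_ne_zero hNq h
    exact this (by simpa using hkey)
  have h1 : (1 : ℚ) ≤ |(Nn : ℚ) * ∑ r, (j r : ℚ) / (d r : ℚ)| := by
    rw [hkey]
    exact_mod_cast Int.one_le_abs hne
  have hNq' : |(Nn : ℚ)| ≤ (W : ℚ) ^ 12 := by exact_mod_cast hNW
  have hNpos : 0 < |(Nn : ℚ)| := abs_pos.2 hNq
  have hWpos : 0 < (W : ℚ) ^ 12 := lt_of_lt_of_le hNpos hNq'
  rw [abs_mul] at h1
  rw [div_le_iff₀ hWpos]
  calc (1 : ℚ) ≤ |(Nn : ℚ)| * |∑ r, (j r : ℚ) / (d r : ℚ)| := h1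
    _ ≤ (W : ℚ) ^ 12 * |∑ r, (j r : ℚ) / (d r : ℚ)| :=
        mul_le_mul_of_nonneg_right hNq' (abs_nonneg _)
    _ = _ := mul_comm _ _

/-- Each term has size at most `n / w ^ 3`. -/
theorem dd_up {i j : Fin 4 → ℤ} {n w : ℕ} (hw : 0 < w) (hj : ∀ r, |j r| ≤ n)
    (h : ∀ r s, r ≠ s → (w : ℤ) ≤ |i r - i s|) :
    |∑ r, (j r : ℚ) / ∏ s ∈ Finset.univ.erase r, ((i r : ℚ) - i s)| ≤ 4 * n / (w : ℚ) ^ 3 := by
  have hw' : (0 : ℚ) < (w : ℚ) := by exact_mod_cast hw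
  have hterm : ∀ r : Fin 4, |(j r : ℚ) / ∏ s ∈ Finset.univ.erase r, ((i r : ℚ) - i s)| ≤
      (n : ℚ) / (w : ℚ) ^ 3 := by
    intro r
    rw [abs_div, Finset.abs_prod]
    have h1 : (w : ℚ) ^ 3 ≤ ∏ s ∈ Finset.univ.erase r, |(i r : ℚ) - i s| := by
      rw [← Ap2_2_card r, ← Finset.prod_const]
      refine Finset.prod_le_prod (fun s _ => hw'.le) fun s hs => ?_
      have := h r s (Finset.mem_erase.1 hs).1.symm
      exact_mod_cast this
    have h2 : |(j r : ℚ)| ≤ n := by exact_mod_cast hj r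
    exact div_le_div₀ (by positivity) h2 (by positivity) h1
  calc |∑ r, (j r : ℚ) / ∏ s ∈ Finset.univ.erase r, ((i r : ℚ) - i s)|
      ≤ ∑ r, |(j r : ℚ) / ∏ s ∈ Finset.univ.erase r, ((i r : ℚ) - i s)| :=
        Finset.abs_sum_le_sum_abs _ _
    _ ≤ ∑ _r : Fin 4, (n : ℚ) / (w : ℚ) ^ 3 := Finset.sum_le_sum fun r _ => hterm r
    _ = 4 * n / (w : ℚ) ^ 3 := by
        rw [Finset.sum_const, Finset.card_univ, Fintype.card_fin]
        ring

end F0744E
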