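import Pool.Agent.Lib.MP_f0744f_nt.E.B0

/-! # Row Ap2_1: divided differences -/

set_option autoImplicit false

open Polynomial

namespace F0744E

open F0744C F0744D

variable {S : Finset ℤ} {a b : ℤ}

/-- `F.leadingCoeff = ∑_r F (x r) / ∏_{s ≠ r} (x r - x s)`, `0 = ∑_r 1 / ∏_{s ≠ r} (x r - x s)` for the four nodes `x r = e - i r δ` (`lag_coeff` of the library `C/`, or expand: it is an identity of
rational functions), `x r - x s = - (i r - i s) δ`. -/
theorem dd3 {F : ℚ[X]} (hF : F.natDegree = 3) {i : Fin 4 → ℤ} (hi : Function.Injective i)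
    {e t δ : ℚ} (hδ : δ ≠ 0) {j : Fin 4 → ℤ}
    (h : ∀ r, F.eval (e - i r * δ) = t - j r * δ) :
    F.leadingCoeff * δ ^ 2 =
      ∑ r, (j r : ℚ) / ∏ s ∈ Finset.univ.erase r, ((i r : ℚ) - i s) := by
  have hinj : Set.InjOn (fun r : Fin 4 => e - (i r : ℚ) * δ) (Finset.univ : Finset (Fin 4)) := by
    intro r _ s _ hrs
    have h1 : (i r : ℚ) * δ = i s * δ := by
      have h2 : e - (i r : ℚ) * δ = e - (i s : ℚ) * δ := hrs
      linarith
    exact hi (by exact_mod_cast mul_right_cancel₀ hδ h1)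
  have hF0 : F ≠ 0 := by
    rintro rfl
    simp at hF
  have hdeg : F.degree = 3 := by
    rw [degree_eq_natDegree hF0, hF]; rfl
  have hc : (Finset.univ : Finset (Fin 4)).card = 4 := by simp
  have e1 := Lagrange.leadingCoeff_eq_sum (P := F) hinj (by rw [hc, hdeg]; norm_num)
  have e2 := Lagrange.coeff_eq_sum (P := (1 : ℚ[X])) hinj (by rw [hc]; simp)
  rw [hc] at e2
  have e3 : (1 : ℚ[X]).coeff (4 - 1) = 0 := by
    rw [coeff_one]; simp
  rw [e3] at e2
  have hp : ∀ r : Fin 4, (∏ s ∈ Finset.univ.erase r,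
      ((e - (i r : ℚ) * δ) - (e - (i s : ℚ) * δ))) =
        - δ ^ 3 * ∏ s ∈ Finset.univ.erase r, ((i r : ℚ) - i s) := by
    intro r
    have h3 : ∀ s : Fin 4, ((e - (i r : ℚ) * δ) - (e - (i s : ℚ) * δ)) =
        (-δ) * ((i r : ℚ) - i s) := by intro s; ring
    rw [Finset.prod_congr rfl (fun s _ => h3 s), Finset.prod_mul_distrib, Finset.prod_const,
      Finset.card_erase_of_mem (Finset.mem_univ r), hc]
    ring
  have hq : ∀ r : Fin 4, (∏ s ∈ Finset.univ.erase r, ((i r : ℚ) - i s)) ≠ 0 := by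
    intro r
    rw [Finset.prod_ne_zero_iff]
    intro s hs
    rw [sub_ne_zero]
    intro h4
    exact (Finset.ne_of_mem_erase hs) (hi (by exact_mod_cast h4.symm))
  simp only [hp, h] at e1
  simp only [hp, eval_one] at e2
  rw [e1, Finset.sum_mul]
  have h5 : ∑ r : Fin 4, (t - (j r : ℚ) * δ) /
      (-δ ^ 3 * ∏ s ∈ Finset.univ.erase r, ((i r : ℚ) - i s)) * δ ^ 2 =
      t * δ ^ 2 * (∑ r : Fin 4, 1 / (-δ ^ 3 * ∏ s ∈ Finset.univ.erase r, ((i r : ℚ) - i s))) +
      ∑ r, (j r : ℚ) / ∏ s ∈ Finset.univ.erase r, ((i r : ℚ) - i s) := by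
    rw [Finset.mul_sum, ← Finset.sum_add_distrib]
    refine Finset.sum_congr rfl (fun r _ => ?_)
    have := hq r
    field_simp
    ring
  rw [h5, ← e2]
  ring

end F0744E
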