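import Pool.Agent.Lib.MP_f0744f_nt.E.Ap3_1

/-! # Row Ap3_2: no translations -/

set_option autoImplicit false

open Polynomial

namespace F0744E

open F0744C F0744D

variable {S : Finset ℤ} {a b : ℤ}

/-- four points of an arithmetic progression of difference `w` whose images lie on one chain -/
lemma Ap3_2_pick {k n : ℕ} {S E : Finset ℤ} (hE : E.card ≤ k) {δ : ℤ} (hδ : δ ≠ 0)
    (hsh : ∀ y ∈ S, y ∉ E → y + δ ∈ S) {F : ℚ[X]} (hF3 : F.natDegree = 3)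
    (hF : ∀ x ∈ S, x ∉ E → ∃ y ∈ S, (y : ℚ) = F.eval (x : ℚ)) {e : ℤ}
    (he : ∀ i : ℕ, i < n → e - i * δ ∈ S) {w : ℕ} (hw : 0 < w) (hwn : 4 * k * w < n) :
    ∃ i j : Fin 4 → ℤ, Function.Injective i ∧ (∀ r s, |i r - i s| ≤ ((4 * k * w : ℕ) : ℤ)) ∧
      (∀ r s, r ≠ s → (w : ℤ) ≤ |i r - i s|) ∧ (∀ r, |j r| ≤ ((S.card : ℕ) : ℤ)) ∧
      F.leadingCoeff * (δ : ℚ) ^ 2 =
        ∑ r, (j r : ℚ) / ∏ s ∈ Finset.univ.erase r, ((i r : ℚ) - i s) := by
  classical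
  obtain ⟨I, hI⟩ : ∃ I : Finset ℕ, I = (Finset.range (4 * k + 1)).filter
      (fun r => e - ((r * w : ℕ) : ℤ) * δ ∉ E) := ⟨_, rfl⟩
  have hIc : 3 * k + 1 ≤ I.card := by
    have h1 : ((Finset.range (4 * k + 1)).filter
        (fun r => e - ((r * w : ℕ) : ℤ) * δ ∈ E)).card ≤ k := by
      refine le_trans (Finset.card_le_card_of_injOn (fun r : ℕ => e - ((r * w : ℕ) : ℤ) * δ) ?_ ?_) hE
      · intro r hr
        exact (Finset.mem_filter.1 hr).2
      · intro r _ s _ hrs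
        simp only at hrs
        have h2 : ((r * w : ℕ) : ℤ) * δ = ((s * w : ℕ) : ℤ) * δ := by linarith
        have h3 := mul_right_cancel₀ hδ h2
        have h4 : r * w = s * w := by exact_mod_cast h3
        exact Nat.eq_of_mul_eq_mul_right hw h4
    have h2 := Finset.card_filter_add_card_filter_not (s := Finset.range (4 * k + 1))
      (fun r => e - ((r * w : ℕ) : ℤ) * δ ∈ E)
    rw [Finset.card_range] at h2
    rw [hI]
    omega
  have hlt : ∀ r ∈ I, r ≤ 4 * k := by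
    intro r hr
    rw [hI, Finset.mem_filter, Finset.mem_range] at hr
    omega
  have hex : ∀ r : ℕ, r ∈ I → ∃ t : ℤ, ∃ j : ℕ, t ∈ E ∧ j < S.card ∧
      F.eval ((e : ℚ) - ((r * w : ℕ) : ℚ) * (δ : ℚ)) = (t : ℚ) - (j : ℚ) * (δ : ℚ) := by
    intro r hr
    have hr1 := hlt r hr
    rw [hI, Finset.mem_filter] at hr
    have hS : e - ((r * w : ℕ) : ℤ) * δ ∈ S := by
      apply he
      exact lt_of_le_of_lt (Nat.mul_le_mul_right w hr1) hwn
    obtain ⟨y, hy, hyF⟩ := hF _ hS hr.2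
    obtain ⟨t, ht, j, hj, hyt, _⟩ := chain hδ hsh hy
    refine ⟨t, j, ht, hj, ?_⟩
    rw [hyt] at hyF
    push_cast at hyF ⊢
    exact hyF.symm
  choose! col jj hcol using hex
  obtain ⟨i4, hinj, hmem, hc⟩ := four hE hIc col (fun r hr => (hcol r hr).1)
  have hne : ∀ r s, r ≠ s → ((i4 r : ℕ) : ℤ) ≠ ((i4 s : ℕ) : ℤ) := by
    intro r s hrs h
    exact hrs (hinj (by exact_mod_cast h))
  have hdiff : ∀ r s, (((i4 r * w : ℕ) : ℤ) - ((i4 s * w : ℕ) : ℤ)) =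
      (((i4 r : ℕ) : ℤ) - ((i4 s : ℕ) : ℤ)) * (w : ℤ) := by
    intro r s
    push_cast
    ring
  have hw' : (0 : ℤ) < w := by exact_mod_cast hw
  refine ⟨fun r => ((i4 r * w : ℕ) : ℤ), fun r => ((jj (i4 r) : ℕ) : ℤ), ?_, ?_, ?_, ?_, ?_⟩
  · intro r s hrs
    simp only at hrs
    have h4 : i4 r * w = i4 s * w := by exact_mod_cast hrs
    exact hinj (Nat.eq_of_mul_eq_mul_right hw h4)
  · intro r s
    simp only
    rw [hdiff, abs_mul, abs_of_pos hw']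
    push_cast
    apply mul_le_mul_of_nonneg_right _ hw'.le
    rw [abs_le]
    have h1 := hlt _ (hmem r)
    have h2 := hlt _ (hmem s)
    constructor <;> omega
  · intro r s hrs
    simp only
    rw [hdiff, abs_mul, abs_of_pos hw']
    have h1 : (1 : ℤ) ≤ |((i4 r : ℕ) : ℤ) - ((i4 s : ℕ) : ℤ)| := by
      apply Int.one_le_abs
      exact sub_ne_zero.2 (hne r s hrs)
    nlinarith
  · intro r
    simp only
    rw [abs_of_nonneg (by positivity)]
    have h1 := (hcol _ (hmem r)).2.1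
    exact_mod_cast h1.le
  · have h1 := dd3 (F := F) hF3 (i := fun r => ((i4 r * w : ℕ) : ℤ)) (e := (e : ℚ))
      (t := ((col (i4 0) : ℤ) : ℚ)) (δ := (δ : ℚ)) (j := fun r => ((jj (i4 r) : ℕ) : ℤ))
      (by
        intro r s hrs
        simp only at hrs
        have h4 : i4 r * w = i4 s * w := by exact_mod_cast hrs
        exact hinj (Nat.eq_of_mul_eq_mul_right hw h4))
      (by exact_mod_cast hδ)
      (by
        intro r
        have h2 := (hcol _ (hmem r)).2.2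
        rw [hc r] at h2
        simp only [Int.cast_natCast]
        exact h2)
    exact h1

/-- `long_chain`: `e - i δ ∈ S` for `i < n`, `N = S.card ≤ k n`. If `e - i δ ∉ E` (this excludes at most `k` numbers `i`) then `F (e - i δ) = y ∈ S` and by `chain` `y = t - j δ`, `t ∈ E`, `0 ≤ j < N`; `col i = t`. (1) `I` = the
`i ≤ 4 k` with `e - i δ ∉ E`, at least `3 k + 1` numbers (`n > 4 k`): `four`, `dd3`, `dd_lo` with `W = 4 k + 1`: `|α δ ^ 2| ≥ 1 / (4 k + 1) ^ 12`. (2) `w = n / (4 k + 1)`, `I` = the `i = r w`, `r ≤ 4 k`, with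
`e - i δ ∉ E`: `four`, `dd3`, `dd_up`: `|α δ ^ 2| ≤ 4 N / w ^ 3`. Contradiction if `N` is large (`w ≥ N / (k (4 k + 1)) - 1`). -/
theorem ap_main (k : ℕ) : ∃ N0 : ℕ, ∀ (S : Finset ℤ), N0 ≤ S.card → ∀ (F : ℚ[X]),
    F.natDegree = 3 → ∀ δ : ℤ, δ ≠ 0 → ∀ E : Finset ℤ, E.card ≤ k →
    (∀ y ∈ S, y ∉ E → y + δ ∈ S) → (∀ x ∈ S, x ∉ E → ∃ y ∈ S, (y : ℚ) = F.eval (x : ℚ)) →
    False := by
  obtain ⟨M, hM⟩ : ∃ M : ℕ, M = 8 * k * (4 * k + 1) ^ 13 + 1 := ⟨_, rfl⟩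
  refine ⟨k * ((4 * k + 1) * M) + 1, ?_⟩
  intro S hS F hF3 δ hδ E hE hsh hF
  have hSn : S.Nonempty := by
    rw [← Finset.card_pos]
    omega
  obtain ⟨e, heE, n, hn, he⟩ := long_chain hE hδ hsh hSn
  have hk : 1 ≤ k := le_trans (Finset.card_pos.2 ⟨e, heE⟩) hE
  obtain ⟨w, hw⟩ : ∃ w : ℕ, w = n / (4 * k + 1) := ⟨_, rfl⟩
  have hw1 : (4 * k + 1) * w ≤ n := by
    rw [hw]
    exact Nat.mul_div_le n (4 * k + 1)
  have hw2 : n < (4 * k + 1) * (w + 1) := by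
    rw [hw]
    exact Nat.lt_mul_div_succ n (by omega)
  have hwM : M ≤ w := by
    by_contra hc
    push Not at hc
    have h1 : n ≤ (4 * k + 1) * M := le_trans hw2.le (Nat.mul_le_mul_left _ hc)
    have h2 : k * n ≤ k * ((4 * k + 1) * M) := Nat.mul_le_mul_left _ h1
    omega
  have hw0 : 0 < w := by omega
  have hwn : 4 * k * w < n := by
    have h1 : (4 * k + 1) * w = 4 * k * w + w := by ring
    omega
  have hwn1 : 4 * k * 1 < n := by
    have h1 : 4 * k * 1 ≤ 4 * k * w := Nat.mul_le_mul_left _ hw0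
    omega
  have hα : F.leadingCoeff * (δ : ℚ) ^ 2 ≠ 0 := by
    apply mul_ne_zero
    · rw [Ne, Polynomial.leadingCoeff_eq_zero]
      rintro rfl
      simp at hF3
    · apply pow_ne_zero
      exact_mod_cast hδ
  obtain ⟨i, j, hi, hi1, _, _, hij⟩ := Ap3_2_pick hE hδ hsh hF3 hF he one_pos hwn1
  have hlo := dd_lo (j := j) hi (W := 4 * k + 1)
    (fun r s => (hi1 r s).trans (by push_cast; omega)) (by rw [← hij]; exact hα)
  rw [← hij] at hlo
  obtain ⟨i', j', hi', _, hi2', hj', hij'⟩ := Ap3_2_pick hE hδ hsh hF3 hF he hw0 hwn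
  have hup := dd_up hw0 hj' hi2'
  rw [← hij'] at hup
  have h := hlo.trans hup
  have hw0' : (0 : ℚ) < w := by exact_mod_cast hw0
  have hK : (0 : ℚ) < (4 * k + 1 : ℕ) := by positivity
  rw [div_le_div_iff₀ (by positivity) (by positivity), one_mul] at h
  have hN : ((S.card : ℕ) : ℚ) ≤ 2 * k * (4 * k + 1 : ℕ) * w := by
    have h1 : S.card ≤ 2 * k * (4 * k + 1) * w := by
      calc S.card ≤ k * n := hn
        _ ≤ k * ((4 * k + 1) * (w + 1)) := Nat.mul_le_mul_left _ hw2.le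
        _ ≤ k * ((4 * k + 1) * (w + w)) := by
            apply Nat.mul_le_mul_left
            apply Nat.mul_le_mul_left
            omega
        _ = _ := by ring
    exact_mod_cast h1
  have h2 : (w : ℚ) ^ 3 ≤ (8 * k * (4 * k + 1 : ℕ) ^ 13) * w := by
    calc (w : ℚ) ^ 3 ≤ 4 * ((S.card : ℕ) : ℚ) * ((4 * k + 1 : ℕ) : ℚ) ^ 12 := h
      _ ≤ 4 * (2 * k * (4 * k + 1 : ℕ) * w) * ((4 * k + 1 : ℕ) : ℚ) ^ 12 := by gcongr
      _ = _ := by ring
  have h3 : (w : ℚ) ^ 2 ≤ 8 * k * (4 * k + 1 : ℕ) ^ 13 := by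
    have h4 : (w : ℚ) ^ 2 * w ≤ (8 * k * (4 * k + 1 : ℕ) ^ 13) * w := by
      calc (w : ℚ) ^ 2 * w = (w : ℚ) ^ 3 := by ring
        _ ≤ _ := h2
    exact le_of_mul_le_mul_right h4 hw0'
  have h5 : (w : ℚ) ≤ (w : ℚ) ^ 2 := by
    have h6 : (1 : ℚ) ≤ w := by exact_mod_cast hw0
    nlinarith
  have h7 : (w : ℚ) ≤ 8 * k * (4 * k + 1 : ℕ) ^ 13 := h5.trans h3
  have h8 : w ≤ 8 * k * (4 * k + 1) ^ 13 := by exact_mod_cast h7
  omega

end F0744E
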