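import Pool.Agent.Lib.MP_f0744f_nt.E.Ap1
import Pool.Agent.Lib.MP_f0744f_nt.E.Ap2

/-! # Row Ap3_1: no translations -/

set_option autoImplicit false

open Polynomial

namespace F0744E

open F0744C F0744D

variable {S : Finset ℤ} {a b : ℤ}

/-- `col i` colours the numbers `i` of a set `I` of at least `3 k + 1` numbers by the elements of `E`: four of them have the same colour
(`Finset.exists_lt_card_fiber_of_mul_lt_card_of_maps_to`). -/
theorem four {E : Finset ℤ} {k : ℕ} (hE : E.card ≤ k) {I : Finset ℕ} (hI : 3 * k + 1 ≤ I.card)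
    (col : ℕ → ℤ) (h : ∀ i ∈ I, col i ∈ E) :
    ∃ i : Fin 4 → ℕ, Function.Injective i ∧ (∀ r, i r ∈ I) ∧ ∀ r, col (i r) = col (i 0) := by
  have hlt : E.card * 3 < I.card := by omega
  obtain ⟨y, _, hy⟩ := Finset.exists_lt_card_fiber_of_mul_lt_card_of_maps_to h hlt
  obtain ⟨T, hT, hTc⟩ := Finset.exists_subset_card_eq (Nat.succ_le_of_lt hy)
  have hmem : ∀ r : Fin 4, T.orderEmbOfFin hTc r ∈ I ∧ col (T.orderEmbOfFin hTc r) = y := by
    intro r
    have h1 := hT (Finset.orderEmbOfFin_mem T hTc r)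
    exact Finset.mem_filter.mp h1
  refine ⟨fun r => T.orderEmbOfFin hTc r, (T.orderEmbOfFin hTc).injective, fun r => (hmem r).1,
    fun r => ?_⟩
  rw [(hmem r).2, (hmem 0).2]

end F0744E
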