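import Pool.Agent.Lib.MP_f0744f_nt.E.Defs

/-! # Row B0: algebra of cubic polynomials -/

set_option autoImplicit false

open Polynomial

namespace F0744E

open F0744C F0744D

variable {S : Finset ℤ} {a b : ℤ}

theorem mem_S0 {x : ℤ} : x ∈ S0 S a b ↔ x ∈ S ∧ x ≠ a ∧ x ≠ b := by
  unfold S0
  rw [Finset.mem_filter]

theorem S0_comm (S : Finset ℤ) (a b : ℤ) : S0 S a b = S0 S b a := by
  ext x
  rw [mem_S0, mem_S0]
  exact and_congr_right (fun _ => and_comm)

/-- `Polynomial.eval_eq_sum_range`, `F.coeff 3 = F.leadingCoeff ≠ 0`. -/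
theorem fdiff3 {F : ℚ[X]} (hF : F.natDegree = 3) (x y : ℚ) :
    F.eval x - F.eval y = F.leadingCoeff * (x - y) * qq F x y := by
  have h0 : F.leadingCoeff ≠ 0 := by
    rw [Ne, leadingCoeff_eq_zero]
    rintro rfl
    simp at hF
  have h3 : F.coeff 3 = F.leadingCoeff := by rw [leadingCoeff, hF]
  rw [eval_eq_sum_range, eval_eq_sum_range, hF]
  simp only [Finset.sum_range_succ, Finset.sum_range_zero]
  rw [h3]
  unfold qq s3
  field_simp
  ring

theorem qdiff (F : ℚ[X]) (x y z : ℚ) : qq F x y - qq F x z = (y - z) * (x + y + z - s3 F) := by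
  unfold qq
  ring

theorem qq_comm (F : ℚ[X]) (x y : ℚ) : qq F x y = qq F y x := by
  unfold qq
  ring

/-- `mm A R 3 F = log (A α) + 2 log R`. -/
theorem lead3 (A : AbsoluteValue ℚ ℝ) {R : ℝ} (hR : 0 < R) {F : ℚ[X]} (hF : F.natDegree = 3) :
    A F.leadingCoeff = Real.exp (mm A R 3 F) / R ^ 2 := by
  have h0 : F.leadingCoeff ≠ 0 := by
    rw [Ne, leadingCoeff_eq_zero]
    rintro rfl
    simp at hF
  have h1 : 0 < A F.leadingCoeff := A.pos h0
  unfold mm
  rw [Real.exp_add, Real.exp_log h1]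
  have h2 : Real.exp (((3 : ℕ) : ℝ) - 1) = Real.exp 2 := by norm_num
  have h3 : Real.exp ((((3 : ℕ) : ℝ) - 1) * Real.log R) = R ^ 2 := by
    have : (((3 : ℕ) : ℝ) - 1) * Real.log R = Real.log R + Real.log R := by push_cast; ring
    rw [this, Real.exp_add, Real.exp_log hR]
    ring
  rw [h3]
  field_simp

end F0744E
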