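import Pool.Agent.Lib.MP_f0744f_nt.E.B0

/-! # Row B1a: symmetry and monotonicity -/

set_option autoImplicit false

open Polynomial

namespace F0744E

open F0744C F0744D

variable {S : Finset ℤ} {a b : ℤ}

variable {f : PM S a 3} {g : PM S b 3} {A : AbsoluteValue ℚ ℝ} {R m θ : ℝ} {J : ℕ} {T : Finset ℤ}

/-- `eight`. -/
theorem PB.e8 (h : PB f g A R m θ J T) : 8 ≤ Real.exp (θ * m) := by
  have h1 := Real.exp_le_exp.2 h.eight
  rwa [Real.exp_log (by norm_num)] at h1

/-- `log 8 > 0`, `m > 0`. -/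
theorem PB.t0 (h : PB f g A R m θ J T) : 0 < θ := by
  have h1 : 0 < Real.log 8 := Real.log_pos (by norm_num)
  have h2 : 0 < θ * m := lt_of_lt_of_le h1 h.eight
  exact pos_of_mul_pos_left h2 h.m0.le

/-- Exchange `f` and `g` (`S0_comm`). -/
theorem PB.symm (h : PB f g A R m θ J T) : PB g f A R m θ J T where
  R1 := h.R1
  m0 := h.m0
  eight := h.eight
  atwo := h.atwo
  athree := h.athree
  mf1 := h.mg1
  mf2 := h.mg2
  mg1 := h.mf1
  mg2 := h.mf2
  bd := h.bd
  sf := h.sg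
  sg := h.sf
  big := h.big
  Tf := h.Tg
  Tg := h.Tf
  Tm := by
    intro x hx
    rw [S0_comm S b a]
    obtain ⟨h1, h2, h3⟩ := h.Tm x hx
    exact ⟨h1, h3, h2⟩
  card := h.card
  lowf := h.lowg
  lowg := h.lowf
  up := h.up

theorem TA.symm {cl : ℤ → Fin 3} (h : TA f g A R m θ J T cl) : TA g f A R m θ J T cl where
  base := h.base.symm
  sep := by
    rw [S0_comm S b a]
    exact h.sep
  simf := by
    rw [S0_comm S b a]
    exact h.simg
  simg := by
    rw [S0_comm S b a]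
    exact h.simf

theorem TB.symm {cl : ℤ → Bool} (h : TB f g A R m θ J T cl) : TB g f A R m θ J T cl where
  base := h.base.symm
  sep := by
    rw [S0_comm S b a]
    exact h.sep
  simf := by
    rw [S0_comm S b a]
    exact h.simg
  simg := by
    rw [S0_comm S b a]
    exact h.simf
  dblf := by
    rw [S0_comm S b a]
    exact h.dblg
  dblg := by
    rw [S0_comm S b a]
    exact h.dblf
  lowf1 := by
    rw [S0_comm S b a]
    exact h.lowg1
  lowg1 := by
    rw [S0_comm S b a]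
    exact h.lowf1

/-- `F = (1 / c3) G - (c2 / c3) X ^ 2 - …`, `c3 ≠ 0` by `l3`. -/
theorem Rel.symm {c0 c1 c2 c3 : ℚ} (h : Rel f g A m θ c0 c1 c2 c3) :
    Rel g f A m θ (-c0 / c3) (-c1 / c3) (-c2 / c3) (1 / c3) := by
  have hA : 0 < A c3 := lt_of_lt_of_le (Real.exp_pos _) h.l3
  have hc : c3 ≠ 0 := by
    rintro rfl
    rw [map_zero] at hA
    exact lt_irrefl _ hA
  refine ⟨?_, ?_, ?_⟩
  · intro x hx
    rw [S0_comm S b a] at hx
    have h1 := h.eq x hx
    rw [h1]
    field_simp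
    ring
  · rw [map_div₀, map_one, div_le_iff₀ hA]
    have h1 := mul_le_mul_of_nonneg_left h.l3 (Real.exp_pos (2 * θ * m)).le
    rw [← Real.exp_add] at h1
    simpa using h1
  · rw [map_div₀, map_one, le_div_iff₀ hA]
    have h1 := mul_le_mul_of_nonneg_left h.u3 (Real.exp_pos (-(2 * θ * m))).le
    rw [← Real.exp_add] at h1
    simpa using h1

/-- All fields are monotone in `θ` (`m > 0`). -/
theorem PB.mono {θ' : ℝ} (h : PB f g A R m θ J T) (hθ : θ ≤ θ') : PB f g A R m θ' J T := by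
  have hm := h.m0
  have h1 : θ * m ≤ θ' * m := mul_le_mul_of_nonneg_right hθ hm.le
  have h2 : Real.exp (-(θ' * m)) ≤ Real.exp (-(θ * m)) := Real.exp_le_exp.2 (neg_le_neg h1)
  have h3 : Real.exp (θ * m) ≤ Real.exp (θ' * m) := Real.exp_le_exp.2 h1
  have hR : 0 ≤ R := le_trans zero_le_one h.R1
  have h4 : R * Real.exp (θ * m) ≤ R * Real.exp (θ' * m) := mul_le_mul_of_nonneg_left h3 hR
  have hN : (0 : ℝ) ≤ (S.card : ℝ) := Nat.cast_nonneg _
  have h5 : θ * (S.card : ℝ) ≤ θ' * S.card := mul_le_mul_of_nonneg_right hθ hN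
  have h6 : θ * (S.card : ℝ) ^ 2 * m ≤ θ' * (S.card : ℝ) ^ 2 * m :=
    mul_le_mul_of_nonneg_right (mul_le_mul_of_nonneg_right hθ (sq_nonneg _)) hm.le
  refine ⟨h.R1, hm, h.eight.trans h1, h2.trans h.atwo, h2.trans h.athree, ?_, ?_, ?_, ?_, h.bd,
    h.sf.trans h4, h.sg.trans h4, h.big.trans h5, h.Tf, h.Tg, h.Tm, ?_, ?_, ?_, ?_⟩
  · have := h.mf1
    nlinarith
  · have := h.mf2
    nlinarith
  · have := h.mg1
    nlinarith
  · have := h.mg2
    nlinarith
  · have := h.card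
    nlinarith
  · intro U hU
    have := h.lowf U hU
    linarith
  · intro U hU
    have := h.lowg U hU
    linarith
  · have := h.up
    nlinarith

theorem Rel.mono {θ' : ℝ} {c0 c1 c2 c3 : ℚ} (h : Rel f g A m θ c0 c1 c2 c3) (hm : 0 < m)
    (hθ : θ ≤ θ') : Rel f g A m θ' c0 c1 c2 c3 := by
  have h1 : θ * m ≤ θ' * m := mul_le_mul_of_nonneg_right hθ hm.le
  refine ⟨h.eq, h.u3.trans (Real.exp_le_exp.2 ?_), le_trans (Real.exp_le_exp.2 ?_) h.l3⟩
  · linarith
  · linarith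

end F0744E
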