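import Pool.Agent.Lib.MP_f0744f_nt.E.B1a

/-! # Row B1b: sizes -/

set_option autoImplicit false

open Polynomial

namespace F0744E

open F0744C F0744D

variable {S : Finset ℤ} {a b : ℤ}

variable {f : PM S a 3} {g : PM S b 3} {A : AbsoluteValue ℚ ℝ} {R m θ : ℝ} {J : ℕ} {T : Finset ℤ}

/-- the triangle inequality, `bd` -/
theorem PB.two (h : PB f g A R m θ J T) {x y : ℤ} (hx : x ∈ S) (hy : y ∈ S) :
    A ((x : ℚ) - y) ≤ 2 * R := by
  have h1 := A.add_le (x : ℚ) (-(y : ℚ))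
  rw [← sub_eq_add_neg, A.map_neg] at h1
  linarith [h.bd x hx, h.bd y hy]

/-- `two`, `log 2 ≤ log 8 ≤ θ m`. Model: `TP.uu_any` in `D/B1.lean`. -/
theorem PB.uu_any (h : PB f g A R m θ J T) {x y : ℤ} (hx : x ∈ S) (hy : y ∈ S) (hne : x ≠ y) :
    -(θ * m) ≤ uu A R x y := by
  have hR : 0 < R := lt_of_lt_of_le one_pos h.R1
  have hu : 0 < A ((x : ℚ) - y) := A.pos (sub_ne_zero.2 (by exact_mod_cast hne))
  have hl := Real.log_le_log hu (h.two hx hy)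
  rw [Real.log_mul two_ne_zero hR.ne'] at hl
  have h4 := h.eight
  have h24 : Real.log 2 ≤ Real.log 8 := Real.log_le_log (by norm_num) (by norm_num)
  unfold uu
  linarith

/-- `f.val`, `fdiff3`, `lead3`. -/
theorem PB.val (h : PB f g A R m θ J T) {x y : ℤ} (hx : x ∈ S0 S a b) (hy : y ∈ S0 S a b) :
    A ((f.ph x : ℚ) - f.ph y) =
      Real.exp (mm A R 3 f.F) / R ^ 2 * A ((x : ℚ) - y) * A (qq f.F x y) := by
  have hR : 0 < R := lt_of_lt_of_le one_pos h.R1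
  obtain ⟨hx1, hx2, -⟩ := mem_S0.1 hx
  obtain ⟨hy1, hy2, -⟩ := mem_S0.1 hy
  rw [f.val x hx1 hx2, f.val y hy1 hy2, fdiff3 f.deg, map_mul, map_mul, lead3 A hR f.deg]

/-- `val`, `mf1`, and `A (f.ph x - f.ph y) ≤ 2 R`. -/
theorem PB.step (h : PB f g A R m θ J T) {x y : ℤ} (hx : x ∈ S0 S a b) (hy : y ∈ S0 S a b) :
    A ((x : ℚ) - y) * A (qq f.F x y) ≤ 2 * R ^ 3 * Real.exp (-((1 - θ) * m)) := by
  have hR : 0 < R := lt_of_lt_of_le one_pos h.R1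
  obtain ⟨hx1, hx2, -⟩ := mem_S0.1 hx
  obtain ⟨hy1, hy2, -⟩ := mem_S0.1 hy
  have h1 := h.two (f.maps x hx1 hx2) (f.maps y hy1 hy2)
  rw [h.val hx hy] at h1
  have h2 : Real.exp ((1 - θ) * m) ≤ Real.exp (mm A R 3 f.F) := Real.exp_le_exp.2 h.mf1
  have h3 : 0 ≤ A ((x : ℚ) - y) * A (qq f.F x y) := mul_nonneg (A.nonneg _) (A.nonneg _)
  have h4 : Real.exp ((1 - θ) * m) * (A ((x : ℚ) - y) * A (qq f.F x y)) ≤ 2 * R ^ 3 := by
    have h5 : Real.exp (mm A R 3 f.F) * (A ((x : ℚ) - y) * A (qq f.F x y)) ≤ 2 * R ^ 3 := by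
      have h6 : Real.exp (mm A R 3 f.F) * (A ((x : ℚ) - y) * A (qq f.F x y)) =
          (Real.exp (mm A R 3 f.F) / R ^ 2 * A ((x : ℚ) - y) * A (qq f.F x y)) * R ^ 2 := by
        field_simp
      rw [h6]
      calc (Real.exp (mm A R 3 f.F) / R ^ 2 * A ((x : ℚ) - y) * A (qq f.F x y)) * R ^ 2
          ≤ 2 * R * R ^ 2 := mul_le_mul_of_nonneg_right h1 (by positivity)
        _ = 2 * R ^ 3 := by ring
    exact (mul_le_mul_of_nonneg_right h2 h3).trans h5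
  rw [Real.exp_neg, ← div_eq_mul_inv, le_div_iff₀ (Real.exp_pos _), mul_comm]
  exact h4

theorem PB.B1b_val (h : PB f g A R m θ J T) {x y : ℤ} (hx : x ∈ S0 S a b) (hy : y ∈ S0 S a b) :
    A ((f.ph x : ℚ) - f.ph y) * R ^ 2 =
      Real.exp (mm A R 3 f.F) * (A ((x : ℚ) - y) * A (qq f.F x y)) := by
  have hR : 0 < R := lt_of_lt_of_le one_pos h.R1
  rw [h.val hx hy]
  field_simp

/-- `val`, `mf2`. -/
theorem PB.upf (h : PB f g A R m θ J T) {x y : ℤ} (hx : x ∈ S0 S a b) (hy : y ∈ S0 S a b) :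
    A ((f.ph x : ℚ) - f.ph y) * R ^ 2 ≤
      Real.exp ((1 + θ) * m) * (A ((x : ℚ) - y) * A (qq f.F x y)) := by
  rw [h.B1b_val hx hy]
  exact mul_le_mul_of_nonneg_right (Real.exp_le_exp.2 h.mf2)
    (mul_nonneg (A.nonneg _) (A.nonneg _))

/-- `val`, `mf1`. -/
theorem PB.lof (h : PB f g A R m θ J T) {x y : ℤ} (hx : x ∈ S0 S a b) (hy : y ∈ S0 S a b) :
    Real.exp ((1 - θ) * m) * (A ((x : ℚ) - y) * A (qq f.F x y)) ≤
      A ((f.ph x : ℚ) - f.ph y) * R ^ 2 := by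
  rw [h.B1b_val hx hy]
  exact mul_le_mul_of_nonneg_right (Real.exp_le_exp.2 h.mf1)
    (mul_nonneg (A.nonneg _) (A.nonneg _))

/-- `step`, `2 ≤ exp (θ m)`. -/
theorem PB.close (h : PB f g A R m θ J T) {x y : ℤ} (hx : x ∈ S0 S a b) (hy : y ∈ S0 S a b)
    (hq : R ^ 2 * Real.exp (-(θ * m)) ≤ A (qq f.F x y)) :
    A ((x : ℚ) - y) ≤ R * Real.exp (-((1 - 3 * θ) * m)) := by
  have hR : 0 < R := lt_of_lt_of_le one_pos h.R1
  have h1 := h.step hx hy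
  have h2 : A ((x : ℚ) - y) * (R ^ 2 * Real.exp (-(θ * m))) ≤
      2 * R ^ 3 * Real.exp (-((1 - θ) * m)) :=
    (mul_le_mul_of_nonneg_left hq (A.nonneg _)).trans h1
  have h8 := h.e8
  have h3 : 2 * R ^ 3 * Real.exp (-((1 - θ) * m)) ≤
      Real.exp (θ * m) * R ^ 3 * Real.exp (-((1 - θ) * m)) := by
    have h5 : (0 : ℝ) ≤ R ^ 3 * Real.exp (-((1 - θ) * m)) := by positivity
    nlinarith [mul_le_mul_of_nonneg_right (show (2 : ℝ) ≤ Real.exp (θ * m) by linarith) h5]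
  have h4 : Real.exp (θ * m) * R ^ 3 * Real.exp (-((1 - θ) * m)) =
      (R * Real.exp (-((1 - 3 * θ) * m))) * (R ^ 2 * Real.exp (-(θ * m))) := by
    have h6 : Real.exp (θ * m) * Real.exp (-((1 - θ) * m)) =
        Real.exp (-((1 - 3 * θ) * m)) * Real.exp (-(θ * m)) := by
      rw [← Real.exp_add, ← Real.exp_add]
      congr 1
      ring
    calc Real.exp (θ * m) * R ^ 3 * Real.exp (-((1 - θ) * m))
        = R ^ 3 * (Real.exp (θ * m) * Real.exp (-((1 - θ) * m))) := by ring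
      _ = R ^ 3 * (Real.exp (-((1 - 3 * θ) * m)) * Real.exp (-(θ * m))) := by rw [h6]
      _ = _ := by ring
  have h5 : 0 < R ^ 2 * Real.exp (-(θ * m)) := by positivity
  refine le_of_mul_le_mul_right ?_ h5
  rw [← h4]
  exact h2.trans h3

/-- `A (x + y + z - s3 f.F) ≤ 3 R + R exp (θ m) ≤ R exp (2 θ m)` (`e8`). -/
theorem PB.sum3 (h : PB f g A R m θ J T) {x y z : ℤ} (hx : x ∈ S) (hy : y ∈ S) (hz : z ∈ S) :
    A ((x : ℚ) + y + z - s3 f.F) ≤ R * Real.exp (2 * θ * m) := by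
  have hR : 0 < R := lt_of_lt_of_le one_pos h.R1
  have h1 : A ((x : ℚ) + y + z - s3 f.F) ≤ A (x : ℚ) + A (y : ℚ) + A (z : ℚ) + A (s3 f.F) := by
    have e1 := A.add_le ((x : ℚ) + y + z) (-(s3 f.F))
    rw [← sub_eq_add_neg, A.map_neg] at e1
    have e2 := A.add_le ((x : ℚ) + y) (z : ℚ)
    have e3 := A.add_le (x : ℚ) (y : ℚ)
    linarith
  have h2 := h.bd x hx
  have h3 := h.bd y hy
  have h4 := h.bd z hz
  have h5 := h.sf
  have h8 := h.e8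
  have h6 : Real.exp (2 * θ * m) = Real.exp (θ * m) * Real.exp (θ * m) := by
    rw [← Real.exp_add]
    congr 1
    ring
  rw [h6]
  have h7 : 3 + Real.exp (θ * m) ≤ Real.exp (θ * m) * Real.exp (θ * m) := by nlinarith
  have h9 := mul_le_mul_of_nonneg_left h7 hR.le
  nlinarith

/-- `qq x y - qq z w = (y - w) (x + y + w - s3) + (x - z) (w + x + z - s3)` (`qdiff`, `qq_comm`), `sum3`. -/
theorem PB.qvar (h : PB f g A R m θ J T) {x y z w : ℤ} (hx : x ∈ S) (hy : y ∈ S) (hz : z ∈ S)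
    (hw : w ∈ S) : A (qq f.F x y) ≤
      A (qq f.F z w) + (A ((x : ℚ) - z) + A ((y : ℚ) - w)) * (R * Real.exp (2 * θ * m)) := by
  have e1 := qdiff f.F (x : ℚ) (y : ℚ) (w : ℚ)
  have e2 := qdiff f.F (w : ℚ) (x : ℚ) (z : ℚ)
  have e3 : qq f.F x y = qq f.F z w + (((x : ℚ) - z) * ((w : ℚ) + x + z - s3 f.F) +
      ((y : ℚ) - w) * ((x : ℚ) + y + w - s3 f.F)) := by
    rw [qq_comm f.F (w : ℚ) (x : ℚ), qq_comm f.F (w : ℚ) (z : ℚ)] at e2
    linarith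
  rw [e3]
  have e4 := A.add_le (qq f.F z w) (((x : ℚ) - z) * ((w : ℚ) + x + z - s3 f.F) +
      ((y : ℚ) - w) * ((x : ℚ) + y + w - s3 f.F))
  have e5 := A.add_le (((x : ℚ) - z) * ((w : ℚ) + x + z - s3 f.F))
      (((y : ℚ) - w) * ((x : ℚ) + y + w - s3 f.F))
  rw [map_mul, map_mul] at e5
  have e6 := mul_le_mul_of_nonneg_left (h.sum3 hw hx hz) (A.nonneg ((x : ℚ) - z))
  have e7 := mul_le_mul_of_nonneg_left (h.sum3 hx hy hw) (A.nonneg ((y : ℚ) - w))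
  nlinarith

end F0744E
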