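import Pool.Agent.Lib.MP_f0744f_nt.E.Ba_1

/-! # Row Ba_2: low energies -/

set_option autoImplicit false

open Polynomial

namespace F0744E

open F0744C F0744D

variable {S : Finset ℤ} {a b : ℤ}

theorem Ba_2_sub {S : Finset ℤ} {a : ℤ} {ph : ℤ → ℤ} {J : ℕ} {x : ℤ} (h : x ∈ Dm S a ph J) : x ∈ S := by
  cases J with
  | zero => exact h
  | succ J => exact (Finset.mem_filter.1 h).1

/-- `En_ge` (`d = 3`) with `M = mm A R 3 f.F`, `u = U.card ≤ N = S.card`: `M (1 - 1 / 3 ^ J) / 2 u ^ 2 ≥ (1 - θ / 4) (1 - θ / 64) m u ^ 2 / 2`, and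
`M (4 J + 1) u + 2 u log u ≤ (2 m (4 J + 1) + 2 m log N) N ≤ θ / 16 N ^ 2 m`. -/
theorem low_gen (f : PM S a 3) {A : AbsoluteValue ℚ ℝ} {R : ℝ} (hR : 1 ≤ R)
    (hS : ∀ y ∈ S, A ((y : ℤ) : ℚ) ≤ R) {J : ℕ} {m θ : ℝ} (hm : 1 ≤ m) (hθ : 0 < θ) (hθ1 : θ ≤ 1)
    (hM : (1 - θ / 4) * m ≤ mm A R 3 f.F) (hM2 : mm A R 3 f.F ≤ 2 * m) (hL : Lg J θ S.card) :
    ∀ U ⊆ Dm S a f.ph J,
      1 / 2 * (U.card : ℝ) ^ 2 * m - θ * (S.card : ℝ) ^ 2 * m ≤ En A R U := by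
  intro U hU
  obtain ⟨hL1, hL2⟩ := hL
  set M := mm A R 3 f.F with hMdef
  have hM0 : 0 ≤ M := by
    have : 0 ≤ (1 - θ / 4) * m := mul_nonneg (by linarith) (by linarith)
    linarith
  have hE := En_ge f (by norm_num) A hR hS J hU hM0
  have hUS : U ⊆ S := fun x hx => Ba_2_sub (hU hx)
  have hc : U.card ≤ S.card := Finset.card_le_card hUS
  have hcR : (U.card : ℝ) ≤ (S.card : ℝ) := by exact_mod_cast hc
  have hlog0 : 0 ≤ Real.log (S.card : ℝ) := Real.log_natCast_nonneg _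
  have hlog : (U.card : ℝ) * Real.log U.card ≤ (S.card : ℝ) * Real.log S.card := by
    rcases Nat.eq_zero_or_pos U.card with h0 | h0
    · rw [h0]
      simp only [Nat.cast_zero, zero_mul]
      positivity
    · have h1 : (0 : ℝ) < (U.card : ℝ) := by exact_mod_cast h0
      exact mul_le_mul hcR (Real.log_le_log h1 hcR) (Real.log_natCast_nonneg _) (by positivity)
  rw [← hMdef] at hE
  set u : ℝ := (U.card : ℝ) with hu
  set N : ℝ := (S.card : ℝ) with hN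
  set l : ℝ := Real.log N with hl
  have hu0 : 0 ≤ u := by positivity
  have hN0 : 0 ≤ N := by positivity
  have hJ0 : (0 : ℝ) ≤ (J : ℝ) := by positivity
  have hm0 : 0 ≤ m := by linarith
  have e3 : ((3 : ℕ) : ℝ) = 3 := by norm_num
  rw [e3] at hE
  set q : ℝ := 1 / (3 : ℝ) ^ J with hq
  have hq0 : 0 ≤ q := by positivity
  have hu2 : u ^ 2 ≤ N ^ 2 := pow_le_pow_left₀ hu0 hcR 2
  have hu20 : 0 ≤ u ^ 2 := by positivity
  -- the main term
  have a1 : (1 - θ / 4) * m * (1 - θ / 64) ≤ M * (1 - q) := by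
    have h1 : (1 - θ / 4) * m * (1 - θ / 64) ≤ M * (1 - θ / 64) :=
      mul_le_mul_of_nonneg_right hM (by linarith)
    have h2 : M * (1 - θ / 64) ≤ M * (1 - q) := mul_le_mul_of_nonneg_left (by linarith) hM0
    linarith
  have a2 : m * (1 - 17 / 64 * θ) ≤ (1 - θ / 4) * m * (1 - θ / 64) := by
    nlinarith [mul_nonneg hm0 (mul_nonneg hθ.le hθ.le)]
  have a3 : m * (1 - 17 / 64 * θ) * u ^ 2 ≤ M * (1 - q) * u ^ 2 :=
    mul_le_mul_of_nonneg_right (a2.trans a1) hu20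
  have a4 : m * θ * u ^ 2 ≤ m * θ * N ^ 2 :=
    mul_le_mul_of_nonneg_left hu2 (mul_nonneg hm0 hθ.le)
  -- the errors
  have b1 : M * ((4 * J + 1) * u) ≤ 2 * m * ((4 * J + 1) * N) :=
    mul_le_mul hM2 (mul_le_mul_of_nonneg_left hcR (by positivity)) (by positivity) (by positivity)
  have b2 : 2 * (u * Real.log u) ≤ 2 * m * (N * l) := by
    have h1 : 0 ≤ N * l := mul_nonneg hN0 hlog0
    nlinarith
  have b3 : 2 * m * N * (4 * J + 1 + l) ≤ 2 * m * N * (θ / 64 * N) :=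
    mul_le_mul_of_nonneg_left (by linarith) (by positivity)
  have e1 : M * ((1 - q) / (3 - 1) * u ^ 2 - (4 * J + 1) * u) - 2 * u * Real.log u =
      1 / 2 * (M * (1 - q) * u ^ 2) - M * ((4 * J + 1) * u) - 2 * (u * Real.log u) := by ring
  rw [e1] at hE
  have hfin : 0 ≤ m * θ * N ^ 2 := by positivity
  nlinarith

end F0744E
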