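import Pool.Agent.Lib.MP_f0744f_nt.E.Ba_2

/-! # Row Ba_3: low energies -/

set_option autoImplicit false

open Polynomial

namespace F0744E

open F0744C F0744D

variable {S : Finset ℤ} {a b : ℤ}

theorem Ba_3_Dm_sub (S : Finset ℤ) (a : ℤ) (ph : ℤ → ℤ) (J : ℕ) : Dm S a ph J ⊆ S := by
  cases J with
  | zero => exact Finset.Subset.refl _
  | succ J => exact Finset.filter_subset _ _

theorem Ba_3_one (g : PM S b 3) {A : AbsoluteValue ℚ ℝ} {R : ℝ} (hR : 1 ≤ R)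
    (hS : ∀ y ∈ S, A ((y : ℤ) : ℚ) ≤ R) {J : ℕ} {θ M : ℝ} (hθ : 0 < θ) (hθ1 : θ ≤ 1 / 100)
    (hg0 : 1 ≤ mm A R 3 g.F) {T : Finset ℤ}
    (hTg : T ⊆ Dm S b g.ph J) (hc : (1 - θ / 16) * S.card ≤ T.card) (hL : Lg J θ S.card)
    (hEf : En A R T ≤ (1 + θ / 16) * (T.card : ℝ) ^ 2 * (M / 2)) :
    (1 - 5 * θ / 64) * mm A R 3 g.F ≤ (1 + θ / 16) * M := by
  obtain ⟨hL1, hL2⟩ := hL
  have key := En_ge g (by norm_num) A hR hS J hTg (by linarith)
  set M' := mm A R 3 g.F with hM'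
  have hNt : T.card ≤ S.card := Finset.card_le_card (hTg.trans (Ba_3_Dm_sub S b g.ph J))
  have hlogN : 0 ≤ Real.log (S.card : ℝ) := Real.log_natCast_nonneg _
  have hN : 0 < (S.card : ℝ) := by
    by_contra hcon
    have h0 : (S.card : ℝ) ≤ 0 := not_lt.mp hcon
    have hJ : (0 : ℝ) ≤ (J : ℝ) := Nat.cast_nonneg J
    have : θ / 64 * (S.card : ℝ) ≤ 0 := mul_nonpos_of_nonneg_of_nonpos (by positivity) h0
    linarith
  have ht : 0 < (T.card : ℝ) := by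
    have : 0 < (1 - θ / 16) * (S.card : ℝ) := mul_pos (by linarith) hN
    linarith
  have hNt' : (T.card : ℝ) ≤ (S.card : ℝ) := by exact_mod_cast hNt
  have hlogt : Real.log (T.card : ℝ) ≤ Real.log (S.card : ℝ) := Real.log_le_log ht hNt'
  generalize (T.card : ℝ) = t at *
  generalize (S.card : ℝ) = N at *
  generalize Real.log t = lt at *
  generalize Real.log N = lN at *
  have hJ : (0 : ℝ) ≤ (J : ℝ) := Nat.cast_nonneg J
  generalize hJJ : (J : ℝ) = j at *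
  push_cast at key
  generalize hz : 1 / (3 : ℝ) ^ J = z at *
  have e2 : ((3 : ℝ) - 1) = 2 := by norm_num
  rw [e2] at key
  have hM'1 : 1 ≤ M' := hg0
  -- (4j+1) + 2 lt ≤ θ/64 N ≤ θ/32 t
  have h1 : (4 * j + 1) + 2 * lt ≤ θ / 64 * N := by linarith
  have h2 : θ / 64 * N ≤ θ / 32 * t := by
    have : N ≤ 2 * t := by nlinarith
    nlinarith
  have h3 : (4 * j + 1) * M' + 2 * lt ≤ M' * (θ / 32 * t) := by
    have hlt' : 2 * lt ≤ M' * (2 * lt) ∨ lt < 0 := by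
      by_cases h : 0 ≤ lt
      · left; nlinarith
      · right; exact not_le.mp h
    rcases hlt' with h | h
    · nlinarith
    · have : (4 * j + 1) * M' ≤ M' * (θ / 32 * t) := by
        have h5 : 4 * j + 1 ≤ θ / 32 * t := by linarith
        nlinarith
      linarith
  have h4 : M' * ((1 - z) / 2 * t ^ 2) - t * (M' * (θ / 32 * t)) ≤
      (1 + θ / 16) * t ^ 2 * (M / 2) := by
    have h6 := mul_le_mul_of_nonneg_left h3 ht.le
    nlinarith
  have h5 : M' * ((1 - θ / 64) / 2 * t ^ 2) ≤ M' * ((1 - z) / 2 * t ^ 2) := by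
    apply mul_le_mul_of_nonneg_left _ (by linarith)
    apply mul_le_mul_of_nonneg_right _ (by positivity)
    linarith
  have h6 : t ^ 2 * ((1 - 5 * θ / 64) * M') ≤ t ^ 2 * ((1 + θ / 16) * M) := by
    nlinarith
  exact le_of_mul_le_mul_left h6 (by positivity)

/-- `low_gen`-like bounds for `g` with `M' = mm A R 3 g.F` and `U = T`: `(1 / 2) (1 - θ / 64) t ^ 2 M' - (θ / 64) N ^ 2 M' … ≤ En T ≤ (1 + θ / 16) t ^ 2 M / 2`
(use `En_ge` directly; `t ≥ (1 - θ / 16) N`), so `M' ≤ (1 + θ / 4) M`; the same with `f, g` exchanged. -/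
theorem msize (f : PM S a 3) (g : PM S b 3) {A : AbsoluteValue ℚ ℝ} {R : ℝ} (hR : 1 ≤ R)
    (hS : ∀ y ∈ S, A ((y : ℤ) : ℚ) ≤ R) {J : ℕ} {θ : ℝ} (hθ : 0 < θ) (hθ1 : θ ≤ 1 / 100)
    (hf0 : 1 ≤ mm A R 3 f.F) (hg0 : 1 ≤ mm A R 3 g.F) {T : Finset ℤ} (hTf : T ⊆ Dm S a f.ph J)
    (hTg : T ⊆ Dm S b g.ph J) (hc : (1 - θ / 16) * S.card ≤ T.card) (hL : Lg J θ S.card)
    (hEf : En A R T ≤ (1 + θ / 16) * (T.card : ℝ) ^ 2 * (mm A R 3 f.F / 2))
    (hEg : En A R T ≤ (1 + θ / 16) * (T.card : ℝ) ^ 2 * (mm A R 3 g.F / 2)) :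
    (1 - θ / 4) * mm A R 3 f.F ≤ mm A R 3 g.F ∧ mm A R 3 g.F ≤ (1 + θ / 4) * mm A R 3 f.F := by
  have h1 := Ba_3_one g hR hS hθ hθ1 hg0 hTg hc hL hEf
  have h2 := Ba_3_one f hR hS hθ hθ1 hf0 hTf hc hL hEg
  generalize mm A R 3 g.F = M' at *
  generalize mm A R 3 f.F = M at *
  constructor
  · have h4 : (1 + θ / 16) * (1 - θ / 4) ≤ 1 - 5 * θ / 64 := by nlinarith
    have h5 := mul_le_mul_of_nonneg_right h4 (show 0 ≤ M by linarith)
    have h3 : (1 + θ / 16) * ((1 - θ / 4) * M) ≤ (1 + θ / 16) * M' := by linarith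
    exact le_of_mul_le_mul_left h3 (by positivity)
  · have h4 : 1 + θ / 16 ≤ (1 - 5 * θ / 64) * (1 + θ / 4) := by nlinarith
    have h5 := mul_le_mul_of_nonneg_right h4 (show 0 ≤ M by linarith)
    have h3 : (1 - 5 * θ / 64) * M' ≤ (1 - 5 * θ / 64) * ((1 + θ / 4) * M) := by linarith
    exact le_of_mul_le_mul_left h3 (by nlinarith)

end F0744E
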