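import Pool.Agent.Lib.MP_f0744f_nt.E.B0
import Pool.Agent.Lib.MP_f0744f_nt.C.A8

/-! # Row Ba_1: low energies -/

set_option autoImplicit false

open Polynomial

namespace F0744E

open F0744C F0744D

variable {S : Finset ℤ} {a b : ℤ}

/-- `N` points are many compared with `J` and `1 / θ` -/
def Lg (J : ℕ) (θ : ℝ) (N : ℕ) : Prop :=
  1 / (3 : ℝ) ^ J ≤ θ / 64 ∧ (4 * (J : ℝ) + 10) + 4 * Real.log N ≤ θ / 64 * N

/-- `C / N → 0`, `log N / N → 0`. Model: `exists_big` in `C/G5.lean`, `C1_t0` in `D/C1.lean`. -/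
theorem exists_Lg {θ : ℝ} (h : 0 < θ) : ∃ J0 : ℕ, ∀ J : ℕ, J0 ≤ J → ∃ N0 : ℕ, ∀ N : ℕ, N0 ≤ N →
    Lg J θ N := by
  have hx : 0 < θ / 64 := by positivity
  obtain ⟨J0, hJ0⟩ := exists_pow_lt_of_lt_one hx (by norm_num : (1 / 3 : ℝ) < 1)
  refine ⟨J0, fun J hJ => ?_⟩
  have hJ' : 1 / (3 : ℝ) ^ J ≤ θ / 64 := by
    have h1 : (1 / 3 : ℝ) ^ J ≤ (1 / 3 : ℝ) ^ J0 :=
      pow_le_pow_of_le_one (by norm_num) (by norm_num) hJ
    rw [one_div_pow] at h1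
    linarith
  have h1 : ∀ᶠ x : ℝ in Filter.atTop, ‖Real.log x‖ ≤ (θ / 512) * ‖(id x : ℝ)‖ :=
    Real.isLittleO_log_id_atTop.bound (by positivity)
  have h2 : ∀ᶠ x : ℝ in Filter.atTop, (4 * (J : ℝ) + 10) * (128 / θ) ≤ x :=
    Filter.eventually_ge_atTop _
  have h3 : ∀ᶠ x : ℝ in Filter.atTop, (1 : ℝ) ≤ x := Filter.eventually_ge_atTop _
  have h6 := (tendsto_natCast_atTop_atTop (R := ℝ)).eventually (h1.and (h2.and h3))
  obtain ⟨N0, hN0⟩ := Filter.eventually_atTop.mp h6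
  refine ⟨N0, fun N hN => ⟨hJ', ?_⟩⟩
  obtain ⟨ha, hb, hc⟩ := hN0 N hN
  rw [Real.norm_eq_abs, Real.norm_eq_abs, id, abs_of_nonneg (Real.log_nonneg hc),
    abs_of_nonneg (by linarith)] at ha
  have h7 := mul_le_mul_of_nonneg_left hb (by positivity : (0 : ℝ) ≤ θ / 128)
  have h8 : θ / 128 * ((4 * (J : ℝ) + 10) * (128 / θ)) = 4 * (J : ℝ) + 10 := by
    field_simp
  rw [h8] at h7
  linarith

end F0744E
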