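import Pool.Agent.Lib.MP_f0744f_nt.E.Ba
import Pool.Agent.Lib.MP_f0744f_nt.E.B1a

/-! # Row Bc: the common data -/

set_option autoImplicit false

open Polynomial

namespace F0744E

open F0744C F0744D

variable {S : Finset ℤ} {a b : ℤ}

/-- `m = mm A R 3 f.F ≥ log 8 / θ ≥ 1`. `msize` (for `T ⊆ Dm S a f.ph J`: `Dm_mono` in `D/X1.lean`), `low_gen` for `f` and `g`. -/
theorem mkPB (f : PM S a 3) (g : PM S b 3) {A : AbsoluteValue ℚ ℝ} {R θ : ℝ} {J : ℕ}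
    {T : Finset ℤ} (hθ : 0 < θ) (hθ1 : θ ≤ 1 / 100) (hR : 1 ≤ R)
    (h8 : Real.log 8 ≤ θ * mm A R 3 f.F) (hg0 : 1 ≤ mm A R 3 g.F)
    (h2 : Real.exp (-(θ * mm A R 3 f.F)) ≤ A 2) (h3 : Real.exp (-(θ * mm A R 3 f.F)) ≤ A 3)
    (bd : ∀ x ∈ S, A ((x : ℤ) : ℚ) ≤ R) (sf : A (s3 f.F) ≤ R * Real.exp (θ * mm A R 3 f.F))
    (sg : A (s3 g.F) ≤ R * Real.exp (θ * mm A R 3 f.F)) (hN : 1 ≤ θ * S.card)
    (Tf : T ⊆ Dm S a f.ph (J + 3)) (Tg : T ⊆ Dm S b g.ph (J + 3))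
    (Tm : ∀ x ∈ T, x ∈ S0 S a b ∧ f.ph x ∈ S0 S a b ∧ g.ph x ∈ S0 S a b)
    (hc : (1 - θ / 16) * S.card ≤ T.card) (hL : Lg J θ S.card)
    (hEf : En A R T ≤ (1 + θ / 16) * (T.card : ℝ) ^ 2 * (mm A R 3 f.F / 2))
    (hEg : En A R T ≤ (1 + θ / 16) * (T.card : ℝ) ^ 2 * (mm A R 3 g.F / 2)) :
    PB f g A R (mm A R 3 f.F) θ J T := by
  classical
  have hlog : 1 ≤ Real.log 8 := by
    rw [Real.le_log_iff_exp_le (by norm_num)]
    have := Real.exp_one_lt_d9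
    linarith
  have hM0 : 0 < mm A R 3 f.F := by
    by_contra hcon
    have h1 : θ * mm A R 3 f.F ≤ 0 := mul_nonpos_of_nonneg_of_nonpos hθ.le (not_lt.mp hcon)
    linarith
  have hM1 : 1 ≤ mm A R 3 f.F := by
    have h1 : θ * mm A R 3 f.F ≤ 1 / 100 * mm A R 3 f.F :=
      mul_le_mul_of_nonneg_right hθ1 hM0.le
    linarith
  have hθM : 0 ≤ θ * mm A R 3 f.F := mul_nonneg hθ.le hM0.le
  have hTf : T ⊆ Dm S a f.ph J := Tf.trans (Dm_mono S a f.ph (Nat.le_add_right J 3))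
  have hTg : T ⊆ Dm S b g.ph J := Tg.trans (Dm_mono S b g.ph (Nat.le_add_right J 3))
  obtain ⟨hs1, hs2⟩ := msize f g hR bd hθ hθ1 hM1 hg0 hTf hTg hc hL hEf hEg
  have hN0 : (0 : ℝ) ≤ S.card := Nat.cast_nonneg _
  have hθN : 0 ≤ θ * (S.card : ℝ) := mul_nonneg hθ.le hN0
  have hTS : (T.card : ℝ) ≤ S.card := by
    exact_mod_cast Finset.card_le_card (hTf.trans (Dm_sub S a f.ph J))
  have hT0 : (0 : ℝ) ≤ T.card := Nat.cast_nonneg _
  have hT2 : (T.card : ℝ) ^ 2 ≤ (S.card : ℝ) ^ 2 := pow_le_pow_left₀ hT0 hTS 2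
  have hT2M : (T.card : ℝ) ^ 2 * mm A R 3 f.F ≤ (S.card : ℝ) ^ 2 * mm A R 3 f.F :=
    mul_le_mul_of_nonneg_right hT2 hM0.le
  have hN2M : 0 ≤ (S.card : ℝ) ^ 2 * mm A R 3 f.F := mul_nonneg (sq_nonneg _) hM0.le
  exact {
    R1 := hR
    m0 := hM0
    eight := h8
    atwo := h2
    athree := h3
    mf1 := by nlinarith
    mf2 := by nlinarith
    mg1 := by nlinarith
    mg2 := by nlinarith
    bd := bd
    sf := sf
    sg := sg
    big := hN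
    Tf := Tf
    Tg := Tg
    Tm := Tm
    card := by nlinarith
    lowf := low_gen f hR bd hM1 hθ (by linarith) (by nlinarith) (by linarith) hL
    lowg := low_gen g hR bd hM1 hθ (by linarith) hs1 (by nlinarith) hL
    up := by
      refine hEf.trans ?_
      have e1 : (1 + θ / 16) * (T.card : ℝ) ^ 2 * (mm A R 3 f.F / 2)
          = (1 / 2 + θ / 32) * ((T.card : ℝ) ^ 2 * mm A R 3 f.F) := by ring
      have e2 : (1 / 2 + θ / 32) * ((T.card : ℝ) ^ 2 * mm A R 3 f.F)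
          ≤ (1 / 2 + θ / 32) * ((S.card : ℝ) ^ 2 * mm A R 3 f.F) :=
        mul_le_mul_of_nonneg_left hT2M (by positivity)
      have e3 : (1 / 2 + θ / 32) * ((S.card : ℝ) ^ 2 * mm A R 3 f.F)
          ≤ (1 / 2 + θ) * ((S.card : ℝ) ^ 2 * mm A R 3 f.F) :=
        mul_le_mul_of_nonneg_right (by linarith) hN2M
      rw [e1]
      refine e2.trans (e3.trans (le_of_eq ?_))
      ring }

end F0744E
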