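import Pool.Agent.Lib.MP_f0744f_nt.E.C1a_1

/-! # Row C1a_2: two clusters in the double class -/

set_option autoImplicit false

open Polynomial

namespace F0744E

open F0744C F0744D

variable {S : Finset ℤ} {a b : ℤ}

variable {f : PM S a 3} {g : PM S b 3} {A : AbsoluteValue ℚ ℝ} {R m θ : ℝ} {J : ℕ} {T : Finset ℤ} {cl : ℤ → Bool}

/-- `qq x y = qq x0 y0 + (y - y0) (x + y + y0 - s3) + (x - x0) (x + x0 + y0 - s3)`; `A (y - y0) ≥ A (x0 - y0) - A (y - x0)`, `dblf`, `sum3`,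
`A (qq x0 y0) ≤ R ^ 2 exp (- 9 / 10 m)` (`PB.step`); `m ≥ log 8 / θ` is large (`eight`). -/
theorem TB.qclus (h : TB f g A R m θ J T cl) (hθ : θ ≤ 1 / 100000000) {x0 y0 x y : ℤ}
    (hx0 : x0 ∈ S0 S a b) (hy0 : y0 ∈ S0 S a b) (hx : x ∈ S0 S a b) (hy : y ∈ S0 S a b)
    (hx0c : cl x0 = true) (hy0c : cl y0 = true) (hxc : cl x = true) (hyc : cl y = true)
    (hd : R * Real.exp (-(1 / 20000 * m)) ≤ A ((x0 : ℚ) - y0))
    (h1 : A ((x : ℚ) - x0) ≤ R * Real.exp (-(1 / 2 * m)))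
    (h2 : A ((y : ℚ) - x0) ≤ R * Real.exp (-(1 / 2 * m))) :
    R ^ 2 * Real.exp (-(1 / 10000 * m)) ≤ A (qq f.F x y) := by
  have hS : ∀ {t : ℤ}, t ∈ S0 S a b → t ∈ S := fun ht => (Finset.mem_filter.1 ht).1
  have hR : 0 < R := lt_of_lt_of_le one_pos h.base.R1
  have hm := h.base.m0
  have h8 : (8 : ℝ) ≤ Real.exp (θ * m) := by
    have := Real.exp_le_exp.2 h.base.eight
    rwa [Real.exp_log (by norm_num)] at this
  have hθ0 : 0 < θ := by
    have h1 : 0 < θ * m := lt_of_lt_of_le (Real.log_pos (by norm_num)) h.base.eight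
    exact pos_of_mul_pos_left h1 hm.le
  have hθm : θ * m ≤ 1 / 100000000 * m := mul_le_mul_of_nonneg_right hθ hm.le
  set X : ℝ := Real.exp (-(1 / 10000 * m)) with hX
  have hX0 : 0 < X := Real.exp_pos _
  -- the four exponential estimates
  have e1 : 8 * X ≤ Real.exp (-(1 / 20000 * m)) * Real.exp (-(θ * m)) := by
    have h1 : X * Real.exp (θ * m) ≤ Real.exp (-(1 / 20000 * m)) * Real.exp (-(θ * m)) := by
      rw [hX, ← Real.exp_add, ← Real.exp_add]
      apply Real.exp_le_exp.2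
      nlinarith
    nlinarith
  have e2 : Real.exp (-(1 / 2 * m)) * Real.exp (-(θ * m)) ≤ X := by
    rw [hX, ← Real.exp_add]
    apply Real.exp_le_exp.2
    nlinarith [mul_pos hθ0 hm]
  have e3 : Real.exp (-(1 / 2 * m)) * Real.exp (2 * θ * m) ≤ X := by
    rw [hX, ← Real.exp_add]
    apply Real.exp_le_exp.2
    nlinarith [mul_pos hθ0 hm]
  have e4 : Real.exp (-((1 - θ) * m)) * Real.exp (1 / 20000 * m) ≤ X := by
    rw [hX, ← Real.exp_add]
    apply Real.exp_le_exp.2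
    nlinarith [mul_pos hθ0 hm]
  -- the value at the two centres
  have hs := h.base.step hx0 hy0
  have q0 : A (qq f.F x0 y0) ≤ 2 * R ^ 2 * X := by
    have hq : 0 ≤ A (qq f.F x0 y0) := A.nonneg _
    have h3 : R * Real.exp (-(1 / 20000 * m)) * A (qq f.F x0 y0) ≤
        2 * R ^ 3 * Real.exp (-((1 - θ) * m)) :=
      le_trans (mul_le_mul_of_nonneg_right hd hq) hs
    have h4 : R * Real.exp (-(1 / 20000 * m)) * A (qq f.F x0 y0) * Real.exp (1 / 20000 * m) ≤
        2 * R ^ 3 * Real.exp (-((1 - θ) * m)) * Real.exp (1 / 20000 * m) :=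
      mul_le_mul_of_nonneg_right h3 (Real.exp_pos _).le
    have h5 : Real.exp (-(1 / 20000 * m)) * Real.exp (1 / 20000 * m) = 1 := by
      rw [← Real.exp_add]
      simp
    have h6 : R * Real.exp (-(1 / 20000 * m)) * A (qq f.F x0 y0) * Real.exp (1 / 20000 * m) =
        R * A (qq f.F x0 y0) := by
      calc _ = R * A (qq f.F x0 y0) *
            (Real.exp (-(1 / 20000 * m)) * Real.exp (1 / 20000 * m)) := by ring
        _ = _ := by rw [h5, mul_one]
    have h7 : 2 * R ^ 3 * Real.exp (-((1 - θ) * m)) * Real.exp (1 / 20000 * m) ≤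
        2 * R ^ 3 * X := by
      calc _ = 2 * R ^ 3 * (Real.exp (-((1 - θ) * m)) * Real.exp (1 / 20000 * m)) := by ring
        _ ≤ _ := mul_le_mul_of_nonneg_left e4 (by positivity)
    have h8 : R * A (qq f.F x0 y0) ≤ R * (2 * R ^ 2 * X) := by
      rw [← h6]
      refine le_trans h4 (le_trans h7 (le_of_eq ?_))
      ring
    exact le_of_mul_le_mul_left h8 hR
  -- the two differences
  have d1 : R * Real.exp (-(1 / 20000 * m)) - R * Real.exp (-(1 / 2 * m)) ≤
      A ((y : ℚ) - y0) := by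
    have h3 : A ((x0 : ℚ) - y0) ≤ A ((y : ℚ) - y0) + A ((y : ℚ) - x0) := by
      have h4 : ((x0 : ℚ) - y0) = ((y : ℚ) - y0) - ((y : ℚ) - x0) := by ring
      rw [h4]
      exact AbsoluteValue.sub_le_add A _ _
    linarith
  have d2 := h.dblf x hx y hy y0 hy0 hxc hyc hy0c
  have d3 := h.base.sum3 (hS hx) (hS hx0) (hS hy0)
  have key : qq f.F x y = qq f.F x0 y0 + ((y : ℚ) - y0) * ((x : ℚ) + y + y0 - s3 f.F) +
      ((x : ℚ) - x0) * ((x : ℚ) + x0 + y0 - s3 f.F) := by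
    unfold qq
    ring
  have m1 : R ^ 2 * (7 * X) ≤ A (((y : ℚ) - y0) * ((x : ℚ) + y + y0 - s3 f.F)) := by
    rw [A.map_mul]
    have h9 : 0 ≤ R * Real.exp (-(θ * m)) := by positivity
    calc R ^ 2 * (7 * X) ≤ R ^ 2 * (Real.exp (-(1 / 20000 * m)) * Real.exp (-(θ * m)) -
            Real.exp (-(1 / 2 * m)) * Real.exp (-(θ * m))) :=
          mul_le_mul_of_nonneg_left (by linarith) (by positivity)
      _ = (R * Real.exp (-(1 / 20000 * m)) - R * Real.exp (-(1 / 2 * m))) *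
            (R * Real.exp (-(θ * m))) := by ring
      _ ≤ A ((y : ℚ) - y0) * (R * Real.exp (-(θ * m))) := mul_le_mul_of_nonneg_right d1 h9
      _ ≤ _ := mul_le_mul_of_nonneg_left d2 (A.nonneg _)
  have m2 : A (((x : ℚ) - x0) * ((x : ℚ) + x0 + y0 - s3 f.F)) ≤ R ^ 2 * X := by
    rw [A.map_mul]
    calc A ((x : ℚ) - x0) * A ((x : ℚ) + x0 + y0 - s3 f.F) ≤
          (R * Real.exp (-(1 / 2 * m))) * (R * Real.exp (2 * θ * m)) :=
          mul_le_mul h1 d3 (A.nonneg _) (by positivity)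
      _ = R ^ 2 * (Real.exp (-(1 / 2 * m)) * Real.exp (2 * θ * m)) := by ring
      _ ≤ _ := mul_le_mul_of_nonneg_left e3 (by positivity)
  have fin : A (((y : ℚ) - y0) * ((x : ℚ) + y + y0 - s3 f.F)) ≤
      A (qq f.F x y) + A (qq f.F x0 y0) +
        A (((x : ℚ) - x0) * ((x : ℚ) + x0 + y0 - s3 f.F)) := by
    have h10 : ((y : ℚ) - y0) * ((x : ℚ) + y + y0 - s3 f.F) =
        (qq f.F x y - qq f.F x0 y0) - ((x : ℚ) - x0) * ((x : ℚ) + x0 + y0 - s3 f.F) := by
      rw [key]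
      ring
    rw [h10]
    refine le_trans (AbsoluteValue.sub_le_add A _ _) ?_
    have h11 := AbsoluteValue.sub_le_add A (qq f.F x y) (qq f.F x0 y0)
    linarith
  have hRX : 0 < R ^ 2 * X := by positivity
  nlinarith

end F0744E
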