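import Pool.Agent.Lib.MP_f0744f_nt.E.B1b

/-! # Row C1a_1: two clusters in the double class -/

set_option autoImplicit false

open Polynomial

namespace F0744E

open F0744C F0744D

variable {S : Finset ℤ} {a b : ℤ}

variable {f : PM S a 3} {g : PM S b 3} {A : AbsoluteValue ℚ ℝ} {R m θ : ℝ} {J : ℕ} {T : Finset ℤ} {cl : ℤ → Bool}

theorem C1a_1_core (h : TB f g A R m θ J T cl) (hθ : θ ≤ 1 / 100000000) {x y z : ℤ}
    (hx : x ∈ S0 S a b) (hy : y ∈ S0 S a b) (hz : z ∈ S0 S a b) (hxc : cl x = true)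
    (hyc : cl y = true) (hzc : cl z = true)
    (hd : R * Real.exp (-(1 / 20000 * m)) ≤ A ((x : ℚ) - y))
    (hb : A ((x : ℚ) - y) / 2 ≤ A ((x : ℚ) - z)) :
    A ((z : ℚ) - y) ≤ R * Real.exp (-(1 / 2 * m)) := by
  have hR : 0 < R := lt_of_lt_of_le one_pos h.base.R1
  have hm := h.base.m0
  have h1 := h.base.step hx hy
  have h2 := h.base.step hx hz
  have h3 := h.dblf x hx z hz y hy hxc hzc hyc
  have h8 := h.base.e8
  have h4 : A ((z : ℚ) - y) * A ((x : ℚ) + z + y - s3 f.F) ≤ A (qq f.F x z) + A (qq f.F x y) := by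
    rw [← map_mul, ← qdiff]
    exact A.sub_le_add _ _
  have hW : 0 ≤ A ((z : ℚ) - y) := A.nonneg _
  have hQ1 : 0 ≤ A (qq f.F x y) := A.nonneg _
  have hQ2 : 0 ≤ A (qq f.F x z) := A.nonneg _
  have e0 : 0 < R * Real.exp (-(1 / 20000 * m)) := mul_pos hR (Real.exp_pos _)
  have e1 : 0 < R * Real.exp (-(θ * m)) := mul_pos hR (Real.exp_pos _)
  have hD : 0 ≤ A ((x : ℚ) - y) := A.nonneg _
  have h5 : A ((x : ℚ) - y) * (A ((z : ℚ) - y) * A ((x : ℚ) + z + y - s3 f.F)) ≤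
      6 * R ^ 3 * Real.exp (-((1 - θ) * m)) := by
    have i1 := mul_le_mul_of_nonneg_left h4 hD
    have i2 : A ((x : ℚ) - y) * A (qq f.F x z) ≤ 2 * (A ((x : ℚ) - z) * A (qq f.F x z)) := by
      have := mul_le_mul_of_nonneg_right hb hQ2
      linarith
    linarith [i1, i2, h1, h2, mul_add (A ((x : ℚ) - y)) (A (qq f.F x z)) (A (qq f.F x y))]
  have h6 : A ((z : ℚ) - y) * ((R * Real.exp (-(1 / 20000 * m))) * (R * Real.exp (-(θ * m)))) ≤
      6 * R ^ 3 * Real.exp (-((1 - θ) * m)) := by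
    refine le_trans ?_ h5
    have i1 : (R * Real.exp (-(1 / 20000 * m))) * (R * Real.exp (-(θ * m))) ≤
        A ((x : ℚ) - y) * A ((x : ℚ) + z + y - s3 f.F) := mul_le_mul hd h3 e1.le hD
    calc A ((z : ℚ) - y) * ((R * Real.exp (-(1 / 20000 * m))) * (R * Real.exp (-(θ * m))))
        ≤ A ((z : ℚ) - y) * (A ((x : ℚ) - y) * A ((x : ℚ) + z + y - s3 f.F)) :=
          mul_le_mul_of_nonneg_left i1 hW
      _ = A ((x : ℚ) - y) * (A ((z : ℚ) - y) * A ((x : ℚ) + z + y - s3 f.F)) := by ring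
  have h7 : 6 * R ^ 3 * Real.exp (-((1 - θ) * m)) ≤
      (R * Real.exp (-(1 / 2 * m))) *
        ((R * Real.exp (-(1 / 20000 * m))) * (R * Real.exp (-(θ * m)))) := by
    have i1 : (R * Real.exp (-(1 / 2 * m))) *
        ((R * Real.exp (-(1 / 20000 * m))) * (R * Real.exp (-(θ * m)))) =
        R ^ 3 * Real.exp (-(1 / 2 * m) + (-(1 / 20000 * m) + -(θ * m))) := by
      rw [Real.exp_add, Real.exp_add]
      ring
    rw [i1]
    have i2 : 6 * Real.exp (-((1 - θ) * m)) ≤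
        Real.exp (-(1 / 2 * m) + (-(1 / 20000 * m) + -(θ * m))) := by
      calc 6 * Real.exp (-((1 - θ) * m)) ≤ Real.exp (θ * m) * Real.exp (-((1 - θ) * m)) :=
            mul_le_mul_of_nonneg_right (by linarith) (Real.exp_pos _).le
        _ = Real.exp (θ * m + -((1 - θ) * m)) := (Real.exp_add _ _).symm
        _ ≤ Real.exp (-(1 / 2 * m) + (-(1 / 20000 * m) + -(θ * m))) := by
            apply Real.exp_le_exp.2
            nlinarith
    have i3 : (0 : ℝ) ≤ R ^ 3 := by positivity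
    calc 6 * R ^ 3 * Real.exp (-((1 - θ) * m)) = R ^ 3 * (6 * Real.exp (-((1 - θ) * m))) := by ring
      _ ≤ _ := mul_le_mul_of_nonneg_left i2 i3
  exact le_of_mul_le_mul_right (h6.trans h7) (mul_pos e0 e1)

/-- `d = A (x0 - y0)`. `PB.step`: `A (qq x0 y0) ≤ 2 R ^ 3 exp (- (1 - θ) m) / d`. One of `A (z - x0)`, `A (z - y0)` is at least `d / 2`; suppose
`A (z - x0) ≥ d / 2`. By `PB.step` `A (qq x0 z) ≤ 4 R ^ 3 exp (- (1 - θ) m) / d`, and `qq x0 z - qq x0 y0 = (z - y0) (x0 + z + y0 - s3)` (`qdiff`),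
`dblf`: `A (z - y0) ≤ 6 R ^ 2 exp (- (1 - θ) m) exp (θ m) / d ≤ R exp (- m / 2)`. The same with `x0, y0` exchanged. -/
theorem TB.near (h : TB f g A R m θ J T cl) (hθ : θ ≤ 1 / 100000000) {x0 y0 z : ℤ}
    (hx : x0 ∈ S0 S a b) (hy : y0 ∈ S0 S a b) (hz : z ∈ S0 S a b) (hxc : cl x0 = true)
    (hyc : cl y0 = true) (hzc : cl z = true)
    (hd : R * Real.exp (-(1 / 20000 * m)) ≤ A ((x0 : ℚ) - y0)) :
    A ((z : ℚ) - x0) ≤ R * Real.exp (-(1 / 2 * m)) ∨
      A ((z : ℚ) - y0) ≤ R * Real.exp (-(1 / 2 * m)) := by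
  have ht : A ((x0 : ℚ) - y0) ≤ A ((x0 : ℚ) - z) + A ((y0 : ℚ) - z) := by
    have e : (x0 : ℚ) - y0 = (x0 - z) - (y0 - z) := by ring
    rw [e]
    exact A.sub_le_add _ _
  rcases le_total (A ((x0 : ℚ) - y0) / 2) (A ((x0 : ℚ) - z)) with hc | hc
  · exact Or.inr (C1a_1_core h hθ hx hy hz hxc hyc hzc hd hc)
  · refine Or.inl (C1a_1_core h hθ hy hx hz hyc hxc hzc ?_ ?_)
    · rw [A.map_sub]
      exact hd
    · rw [A.map_sub (y0 : ℚ) x0]
      linarith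

end F0744E
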