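import Pool.Agent.Lib.MP_f0744f_nt.E.C1a

/-! # Row C1b: a double class is small or splits -/

set_option autoImplicit false

open Polynomial

namespace F0744E

open F0744C F0744D

variable {S : Finset ℤ} {a b : ℤ}

variable {f : PM S a 3} {g : PM S b 3} {A : AbsoluteValue ℚ ℝ} {R m θ : ℝ} {J : ℕ} {T : Finset ℤ} {cl : ℤ → Bool}

theorem C1b_exp {m θ : ℝ} (hm : 0 < m) (hθ : θ ≤ 1 / 10000) :
    Real.exp (-(1 / 10000 * m)) ≤ Real.exp (-(θ * m)) := by
  apply Real.exp_le_exp.2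
  nlinarith

theorem C1b_small (h : TB f g A R m θ J T cl) (hθ : θ ≤ 1 / 100000000) :
    Real.exp (-(1 / 20000 * m)) ≤ 1 / 8 := by
  have h8 := h.base.e8
  have hm := h.base.m0
  have h1 : Real.exp (-(1 / 20000 * m)) ≤ Real.exp (-(θ * m)) := by
    apply Real.exp_le_exp.2
    nlinarith
  have h2 : Real.exp (-(θ * m)) ≤ 1 / 8 := by
    rw [Real.exp_neg, ← one_div]
    exact one_div_le_one_div_of_le (by norm_num) h8
  exact h1.trans h2

theorem C1b_three (h : TB f g A R m θ J T cl) (hθ : θ ≤ 1 / 100000000) :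
    Real.exp (-(1 / 10000 * m)) + 2 * Real.exp (-(1 / 2 * m)) ≤ Real.exp (-(1 / 20000 * m)) := by
  have h1 := C1b_small h hθ
  have hm := h.base.m0
  have h2 : Real.exp (-(1 / 10000 * m)) = Real.exp (-(1 / 20000 * m)) ^ 2 := by
    rw [← Real.exp_nat_mul]
    congr 1
    push_cast
    ring
  have h3 : Real.exp (-(1 / 2 * m)) ≤ Real.exp (-(1 / 10000 * m)) := by
    apply Real.exp_le_exp.2
    nlinarith
  have h4 : 0 < Real.exp (-(1 / 20000 * m)) := Real.exp_pos _
  nlinarith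

theorem C1b_sim (h : TB f g A R m θ J T cl) (hθ : θ ≤ 1 / 100000000) {x0 y0 x y : ℤ}
    (hx0 : x0 ∈ S0 S a b) (hy0 : y0 ∈ S0 S a b) (hx : x ∈ S0 S a b) (hy : y ∈ S0 S a b)
    (hx0c : cl x0 = true) (hy0c : cl y0 = true)
    (hd : R * Real.exp (-(1 / 20000 * m)) ≤ A ((x0 : ℚ) - y0))
    (H : (cl x = false ∧ cl y = false) ∨
      (cl x = true ∧ cl y = true ∧ A ((x : ℚ) - x0) ≤ R * Real.exp (-(1 / 2 * m)) ∧
        A ((y : ℚ) - x0) ≤ R * Real.exp (-(1 / 2 * m))) ∨
      (cl x = true ∧ cl y = true ∧ A ((x : ℚ) - y0) ≤ R * Real.exp (-(1 / 2 * m)) ∧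
        A ((y : ℚ) - y0) ≤ R * Real.exp (-(1 / 2 * m)))) :
    R ^ 2 * Real.exp (-(1 / 10000 * m)) ≤ A (qq f.F x y) := by
  rcases H with ⟨h1, h2⟩ | ⟨h1, h2, h3, h4⟩ | ⟨h1, h2, h3, h4⟩
  · exact (mul_le_mul_of_nonneg_left (C1b_exp h.base.m0 (by linarith)) (sq_nonneg R)).trans
      (h.simf x hx y hy h1 h2)
  · exact h.qclus hθ hx0 hy0 hx hy hx0c hy0c h1 h2 hd h3 h4
  · refine h.qclus hθ hy0 hx0 hx hy hy0c hx0c h1 h2 ?_ h3 h4
    rw [A.map_sub]
    exact hd

/-- Suppose there are `x0, y0 ∈ S0` of the class `true` with `A (x0 - y0) > R exp (- m / 20000)`. `cl' z = 2` if `cl z = false`; otherwise `0` if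
`A (z - x0) ≤ R exp (- m / 2)` and `1` if not (then `A (z - y0) ≤ R exp (- m / 2)`, `TB.near`). `base`: `PB.mono`. `sep`: `h.sep`, and for the
classes `0, 1`: `A (x - y) ≥ A (x0 - y0) - 2 R exp (- m / 2)`. `simf`: class `2`: `h.simf`; class `0`: `TB.qclus`; class `1`: `TB.qclus` with `x0, y0`
exchanged. `simg`: the same for `h.symm` (`S0_comm`). -/
theorem TB.split (h : TB f g A R m θ J T cl) (hθ : θ ≤ 1 / 100000000) :
    (∀ x ∈ S0 S a b, ∀ y ∈ S0 S a b, cl x = true → cl y = true →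
      A ((x : ℚ) - y) ≤ R * Real.exp (-(1 / 20000 * m))) ∨
    ∃ cl' : ℤ → Fin 3, TA f g A R m (1 / 10000) J T cl' := by
  classical
  by_cases H : ∀ x ∈ S0 S a b, ∀ y ∈ S0 S a b, cl x = true → cl y = true →
      A ((x : ℚ) - y) ≤ R * Real.exp (-(1 / 20000 * m))
  · exact Or.inl H
  refine Or.inr ?_
  push Not at H
  obtain ⟨x0, hx0, y0, hy0, hx0c, hy0c, hd'⟩ := H
  have hd := hd'.le
  have hm := h.base.m0
  have hR : 0 ≤ R := le_trans zero_le_one h.base.R1
  let P : ℤ → Prop := fun z => A ((z : ℚ) - x0) ≤ R * Real.exp (-(1 / 2 * m))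
  let cl' : ℤ → Fin 3 := fun z => if cl z = false then 2 else if P z then 0 else 1
  have near : ∀ z ∈ S0 S a b, cl z = true → ¬ P z →
      A ((z : ℚ) - y0) ≤ R * Real.exp (-(1 / 2 * m)) := by
    intro z hz hzc hP
    exact (h.near hθ hx0 hy0 hz hx0c hy0c hzc hd).resolve_left hP
  have c2 : ∀ z, cl z = false → cl' z = 2 := fun z hz => if_pos hz
  have c0 : ∀ z, cl z = true → P z → cl' z = 0 := by
    intro z hz hP
    have : ¬ cl z = false := by rw [hz]; decide
    simp only [cl']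
    rw [if_neg this, if_pos hP]
  have c1 : ∀ z, cl z = true → ¬ P z → cl' z = 1 := by
    intro z hz hP
    have : ¬ cl z = false := by rw [hz]; decide
    simp only [cl']
    rw [if_neg this, if_neg hP]
  have key : ∀ x ∈ S0 S a b, ∀ y ∈ S0 S a b, cl' x = cl' y →
      (cl x = false ∧ cl y = false) ∨
      (cl x = true ∧ cl y = true ∧ A ((x : ℚ) - x0) ≤ R * Real.exp (-(1 / 2 * m)) ∧
        A ((y : ℚ) - x0) ≤ R * Real.exp (-(1 / 2 * m))) ∨
      (cl x = true ∧ cl y = true ∧ A ((x : ℚ) - y0) ≤ R * Real.exp (-(1 / 2 * m)) ∧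
        A ((y : ℚ) - y0) ≤ R * Real.exp (-(1 / 2 * m))) := by
    intro x hx y hy hxy
    rcases Bool.eq_false_or_eq_true (cl x) with hxc | hxc <;>
      rcases Bool.eq_false_or_eq_true (cl y) with hyc | hyc
    · by_cases hPx : P x <;> by_cases hPy : P y
      · exact Or.inr (Or.inl ⟨hxc, hyc, hPx, hPy⟩)
      · rw [c0 x hxc hPx, c1 y hyc hPy] at hxy
        exact absurd hxy (by decide)
      · rw [c1 x hxc hPx, c0 y hyc hPy] at hxy
        exact absurd hxy (by decide)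
      · exact Or.inr (Or.inr ⟨hxc, hyc, near x hx hxc hPx, near y hy hyc hPy⟩)
    · by_cases hPx : P x
      · rw [c0 x hxc hPx, c2 y hyc] at hxy
        exact absurd hxy (by decide)
      · rw [c1 x hxc hPx, c2 y hyc] at hxy
        exact absurd hxy (by decide)
    · by_cases hPy : P y
      · rw [c2 x hxc, c0 y hyc hPy] at hxy
        exact absurd hxy (by decide)
      · rw [c2 x hxc, c1 y hyc hPy] at hxy
        exact absurd hxy (by decide)
    · exact Or.inl ⟨hxc, hyc⟩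
  have far : ∀ x y : ℤ, A ((x : ℚ) - x0) ≤ R * Real.exp (-(1 / 2 * m)) →
      A ((y : ℚ) - y0) ≤ R * Real.exp (-(1 / 2 * m)) →
      R * Real.exp (-(1 / 10000 * m)) ≤ A ((x : ℚ) - y) := by
    intro x y h1 h2
    have h3 : A ((x0 : ℚ) - y0) ≤ A ((x : ℚ) - x0) + A ((x : ℚ) - y) + A ((y : ℚ) - y0) := by
      have e : ((x0 : ℚ) - y0) = (((x0 : ℚ) - x) + ((x : ℚ) - y)) + ((y : ℚ) - y0) := by ring
      have h4 := A.add_le (((x0 : ℚ) - x) + ((x : ℚ) - y)) ((y : ℚ) - y0)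
      have h5 := A.add_le ((x0 : ℚ) - x) ((x : ℚ) - y)
      rw [← e] at h4
      rw [A.map_sub (x0 : ℚ) x] at h5
      linarith
    have h6 := mul_le_mul_of_nonneg_left (C1b_three h hθ) hR
    nlinarith
  refine ⟨cl', h.base.mono (by linarith), ?_, ?_, ?_⟩
  · intro x hx y hy hxy
    by_cases hc : cl x = cl y
    · rcases Bool.eq_false_or_eq_true (cl x) with hxc | hxc
      · have hyc : cl y = true := by rw [← hc, hxc]
        by_cases hPx : P x <;> by_cases hPy : P y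
        · exact absurd ((c0 x hxc hPx).trans (c0 y hyc hPy).symm) hxy
        · exact far x y hPx (near y hy hyc hPy)
        · rw [A.map_sub]
          exact far y x hPy (near x hx hxc hPx)
        · exact absurd ((c1 x hxc hPx).trans (c1 y hyc hPy).symm) hxy
      · have hyc : cl y = false := by rw [← hc, hxc]
        exact absurd ((c2 x hxc).trans (c2 y hyc).symm) hxy
    · exact (mul_le_mul_of_nonneg_left (C1b_exp hm (by linarith)) hR).trans (h.sep x hx y hy hc)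
  · intro x hx y hy hxy
    exact C1b_sim h hθ hx0 hy0 hx hy hx0c hy0c hd (key x hx y hy hxy)
  · intro x hx y hy hxy
    have hs : S0 S a b = S0 S b a := S0_comm S a b
    exact C1b_sim h.symm hθ (hs ▸ hx0) (hs ▸ hy0) (hs ▸ hx) (hs ▸ hy) hx0c hy0c hd
      (key x hx y hy hxy)

end F0744E
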