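import Pool.Agent.Lib.MP_f0744f_nt.E.Loc

/-! # Row Cx: the data of all places -/

set_option autoImplicit false

open Polynomial

namespace F0744E

open F0744C F0744D

variable {S : Finset ℤ} {a b : ℤ}

/-- the sum of the `m` over the good places (`TT` a set of primes, `rt` = the real place is good) -/
noncomputable def mass3 (F : ℚ[X]) (L : ℝ) (TT : Finset ℕ) (rt : Bool) : ℝ :=
  ∑ p ∈ TT, mP p F + if rt = true then mm Rat.AbsoluteValue.real L 3 F else 0

/-- Almost all of the height is at the good places. `U` is a set of four points with small energy at the other places, disjoint from the given set `W`. -/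
structure Ctx3 (f : PM S a 3) (g : PM S b 3) (L κ θ C : ℝ) (J B : ℕ) (TT : Finset ℕ)
    (rt : Bool) (T U W : Finset ℤ) : Prop where
  L1 : 1 ≤ L
  hL : ∀ y ∈ S, |((y : ℤ) : ℝ)| ≤ L
  κ0 : 0 < κ
  big : C ≤ κ * Real.log L
  TTs : TT ⊆ Ps B
  tp : ∀ (p : ℕ) [Fact p.Prime], p ∈ TT →
    Loc f g (Rat.AbsoluteValue.padic p) 1 (mP p f.F) θ J T
  tr : rt = true →
    Loc f g Rat.AbsoluteValue.real L (mm Rat.AbsoluteValue.real L 3 f.F) θ J T
  lo : (1 - κ) * (2 * Real.log L) ≤ mass3 f.F L TT rt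
  up : mass3 f.F L TT rt ≤ (1 + κ) * (2 * Real.log L)
  US : U ⊆ S0 S a b
  Uc : U.card = 4
  UW : Disjoint U W
  nt : ∑ p ∈ Ps B \ TT, (EnP p U + max 0 (-mP p f.F)) +
      (if rt = true then 0 else EnX Rat.AbsoluteValue.real L U +
        max 0 (-mm Rat.AbsoluteValue.real L 3 f.F)) ≤ κ * Real.log L

end F0744E
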