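import Pool.Agent.Lib.MP_f0744f_nt.D.X1
import Pool.Agent.Lib.MP_f0744f_nt.D.N1a

/-! # MP_f0744f_nt, two cubic polynomials: definitions -/

set_option autoImplicit false

open Polynomial

namespace F0744E

open F0744C F0744D

variable {S : Finset ℤ} {a b : ℤ}

/-- the sum of the roots of a cubic polynomial -/
noncomputable def s3 (F : ℚ[X]) : ℚ := - F.coeff 2 / F.leadingCoeff

/-- `F x - F y = α (x - y) qq F x y`, `α` the leading coefficient of the cubic polynomial `F` -/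
noncomputable def qq (F : ℚ[X]) (x y : ℚ) : ℚ :=
  x ^ 2 + x * y + y ^ 2 - s3 F * (x + y) + F.coeff 1 / F.leadingCoeff

/-- the points of `S` at which both maps are defined -/
def S0 (S : Finset ℤ) (a b : ℤ) : Finset ℤ := S.filter (fun x => x ≠ a ∧ x ≠ b)

/-- The common data at a good place for two cubic maps `f, g` and a large set `T` of points: `A` an absolute value, `R` a bound for
the size of the points, `m` the logarithmic size of both leading coefficients (at the scale `R`). All errors are `θ`. -/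
structure PB (f : PM S a 3) (g : PM S b 3) (A : AbsoluteValue ℚ ℝ) (R m θ : ℝ) (J : ℕ)
    (T : Finset ℤ) : Prop where
  R1 : 1 ≤ R
  m0 : 0 < m
  eight : Real.log 8 ≤ θ * m
  atwo : Real.exp (-(θ * m)) ≤ A 2
  athree : Real.exp (-(θ * m)) ≤ A 3
  mf1 : (1 - θ) * m ≤ mm A R 3 f.F
  mf2 : mm A R 3 f.F ≤ (1 + θ) * m
  mg1 : (1 - θ) * m ≤ mm A R 3 g.F
  mg2 : mm A R 3 g.F ≤ (1 + θ) * m
  bd : ∀ x ∈ S, A ((x : ℤ) : ℚ) ≤ R
  sf : A (s3 f.F) ≤ R * Real.exp (θ * m)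
  sg : A (s3 g.F) ≤ R * Real.exp (θ * m)
  big : 1 ≤ θ * S.card
  Tf : T ⊆ Dm S a f.ph (J + 3)
  Tg : T ⊆ Dm S b g.ph (J + 3)
  Tm : ∀ x ∈ T, x ∈ S0 S a b ∧ f.ph x ∈ S0 S a b ∧ g.ph x ∈ S0 S a b
  card : (1 - θ) * S.card ≤ T.card
  lowf : ∀ U ⊆ Dm S a f.ph J,
    1 / 2 * (U.card : ℝ) ^ 2 * m - θ * (S.card : ℝ) ^ 2 * m ≤ En A R U
  lowg : ∀ U ⊆ Dm S b g.ph J,
    1 / 2 * (U.card : ℝ) ^ 2 * m - θ * (S.card : ℝ) ^ 2 * m ≤ En A R U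
  up : En A R T ≤ (1 / 2 + θ) * (S.card : ℝ) ^ 2 * m

/-- A good place with three simple classes. -/
structure TA (f : PM S a 3) (g : PM S b 3) (A : AbsoluteValue ℚ ℝ) (R m θ : ℝ) (J : ℕ)
    (T : Finset ℤ) (cl : ℤ → Fin 3) : Prop where
  base : PB f g A R m θ J T
  sep : ∀ x ∈ S0 S a b, ∀ y ∈ S0 S a b, cl x ≠ cl y →
    R * Real.exp (-(θ * m)) ≤ A ((x : ℚ) - y)
  simf : ∀ x ∈ S0 S a b, ∀ y ∈ S0 S a b, cl x = cl y →
    R ^ 2 * Real.exp (-(θ * m)) ≤ A (qq f.F x y)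
  simg : ∀ x ∈ S0 S a b, ∀ y ∈ S0 S a b, cl x = cl y →
    R ^ 2 * Real.exp (-(θ * m)) ≤ A (qq g.F x y)

/-- A good place with a double class (`cl = true`) and a simple class (`cl = false`). -/
structure TB (f : PM S a 3) (g : PM S b 3) (A : AbsoluteValue ℚ ℝ) (R m θ : ℝ) (J : ℕ)
    (T : Finset ℤ) (cl : ℤ → Bool) : Prop where
  base : PB f g A R m θ J T
  sep : ∀ x ∈ S0 S a b, ∀ y ∈ S0 S a b, cl x ≠ cl y →
    R * Real.exp (-(θ * m)) ≤ A ((x : ℚ) - y)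
  simf : ∀ x ∈ S0 S a b, ∀ y ∈ S0 S a b, cl x = false → cl y = false →
    R ^ 2 * Real.exp (-(θ * m)) ≤ A (qq f.F x y)
  simg : ∀ x ∈ S0 S a b, ∀ y ∈ S0 S a b, cl x = false → cl y = false →
    R ^ 2 * Real.exp (-(θ * m)) ≤ A (qq g.F x y)
  dblf : ∀ x ∈ S0 S a b, ∀ y ∈ S0 S a b, ∀ z ∈ S0 S a b, cl x = true → cl y = true →
    cl z = true → R * Real.exp (-(θ * m)) ≤ A ((x : ℚ) + y + z - s3 f.F)
  dblg : ∀ x ∈ S0 S a b, ∀ y ∈ S0 S a b, ∀ z ∈ S0 S a b, cl x = true → cl y = true →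
    cl z = true → R * Real.exp (-(θ * m)) ≤ A ((x : ℚ) + y + z - s3 g.F)
  lowf1 : ∀ U ⊆ Dm S a f.ph (J + 1), (∀ x ∈ U, x ∈ S0 S a b ∧ cl x = true) →
    3 / 4 * (U.card : ℝ) ^ 2 * m - θ * (S.card : ℝ) ^ 2 * m ≤ En A R U
  lowg1 : ∀ U ⊆ Dm S b g.ph (J + 1), (∀ x ∈ U, x ∈ S0 S a b ∧ cl x = true) →
    3 / 4 * (U.card : ℝ) ^ 2 * m - θ * (S.card : ℝ) ^ 2 * m ≤ En A R U

/-- `G = c3 F + c2 X ^ 2 + c1 X + c0` on the points, `c3` of size about one -/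
structure Rel (f : PM S a 3) (g : PM S b 3) (A : AbsoluteValue ℚ ℝ) (m θ : ℝ)
    (c0 c1 c2 c3 : ℚ) : Prop where
  eq : ∀ x ∈ S0 S a b, ((g.ph x : ℤ) : ℚ) = c3 * (f.ph x : ℤ) + (c2 * x ^ 2 + c1 * x + c0)
  u3 : A c3 ≤ Real.exp (2 * θ * m)
  l3 : Real.exp (-(2 * θ * m)) ≤ A c3

end F0744E
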