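import Pool.Agent.Lib.MP_f0744f_nt.E.Loc

/-! # Row K0: the difference of the two maps -/

set_option autoImplicit false

open Polynomial

namespace F0744E

open F0744C F0744D

variable {S : Finset ℤ} {a b : ℤ}

theorem K0_lc {c : ℤ} (f : PM S c 3) : f.F.leadingCoeff ≠ 0 := by
  rw [Ne, leadingCoeff_eq_zero]
  intro h
  have := f.deg
  rw [h] at this
  simp at this

/-- `c2, c1, c0` the coefficients of `g.F - C (β / α) * f.F`, whose coefficient of `X ^ 3` is zero (`natDegree ≤ 2`). -/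
theorem decomp (f : PM S a 3) (g : PM S b 3) : ∃ c0 c1 c2 : ℚ,
    g.F = C (g.F.leadingCoeff / f.F.leadingCoeff) * f.F + C c2 * X ^ 2 + C c1 * X + C c0 := by
  obtain ⟨k, hk⟩ : ∃ k : ℚ, k = g.F.leadingCoeff / f.F.leadingCoeff := ⟨_, rfl⟩
  refine ⟨g.F.coeff 0 - k * f.F.coeff 0, g.F.coeff 1 - k * f.F.coeff 1,
    g.F.coeff 2 - k * f.F.coeff 2, ?_⟩
  rw [← hk]
  have hf0 := K0_lc f
  ext n
  rw [coeff_add, coeff_add, coeff_add, coeff_C_mul, coeff_C_mul, coeff_C_mul, coeff_X_pow, coeff_X,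
    coeff_C]
  match n with
  | 0 => simp
  | 1 => simp
  | 2 => simp
  | 3 =>
    have h1 : g.F.coeff 3 = g.F.leadingCoeff := by rw [leadingCoeff, g.deg]
    have h2 : f.F.coeff 3 = f.F.leadingCoeff := by rw [leadingCoeff, f.deg]
    rw [h1, h2, hk]
    norm_num
    field_simp
  | n + 4 =>
    have h1 : g.F.coeff (n + 4) = 0 := coeff_eq_zero_of_natDegree_lt (by rw [g.deg]; omega)
    have h2 : f.F.coeff (n + 4) = 0 := coeff_eq_zero_of_natDegree_lt (by rw [f.deg]; omega)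
    have h3 : ¬ (n + 4 = 2) := by omega
    have h4 : ¬ (1 = n + 4) := by omega
    have h5 : ¬ (n + 4 = 0) := by omega
    rw [h1, h2, if_neg h3, if_neg h4, if_neg h5]
    ring

/-- `f.val`, `g.val`. -/
theorem decomp_eval (f : PM S a 3) (g : PM S b 3) {c0 c1 c2 c3 : ℚ}
    (h : g.F = C c3 * f.F + C c2 * X ^ 2 + C c1 * X + C c0) :
    ∀ x ∈ S0 S a b, ((g.ph x : ℤ) : ℚ) = c3 * (f.ph x : ℤ) + (c2 * x ^ 2 + c1 * x + c0) := by
  intro x hx
  rw [mem_S0] at hx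
  rw [g.val x hx.1 hx.2.2, f.val x hx.1 hx.2.1, h]
  simp only [eval_add, eval_mul, eval_C, eval_pow, eval_X]
  ring

/-- `A (β / α) = exp (mm g - mm f)` (`lead3`), `mf1`, `mf2`, `mg1`, `mg2`. -/
theorem PB.rel {f : PM S a 3} {g : PM S b 3} {A : AbsoluteValue ℚ ℝ} {R m θ : ℝ} {J : ℕ}
    {T : Finset ℤ} (hb : PB f g A R m θ J T) {c0 c1 c2 : ℚ}
    (h : g.F = C (g.F.leadingCoeff / f.F.leadingCoeff) * f.F + C c2 * X ^ 2 + C c1 * X + C c0) :
    Rel f g A m θ c0 c1 c2 (g.F.leadingCoeff / f.F.leadingCoeff) := by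
  have hR : 0 < R := lt_of_lt_of_le one_pos hb.R1
  have h1 : A (g.F.leadingCoeff / f.F.leadingCoeff) = Real.exp (mm A R 3 g.F - mm A R 3 f.F) := by
    rw [map_div₀, lead3 A hR f.deg, lead3 A hR g.deg, Real.exp_sub]
    have h2 : R ^ 2 ≠ 0 := pow_ne_zero 2 hR.ne'
    have h3 := Real.exp_ne_zero (mm A R 3 f.F)
    field_simp
  have e1 := hb.mf1
  have e2 := hb.mf2
  have e3 := hb.mg1
  have e4 := hb.mg2
  refine ⟨decomp_eval f g h, ?_, ?_⟩
  · rw [h1, Real.exp_le_exp]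
    linarith only [e1, e4]
  · rw [h1, Real.exp_le_exp]
    linarith only [e2, e3]

end F0744E
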