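import Pool.Agent.Lib.MP_f0744f_nt.E.Nb_1

/-! # Row Nb_2: bounds of the coefficients at the other places -/

set_option autoImplicit false

open Polynomial

namespace F0744E

open F0744C F0744D

variable {S : Finset ℤ} {a b : ℤ}

/-- `nt3` with `κs = 4` (`sumLe_any`), `R = L`, `Ω = EnX real L U`, `μ = max 0 (- mm)`: `K = exp (Ω + μ + log 4)`. -/
theorem nt3_r (f : PM S a 3) (g : PM S b 3) {L : ℝ} (hL1 : 1 ≤ L)
    (hL : ∀ y ∈ S, |((y : ℤ) : ℝ)| ≤ L) {U : Finset ℤ}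
    (hU : U ⊆ S0 S a b) (hc : U.card = 4) {c0 c1 c2 : ℚ}
    (heq : ∀ x ∈ U, ((g.ph x : ℤ) : ℚ) = g.F.leadingCoeff / f.F.leadingCoeff * (f.ph x : ℤ) +
      (c2 * x ^ 2 + c1 * x + c0)) :
    |((g.F.leadingCoeff / f.F.leadingCoeff : ℚ) : ℝ)| ≤
        Real.exp (EnX Rat.AbsoluteValue.real L U +
          max 0 (-mm Rat.AbsoluteValue.real L 3 f.F) + Real.log 4) ∧
      |((c2 : ℚ) : ℝ)| * L ≤ Real.exp (6 * (EnX Rat.AbsoluteValue.real L U +
          max 0 (-mm Rat.AbsoluteValue.real L 3 f.F)) + 6 * Real.log 4) ∧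
      |((c1 : ℚ) : ℝ)| ≤ Real.exp (6 * (EnX Rat.AbsoluteValue.real L U +
          max 0 (-mm Rat.AbsoluteValue.real L 3 f.F)) + 6 * Real.log 4) := by
  have hA : ∀ q : ℚ, Rat.AbsoluteValue.real q = |(q : ℝ)| := by
    intro q
    rw [Rat.AbsoluteValue.real_eq_abs]
    push_cast
    rfl
  have hS : ∀ y ∈ S, Rat.AbsoluteValue.real ((y : ℤ) : ℚ) ≤ L := by
    intro y hy
    rw [hA]
    have := hL y hy
    push_cast
    exact this
  have hΩ0 : 0 ≤ EnX Rat.AbsoluteValue.real L U :=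
    Finset.sum_nonneg fun x _ => Finset.sum_nonneg fun y _ => le_max_left _ _
  have hμ0 : (0 : ℝ) ≤ max 0 (-mm Rat.AbsoluteValue.real L 3 f.F) := le_max_left _ _
  have h1 := nt3 f g (A := Rat.AbsoluteValue.real) hL1 hS (κs := ((4 : ℕ) : ℝ)) (by norm_num)
    (sumLe_any Rat.AbsoluteValue.real 4) hU hc hΩ0 (by
      intro x hx
      unfold EnX
      exact Finset.single_le_sum
        (f := fun x => ∑ y ∈ U.erase x, max 0 (uu Rat.AbsoluteValue.real L x y))
        (fun x _ => Finset.sum_nonneg fun y _ => le_max_left _ _) hx) hμ0 (by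
      have := le_max_right (0 : ℝ) (-mm Rat.AbsoluteValue.real L 3 f.F)
      linarith) heq
  have h4 : 0 < Real.log 4 := Real.log_pos (by norm_num)
  have hK : ((4 : ℕ) : ℝ) * Real.exp (EnX Rat.AbsoluteValue.real L U +
      max 0 (-mm Rat.AbsoluteValue.real L 3 f.F)) = Real.exp (EnX Rat.AbsoluteValue.real L U +
      max 0 (-mm Rat.AbsoluteValue.real L 3 f.F) + Real.log 4) := by
    rw [Real.exp_add (EnX Rat.AbsoluteValue.real L U + max 0 (-mm Rat.AbsoluteValue.real L 3 f.F)),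
      Real.exp_log (by norm_num), mul_comm]
    norm_num
  rw [hK, hA, hA, hA, ← Real.exp_nat_mul, ← Real.exp_nat_mul] at h1
  obtain ⟨a1, a2, a3⟩ := h1
  refine ⟨a1, a2.trans (Real.exp_le_exp.2 ?_), a3.trans (Real.exp_le_exp.2 ?_)⟩
  · push_cast
    nlinarith
  · push_cast
    linarith

end F0744E
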