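import Pool.Agent.Lib.MP_f0744f_nt.E.K0
import Pool.Agent.Lib.MP_f0744f_nt.E.Gb
import Pool.Agent.Lib.MP_f0744f_nt.E.Nb

/-! # Row K1: c2 = 0 -/

set_option autoImplicit false

open Polynomial

namespace F0744E

open F0744C F0744D

variable {S : Finset ℤ} {a b : ℤ}

/-- `κ0 = 1 / 1000`, `C1 = 6 log 4 + 1`. Suppose `c2 ≠ 0`. `sum_bound3` with `k = -1`, `v = 49 / 100`, `w = 6`, `D = 6 log 4`: `hT`, `hRT`: `Loc.c2` and `PB.rel` (`R = 1`; at the real place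
`|c2| L ≤ exp (49 / 100 m)`, `Rat.AbsoluteValue.real q = |q|`); `hN`: `nt3_p`, `hRN`: `nt3_r`. The result `0 ≤ - Λ + 49 / 100 (1 + κ) 2 Λ + 6 κ Λ + D`, `D ≤ κ Λ`, `Λ = log L > 0` (`big`), is false. -/
theorem c2_zero : ∃ κ0 C1 : ℝ, 0 < κ0 ∧
    ∀ (S : Finset ℤ) (a b : ℤ) (f : PM S a 3) (g : PM S b 3) (L κ θ C0 : ℝ) (J B : ℕ)
      (TT : Finset ℕ) (rt : Bool) (T U W : Finset ℤ), Ctx3 f g L κ θ C0 J B TT rt T U W →
      κ ≤ κ0 → θ ≤ 1 / 100000000 → C1 ≤ C0 → ∀ c0 c1 c2 : ℚ,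
      g.F = C (g.F.leadingCoeff / f.F.leadingCoeff) * f.F + C c2 * X ^ 2 + C c1 * X + C c0 →
      c2.num.natAbs ≤ B → c2.den ≤ B → c2 = 0 := by
  have hlog4 : 0 ≤ Real.log 4 := Real.log_nonneg (by norm_num)
  refine ⟨1 / 1000, 6 * Real.log 4 + 1, by norm_num, ?_⟩
  intro S a b f g L κ θ C0 J B TT rt T U W h hκ hθ hC c0 c1 c2 hdec hn hd
  by_contra hc2
  have hLpos : 0 < L := lt_of_lt_of_le one_pos h.L1
  have hbig := h.big
  have hκ0 := h.κ0
  have hΛ : 0 < Real.log L := by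
    have h1 : 0 < κ * Real.log L := by linarith
    exact (pos_iff_pos_of_mul_pos h1).1 hκ0
  have hev := decomp_eval f g hdec
  have hevU : ∀ x ∈ U, ((g.ph x : ℤ) : ℚ) =
      g.F.leadingCoeff / f.F.leadingCoeff * (f.ph x : ℤ) + (c2 * x ^ 2 + c1 * x + c0) :=
    fun x hx => hev x (h.US hx)
  have hmain := sum_bound3 h (q := c2) hc2 hn hd (k := -1) (v := 49 / 100) (w := 6)
    (D := 6 * Real.log 4) (by norm_num) (by positivity) ?_ ?_ ?_ ?_
  · have hup := h.up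
    have h1 : κ * Real.log L ≤ 1 / 1000 * Real.log L :=
      mul_le_mul_of_nonneg_right hκ hΛ.le
    nlinarith
  · intro p hp hpT
    have hloc := h.tp p hpT
    have hr := hloc.base.rel hdec
    have h1 := hloc.c2 hθ hr
    rwa [mul_one] at h1
  · intro p hp hpT
    exact (nt3_p f g h.US h.Uc hevU).2.1
  · intro hrt
    have hloc := h.tr hrt
    have hr := hloc.base.rel hdec
    have h1 := hloc.c2 hθ hr
    have h2 : Rat.AbsoluteValue.real c2 = |(c2 : ℝ)| := by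
      simp
    rw [h2] at h1
    rw [Real.exp_add, neg_mul, one_mul, Real.exp_neg, Real.exp_log hLpos, ← div_eq_inv_mul,
      le_div_iff₀ hLpos]
    exact h1
  · intro hrt
    have h1 := (nt3_r f g h.L1 h.hL h.US h.Uc hevU).2.1
    rw [add_assoc, Real.exp_add, neg_mul, one_mul, Real.exp_neg, Real.exp_log hLpos,
      ← div_eq_inv_mul, le_div_iff₀ hLpos]
    exact h1

end F0744E
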