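import Pool.Agent.Lib.MP_f0744f_nt.E.K0
import Pool.Agent.Lib.MP_f0744f_nt.E.Gb
import Pool.Agent.Lib.MP_f0744f_nt.E.Nb

/-! # Row K2: c1 = 0 -/

set_option autoImplicit false

open Polynomial

namespace F0744E

open F0744C F0744D

variable {S : Finset ℤ} {a b : ℤ}

/-- `κ0 = 1 / 1000000`, `C1 = 6 log 4 + 1`. Suppose `c1 ≠ 0`. `sum_bound3` with `k = 0`, `v = - 1 / 50000`, `w = 6`, `D = 6 log 4`: `Loc.c1`, `nt3_p`, `nt3_r` (with `c2 = 0`). The result
`0 ≤ - (1 / 50000) (1 - κ) 2 Λ + 6 κ Λ + D`, `D ≤ κ Λ`, is false. -/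
theorem c1_zero : ∃ κ0 C1 : ℝ, 0 < κ0 ∧
    ∀ (S : Finset ℤ) (a b : ℤ) (f : PM S a 3) (g : PM S b 3) (L κ θ C0 : ℝ) (J B : ℕ)
      (TT : Finset ℕ) (rt : Bool) (T U W : Finset ℤ), Ctx3 f g L κ θ C0 J B TT rt T U W →
      κ ≤ κ0 → θ ≤ 1 / 100000000 → C1 ≤ C0 → ∀ c0 c1 : ℚ,
      g.F = C (g.F.leadingCoeff / f.F.leadingCoeff) * f.F + C 0 * X ^ 2 + C c1 * X + C c0 →
      c1.num.natAbs ≤ B → c1.den ≤ B → c1 = 0 := by
  refine ⟨1 / 1000000, 6 * Real.log 4 + 1, by norm_num, ?_⟩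
  intro S a b f g L κ θ C0 J B TT rt T U W h hκ hθ hC c0 c1 heq hn hd
  by_contra hc
  have hlog4 : 0 ≤ Real.log 4 := Real.log_nonneg (by norm_num)
  have hev : ∀ x ∈ U, ((g.ph x : ℤ) : ℚ) = g.F.leadingCoeff / f.F.leadingCoeff * (f.ph x : ℤ) +
      ((0 : ℚ) * x ^ 2 + c1 * x + c0) := fun x hx => decomp_eval f g heq x (h.US hx)
  have key := sum_bound3 h hc hn hd (k := 0) (v := -(1 / 50000)) (w := 6) (D := 6 * Real.log 4)
    (by norm_num) (by positivity)
    (by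
      intro p hp hpT
      have hl := h.tp p hpT
      have := hl.c1 hθ (hl.base.rel heq)
      refine this.trans (le_of_eq ?_)
      congr 1
      ring)
    (by
      intro p hp hpN
      exact (nt3_p f g h.US h.Uc hev).2.2)
    (by
      intro hrt
      have hl := h.tr hrt
      have := hl.c1 hθ (hl.base.rel heq)
      rw [Rat.AbsoluteValue.real_eq_abs, Rat.cast_abs] at this
      refine this.trans (le_of_eq ?_)
      congr 1
      ring)
    (by
      intro hrt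
      have := (nt3_r f g h.L1 h.hL h.US h.Uc hev).2.2
      refine this.trans (le_of_eq ?_)
      congr 1
      ring)
  have hlo := h.lo
  have hbig := h.big
  have hκ0 := h.κ0
  have hκL : 0 < κ * Real.log L := by linarith
  have hL : 0 < Real.log L := pos_of_mul_pos_right hκL hκ0.le
  have e1 : κ * Real.log L ≤ 1 / 1000000 * Real.log L := mul_le_mul_of_nonneg_right hκ hL.le
  nlinarith

end F0744E
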