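import Pool.Agent.Lib.MP_f0744f_nt.E.K0
import Pool.Agent.Lib.MP_f0744f_nt.E.Gb
import Pool.Agent.Lib.MP_f0744f_nt.E.Nb

/-! # Row K3: c3 = 1 or -1 -/

set_option autoImplicit false

open Polynomial

namespace F0744E

open F0744C F0744D

variable {S : Finset ℤ} {a b : ℤ}

theorem K3_EnX_nonneg (A : AbsoluteValue ℚ ℝ) (R : ℝ) (T : Finset ℤ) : 0 ≤ EnX A R T := by
  unfold EnX
  exact Finset.sum_nonneg fun x _ => Finset.sum_nonneg fun y _ => le_max_left _ _

theorem K3_padic_sub (p : ℕ) [Fact p.Prime] {x y : ℚ} {M : ℝ}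
    (hx : Rat.AbsoluteValue.padic p x ≤ M) (hy : Rat.AbsoluteValue.padic p y ≤ M) :
    Rat.AbsoluteValue.padic p (x - y) ≤ M := by
  rw [Rat.AbsoluteValue.padic_eq_padicNorm] at hx hy ⊢
  have h1 : padicNorm p (x - y) ≤ max (padicNorm p x) (padicNorm p y) := padicNorm.sub
  have h2 : ((padicNorm p (x - y) : ℚ) : ℝ) ≤ ((max (padicNorm p x) (padicNorm p y) : ℚ) : ℝ) := by
    exact_mod_cast h1
  refine h2.trans ?_
  rw [Rat.cast_max]
  exact max_le hx hy

theorem K3_six {c : ℚ} (h : c ^ 6 - 1 = 0) : c = 1 ∨ c = -1 := by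
  have h1 : (c ^ 2 - 1) * (c ^ 4 + c ^ 2 + 1) = 0 := by linear_combination h
  have h2 : (0 : ℚ) < c ^ 4 + c ^ 2 + 1 := by positivity
  have h3 : c ^ 2 = 1 := by
    rcases mul_eq_zero.1 h1 with h4 | h4
    · linarith
    · exact absurd h4 h2.ne'
  have h5 : (c - 1) * (c + 1) = 0 := by linear_combination h3
  rcases mul_eq_zero.1 h5 with h6 | h6
  · left; linarith
  · right; linarith

/-- `κ0 = 1 / 1000000`, `C1 = 6 log 4 + log 2 + 1`. `c3 = β / α`, `q = c3 ^ 6 - 1`. Suppose `q ≠ 0`. `sum_bound3` with `k = 0`, `v = - 1 / 100000`, `w = 6`, `D = 6 log 4 + log 2`: `Loc.c3`; `nt3_p`: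
`|q|_p ≤ max 1 |c3|_p ^ 6`; `nt3_r`: `|q| ≤ 2 max 1 |c3| ^ 6`. The result is false as before. So `c3 ^ 6 = 1`, `c3 ^ 2 = 1` (`ℚ` is ordered), `c3 = ± 1`. -/
theorem c3_one : ∃ κ0 C1 : ℝ, 0 < κ0 ∧
    ∀ (S : Finset ℤ) (a b : ℤ) (f : PM S a 3) (g : PM S b 3) (L κ θ C0 : ℝ) (J B : ℕ)
      (TT : Finset ℕ) (rt : Bool) (T U W : Finset ℤ), Ctx3 f g L κ θ C0 J B TT rt T U W →
      κ ≤ κ0 → θ ≤ 1 / 100000000 → C1 ≤ C0 → ∀ c0 c1 : ℚ,
      g.F = C (g.F.leadingCoeff / f.F.leadingCoeff) * f.F + C 0 * X ^ 2 + C c1 * X + C c0 →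
      ((g.F.leadingCoeff / f.F.leadingCoeff) ^ 6 - 1).num.natAbs ≤ B →
      ((g.F.leadingCoeff / f.F.leadingCoeff) ^ 6 - 1).den ≤ B →
      g.F.leadingCoeff / f.F.leadingCoeff = 1 ∨ g.F.leadingCoeff / f.F.leadingCoeff = -1 := by
  refine ⟨1 / 1000000, 6 * Real.log 4 + Real.log 2 + 1, by norm_num, ?_⟩
  intro S a b f g L κ θ C0 J B TT rt T U W h hκ hθ hC c0 c1 hg hn hd
  by_cases hq : (g.F.leadingCoeff / f.F.leadingCoeff) ^ 6 - 1 = 0
  · exact K3_six hq
  exfalso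
  have hlog4 : 0 < Real.log 4 := Real.log_pos (by norm_num)
  have hlog2 : 0 < Real.log 2 := Real.log_pos (by norm_num)
  have hΛ : 0 ≤ Real.log L := Real.log_nonneg h.L1
  have heq0 := decomp_eval f g hg
  have heq : ∀ x ∈ U, ((g.ph x : ℤ) : ℚ) = g.F.leadingCoeff / f.F.leadingCoeff * (f.ph x : ℤ) +
      ((0 : ℚ) * x ^ 2 + c1 * x + c0) := fun x hx => heq0 x (h.US hx)
  have key := sum_bound3 h hq hn hd (k := 0) (v := -(1 / 100000)) (w := 6)
    (D := 6 * Real.log 4 + Real.log 2) (by norm_num) (by positivity) ?_ ?_ ?_ ?_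
  · have h1 := h.lo
    have h2 := h.big
    have h3 : κ * Real.log L ≤ 1 / 1000000 * Real.log L := mul_le_mul_of_nonneg_right hκ hΛ
    have h4 : 6 * Real.log 4 + Real.log 2 + 1 ≤ κ * Real.log L := hC.trans h2
    have h5 : (1 - κ) * (2 * Real.log L) = 2 * Real.log L - 2 * (κ * Real.log L) := by ring
    rw [h5] at h1
    linarith
  · intro p _ hp
    have hl := h.tp p hp
    have h1 := hl.c3 hθ (hl.base.rel hg)
    refine h1.trans (le_of_eq ?_)
    congr 1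
    ring
  · intro p _ hp
    obtain ⟨h1, -, -⟩ := nt3_p f g (p := p) h.US h.Uc heq
    have hY : 0 ≤ EnP p U + max 0 (-mP p f.F) :=
      add_nonneg (EnP_nonneg (Fact.out : p.Prime) U) (le_max_left _ _)
    apply K3_padic_sub
    · have e : Real.exp (6 * (EnP p U + max 0 (-mP p f.F))) = Real.exp (EnP p U + max 0 (-mP p f.F)) ^ 6 := by
        rw [← Real.exp_nat_mul]
        norm_num
      rw [map_pow, e]
      exact pow_le_pow_left₀ (AbsoluteValue.nonneg _ _) h1 6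
    · rw [map_one]
      exact Real.one_le_exp (by positivity)
  · intro hrt
    have hl := h.tr hrt
    have h1 := hl.c3 hθ (hl.base.rel hg)
    rw [Rat.AbsoluteValue.real_eq_abs, Rat.cast_abs] at h1
    refine h1.trans (le_of_eq ?_)
    congr 1
    ring
  · intro _
    obtain ⟨h1, -, -⟩ := nt3_r f g h.L1 h.hL h.US h.Uc heq
    set Y : ℝ := EnX Rat.AbsoluteValue.real L U +
      max 0 (-mm Rat.AbsoluteValue.real L 3 f.F) with hYd
    have hY : 0 ≤ Y := add_nonneg (K3_EnX_nonneg _ _ _) (le_max_left _ _)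
    have h2 : |((g.F.leadingCoeff / f.F.leadingCoeff : ℚ) : ℝ)| ^ 6 ≤
        Real.exp (6 * Y + 6 * Real.log 4) := by
      have e : Real.exp (6 * Y + 6 * Real.log 4) = Real.exp (Y + Real.log 4) ^ 6 := by
        rw [← Real.exp_nat_mul]
        congr 1
        push_cast
        ring
      rw [e]
      exact pow_le_pow_left₀ (abs_nonneg _) h1 6
    have h3 : (1 : ℝ) ≤ Real.exp (6 * Y + 6 * Real.log 4) := Real.one_le_exp (by positivity)
    have h4 : Real.exp (0 * Real.log L + 6 * Y + (6 * Real.log 4 + Real.log 2)) =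
        2 * Real.exp (6 * Y + 6 * Real.log 4) := by
      have e : 0 * Real.log L + 6 * Y + (6 * Real.log 4 + Real.log 2) =
          Real.log 2 + (6 * Y + 6 * Real.log 4) := by ring
      rw [e, Real.exp_add, Real.exp_log (by norm_num : (0 : ℝ) < 2)]
    rw [h4]
    have h5 : |(((g.F.leadingCoeff / f.F.leadingCoeff) ^ 6 - 1 : ℚ) : ℝ)| ≤
        |((g.F.leadingCoeff / f.F.leadingCoeff : ℚ) : ℝ)| ^ 6 + 1 := by
      rw [Rat.cast_sub, Rat.cast_pow, Rat.cast_one]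
      refine (abs_sub _ _).trans (le_of_eq ?_)
      rw [abs_pow, abs_one]
    linarith

end F0744E
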