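import Pool.Agent.Lib.MP_f0744f_nt.E.K0
import Pool.Agent.Lib.MP_f0744f_nt.E.Ap3

/-! # Row K4: the translated case -/

set_option autoImplicit false

open Polynomial

namespace F0744E

open F0744C F0744D

variable {S : Finset ℤ} {a b : ℤ}

/-- `N0` from `ap_main 3` (and `N0 ≥ 3`). For `x ∈ S0`: `g.ph x = f.ph x + c0`, so `c0` is an integer `δ`. `E` = `{a}` and the (at most 2) elements of `S` which are not `f.ph x` for an `x ∈ S0`. If `δ ≠ 0`: `ap_main`. -/
theorem no_trans3 : ∃ N0 : ℕ, ∀ (S : Finset ℤ) (a b : ℤ) (f : PM S a 3) (g : PM S b 3),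
    N0 ≤ S.card → ∀ c0 : ℚ, g.F = C c0 + f.F → c0 = 0 := by
  classical
  obtain ⟨N0, hN⟩ := ap_main 3
  refine ⟨max N0 3, fun S a b f g hS c0 hc => ?_⟩
  have h0 : ∀ x ∈ S0 S a b, ((g.ph x : ℤ) : ℚ) = c0 + ((f.ph x : ℤ) : ℚ) := by
    intro x hx
    rw [mem_S0] at hx
    rw [g.val x hx.1 hx.2.2, f.val x hx.1 hx.2.1, hc]
    simp
  have hsub : S ⊆ insert a (insert b (S0 S a b)) := by
    intro x hx
    rw [Finset.mem_insert, Finset.mem_insert, mem_S0]
    by_cases h1 : x = a
    · exact Or.inl h1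
    · by_cases h2 : x = b
      · exact Or.inr (Or.inl h2)
      · exact Or.inr (Or.inr ⟨hx, h1, h2⟩)
  have hcard : S.card ≤ (S0 S a b).card + 2 := by
    calc S.card ≤ (insert a (insert b (S0 S a b))).card := Finset.card_le_card hsub
      _ ≤ (insert b (S0 S a b)).card + 1 := Finset.card_insert_le _ _
      _ ≤ (S0 S a b).card + 1 + 1 := by
        have := Finset.card_insert_le b (S0 S a b)
        omega
  have hpos : 0 < (S0 S a b).card := by
    have := le_trans (le_max_right N0 3) hS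
    omega
  obtain ⟨x0, hx0⟩ := Finset.card_pos.mp hpos
  by_contra hne
  have hδ : ((g.ph x0 - f.ph x0 : ℤ) : ℚ) = c0 := by
    push_cast
    rw [h0 x0 hx0]
    ring
  have hδ0 : g.ph x0 - f.ph x0 ≠ 0 := by
    intro h
    rw [h] at hδ
    apply hne
    rw [← hδ]
    simp
  have himg : ((S0 S a b).image f.ph).card = (S0 S a b).card := by
    apply Finset.card_image_of_injOn
    intro x hx y hy h
    have hx' := mem_S0.mp (Finset.mem_coe.mp hx)
    have hy' := mem_S0.mp (Finset.mem_coe.mp hy)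
    exact f.inj x hx'.1 y hy'.1 hx'.2.1 hy'.2.1 h
  have hsubi : (S0 S a b).image f.ph ⊆ S := by
    intro y hy
    obtain ⟨x, hx, rfl⟩ := Finset.mem_image.mp hy
    have hx' := mem_S0.mp hx
    exact f.maps x hx'.1 hx'.2.1
  have hEcard : (insert a (S \ (S0 S a b).image f.ph)).card ≤ 3 := by
    have h1 := Finset.card_insert_le a (S \ (S0 S a b).image f.ph)
    have h2 := Finset.card_sdiff_add_card_eq_card hsubi
    omega
  refine hN S (le_trans (le_max_left _ _) hS) f.F f.deg (g.ph x0 - f.ph x0) hδ0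
    (insert a (S \ (S0 S a b).image f.ph)) hEcard ?_ ?_
  · intro y hy hyE
    have h1 : y ∈ (S0 S a b).image f.ph := by
      by_contra h2
      exact hyE (Finset.mem_insert_of_mem (Finset.mem_sdiff.mpr ⟨hy, h2⟩))
    obtain ⟨x, hx, rfl⟩ := Finset.mem_image.mp h1
    have hx' := mem_S0.mp hx
    have h2 : f.ph x + (g.ph x0 - f.ph x0) = g.ph x := by
      have h3 : ((f.ph x + (g.ph x0 - f.ph x0) : ℤ) : ℚ) = ((g.ph x : ℤ) : ℚ) := by
        rw [h0 x hx]
        push_cast
        push_cast at hδ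
        rw [hδ]
        ring
      exact_mod_cast h3
    rw [h2]
    exact g.maps x hx'.1 hx'.2.2
  · intro x hx hxE
    have h1 : x ≠ a := by
      rintro rfl
      exact hxE (Finset.mem_insert_self _ _)
    exact ⟨f.ph x, f.maps x hx h1, f.val x hx h1⟩

end F0744E
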