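import Pool.Agent.Lib.MP_f0744f_nt.E.K0
import Pool.Agent.Lib.MP_f0744f_nt.E.Gb
import Pool.Agent.Lib.MP_f0744f_nt.E.Nb

/-! # Row K5: the reflected case: d2 = 0 -/

set_option autoImplicit false

open Polynomial

namespace F0744E

open F0744C F0744D

variable {S : Finset ℤ} {a b : ℤ}

theorem K5_rel {f : PM S a 3} {g : PM S b 3} {A : AbsoluteValue ℚ ℝ} {R m θ : ℝ} {J : ℕ}
    {T : Finset ℤ} (hb : PB f g A R m θ J T) {c0 : ℚ} (hg : g.F = C c0 - f.F) :
    Rel f g A m θ c0 0 0 (-1) := by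
  have h0 : 0 ≤ θ * m := (Real.log_nonneg (by norm_num : (1 : ℝ) ≤ 8)).trans hb.eight
  refine ⟨?_, ?_, ?_⟩
  · intro x hx
    obtain ⟨hxS, hxa, hxb⟩ := Finset.mem_filter.1 hx
    rw [g.val x hxS hxb, f.val x hxS hxa, hg, eval_sub, eval_C]
    ring
  · rw [AbsoluteValue.map_neg, AbsoluteValue.map_one]
    exact Real.one_le_exp (by linarith)
  · rw [AbsoluteValue.map_neg, AbsoluteValue.map_one]
    exact Real.exp_le_one_iff.2 (by linarith)

theorem K5_P (f : PM S a 3) (g : PM S b 3) {c0 d0 d1 d2 : ℚ} (hg : g.F = C c0 - f.F)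
    (hD : f.F.comp (C c0 - X) + f.F - C c0 = C d2 * X ^ 2 + C d1 * X + C d0) {x : ℤ}
    (hx : x ∈ S0 S a b) (hW : ∃ y ∈ S, y ≠ a ∧ (y : ℚ) = c0 - x) :
    ∃ u ∈ S, ∃ v ∈ S, d2 * (x : ℚ) ^ 2 + d1 * x + d0 = ((u : ℤ) : ℚ) - ((v : ℤ) : ℚ) := by
  obtain ⟨hxS, hxa, hxb⟩ := Finset.mem_filter.1 hx
  obtain ⟨y, hyS, hya, hy⟩ := hW
  refine ⟨f.ph y, f.maps y hyS hya, g.ph x, g.maps x hxS hxb, ?_⟩
  have h1 := congrArg (fun F : ℚ[X] => F.eval (x : ℚ)) hD
  simp only [eval_add, eval_sub, eval_comp, eval_C, eval_X, eval_mul, eval_pow] at h1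
  rw [f.val y hyS hya, g.val x hxS hxb, hg, eval_sub, eval_C, hy]
  linarith

theorem K5_good {f : PM S a 3} {g : PM S b 3} {A : AbsoluteValue ℚ ℝ} {R m θ : ℝ} {J : ℕ}
    {T : Finset ℤ} (h : Loc f g A R m θ J T) (hθ : θ ≤ 1 / 100000000) {c0 d0 d1 d2 : ℚ}
    (hg : g.F = C c0 - f.F)
    (hD : f.F.comp (C c0 - X) + f.F - C c0 = C d2 * X ^ 2 + C d1 * X + C d0) {W : Finset ℤ}
    (hWc : W.card ≤ 10)
    (hW : ∀ x ∈ S0 S a b, x ∉ W → ∃ y ∈ S, y ≠ a ∧ (y : ℚ) = c0 - x) :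
    A d2 * R ≤ Real.exp (1 / 1000 * m) := by
  have hb := h.base
  have hR : 1 ≤ R := hb.R1
  obtain ⟨x, hx, y, hy, z, hz, hxW, hyW, hzW, h1, h2, h3⟩ := h.three hθ (K5_rel hb hg) hWc
  have key : ∀ t ∈ T, t ∉ W → A (d2 * (t : ℚ) ^ 2 + d1 * t + d0) ≤ 4 * R := by
    intro t ht htW
    have ht0 := (hb.Tm t ht).1
    obtain ⟨u, hu, v, hv, he⟩ := K5_P f g hg hD ht0 (hW t ht0 htW)
    rw [he, sub_eq_add_neg]
    refine (A.add_le _ _).trans ?_
    rw [AbsoluteValue.map_neg]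
    have e1 := hb.bd u hu
    have e2 := hb.bd v hv
    linarith
  have hS : ∀ t ∈ T, t ∈ S := fun t ht => (Finset.mem_filter.1 (hb.Tm t ht).1).1
  exact hb.d2 hθ (hS x hx) (hS y hy) (hS z hz) h1 h2 h3 (key x hx hxW) (key y hy hyW)
    (key z hz hzW)

theorem K5_omega (p : ℕ) [Fact p.Prime] (U : Finset ℤ) :
    ∀ x ∈ U, ∑ y ∈ U.erase x, max 0 (uu (Rat.AbsoluteValue.padic p) 1 x y) ≤ EnP p U := by
  intro x hx
  have hp : p.Prime := Fact.out
  have h2 : ∑ y ∈ U.erase x, max 0 (uu (Rat.AbsoluteValue.padic p) 1 x y) =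
      ∑ y ∈ U.erase x, vp p ((x : ℚ) - y) := by
    refine Finset.sum_congr rfl fun y hy => ?_
    rw [uu_padic p (Finset.ne_of_mem_erase hy).symm]
    exact max_eq_right (N2_vp hp x y)
  rw [h2]
  unfold EnP
  exact Finset.single_le_sum (f := fun x => ∑ y ∈ U.erase x, vp p ((x : ℚ) - y))
    (fun x _ => Finset.sum_nonneg fun y _ => N2_vp hp x y) hx

/-- `κ0 = 1 / 1000`, `C1 = 2 log 4 + 1`. Suppose `d2 ≠ 0`. `P = d2 X ^ 2 + d1 X + d0`; for `x ∈ S0` with `x ∉ W`: `P x = f.ph (c0 - x) - g.ph x` (`hD`, `hG`, `f.val`, `g.val`; `c0 - x` is the integer `y` of `hW`), so it is the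
difference of two elements of `S`. `sum_bound3` with `k = -1`, `v = 1 / 1000`, `w = 1`, `D = 2 log 4`: at the good places `Loc.three` (with `W`; `Rel` is `PB.rel`-like: `c3 = -1`, use `hG`) and `PB.d2`
(`2 R ≤ 4 R`); at the other places `node2` with `U` (`UW`): padic `κs = 1`, `M = 1`; real `κs = 4`, `M = 2 L`. The result `0 ≤ - Λ + 1 / 1000 (1 + κ) 2 Λ + κ Λ + D` is false. -/
theorem d2_zero : ∃ κ0 C1 : ℝ, 0 < κ0 ∧
    ∀ (S : Finset ℤ) (a b : ℤ) (f : PM S a 3) (g : PM S b 3) (L κ θ C0 : ℝ) (J B : ℕ)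
      (TT : Finset ℕ) (rt : Bool) (T U W : Finset ℤ), Ctx3 f g L κ θ C0 J B TT rt T U W →
      κ ≤ κ0 → θ ≤ 1 / 100000000 → C1 ≤ C0 → W.card ≤ 10 → ∀ c0 d0 d1 d2 : ℚ,
      g.F = C c0 - f.F →
      (∀ x ∈ S0 S a b, x ∉ W → ∃ y ∈ S, y ≠ a ∧ (y : ℚ) = c0 - x) →
      f.F.comp (C c0 - X) + f.F - C c0 = C d2 * X ^ 2 + C d1 * X + C d0 →
      d2.num.natAbs ≤ B → d2.den ≤ B → d2 = 0 := by
  refine ⟨1 / 1000, 2 * Real.log 4 + 1, by norm_num, ?_⟩
  intro S a b f g L κ θ C0 J B TT rt T U W h hκ hθ hC hWc c0 d0 d1 d2 hg hW hD hnum hden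
  by_contra hd
  have hL0 : 0 < L := lt_of_lt_of_le one_pos h.L1
  have hlog4 : 0 ≤ Real.log 4 := Real.log_nonneg (by norm_num)
  have hΛ4 : 2 * Real.log 4 + 1 ≤ κ * Real.log L := hC.trans h.big
  have hΛ : 0 < Real.log L := by
    by_contra hcon
    push Not at hcon
    have := mul_nonpos_of_nonneg_of_nonpos h.κ0.le hcon
    linarith
  have hA : ∀ q : ℚ, Rat.AbsoluteValue.real q = |(q : ℝ)| := by
    intro q
    rw [Rat.AbsoluteValue.real_eq_abs]
    push_cast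
    rfl
  have hU0 : ∀ x ∈ U, ∃ u ∈ S, ∃ v ∈ S,
      d2 * (x : ℚ) ^ 2 + d1 * x + d0 = ((u : ℤ) : ℚ) - ((v : ℤ) : ℚ) := by
    intro x hx
    have hxW : x ∉ W := fun hxW => (Finset.disjoint_left.1 h.UW hx) hxW
    exact K5_P f g hg hD (h.US hx) (hW x (h.US hx) hxW)
  have hsum := sum_bound3 h hd hnum hden (k := -1) (v := 1 / 1000) (w := 1)
    (D := 2 * Real.log 4) zero_le_one (by linarith) ?_ ?_ ?_ ?_
  · have h1 := h.up
    have h2 : κ * Real.log L ≤ 1 / 1000 * Real.log L := mul_le_mul_of_nonneg_right hκ hΛ.le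
    have h3 : (1 + κ) * (2 * Real.log L) = 2 * Real.log L + 2 * (κ * Real.log L) := by ring
    rw [h3] at h1
    linarith [hsum, h1, h2, hΛ4]
  · intro p _ hp
    have h1 := K5_good (h.tp p hp) hθ hg hD hWc hW
    rwa [mul_one] at h1
  · intro p _ hp
    have hμ : (0 : ℝ) ≤ max 0 (-mP p f.F) := le_max_left _ _
    have h1 := node2 (A := Rat.AbsoluteValue.padic p) (le_refl (1 : ℝ)) (le_refl (1 : ℝ))
      (sumLe_padic p 4) h.Uc (K5_omega p U) (M := 1) (c0 := d0) (c1 := d1) (c2 := d2) (by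
        intro x hx
        obtain ⟨u, _, v, _, he⟩ := hU0 x hx
        rw [he]
        have e1 := N2_int p (u - v)
        push_cast at e1
        exact e1)
    rw [one_pow, mul_one, one_mul, one_mul] at h1
    rw [one_mul]
    exact h1.trans (Real.exp_le_exp.2 (by linarith))
  · intro hrt
    have h1 := K5_good (h.tr hrt) hθ hg hD hWc hW
    rw [hA] at h1
    rw [Real.exp_add, neg_one_mul, Real.exp_neg, Real.exp_log hL0, inv_mul_eq_div,
      le_div_iff₀ hL0]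
    exact h1
  · intro _
    have hμ : (0 : ℝ) ≤ max 0 (-mm Rat.AbsoluteValue.real L 3 f.F) := le_max_left _ _
    have h1 := node2 (A := Rat.AbsoluteValue.real) h.L1 (by norm_num : (1 : ℝ) ≤ ((4 : ℕ) : ℝ))
      (sumLe_any Rat.AbsoluteValue.real 4) h.Uc (Ω := EnX Rat.AbsoluteValue.real L U)
      (by
        intro x hx
        unfold EnX
        exact Finset.single_le_sum
          (f := fun x => ∑ y ∈ U.erase x, max 0 (uu Rat.AbsoluteValue.real L x y))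
          (fun x _ => Finset.sum_nonneg fun y _ => le_max_left _ _) hx)
      (M := 2 * L) (c0 := d0) (c1 := d1) (c2 := d2) (by
        intro x hx
        obtain ⟨u, hu, v, hv, he⟩ := hU0 x hx
        rw [he, hA]
        have e1 := h.hL u hu
        have e2 := h.hL v hv
        push_cast
        refine (abs_sub _ _).trans ?_
        linarith)
    rw [hA] at h1
    have h2 : |((d2 : ℚ) : ℝ)| * L ≤ 8 * Real.exp (EnX Rat.AbsoluteValue.real L U) := by
      have h3 : (|((d2 : ℚ) : ℝ)| * L) * L ≤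
          (8 * Real.exp (EnX Rat.AbsoluteValue.real L U)) * L := by
        calc (|((d2 : ℚ) : ℝ)| * L) * L = |((d2 : ℚ) : ℝ)| * L ^ 2 := by ring
          _ ≤ _ := h1
          _ = (8 * Real.exp (EnX Rat.AbsoluteValue.real L U)) * L := by push_cast; ring
      exact le_of_mul_le_mul_right h3 hL0
    have h4 : Real.exp (-1 * Real.log L + 1 * (EnX Rat.AbsoluteValue.real L U +
        max 0 (-mm Rat.AbsoluteValue.real L 3 f.F)) + 2 * Real.log 4) =
        16 * Real.exp (EnX Rat.AbsoluteValue.real L U +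
        max 0 (-mm Rat.AbsoluteValue.real L 3 f.F)) / L := by
      have e16 : Real.exp (2 * Real.log 4) = 16 := by
        rw [two_mul, Real.exp_add, Real.exp_log (by norm_num : (0 : ℝ) < 4)]
        norm_num
      rw [Real.exp_add, Real.exp_add, e16, neg_one_mul, Real.exp_neg, Real.exp_log hL0, one_mul]
      field_simp
    rw [h4, le_div_iff₀ hL0]
    refine h2.trans ?_
    have h5 : Real.exp (EnX Rat.AbsoluteValue.real L U) ≤
        Real.exp (EnX Rat.AbsoluteValue.real L U +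
        max 0 (-mm Rat.AbsoluteValue.real L 3 f.F)) := Real.exp_le_exp.2 (by linarith)
    have h6 := Real.exp_pos (EnX Rat.AbsoluteValue.real L U)
    linarith

end F0744E
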