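import Pool.Agent.Lib.MP_f0744f_nt.E.K6_1

/-! # Row K6_2: the reflected case -/

set_option autoImplicit false

open Polynomial

namespace F0744E

open F0744C F0744D

variable {S : Finset ℤ} {a b : ℤ}

/-- all elements of `S` except at most 5 are values of `f.ph` outside `W` and `a` -/
theorem K6_2_im (f : PM S a 3) (W : Finset ℤ) (hWc : W.card ≤ 4) :
    ∃ E1 : Finset ℤ, E1.card ≤ 5 ∧ ∀ y ∈ S, y ∉ E1 → ∃ x ∈ S, x ≠ a ∧ x ∉ W ∧ f.ph x = y := by
  classical
  refine ⟨S \ (S \ insert a W).image f.ph, ?_, ?_⟩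
  · have h1 : ((S \ insert a W).image f.ph).card = (S \ insert a W).card := by
      apply Finset.card_image_of_injOn
      intro x hx y hy hxy
      rw [Finset.mem_coe, Finset.mem_sdiff, Finset.mem_insert, not_or] at hx hy
      exact f.inj x hx.1 y hy.1 hx.2.1 hy.2.1 hxy
    have h2 : (S \ insert a W).image f.ph ⊆ S := by
      intro y hy
      rw [Finset.mem_image] at hy
      obtain ⟨x, hx, rfl⟩ := hy
      rw [Finset.mem_sdiff, Finset.mem_insert, not_or] at hx
      exact f.maps x hx.1 hx.2.1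
    have h3 : S.card ≤ (S \ insert a W).card + (insert a W).card := by
      have := Finset.le_card_sdiff (insert a W) S
      omega
    have h4 : (insert a W).card ≤ W.card + 1 := Finset.card_insert_le a W
    have h5 := Finset.card_sdiff_add_card_eq_card h2
    omega
  · intro y hy hyE
    rw [Finset.mem_sdiff, not_and, not_not] at hyE
    have h := hyE hy
    rw [Finset.mem_image] at h
    obtain ⟨x, hx, hxy⟩ := h
    rw [Finset.mem_sdiff, Finset.mem_insert, not_or] at hx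
    exact ⟨x, hx.1, hx.2.1, hx.2.2, hxy⟩

/-- `N0` from `ap_main 20`. Suppose `F (c0 - x) + F x = c0 + d0` for all `x`. For `x ∈ S0` outside the set `W` of `refl_card` let `z = c0 - x ∈ S \ {a}`: `f.ph z = c0 + d0 - f.ph x`. So for all `y ∈ S` (`y = f.ph x`) except at most 8
`c0 + d0 - y ∈ S`. Applying this to `c0 - y` (`refl_card`): `y + d0 ∈ S` for all `y ∈ S` except at most 16. So `d0` is an integer and `ap_main` gives `d0 = 0`. -/
theorem refl_zero : ∃ N0 : ℕ, ∀ (S : Finset ℤ) (a b : ℤ) (f : PM S a 3) (g : PM S b 3),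
    N0 ≤ S.card → ∀ c0 d0 : ℚ, g.F = C c0 - f.F →
      f.F.comp (C c0 - X) + f.F - C c0 = C d0 → d0 = 0 := by
  classical
  obtain ⟨N1, hN1⟩ := ap_main 20
  refine ⟨max N1 12, ?_⟩
  intro S a b f g hN c0 d0 hg hF
  have hNa : N1 ≤ S.card := le_trans (le_max_left _ _) hN
  have hNb : 12 ≤ S.card := le_trans (le_max_right _ _) hN
  obtain ⟨W, hWc, hW⟩ := refl_card f g hg
  obtain ⟨E1, hE1c, hE1⟩ := K6_2_im f W hWc
  have hev : ∀ x : ℚ, f.F.eval (c0 - x) + f.F.eval x - c0 = d0 := by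
    intro x
    have h := congrArg (fun p : ℚ[X] => p.eval x) hF
    simpa using h
  -- the reflection about `(c0 + d0) / 2`
  have hr : ∀ y ∈ S, y ∉ E1 → ∃ z ∈ S, (z : ℚ) = c0 + d0 - y := by
    intro y hy hyE
    obtain ⟨x, hx, hxa, hxW, hxy⟩ := hE1 y hy hyE
    obtain ⟨z, hz, hza, hzx⟩ := hW x hx hxW
    refine ⟨f.ph z, f.maps z hz hza, ?_⟩
    rw [f.val z hz hza, hzx, ← hxy, f.val x hx hxa]
    have := hev (x : ℚ)
    linarith
  set E : Finset ℤ := insert a (W ∪ E1.image (fun v : ℤ => ⌊c0 - (v : ℚ)⌋)) with hE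
  have hEc : E.card ≤ 20 := by
    have h1 : E.card ≤ (W ∪ E1.image (fun v : ℤ => ⌊c0 - (v : ℚ)⌋)).card + 1 :=
      Finset.card_insert_le _ _
    have h2 := Finset.card_union_le W (E1.image (fun v : ℤ => ⌊c0 - (v : ℚ)⌋))
    have h3 : (E1.image (fun v : ℤ => ⌊c0 - (v : ℚ)⌋)).card ≤ E1.card := Finset.card_image_le
    omega
  have hEc' : E.card ≤ 10 := by
    have h1 : E.card ≤ (W ∪ E1.image (fun v : ℤ => ⌊c0 - (v : ℚ)⌋)).card + 1 :=
      Finset.card_insert_le _ _
    have h2 := Finset.card_union_le W (E1.image (fun v : ℤ => ⌊c0 - (v : ℚ)⌋))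
    have h3 : (E1.image (fun v : ℤ => ⌊c0 - (v : ℚ)⌋)).card ≤ E1.card := Finset.card_image_le
    omega
  have ht : ∀ y ∈ S, y ∉ E → ∃ z ∈ S, (z : ℚ) = y + d0 := by
    intro y hy hyE
    rw [hE, Finset.mem_insert, Finset.mem_union, not_or, not_or] at hyE
    obtain ⟨-, hyW, hyI⟩ := hyE
    obtain ⟨v, hv, -, hvy⟩ := hW y hy hyW
    have hvE : v ∉ E1 := by
      intro hvE
      apply hyI
      rw [Finset.mem_image]
      refine ⟨v, hvE, ?_⟩
      have : c0 - (v : ℚ) = (y : ℚ) := by rw [hvy]; ring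
      rw [this, Int.floor_intCast]
    obtain ⟨z, hz, hzv⟩ := hr v hv hvE
    refine ⟨z, hz, ?_⟩
    rw [hzv, hvy]
    ring
  obtain ⟨y0, hy0, hy0E⟩ : ∃ y ∈ S, y ∉ E := by
    by_contra hcon
    push Not at hcon
    have := Finset.card_le_card (show S ⊆ E from fun y hy => hcon y hy)
    omega
  obtain ⟨z0, hz0, hz0y⟩ := ht y0 hy0 hy0E
  set δ : ℤ := z0 - y0 with hδ
  have hd : (δ : ℚ) = d0 := by
    rw [hδ, Int.cast_sub, hz0y]
    ring
  by_contra hd0
  have hδ0 : δ ≠ 0 := by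
    intro h0
    apply hd0
    rw [← hd, h0, Int.cast_zero]
  refine hN1 S hNa f.F f.deg δ hδ0 E hEc ?_ ?_
  · intro y hy hyE
    obtain ⟨z, hz, hzy⟩ := ht y hy hyE
    have : z = y + δ := by
      rw [← hd] at hzy
      exact_mod_cast hzy
    rw [← this]
    exact hz
  · intro x hx hxE
    have hxa : x ≠ a := by
      intro h
      apply hxE
      rw [hE, h]
      exact Finset.mem_insert_self _ _
    exact ⟨f.ph x, f.maps x hx hxa, f.val x hx hxa⟩

end F0744E
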