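import Pool.Agent.Lib.MP_f0744f_nt.E.K0
import Pool.Agent.Lib.MP_f0744f_nt.E.Ap3

/-! # Row K6_1: the reflected case -/

set_option autoImplicit false

open Polynomial

namespace F0744E

open F0744C F0744D

variable {S : Finset ℤ} {a b : ℤ}

/-- For `x ∈ S0`: `g.ph x = c0 - f.ph x`, and the `f.ph x`, `x ∈ S0`, are all elements of `S` except at most 2 (`f.inj`). So for all `y ∈ S` except at most 2 `c0 - y` is an element of `S`; except at most 3 it is not `a`. -/
theorem refl_card (f : PM S a 3) (g : PM S b 3) {c0 : ℚ} (h : g.F = C c0 - f.F) :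
    ∃ W : Finset ℤ, W.card ≤ 4 ∧ ∀ y ∈ S, y ∉ W → ∃ z ∈ S, z ≠ a ∧ (z : ℚ) = c0 - y := by
  classical
  set U : Finset ℤ := (((S.erase a).erase b).filter fun x => g.ph x ≠ a) with hU
  have hUS : ∀ x ∈ U, x ∈ S ∧ x ≠ a ∧ x ≠ b ∧ g.ph x ≠ a := by
    intro x hx
    rw [hU, Finset.mem_filter, Finset.mem_erase, Finset.mem_erase] at hx
    exact ⟨hx.1.2.2, hx.1.2.1, hx.1.1, hx.2⟩
  have hinj : Set.InjOn f.ph (U : Set ℤ) := by
    intro x hx y hy hxy
    have h1 := hUS x hx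
    have h2 := hUS y hy
    exact f.inj x h1.1 y h2.1 h1.2.1 h2.2.1 hxy
  have himg : U.image f.ph ⊆ S := by
    intro z hz
    obtain ⟨x, hx, rfl⟩ := Finset.mem_image.1 hz
    exact f.maps x (hUS x hx).1 (hUS x hx).2.1
  have hc1 : (U.image f.ph).card = U.card := Finset.card_image_of_injOn hinj
  have hc2 : (((S.erase a).erase b).filter fun x => ¬ g.ph x ≠ a).card ≤ 1 := by
    rw [Finset.card_le_one]
    intro x hx y hy
    rw [Finset.mem_filter, Finset.mem_erase, Finset.mem_erase, not_not] at hx hy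
    exact g.inj x hx.1.2.2 y hy.1.2.2 hx.1.1 hy.1.1 (hx.2.trans hy.2.symm)
  have hc3 : U.card + (((S.erase a).erase b).filter fun x => ¬ g.ph x ≠ a).card =
      ((S.erase a).erase b).card :=
    Finset.card_filter_add_card_filter_not (s := (S.erase a).erase b) (fun x => g.ph x ≠ a)
  have hc4 : S.card ≤ ((S.erase a).erase b).card + 2 := by
    have h1 : S.card - 1 ≤ (S.erase a).card := Finset.pred_card_le_card_erase
    have h2 : (S.erase a).card - 1 ≤ ((S.erase a).erase b).card :=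
      Finset.pred_card_le_card_erase
    omega
  refine ⟨S \ U.image f.ph, ?_, ?_⟩
  · rw [Finset.card_sdiff_of_subset himg, hc1]
    omega
  · intro y hy hyW
    have hyi : y ∈ U.image f.ph := by
      by_contra hcon
      exact hyW (Finset.mem_sdiff.2 ⟨hy, hcon⟩)
    obtain ⟨x, hx, rfl⟩ := Finset.mem_image.1 hyi
    obtain ⟨h1, h2, h3, h4⟩ := hUS x hx
    refine ⟨g.ph x, g.maps x h1 h3, h4, ?_⟩
    rw [g.val x h1 h3, f.val x h1 h2, h]
    simp

/-- `D = f.F.comp (C c0 - X) + f.F - C c0` has degree `≤ 2` (the coefficient of `X ^ 3` is `- α + α`), and `D.comp (C c0 - X) = D`, so `d1 = - c0 d2`. -/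
theorem refl_poly {F : ℚ[X]} (hF : F.natDegree = 3) (c0 : ℚ) : ∃ d0 d1 d2 : ℚ,
    F.comp (C c0 - X) + F - C c0 = C d2 * X ^ 2 + C d1 * X + C d0 ∧ d1 = -c0 * d2 := by
  have hE : F = C (F.coeff 0) + C (F.coeff 1) * X + C (F.coeff 2) * X ^ 2 +
      C (F.coeff 3) * X ^ 3 := by
    conv_lhs => rw [F.as_sum_range_C_mul_X_pow, hF]
    simp [Finset.sum_range_succ]
  generalize F.coeff 0 = a0 at hE
  generalize F.coeff 1 = a1 at hE
  generalize F.coeff 2 = a2 at hE
  generalize F.coeff 3 = a3 at hE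
  refine ⟨a3 * c0 ^ 3 + a2 * c0 ^ 2 + a1 * c0 + 2 * a0 - c0, -c0 * (3 * c0 * a3 + 2 * a2),
    3 * c0 * a3 + 2 * a2, ?_, rfl⟩
  rw [hE]
  simp only [add_comp, mul_comp, C_comp, X_comp, X_pow_comp, C_mul, C_add, C_sub, C_neg, C_pow]
  have h3 : (C (3 : ℚ) : ℚ[X]) = 3 := rfl
  have h2 : (C (2 : ℚ) : ℚ[X]) = 2 := rfl
  rw [h3, h2]
  ring

end F0744E
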