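import Pool.Agent.Lib.MP_f0744f_nt.E.Loc_1

/-! # Row Loc_2: a good place -/

set_option autoImplicit false

open Polynomial

namespace F0744E

open F0744C F0744D

variable {S : Finset ℤ} {a b : ℤ}

variable {f : PM S a 3} {g : PM S b 3} {A : AbsoluteValue ℚ ℝ} {R m θ : ℝ} {J : ℕ} {T : Finset ℤ}

/-- The same with `TA.c3`, `TB.c13`: `c3 ^ 6 - 1 = (c3 - 1) (c3 ^ 5 + c3 ^ 4 + c3 ^ 3 + c3 ^ 2 + c3 + 1)`, the last factor has size at most
`6 exp (10 θ m)` (`u3`), `6 ≤ exp (θ m)`. -/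
theorem Loc.c3 (h : Loc f g A R m θ J T) (hθ : θ ≤ 1 / 100000000) {c0 c1 c3 : ℚ}
    (hr : Rel f g A m θ c0 c1 0 c3) : A (c3 ^ 6 - 1) ≤ Real.exp (-(1 / 100000 * m)) := by
  have hm : 0 < m := h.base.m0
  have hlast : Real.exp (-(1 / 2 * m)) ≤ Real.exp (-(1 / 100000 * m)) :=
    Real.exp_le_exp.2 (by nlinarith)
  rcases h with ⟨cl, h⟩ | ⟨cl, h⟩
  · exact (h.c3 (hθ.trans (by norm_num)) hr).trans hlast
  · rcases h.split hθ with hD | ⟨cl', h'⟩
    · obtain ⟨-, h3⟩ := h.c13 hθ hr hD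
      have h8 := h.base.eight
      have hE1 : (1 : ℝ) ≤ Real.exp (2 * θ * m) := by
        refine Real.one_le_exp ?_
        have : 0 < Real.log 8 := Real.log_pos (by norm_num)
        nlinarith
      obtain ⟨E, hE⟩ : ∃ E : ℝ, E = Real.exp (2 * θ * m) := ⟨_, rfl⟩
      rw [← hE] at hE1
      have hu : A c3 ≤ E := by rw [hE]; exact hr.u3
      have h0 : 0 ≤ A c3 := A.nonneg _
      have hpow : ∀ k : ℕ, k ≤ 5 → A (c3 ^ k) ≤ E ^ 5 := by
        intro k hk
        rw [map_pow]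
        exact (pow_le_pow_left₀ h0 hu k).trans (pow_le_pow_right₀ hE1 hk)
      have hsum : A (c3 ^ 5 + c3 ^ 4 + c3 ^ 3 + c3 ^ 2 + c3 + 1) ≤ 6 * E ^ 5 := by
        have a1 := A.add_le (c3 ^ 5 + c3 ^ 4 + c3 ^ 3 + c3 ^ 2 + c3) 1
        have a2 := A.add_le (c3 ^ 5 + c3 ^ 4 + c3 ^ 3 + c3 ^ 2) c3
        have a3 := A.add_le (c3 ^ 5 + c3 ^ 4 + c3 ^ 3) (c3 ^ 2)
        have a4 := A.add_le (c3 ^ 5 + c3 ^ 4) (c3 ^ 3)
        have a5 := A.add_le (c3 ^ 5) (c3 ^ 4)
        have b0 := hpow 0 (by norm_num)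
        have b1 := hpow 1 (by norm_num)
        have b2 := hpow 2 (by norm_num)
        have b3 := hpow 3 (by norm_num)
        have b4 := hpow 4 (by norm_num)
        have b5 := hpow 5 (by norm_num)
        rw [pow_zero] at b0
        rw [pow_one] at b1
        linarith
      have hfac : c3 ^ 6 - 1 = (c3 - 1) * (c3 ^ 5 + c3 ^ 4 + c3 ^ 3 + c3 ^ 2 + c3 + 1) := by ring
      have h6 : (6 : ℝ) ≤ Real.exp (θ * m) := by
        have : Real.exp (Real.log 8) ≤ Real.exp (θ * m) := Real.exp_le_exp.2 h8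
        rw [Real.exp_log (by norm_num)] at this
        linarith
      have hE5 : E ^ 5 = Real.exp (10 * θ * m) := by
        rw [hE, ← Real.exp_nat_mul]
        congr 1
        push_cast
        ring
      rw [hfac, map_mul]
      calc A (c3 - 1) * A (c3 ^ 5 + c3 ^ 4 + c3 ^ 3 + c3 ^ 2 + c3 + 1)
          ≤ Real.exp (-(1 / 50000 * m)) * (Real.exp (θ * m) * Real.exp (10 * θ * m)) := by
            refine mul_le_mul h3 (hsum.trans ?_) (A.nonneg _) (Real.exp_pos _).le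
            rw [hE5]
            exact mul_le_mul_of_nonneg_right h6 (Real.exp_pos _).le
        _ = Real.exp (-(1 / 50000 * m) + (θ * m + 10 * θ * m)) := by
            rw [Real.exp_add, Real.exp_add]
        _ ≤ Real.exp (-(1 / 100000 * m)) := by
            refine Real.exp_le_exp.2 ?_
            have : θ * m ≤ 1 / 100000000 * m := mul_le_mul_of_nonneg_right hθ hm.le
            linarith
    · exact (h'.c3 le_rfl (hr.mono hm (hθ.trans (by norm_num)))).trans hlast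

end F0744E
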