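import Pool.Agent.Lib.MP_f0744f_nt.E.Loc_2

/-! # Row Loc_3: a good place -/

set_option autoImplicit false

open Polynomial

namespace F0744E

open F0744C F0744D

variable {S : Finset ℤ} {a b : ℤ}

variable {f : PM S a 3} {g : PM S b 3} {A : AbsoluteValue ℚ ℝ} {R m θ : ℝ} {J : ℕ} {T : Finset ℤ}

theorem Loc_3_mono {cl : ℤ → Fin 3} (h : TA f g A R m θ J T cl) (hθ : θ ≤ 1 / 10000) :
    TA f g A R m (1 / 10000) J T cl := by
  have hR : 0 ≤ R := le_trans zero_le_one h.base.R1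
  have hm := h.base.m0
  have he : Real.exp (-(1 / 10000 * m)) ≤ Real.exp (-(θ * m)) := by
    apply Real.exp_le_exp.2
    nlinarith
  refine ⟨h.base.mono hθ, ?_, ?_, ?_⟩
  · intro x hx y hy hc
    exact (mul_le_mul_of_nonneg_left he hR).trans (h.sep x hx y hy hc)
  · intro x hx y hy hc
    exact (mul_le_mul_of_nonneg_left he (by positivity)).trans (h.simf x hx y hy hc)
  · intro x hx y hy hc
    exact (mul_le_mul_of_nonneg_left he (by positivity)).trans (h.simg x hx y hy hc)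

theorem Loc_3_ta (h : Loc f g A R m θ J T) (hθ : θ ≤ 1 / 100000000) {c0 : ℚ}
    (hr : Rel f g A m θ c0 0 0 (-1)) : ∃ cl : ℤ → Fin 3, TA f g A R m (1 / 10000) J T cl := by
  rcases h with ⟨cl, h⟩ | ⟨cl, h⟩
  · exact ⟨cl, Loc_3_mono h (hθ.trans (by norm_num))⟩
  · rcases h.split hθ with hD | h'
    · exfalso
      have h1 := (h.c13 hθ hr hD).2
      have h2 : A (-1 - 1) = A 2 := by
        have h3 : (-1 - 1 : ℚ) = -2 := by norm_num
        rw [h3, map_neg_eq_map]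
      rw [h2] at h1
      have h3 := h.base.atwo.trans h1
      rw [Real.exp_le_exp] at h3
      have hm := h.base.m0
      nlinarith
    · exact h'

theorem Loc_3_pick {cl : ℤ → Fin 3} (h : TA f g A R m (1 / 10000) J T cl) {W : Finset ℤ}
    (hW : W.card ≤ 10) (i : Fin 3) : ∃ x ∈ T, x ∉ W ∧ x ∈ S0 S a b ∧ cl x = i := by
  have h1 := h.many le_rfl i
  have h2 := h.base.big
  have h3 : (W.card : ℝ) < ((T.filter (fun x => cl x = i)).card : ℝ) := by
    have h4 : (W.card : ℝ) ≤ 10 := by exact_mod_cast hW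
    linarith
  have h4 : W.card < (T.filter (fun x => cl x = i)).card := by exact_mod_cast h3
  obtain ⟨x, hx, hxW⟩ := Finset.exists_mem_notMem_of_card_lt_card h4
  rw [Finset.mem_filter] at hx
  exact ⟨x, hx.1, hxW, (h.base.Tm x hx.1).1, hx.2⟩

/-- `TB` with a small class (`TB.split`) is impossible: `TB.c13` gives `A (-1 - 1) = A 2 ≤ exp (- m / 50000)`, against `atwo`. So there is a
`TA f g A R m (1 / 10000) J T cl` (`TA` is monotone in `θ`: `PB.mono`, and the other fields). By `TA.many` every class of `T` has at least `N / 4 > 10` elements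
(`big`: `N ≥ 10000`), so one which is not in `W`; `sep`. -/
theorem Loc.three (h : Loc f g A R m θ J T) (hθ : θ ≤ 1 / 100000000) {c0 : ℚ}
    (hr : Rel f g A m θ c0 0 0 (-1)) {W : Finset ℤ} (hW : W.card ≤ 10) :
    ∃ x ∈ T, ∃ y ∈ T, ∃ z ∈ T, x ∉ W ∧ y ∉ W ∧ z ∉ W ∧
      R * Real.exp (-(1 / 10000 * m)) ≤ A ((x : ℚ) - y) ∧
      R * Real.exp (-(1 / 10000 * m)) ≤ A ((x : ℚ) - z) ∧
      R * Real.exp (-(1 / 10000 * m)) ≤ A ((y : ℚ) - z) := by
  obtain ⟨cl, h'⟩ := Loc_3_ta h hθ hr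
  obtain ⟨x, hxT, hxW, hxS, hxc⟩ := Loc_3_pick h' hW 0
  obtain ⟨y, hyT, hyW, hyS, hyc⟩ := Loc_3_pick h' hW 1
  obtain ⟨z, hzT, hzW, hzS, hzc⟩ := Loc_3_pick h' hW 2
  refine ⟨x, hxT, y, hyT, z, hzT, hxW, hyW, hzW, h'.sep x hxS y hyS ?_, h'.sep x hxS z hzS ?_,
    h'.sep y hyS z hzS ?_⟩
  · rw [hxc, hyc]
    decide
  · rw [hxc, hzc]
    decide
  · rw [hyc, hzc]
    decide

/-- `PB.nodes` with `u = v = w = 1 / 10000`, `M = 4 R`; `4 ≤ exp (θ m)`. -/
theorem PB.d2 (h : PB f g A R m θ J T) (hθ : θ ≤ 1 / 100000000) {x y z : ℤ} (hx : x ∈ S)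
    (hy : y ∈ S) (hz : z ∈ S) (h1 : R * Real.exp (-(1 / 10000 * m)) ≤ A ((x : ℚ) - y))
    (h2 : R * Real.exp (-(1 / 10000 * m)) ≤ A ((x : ℚ) - z))
    (h3 : R * Real.exp (-(1 / 10000 * m)) ≤ A ((y : ℚ) - z)) {d0 d1 d2 : ℚ}
    (hPx : A (d2 * (x : ℚ) ^ 2 + d1 * x + d0) ≤ 4 * R)
    (hPy : A (d2 * (y : ℚ) ^ 2 + d1 * y + d0) ≤ 4 * R)
    (hPz : A (d2 * (z : ℚ) ^ 2 + d1 * z + d0) ≤ 4 * R) :
    A d2 * R ≤ Real.exp (1 / 1000 * m) := by
  have hR : 0 < R := lt_of_lt_of_le zero_lt_one h.R1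
  have hm := h.m0
  have h4 := h.nodes hx hy hz h1 h2 h3 hPx hPy hPz
  have h5 := h.e8
  have h6 : A d2 * R ≤ 4 * Real.exp ((1 / 10000 + 1 / 10000 + 1 / 10000 + θ) * m) := by
    have h7 : R * (A d2 * R) ≤
        R * (4 * Real.exp ((1 / 10000 + 1 / 10000 + 1 / 10000 + θ) * m)) := by
      calc R * (A d2 * R) = A d2 * R ^ 2 := by ring
        _ ≤ _ := h4
        _ = _ := by ring
    exact le_of_mul_le_mul_left h7 hR
  have h7 : 4 * Real.exp ((1 / 10000 + 1 / 10000 + 1 / 10000 + θ) * m) ≤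
      Real.exp (θ * m) * Real.exp ((1 / 10000 + 1 / 10000 + 1 / 10000 + θ) * m) := by
    apply mul_le_mul_of_nonneg_right _ (Real.exp_pos _).le
    linarith
  refine h6.trans (h7.trans ?_)
  rw [← Real.exp_add]
  apply Real.exp_le_exp.2
  nlinarith

end F0744E
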