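import Pool.Agent.Lib.MP_f0744f_nt.E.Pb
import Pool.Agent.Lib.MP_f0744f_nt.E.Bc
import Pool.Agent.Lib.MP_f0744f_nt.E.Loc
import Pool.Agent.Lib.MP_f0744f_nt.D.P2

/-! # Row Pc: a tight prime is a good place -/

set_option autoImplicit false

open Polynomial

namespace F0744E

open F0744C F0744D

variable {S : Finset ℤ} {a b : ℤ}

/-- `|3|_p ≥ 1/3` -/
theorem Pc_three (p : ℕ) [Fact p.Prime] : 1 / 3 ≤ Rat.AbsoluteValue.padic p 3 := by
  have hp : p.Prime := Fact.out
  rw [Rat.AbsoluteValue.padic_eq_padicNorm]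
  by_cases h : p = 3
  · subst h
    have h1 : padicNorm 3 ((3 : ℕ) : ℚ) = ((3 : ℕ) : ℚ)⁻¹ := padicNorm.padicNorm_p_of_prime
    have h2 : padicNorm 3 (3 : ℚ) = 1 / 3 := by
      have h3 : ((3 : ℕ) : ℚ) = 3 := by norm_num
      rw [h3] at h1
      rw [h1]
      norm_num
    rw [h2]
    norm_num
  · have h1 : padicNorm p ((3 : ℕ) : ℚ) = 1 := by
      rw [padicNorm.nat_eq_one_iff]
      intro hd
      exact h ((Nat.prime_dvd_prime_iff_eq hp Nat.prime_three).1 hd)
    have h2 : padicNorm p (3 : ℚ) = 1 := by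
      have h3 : ((3 : ℕ) : ℚ) = 3 := by norm_num
      rw [h3] at h1
      exact h1
    rw [h2]
    norm_num

theorem Pc_int (p : ℕ) [Fact p.Prime] (z : ℤ) : Rat.AbsoluteValue.padic p (z : ℚ) ≤ 1 := by
  rw [Rat.AbsoluteValue.padic_eq_padicNorm]
  exact_mod_cast padicNorm.of_int z

theorem Pc_EnP (p : ℕ) [Fact p.Prime] (T : Finset ℤ) :
    EnP p T = En (Rat.AbsoluteValue.padic p) 1 T := by
  unfold EnP En
  refine Finset.sum_congr rfl fun x _ => Finset.sum_congr rfl fun y hy => ?_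
  rw [uu_padic p (Finset.ne_of_mem_erase hy).symm]

theorem Pc_exp {t : ℝ} (h : Real.log 8 ≤ t) : Real.exp (-t) ≤ 1 / 8 := by
  have h1 : Real.exp (-t) ≤ Real.exp (-Real.log 8) := Real.exp_le_exp.2 (by linarith)
  rw [Real.exp_neg (Real.log 8), Real.exp_log (by norm_num)] at h1
  linarith

theorem Pc_log8 : 1 ≤ Real.log 8 := by
  rw [Real.le_log_iff_exp_le (by norm_num)]
  have := Real.exp_one_lt_d9
  linarith

theorem Pc_ne {d : ℕ} (f : PM S a (d + 1)) : f.F ≠ 0 := by
  intro h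
  have := f.deg
  rw [h, natDegree_zero] at this
  omega

/-- the common data at a tight prime -/
theorem Pc_base (f : PM S a 3) (g : PM S b 3) {p : ℕ} [Fact p.Prime] {J : ℕ} {θ : ℝ}
    {T : Finset ℤ} (hθ : 0 < θ)
    (hθ1 : θ ≤ 1 / 1000) (h8 : Real.log 8 ≤ θ * mP p f.F) (hg0 : 1 ≤ mP p g.F)
    (hN : 1 ≤ θ * S.card) (Tf : T ⊆ Dm S a f.ph (J + 3)) (Tg : T ⊆ Dm S b g.ph (J + 3))
    (Tm : ∀ x ∈ T, x ∈ S0 S a b ∧ f.ph x ∈ S0 S a b ∧ g.ph x ∈ S0 S a b)
    (hc : (1 - θ / 16) * S.card ≤ T.card) (hL : Lg J θ S.card)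
    (hEf : EnP p T ≤ (1 + θ / 16) * (T.card : ℝ) ^ 2 * (mP p f.F / 2))
    (hEg : EnP p T ≤ (1 + θ / 16) * (T.card : ℝ) ^ 2 * (mP p g.F / 2))
    (hsf : Rat.AbsoluteValue.padic p (s3 f.F) ≤ 1)
    (hsg : Rat.AbsoluteValue.padic p (s3 g.F) ≤ 1) :
    PB f g (Rat.AbsoluteValue.padic p) 1 (mP p f.F) θ J T := by
  have hmf := mm_padic p 3 (Pc_ne f)
  have hmg := mm_padic p 3 (Pc_ne g)
  have hexp := Pc_exp h8
  have hge : (1 : ℝ) ≤ Real.exp (θ * mP p f.F) := by
    rw [← Real.exp_zero]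
    have := Pc_log8
    exact Real.exp_le_exp.2 (by linarith)
  have key := mkPB f g (A := Rat.AbsoluteValue.padic p) (R := 1) (θ := θ) (J := J) (T := T)
    hθ (by linarith) (le_refl 1) (by rw [hmf]; exact h8) (by rw [hmg]; exact hg0)
    (by rw [hmf]; exact hexp.trans (le_trans (by norm_num) (P2_two p)))
    (by rw [hmf]; exact hexp.trans (le_trans (by norm_num) (Pc_three p)))
    (fun x _ => Pc_int p x)
    (by rw [hmf, one_mul]; exact hsf.trans hge)
    (by rw [hmf, one_mul]; exact hsg.trans hge)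
    hN Tf Tg Tm hc hL
    (by rw [← Pc_EnP, hmf]; exact hEf)
    (by rw [← Pc_EnP, hmg]; exact hEg)
  rw [hmf] at key
  exact key

/-- `A = padic p`, `R = 1`, `m = mm A 1 3 f.F = mP p f.F` (`mm_padic`, `EnP_eq` in `C/P3.lean`, `C/G1.lean`). `mkPB`: `|2|_p, |3|_p ≥ 1 / 3 ≥ exp (- θ m)` (`log 8 ≤ θ m`),
integers have size `≤ 1` (`N2_int` in `D/N2.lean`), `s3_int` (the sum of the multiplicities in `cls_p` is 3). `cls_p` with `η = θ / 16` and `exists_red`. First case: `cl x` = the `i`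
with `x = ρ i` (`0` if there is none): `TA`; `sep`: `P2_diff` in `D/P2.lean`; `simf`: `simple3`. Second case: `cl x = decide (x = ρ2)`: `TB`: `simple3`, `double3`,
`low1_p` (for `g` with `m = mP p f.F` and the bounds of `msize`: fields `mg1`, `mg2` give `(1 - θ) m ≤ mP p g.F`; use `msize` itself for `θ / 4`). -/
theorem loc_p (hab : a ≠ b) (f : PM S a 3) (g : PM S b 3) {p : ℕ} [Fact p.Prime]
    (prim : ∃ x ∈ S, ∃ y ∈ S, ¬ (p : ℤ) ∣ x - y) {J : ℕ} {θ : ℝ} {T : Finset ℤ} (hθ : 0 < θ)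
    (hθ1 : θ ≤ 1 / 1000) (h8 : Real.log 8 ≤ θ * mP p f.F) (hg0 : 1 ≤ mP p g.F)
    (hN : 1 ≤ θ * S.card) (Tf : T ⊆ Dm S a f.ph (J + 3)) (Tg : T ⊆ Dm S b g.ph (J + 3))
    (Tm : ∀ x ∈ T, x ∈ S0 S a b ∧ f.ph x ∈ S0 S a b ∧ g.ph x ∈ S0 S a b)
    (hc : (1 - θ / 16) * S.card ≤ T.card) (hL : Lg J θ S.card)
    (hB : Big 3 (2 * J) (θ / 16) T.card)
    (hEf : EnP p T ≤ (1 + θ / 16) * (T.card : ℝ) ^ 2 * (mP p f.F / 2))
    (hEg : EnP p T ≤ (1 + θ / 16) * (T.card : ℝ) ^ 2 * (mP p g.F / 2)) :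
    Loc f g (Rat.AbsoluteValue.padic p) 1 (mP p f.F) θ J T := by
  have hlog8 := Pc_log8
  have hf0 : 0 < mP p f.F := by
    by_contra hcon
    push Not at hcon
    have := mul_nonpos_of_nonneg_of_nonpos hθ.le hcon
    linarith
  have hf1 : 1 ≤ mP p f.F := by
    by_contra hcon
    push Not at hcon
    have h1 : θ * mP p f.F < θ * 1 := mul_lt_mul_of_pos_left hcon hθ
    linarith
  have hg0' : 0 < mP p g.F := by linarith
  obtain ⟨r⟩ := exists_red (Pc_ne f) (P5_neg hf0)
  obtain ⟨r'⟩ := exists_red (Pc_ne g) (P5_neg hg0')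
  have hexp := Pc_exp h8
  have hexp1 : Real.exp (-(θ * mP p f.F)) ≤ 1 := by linarith
  have Tne : T.Nonempty := by
    rw [← Finset.card_pos]
    have h1 : (0 : ℝ) < (S.card : ℝ) := by
      by_contra hcon
      push Not at hcon
      have := mul_nonpos_of_nonneg_of_nonpos hθ.le hcon
      linarith
    have h2 : 0 < (1 - θ / 16) * (S.card : ℝ) := mul_pos (by linarith) h1
    have h3 : (0 : ℝ) < (T.card : ℝ) := lt_of_lt_of_le h2 hc
    exact_mod_cast h3
  have hcls := cls_p hab f g prim J (Tf.trans (Dm_mono S a f.ph (by omega)))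
    (Tg.trans (Dm_mono S b g.ph (by omega))) Tne (η := θ / 16) (by linarith) (by linarith)
    (hL.1.trans (by linarith)) hB hf0 hg0' hEf hEg r r'
  rcases hcls with ⟨ρ, hinj, hmu, hall⟩ | ⟨ρ2, ρ1, hne, hmu2, hmu2', hmu1, hmu1', hall⟩
  · -- three simple classes
    classical
    have hsum : ∀ (q : ZMod p → ℕ), (∀ i, q (ρ i) = 1) →
        3 ≤ ∑ z ∈ Finset.univ.image ρ, q z := by
      intro q hq
      rw [Finset.sum_image (fun i _ j _ h => hinj h)]
      rw [Finset.sum_congr rfl (fun i _ => hq i)]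
      simp
    have hsf := s3_int f.deg r (C := Finset.univ.image ρ) (hsum _ (fun i => (hmu i).1))
    have hsg := s3_int g.deg r' (C := Finset.univ.image ρ) (hsum _ (fun i => (hmu i).2))
    have base := Pc_base f g hθ hθ1 h8 hg0 hN Tf Tg Tm hc hL hEf hEg hsf hsg
    have hex : ∃ cl : ℤ → Fin 3, ∀ x ∈ S0 S a b, (x : ZMod p) = ρ (cl x) := by
      refine ⟨fun x => if h : ∃ i, (x : ZMod p) = ρ i then h.choose else 0, ?_⟩
      intro x hx
      have h := hall x hx
      simp only [dif_pos h]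
      exact h.choose_spec
    obtain ⟨cl, hcl⟩ := hex
    refine Or.inl ⟨cl, ?_⟩
    refine
      { base := base
        sep := ?_
        simf := ?_
        simg := ?_ }
    · intro x hx y hy hxy
      have h1 : (x : ZMod p) ≠ (y : ZMod p) := by
        rw [hcl x hx, hcl y hy]
        exact fun h => hxy (hinj h)
      rw [P2_diff p h1, one_mul]
      exact hexp1
    · intro x hx y hy hxy
      have h1 : (x : ZMod p) = (y : ZMod p) := by rw [hcl x hx, hcl y hy, hxy]
      have h2 := simple3 f.deg r h1 (by rw [hcl x hx]; exact (hmu _).1)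
      rw [one_pow, one_mul]
      exact hexp1.trans h2
    · intro x hx y hy hxy
      have h1 : (x : ZMod p) = (y : ZMod p) := by rw [hcl x hx, hcl y hy, hxy]
      have h2 := simple3 g.deg r' h1 (by rw [hcl x hx]; exact (hmu _).2)
      rw [one_pow, one_mul]
      exact hexp1.trans h2
  · -- a double class and a simple class
    classical
    have hsf := s3_int f.deg r (C := {ρ2, ρ1}) (by
      rw [Finset.sum_pair hne, hmu2, hmu1])
    have hsg := s3_int g.deg r' (C := {ρ2, ρ1}) (by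
      rw [Finset.sum_pair hne, hmu2', hmu1'])
    have base := Pc_base f g hθ hθ1 h8 hg0 hN Tf Tg Tm hc hL hEf hEg hsf hsg
    have hsize : (1 - θ / 4) * mP p f.F ≤ mP p g.F ∧ mP p g.F ≤ (1 + θ / 4) * mP p f.F := by
      have hmf := mm_padic p 3 (Pc_ne f)
      have hmg := mm_padic p 3 (Pc_ne g)
      have h1 := msize f g (A := Rat.AbsoluteValue.padic p) (R := 1) (le_refl 1)
        (fun y _ => Pc_int p y) (J := J) hθ (by linarith) (by rw [hmf]; exact hf1)
        (by rw [hmg]; exact hg0) (Tf.trans (Dm_mono S a f.ph (by omega)))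
        (Tg.trans (Dm_mono S b g.ph (by omega))) hc hL
        (by rw [← Pc_EnP, hmf]; exact hEf) (by rw [← Pc_EnP, hmg]; exact hEg)
      rw [hmf, hmg] at h1
      exact h1
    have hθm : 0 < θ * mP p f.F := mul_pos hθ hf0
    have hTm' : θ * mP p f.F ≤ 1 / 1000 * mP p f.F := mul_le_mul_of_nonneg_right hθ1 hf0.le
    have htrue : ∀ x : ℤ, decide ((x : ZMod p) = ρ2) = true → (x : ZMod p) = ρ2 :=
      fun x h => of_decide_eq_true h
    have hfalse : ∀ x ∈ S0 S a b, decide ((x : ZMod p) = ρ2) = false → (x : ZMod p) = ρ1 := by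
      intro x hx h
      rcases hall x hx with h1 | h1
      · exact absurd h1 (of_decide_eq_false h)
      · exact h1
    refine Or.inr ⟨fun x => decide ((x : ZMod p) = ρ2), ?_⟩
    refine
      { base := base
        sep := ?_
        simf := ?_
        simg := ?_
        dblf := ?_
        dblg := ?_
        lowf1 := ?_
        lowg1 := ?_ }
    · intro x _ y _ hxy
      have h1 : (x : ZMod p) ≠ (y : ZMod p) := by
        intro h
        apply hxy
        simp only [h]
      rw [P2_diff p h1, one_mul]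
      exact hexp1
    · intro x hx y hy hx1 hy1
      have h1 := hfalse x hx hx1
      have h2 := hfalse y hy hy1
      have h3 := simple3 f.deg r (h1.trans h2.symm) (by rw [h1]; exact hmu1)
      rw [one_pow, one_mul]
      exact hexp1.trans h3
    · intro x hx y hy hx1 hy1
      have h1 := hfalse x hx hx1
      have h2 := hfalse y hy hy1
      have h3 := simple3 g.deg r' (h1.trans h2.symm) (by rw [h1]; exact hmu1')
      rw [one_pow, one_mul]
      exact hexp1.trans h3
    · intro x _ y _ z _ hx1 hy1 hz1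
      have h1 := htrue x hx1
      have h2 := htrue y hy1
      have h3 := htrue z hz1
      have h4 := double3 f.deg r (h1.trans h2.symm) (h1.trans h3.symm) (by rw [h1]; exact hmu2)
      rw [one_mul]
      exact hexp1.trans h4
    · intro x _ y _ z _ hx1 hy1 hz1
      have h1 := htrue x hx1
      have h2 := htrue y hy1
      have h3 := htrue z hz1
      have h4 := double3 g.deg r' (h1.trans h2.symm) (h1.trans h3.symm) (by rw [h1]; exact hmu2')
      rw [one_mul]
      exact hexp1.trans h4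
    · intro U hU hcU
      exact low1_p f r hf1 hθ (by linarith) (by linarith) (by linarith) hL hmu2 hU
        (fun x hx => htrue x (hcU x hx).2)
    · intro U hU hcU
      exact low1_p g r' hf1 hθ (by linarith) hsize.1 (by linarith [hsize.2]) hL hmu2' hU
        (fun x hx => htrue x (hcU x hx).2)

end F0744E
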