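import Pool.Agent.Lib.MP_f0744f_nt.E.Rc_1

/-! # Row Rc_2: the roots of a cubic polynomial -/

set_option autoImplicit false

open Polynomial

namespace F0744E

open F0744C F0744D

variable {S : Finset ℤ} {a b : ℤ}

theorem Rc_2_toPoly {F : ℚ[X]} (hF : F.natDegree = 3) :
    (⟨F.coeff 3, F.coeff 2, F.coeff 1, F.coeff 0⟩ : Cubic ℚ).toPoly = F := by
  conv_rhs => rw [F.as_sum_range_C_mul_X_pow, hF]
  simp only [Cubic.toPoly, Finset.sum_range_succ, Finset.sum_range_zero]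
  ring

/-- The roots of `F.map` are a multiset with three elements (`IsAlgClosed`), Vieta (compare the coefficients of `F = α (X - z1) (X - z2) (X - z3)`). -/
theorem roots3 {F : ℚ[X]} (hF : F.natDegree = 3) : ∃ z1 z2 z3 : ℂ,
    (F.map (algebraMap ℚ ℂ)).roots = {z1, z2, z3} ∧ ((s3 F : ℚ) : ℂ) = z1 + z2 + z3 ∧
    ∀ x y : ℚ, ((qq F x y : ℚ) : ℂ) = (x : ℂ) ^ 2 + x * y + y ^ 2 - (z1 + z2 + z3) * (x + y) +
      (z1 * z2 + z1 * z3 + z2 * z3) := by
  set P : Cubic ℚ := ⟨F.coeff 3, F.coeff 2, F.coeff 1, F.coeff 0⟩ with hP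
  have hPF : P.toPoly = F := Rc_2_toPoly hF
  have hlc : F.leadingCoeff = F.coeff 3 := by rw [leadingCoeff, hF]
  have hF0 : F ≠ 0 := by
    intro h
    rw [h, natDegree_zero] at hF
    omega
  have ha : P.a ≠ 0 := by
    have : P.a = F.leadingCoeff := by rw [hlc]
    rw [this]
    exact leadingCoeff_ne_zero.2 hF0
  have hcard : Multiset.card (F.map (algebraMap ℚ ℂ)).roots = 3 := by
    have h1 := splits_iff_card_roots.1 (IsAlgClosed.splits (F.map (algebraMap ℚ ℂ)))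
    rw [h1, natDegree_map, hF]
  obtain ⟨z1, z2, z3, hz⟩ := Multiset.card_eq_three.1 hcard
  have h3 : (Cubic.map (algebraMap ℚ ℂ) P).roots = {z1, z2, z3} := by
    rw [Cubic.map_roots, hPF, hz]
  have hb := Cubic.b_eq_three_roots ha h3
  have hc := Cubic.c_eq_three_roots ha h3
  have haC : (algebraMap ℚ ℂ) P.a ≠ 0 := by
    rw [Ne, map_eq_zero]
    exact ha
  have e1 : ((F.leadingCoeff : ℚ) : ℂ) = (algebraMap ℚ ℂ) P.a := by
    rw [hlc]
    rfl
  have e2 : ((F.coeff 2 : ℚ) : ℂ) = (algebraMap ℚ ℂ) P.b := rfl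
  have e3 : ((F.coeff 1 : ℚ) : ℂ) = (algebraMap ℚ ℂ) P.c := rfl
  have hs : ((s3 F : ℚ) : ℂ) = z1 + z2 + z3 := by
    unfold s3
    push_cast
    rw [e1, e2, hb]
    field_simp
  refine ⟨z1, z2, z3, hz, hs, ?_⟩
  intro x y
  unfold qq
  push_cast
  rw [hs, e1, e3, hc, mul_div_cancel_left₀ _ haC]

end F0744E
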