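import Pool.Agent.Lib.MP_f0744f_nt.E.Rc_2

/-! # Row Rc_3: the roots of a cubic polynomial -/

set_option autoImplicit false

open Polynomial

namespace F0744E

open F0744C F0744D

variable {S : Finset ℤ} {a b : ℤ}

theorem Rc_3_aux {ρ1 ρ2 : ℝ} (h0 : 0 < ρ1) (h12 : 1000 * ρ1 ≤ ρ2) {c x y z1 z2 z3 : ℂ}
    (h1 : ‖z1 - c‖ ≤ ρ1) (h2 : ρ2 ≤ ‖z2 - c‖) (h3 : ρ2 ≤ ‖z3 - c‖) (hx : ‖x - c‖ ≤ 2 * ρ1)
    (hy : ‖y - c‖ ≤ 2 * ρ1) :
    (ρ2 / 2) ^ 2 ≤ ‖(x - z2) * (x - z3) + (y - z1) * ((x - z2) + (y - z3))‖ := by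
  have hρ2 : 0 < ρ2 := by linarith
  set u := ‖z2 - c‖ with hu
  set v := ‖z3 - c‖ with hv
  have hu0 : 0 < u := by linarith
  have hv0 : 0 < v := by linarith
  have ax2 : 9 / 10 * u ≤ ‖x - z2‖ := by
    have h4 : u ≤ ‖x - z2‖ + ‖x - c‖ := by
      have : z2 - c = (x - c) - (x - z2) := by ring
      rw [hu, this]
      exact (norm_sub_le _ _).trans (by linarith)
    linarith
  have ax3 : 9 / 10 * v ≤ ‖x - z3‖ := by
    have h4 : v ≤ ‖x - z3‖ + ‖x - c‖ := by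
      have : z3 - c = (x - c) - (x - z3) := by ring
      rw [hv, this]
      exact (norm_sub_le _ _).trans (by linarith)
    linarith
  have ay1 : ‖y - z1‖ ≤ 3 * ρ1 := by
    have : y - z1 = (y - c) - (z1 - c) := by ring
    rw [this]
    exact (norm_sub_le _ _).trans (by linarith)
  have as : ‖(x - z2) + (y - z3)‖ ≤ 2 * (u + v) := by
    have h5 : (x - z2) + (y - z3) = ((x - c) - (z2 - c)) + ((y - c) - (z3 - c)) := by ring
    rw [h5]
    have h6 := norm_add_le ((x - c) - (z2 - c)) ((y - c) - (z3 - c))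
    have h7 := norm_sub_le (x - c) (z2 - c)
    have h8 := norm_sub_le (y - c) (z3 - c)
    linarith
  have huv : 2 * (u + v) * ρ2 ≤ 4 * (u * v) := by nlinarith
  have hprod : 81 / 100 * (u * v) ≤ ‖(x - z2) * (x - z3)‖ := by
    rw [norm_mul]
    have := mul_le_mul ax2 ax3 (by positivity) (norm_nonneg _)
    linarith
  have hprod2 : ‖(y - z1) * ((x - z2) + (y - z3))‖ ≤ 12 / 1000 * (u * v) := by
    rw [norm_mul]
    have h9 := mul_le_mul ay1 as (norm_nonneg _) (by positivity)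
    have h10 : 3 * ρ1 * (2 * (u + v)) ≤ 3 / 1000 * ρ2 * (2 * (u + v)) := by
      apply mul_le_mul_of_nonneg_right _ (by positivity)
      linarith
    have h11 : 3 / 1000 * ρ2 * (2 * (u + v)) = 3 / 1000 * (2 * (u + v) * ρ2) := by ring
    linarith
  have htri : ‖(x - z2) * (x - z3)‖ ≤ ‖(x - z2) * (x - z3) + (y - z1) * ((x - z2) + (y - z3))‖ +
      ‖(y - z1) * ((x - z2) + (y - z3))‖ := by
    have := norm_sub_le ((x - z2) * (x - z3) + (y - z1) * ((x - z2) + (y - z3)))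
      ((y - z1) * ((x - z2) + (y - z3)))
    rwa [add_sub_cancel_right] at this
  have hfin : ρ2 ^ 2 ≤ u * v := by nlinarith
  have h12' : 0 < u * v := mul_pos hu0 hv0
  nlinarith

/-- One root, `z1`, is in the disc, the others have distance `≥ ρ2` from `c`. `qq x y = (x - z2) (x - z3) + (y - z1) ((x - z2) + (y - z3))`; with
`u = ‖c - z2‖`, `v = ‖c - z3‖ ≥ ρ2`: `|x - z2| ≥ u - 2 ρ1 ≥ 9 / 10 u`, `|y - z1| ≤ 3 ρ1`, `|(x - z2) + (y - z3)| ≤ 2 (u + v) ≤ 4 u v / ρ2`. -/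
theorem simple_r {F : ℚ[X]} (hF : F.natDegree = 3) {c : ℂ} {ρ1 ρ2 : ℝ} (h0 : 0 < ρ1)
    (h12 : 1000 * ρ1 ≤ ρ2)
    (hr : ∀ z ∈ (F.map (algebraMap ℚ ℂ)).roots, ‖z - c‖ ≤ ρ1 ∨ ρ2 ≤ ‖z - c‖)
    (hc : cnt F c ρ1 = 1) {x y : ℤ} (hx : ‖(x : ℂ) - c‖ ≤ 2 * ρ1) (hy : ‖(y : ℂ) - c‖ ≤ 2 * ρ1) :
    (ρ2 / 2) ^ 2 ≤ |((qq F x y : ℚ) : ℝ)| := by
  classical
  obtain ⟨z1, z2, z3, hz, -, hq⟩ := roots3 hF
  have h1 := hr z1 (by rw [hz]; simp)
  have h2 := hr z2 (by rw [hz]; simp)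
  have h3 := hr z3 (by rw [hz]; simp)
  have hlt : ρ1 < ρ2 := by linarith
  have hcc : (if ‖z1 - c‖ ≤ ρ1 then 1 else 0) + (if ‖z2 - c‖ ≤ ρ1 then 1 else 0) +
      (if ‖z3 - c‖ ≤ ρ1 then 1 else 0) = 1 := by
    have h4 : cnt F c ρ1 = Multiset.countP (fun z => ‖z - c‖ ≤ ρ1) {z1, z2, z3} := by
      unfold cnt
      rw [hz]
    have h5 : ({z1, z2, z3} : Multiset ℂ) = z1 ::ₘ z2 ::ₘ z3 ::ₘ 0 := rfl
    rw [h4, h5, Multiset.countP_cons, Multiset.countP_cons, Multiset.countP_cons,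
      Multiset.countP_zero] at hc
    omega
  have hqn : |((qq F x y : ℚ) : ℝ)| = ‖((x : ℂ) ^ 2 + x * y + y ^ 2 - (z1 + z2 + z3) * (x + y) +
      (z1 * z2 + z1 * z3 + z2 * z3))‖ := by
    have h6 := hq x y
    rw [Rat.cast_intCast, Rat.cast_intCast] at h6
    rw [← h6]
    exact (Complex.norm_ratCast _).symm
  rw [hqn]
  have hno : ∀ {z : ℂ}, ρ2 ≤ ‖z - c‖ → ¬ ‖z - c‖ ≤ ρ1 := fun h h' => by linarith
  rcases h1 with h1 | h1
  · rcases h2 with h2 | h2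
    · rw [if_pos h1, if_pos h2] at hcc
      omega
    · rcases h3 with h3 | h3
      · rw [if_pos h1, if_pos h3] at hcc
        omega
      · refine (Rc_3_aux h0 h12 h1 h2 h3 hx hy).trans (le_of_eq ?_)
        congr 1
        ring
  · rcases h2 with h2 | h2
    · rcases h3 with h3 | h3
      · rw [if_pos h2, if_pos h3] at hcc
        omega
      · refine (Rc_3_aux h0 h12 h2 h1 h3 hx hy).trans (le_of_eq ?_)
        congr 1
        ring
    · rcases h3 with h3 | h3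
      · refine (Rc_3_aux h0 h12 h3 h1 h2 hx hy).trans (le_of_eq ?_)
        congr 1
        ring
      · rw [if_neg (hno h1), if_neg (hno h2), if_neg (hno h3)] at hcc
        omega

end F0744E
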