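import Pool.Agent.Lib.MP_f0744f_nt.E.Rc_3

/-! # Row Rc_4: the roots of a cubic polynomial -/

set_option autoImplicit false

open Polynomial

namespace F0744E

open F0744C F0744D

variable {S : Finset ℤ} {a b : ℤ}

theorem Rc_4_one {c w1 w2 w3 : ℂ} {ρ1 ρ2 : ℝ} (h0 : 0 < ρ1) (h12 : 1000 * ρ1 ≤ ρ2)
    (h1 : ‖w1 - c‖ ≤ ρ1) (h2 : ‖w2 - c‖ ≤ ρ1) (h3 : ρ2 ≤ ‖w3 - c‖) {x y z : ℂ}
    (hx : ‖x - c‖ ≤ 2 * ρ1) (hy : ‖y - c‖ ≤ 2 * ρ1) (hz : ‖z - c‖ ≤ 2 * ρ1) :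
    ρ2 / 2 ≤ ‖x + y + z - (w1 + w2 + w3)‖ := by
  have e : w3 - c = ((x - c) + (y - c) + (z - c)) - ((w1 - c) + (w2 - c)) -
      (x + y + z - (w1 + w2 + w3)) := by ring
  have h4 : ‖w3 - c‖ ≤ ‖((x - c) + (y - c) + (z - c)) - ((w1 - c) + (w2 - c))‖ +
      ‖x + y + z - (w1 + w2 + w3)‖ := by
    rw [e]
    exact norm_sub_le _ _
  have h5 : ‖((x - c) + (y - c) + (z - c)) - ((w1 - c) + (w2 - c))‖ ≤
      ‖(x - c) + (y - c) + (z - c)‖ + ‖(w1 - c) + (w2 - c)‖ := norm_sub_le _ _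
  have h6 : ‖(x - c) + (y - c) + (z - c)‖ ≤ ‖(x - c) + (y - c)‖ + ‖z - c‖ := norm_add_le _ _
  have h7 : ‖(x - c) + (y - c)‖ ≤ ‖x - c‖ + ‖y - c‖ := norm_add_le _ _
  have h8 : ‖(w1 - c) + (w2 - c)‖ ≤ ‖w1 - c‖ + ‖w2 - c‖ := norm_add_le _ _
  linarith

theorem Rc_4_abs (q : ℚ) : |((q : ℚ) : ℝ)| = ‖((q : ℚ) : ℂ)‖ := by
  have h : ((q : ℚ) : ℂ) = (((q : ℚ) : ℝ) : ℂ) := by push_cast; rfl
  rw [h, Complex.norm_real, Real.norm_eq_abs]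

/-- Two roots `z1, z2` are in the disc and the third has distance `≥ ρ2` from `c`: `x + y + z - s3 = (x - z1) + (y - z2) + (z - z3)`. -/
theorem double_r {F : ℚ[X]} (hF : F.natDegree = 3) {c : ℂ} {ρ1 ρ2 : ℝ} (h0 : 0 < ρ1)
    (h12 : 1000 * ρ1 ≤ ρ2)
    (hr : ∀ z ∈ (F.map (algebraMap ℚ ℂ)).roots, ‖z - c‖ ≤ ρ1 ∨ ρ2 ≤ ‖z - c‖)
    (hc : cnt F c ρ1 = 2) {x y z : ℤ} (hx : ‖(x : ℂ) - c‖ ≤ 2 * ρ1)
    (hy : ‖(y : ℂ) - c‖ ≤ 2 * ρ1) (hz : ‖(z : ℂ) - c‖ ≤ 2 * ρ1) :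
    ρ2 / 2 ≤ |(((x : ℚ) + y + z - s3 F : ℚ) : ℝ)| := by
  obtain ⟨z1, z2, z3, hroots, hs, -⟩ := roots3 hF
  have hr' : ∀ w : ℂ, w = z1 ∨ w = z2 ∨ w = z3 → ‖w - c‖ ≤ ρ1 ∨ ρ2 ≤ ‖w - c‖ := by
    intro w hw
    refine hr w ?_
    rw [hroots]
    simp only [Multiset.insert_eq_cons, Multiset.mem_cons, Multiset.mem_singleton]
    exact hw
  have hq : |(((x : ℚ) + y + z - s3 F : ℚ) : ℝ)| = ‖(x : ℂ) + y + z - (z1 + z2 + z3)‖ := by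
    rw [Rc_4_abs]
    congr 1
    rw [← hs]
    push_cast
    rfl
  rw [hq]
  unfold cnt at hc
  rw [hroots] at hc
  simp only [Multiset.insert_eq_cons, Multiset.countP_cons] at hc
  rw [← Multiset.cons_zero, Multiset.countP_cons, Multiset.countP_zero] at hc
  by_cases h1 : ‖z1 - c‖ ≤ ρ1
  · by_cases h2 : ‖z2 - c‖ ≤ ρ1
    · by_cases h3 : ‖z3 - c‖ ≤ ρ1
      · rw [if_pos h1, if_pos h2, if_pos h3] at hc
        omega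
      · exact Rc_4_one h0 h12 h1 h2 ((hr' z3 (Or.inr (Or.inr rfl))).resolve_left h3) hx hy hz
    · by_cases h3 : ‖z3 - c‖ ≤ ρ1
      · have := Rc_4_one h0 h12 h1 h3 ((hr' z2 (Or.inr (Or.inl rfl))).resolve_left h2) hx hy hz
        rw [show z1 + z2 + z3 = z1 + z3 + z2 by ring]
        exact this
      · rw [if_pos h1, if_neg h2, if_neg h3] at hc
        omega
  · by_cases h2 : ‖z2 - c‖ ≤ ρ1
    · by_cases h3 : ‖z3 - c‖ ≤ ρ1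
      · have := Rc_4_one h0 h12 h2 h3 ((hr' z1 (Or.inl rfl)).resolve_left h1) hx hy hz
        rw [show z1 + z2 + z3 = z2 + z3 + z1 by ring]
        exact this
      · rw [if_neg h1, if_pos h2, if_neg h3] at hc
        omega
    · by_cases h3 : ‖z3 - c‖ ≤ ρ1
      · rw [if_neg h1, if_neg h2, if_pos h3] at hc
        omega
      · rw [if_neg h1, if_neg h2, if_neg h3] at hc
        omega

/-- `roots3`. -/
theorem s3_r {F : ℚ[X]} (hF : F.natDegree = 3) {L : ℝ}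
    (h : ∀ z ∈ (F.map (algebraMap ℚ ℂ)).roots, ‖z‖ ≤ 2 * L) : |((s3 F : ℚ) : ℝ)| ≤ 6 * L := by
  obtain ⟨z1, z2, z3, hroots, hs, -⟩ := roots3 hF
  have hr' : ∀ w : ℂ, w = z1 ∨ w = z2 ∨ w = z3 → ‖w‖ ≤ 2 * L := by
    intro w hw
    refine h w ?_
    rw [hroots]
    simp only [Multiset.insert_eq_cons, Multiset.mem_cons, Multiset.mem_singleton]
    exact hw
  rw [Rc_4_abs, hs]
  have h1 := hr' z1 (Or.inl rfl)
  have h2 := hr' z2 (Or.inr (Or.inl rfl))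
  have h3 := hr' z3 (Or.inr (Or.inr rfl))
  have h4 : ‖z1 + z2 + z3‖ ≤ ‖z1 + z2‖ + ‖z3‖ := norm_add_le _ _
  have h5 : ‖z1 + z2‖ ≤ ‖z1‖ + ‖z2‖ := norm_add_le _ _
  linarith

end F0744E
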