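import Pool.Agent.Lib.MP_f0744f_nt.E.Rc_1
import Pool.Agent.Lib.MP_f0744f_nt.E.Rc_2
import Pool.Agent.Lib.MP_f0744f_nt.E.Rc_3
import Pool.Agent.Lib.MP_f0744f_nt.E.Rc_4

/-! # the roots of a cubic polynomial -/
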