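import Pool.Agent.Lib.MP_f0744f_nt.D.R1
import Pool.Agent.Lib.MP_f0744f_nt.E.B0

/-! # Row Ra: the real place: clusters -/

set_option autoImplicit false

open Polynomial

namespace F0744E

open F0744C F0744D

variable {S : Finset ℤ} {a b : ℤ}

/-- the data of the clusters -/
structure Clus3 (F G : ℚ[X]) (ξ L ρ1 ρ2 : ℝ) (C : Finset ℂ) : Prop where
  pos : 0 < ρ1
  sep : 16 ^ (3 + 2) * ρ1 ≤ ρ2
  leL : ρ2 ≤ L
  two : Real.log 2 ≤ ξ * Real.log L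
  del : Real.log L - Real.log (ρ2 / 2) ≤ ξ * Real.log L
  aF : L ≤ |((F.leadingCoeff : ℚ) : ℝ)| * ρ1 ^ 3
  aG : L ≤ |((G.leadingCoeff : ℚ) : ℝ)| * ρ1 ^ 3
  sepC : ∀ c ∈ C, ∀ c' ∈ C, c ≠ c' → ρ2 ≤ ‖c - c'‖
  rF : ∀ c ∈ C, ∀ z ∈ (F.map (algebraMap ℚ ℂ)).roots, ‖z - c‖ ≤ ρ1 ∨ ρ2 ≤ ‖z - c‖
  rG : ∀ c ∈ C, ∀ z ∈ (G.map (algebraMap ℚ ℂ)).roots, ‖z - c‖ ≤ ρ1 ∨ ρ2 ≤ ‖z - c‖
  cF : ∀ z ∈ (F.map (algebraMap ℚ ℂ)).roots, ∃ c ∈ C, ‖z - c‖ ≤ ρ1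
  cG : ∀ z ∈ (G.map (algebraMap ℚ ℂ)).roots, ∃ c ∈ C, ‖z - c‖ ≤ ρ1

/-- The same proof as `exists_clus'` in `D/R1.lean` (there `F` has degree 2, `G` degree `e`) with `D = 6`. -/
theorem exists_clus3 {ξ κ : ℝ} (hξ : 0 < ξ) (hκ : 0 < κ) (hξκ : ξ ≤ κ) :
    ∃ Λ0 : ℝ, ∀ (F G : ℚ[X]) (L : ℝ), F.natDegree = 3 → G.natDegree = 3 → 1 ≤ L →
      Λ0 ≤ Real.log L →
      κ * (2 * Real.log L) ≤ mm Rat.AbsoluteValue.real L 3 F →
      κ * (2 * Real.log L) ≤ mm Rat.AbsoluteValue.real L 3 G →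
      ∃ (ρ1 ρ2 : ℝ) (C : Finset ℂ), Clus3 F G ξ L ρ1 ρ2 C := by
  obtain ⟨D, hD⟩ : ∃ D : ℝ, D = (6 : ℝ) := ⟨_, rfl⟩
  obtain ⟨κ0, hκdef⟩ : ∃ κ0 : ℝ, κ0 = ξ / (2 * (D + 1) ^ 2) := ⟨_, rfl⟩
  have hκ0 : 0 < κ0 := by rw [hκdef, hD]; positivity
  refine ⟨max (2 * Real.log 2 / ξ) ((D + 2) * Real.log 16 / κ0) + 1, ?_⟩
  intro F G L hF hG hL hΛ hmF hmG
  obtain ⟨Λ, hΛdef⟩ : ∃ Λ : ℝ, Λ = Real.log L := ⟨_, rfl⟩
  rw [← hΛdef] at hΛ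
  have hlog2 : 0 < Real.log 2 := Real.log_pos (by norm_num)
  have hlog16 : 0 < Real.log 16 := Real.log_pos (by norm_num)
  have hΛ1 : 2 * Real.log 2 / ξ ≤ Λ := by
    have := le_max_left (2 * Real.log 2 / ξ) ((D + 2) * Real.log 16 / κ0)
    linarith
  have hΛ2 : (D + 2) * Real.log 16 / κ0 ≤ Λ := by
    have := le_max_right (2 * Real.log 2 / ξ) ((D + 2) * Real.log 16 / κ0)
    linarith
  have hΛ0 : 0 < Λ := lt_of_lt_of_le (by positivity) hΛ1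
  have hL0 : 0 < L := by linarith
  have hexpL : Real.exp Λ = L := by rw [hΛdef, Real.exp_log hL0]
  have htwo : Real.log 2 ≤ ξ / 2 * Λ := by
    rw [div_le_iff₀ hξ] at hΛ1
    linarith
  have hbig : (D + 2) * Real.log 16 ≤ κ0 * Λ := by
    rw [div_le_iff₀ hκ0] at hΛ2
    linarith
  obtain ⟨Z, hZ⟩ : ∃ Z : Finset ℂ, Z = (F.map (algebraMap ℚ ℂ)).roots.toFinset ∪
    (G.map (algebraMap ℚ ℂ)).roots.toFinset := ⟨_, rfl⟩
  have hcard : (Z.card : ℝ) ≤ D := by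
    have c1 : ∀ P : ℚ[X], (P.map (algebraMap ℚ ℂ)).roots.toFinset.card ≤ P.natDegree := by
      intro P
      refine (Multiset.toFinset_card_le _).trans ((Polynomial.card_roots' _).trans ?_)
      exact Polynomial.natDegree_map_le
    have c2 : Z.card ≤ 6 := by
      rw [hZ]
      refine (Finset.card_union_le _ _).trans ?_
      have h2 := c1 F
      have h3 := c1 G
      omega
    rw [hD]
    exact_mod_cast c2
  have hmF' : ∀ z ∈ (F.map (algebraMap ℚ ℂ)).roots, z ∈ Z := by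
    intro z hz
    rw [hZ, Finset.mem_union, Multiset.mem_toFinset]
    exact Or.inl hz
  have hmG' : ∀ z ∈ (G.map (algebraMap ℚ ℂ)).roots, z ∈ Z := by
    intro z hz
    rw [hZ, Finset.mem_union, Multiset.mem_toFinset, Multiset.mem_toFinset]
    exact Or.inr hz
  obtain ⟨k, hk, hwin⟩ := exists_window Z hκ0 hΛ0
  have hkD : (k : ℝ) ≤ D ^ 2 := by
    have h2 : (k : ℝ) ≤ (Z.card : ℝ) ^ 2 := by exact_mod_cast hk
    exact h2.trans (pow_le_pow_left₀ (Nat.cast_nonneg _) hcard 2)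
  have hk0 : (0 : ℝ) ≤ k := Nat.cast_nonneg k
  have hκk : κ0 * (k + 1) ≤ ξ / 2 := by
    rw [hκdef, hD, div_mul_eq_mul_div, div_le_div_iff₀ (by norm_num) (by norm_num)]
    have h2 : (k : ℝ) + 1 ≤ 49 := by rw [hD] at hkD; linarith
    have h3 := mul_le_mul_of_nonneg_left h2 hξ.le
    linarith
  have hκk' : κ0 * k ≤ ξ / 2 := by
    have : κ0 * (k + 1) = κ0 * k + κ0 := by ring
    linarith
  obtain ⟨ρ1, hρ1⟩ : ∃ ρ : ℝ, ρ = Real.exp ((1 - κ0 * (k + 1)) * Λ) := ⟨_, rfl⟩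
  obtain ⟨ρ2, hρ2⟩ : ∃ ρ : ℝ, ρ = Real.exp ((1 - κ0 * k) * Λ) := ⟨_, rfl⟩
  rw [← hρ1, ← hρ2] at hwin
  have p1 : 0 < ρ1 := by rw [hρ1]; exact Real.exp_pos _
  have p2 : 0 < ρ2 := by rw [hρ2]; exact Real.exp_pos _
  obtain ⟨C, hCZ, hC1, hC2⟩ := exists_reps Z p1.le hwin
  have hratio : ρ2 = Real.exp (κ0 * Λ) * ρ1 := by
    rw [hρ1, hρ2, ← Real.exp_add]
    congr 1
    ring
  have hsep : 16 ^ (3 + 2) * ρ1 ≤ ρ2 := by
    rw [hratio]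
    apply mul_le_mul_of_nonneg_right _ p1.le
    have h2 : ((16 : ℝ)) ^ (3 + 2) = Real.exp (((3 + 2 : ℕ) : ℝ) * Real.log 16) := by
      rw [Real.exp_nat_mul, Real.exp_log (by norm_num)]
    rw [h2]
    apply Real.exp_le_exp.mpr
    refine le_trans ?_ hbig
    apply mul_le_mul_of_nonneg_right _ hlog16.le
    rw [hD]
    norm_num
  have hθ : 1 - κ / 2 ≤ 1 - κ0 * (k + 1) := by linarith
  have hcast : ∀ y : ℝ, κ * ((((3 : ℕ) : ℝ) - 1) * y) = κ * (2 * y) := by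
    intro y
    push_cast
    ring
  refine ⟨ρ1, ρ2, C, ⟨p1, hsep, ?_, ?_, ?_, ?_, ?_, hC2, ?_, ?_, ?_, ?_⟩⟩
  · rw [← hexpL, hρ2]
    apply Real.exp_le_exp.mpr
    have h2 : 0 ≤ κ0 * k * Λ := by positivity
    have h3 : (1 - κ0 * k) * Λ = Λ - κ0 * k * Λ := by ring
    linarith
  · rw [← hΛdef]
    have h2 : ξ * Λ = ξ / 2 * Λ + ξ / 2 * Λ := by ring
    have h3 : 0 ≤ ξ / 2 * Λ := by positivity
    linarith
  · rw [Real.log_div p2.ne' (by norm_num), hρ2, Real.log_exp, ← hΛdef]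
    have h2 : κ0 * k * Λ ≤ ξ / 2 * Λ := mul_le_mul_of_nonneg_right hκk' hΛ0.le
    have h3 : (1 - κ0 * k) * Λ = Λ - κ0 * k * Λ := by ring
    have h4 : ξ * Λ = ξ / 2 * Λ + ξ / 2 * Λ := by ring
    linarith
  · rw [hρ1, hΛdef]
    refine lead_ge' hF (by norm_num) hL hκ ?_ hθ
    rw [hcast]
    exact hmF
  · rw [hρ1, hΛdef]
    refine lead_ge' hG (by norm_num) hL hκ ?_ hθ
    rw [hcast]
    exact hmG
  · intro c hc z hz
    exact hwin z (hmF' z hz) c (hCZ hc)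
  · intro c hc z hz
    exact hwin z (hmG' z hz) c (hCZ hc)
  · intro z hz
    exact hC1 z (hmF' z hz)
  · intro z hz
    exact hC1 z (hmG' z hz)

end F0744E
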