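import Pool.Agent.Lib.MP_f0744f_nt.E.Ba
import Pool.Agent.Lib.MP_f0744f_nt.E.Ra
import Pool.Agent.Lib.MP_f0744f_nt.C.R4

/-! # Row Rd: the double disc: energy -/

set_option autoImplicit false

open Polynomial

namespace F0744E

open F0744C F0744D

variable {S : Finset ℤ} {a b : ℤ}

/-- `EnR_ge` for `U` (all its points are within `2 ρ1` of `c`, so `dsc U c' (2 ρ1)` is empty for the other centres and is `U` for `c`): with `M = mm`, `δ = log L - log (ρ2 / 2) ≤ ξ log L`: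
`(M (3 - 1 / 3 ^ J) / 2 - 3 δ) u ^ 2 / 2 - M (4 J + 6) u - 4 u log u - u ^ 2 log 2 ≤ En U`. `ξ log L ≤ θ / 16 m` and `log 2 ≤ ξ log L`. `C'` = the `c' ∈ C` with
`1 ≤ cnt f.F c' ρ1` in place of `C`. -/
theorem low1_r (f : PM S a 3) {L : ℝ} (hL1 : 1 ≤ L) (hL : ∀ y ∈ S, |((y : ℤ) : ℝ)| ≤ L) {J : ℕ}
    {m θ ξ : ℝ} (hm : 1 ≤ m) (hθ : 0 < θ) (hθ1 : θ ≤ 1)
    (hM : (1 - θ / 4) * m ≤ mm Rat.AbsoluteValue.real L 3 f.F)
    (hM2 : mm Rat.AbsoluteValue.real L 3 f.F ≤ 2 * m) (hLg : Lg J θ S.card)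
    (hξ : ξ * Real.log L ≤ θ / 16 * m) {ρ1 ρ2 : ℝ} {C : Finset ℂ} (h0 : 0 < ρ1)
    (h12 : 16 ^ (3 + 2) * ρ1 ≤ ρ2) (h2 : ρ2 ≤ L) (htwo : Real.log 2 ≤ ξ * Real.log L)
    (hδ : Real.log L - Real.log (ρ2 / 2) ≤ ξ * Real.log L)
    (hα : L ≤ |((f.F.leadingCoeff : ℚ) : ℝ)| * ρ1 ^ 3)
    (hC : ∀ c ∈ C, ∀ c' ∈ C, c ≠ c' → ρ2 ≤ ‖c - c'‖)
    (hr : ∀ c ∈ C, ∀ z ∈ (f.F.map (algebraMap ℚ ℂ)).roots, ‖z - c‖ ≤ ρ1 ∨ ρ2 ≤ ‖z - c‖)
    {c : ℂ} (hc : c ∈ C) (hμ : cnt f.F c ρ1 = 2) {U : Finset ℤ} (hU : U ⊆ Dm S a f.ph (J + 1))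
    (hUc : ∀ x ∈ U, ‖(x : ℂ) - c‖ ≤ 2 * ρ1) :
    3 / 4 * (U.card : ℝ) ^ 2 * m - θ * (S.card : ℝ) ^ 2 * m ≤
      En Rat.AbsoluteValue.real L U := by
  classical
  have hlog2 : 0 ≤ Real.log 2 := Real.log_nonneg (by norm_num)
  have hM0 : 0 ≤ mm Rat.AbsoluteValue.real L 3 f.F := by
    refine le_trans ?_ hM
    have : 0 ≤ 1 - θ / 4 := by linarith
    exact mul_nonneg this (by linarith)
  have hdsc : dsc U c (2 * ρ1) = U := by
    unfold dsc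
    exact Finset.filter_true_of_mem hUc
  have key := EnR_ge f (by norm_num : 2 ≤ 3) hL1 hL J h0 h12 h2 hα (C := {c}) (by
      intro c1 hc1 c2 hc2 hne
      rw [Finset.mem_singleton] at hc1 hc2
      exact absurd (hc1.trans hc2.symm) hne) (by
      intro c1 hc1
      rw [Finset.mem_singleton] at hc1
      rw [hc1]
      exact hr c hc) (by
      intro c1 hc1
      rw [Finset.mem_singleton] at hc1
      rw [hc1, hμ]
      norm_num) hU (fun x hx => ⟨c, Finset.mem_singleton_self c, hUc x hx⟩) hM0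
  rw [Finset.sum_singleton, hdsc, hμ] at key
  refine le_trans ?_ key
  have hUS : U ⊆ S := hU.trans (Dm_sub S a f.ph (J + 1))
  have huN : (U.card : ℝ) ≤ S.card := by exact_mod_cast Finset.card_le_card hUS
  have hu0 : (0 : ℝ) ≤ U.card := Nat.cast_nonneg _
  have hN0 : (0 : ℝ) ≤ S.card := Nat.cast_nonneg _
  have hlogN : 0 ≤ Real.log S.card := Real.log_natCast_nonneg _
  have hulog : (U.card : ℝ) * Real.log U.card ≤ U.card * Real.log S.card := by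
    rcases Nat.eq_zero_or_pos U.card with h | h
    · rw [h]
      simp
    · exact mul_le_mul_of_nonneg_left (Real.log_le_log (by exact_mod_cast h) huN) hu0
  obtain ⟨hJ1, hJ2⟩ := hLg
  push_cast
  have hJp : (0 : ℝ) < 1 / (3 : ℝ) ^ J := by positivity
  generalize hMM : mm Rat.AbsoluteValue.real L 3 f.F = M at *
  generalize Real.log L - Real.log (ρ2 / 2) = δ at *
  generalize (1 : ℝ) / 3 ^ J = e at *
  generalize Real.log (U.card : ℝ) = lu at *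
  generalize Real.log (S.card : ℝ) = lN at *
  generalize (U.card : ℝ) = u at *
  generalize (S.card : ℝ) = N at *
  generalize Real.log 2 = l2 at *
  have hJ0 : (0 : ℝ) ≤ J := Nat.cast_nonneg _
  generalize (J : ℝ) = j at *
  have hδ' : δ ≤ θ / 16 * m := hδ.trans hξ
  have hl2' : l2 ≤ θ / 16 * m := htwo.trans hξ
  have hu2 : 0 ≤ u ^ 2 := sq_nonneg u
  have huN2 : u ^ 2 ≤ N ^ 2 := by
    exact pow_le_pow_left₀ hu0 huN 2
  have hm0 : 0 < m := by linarith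
  -- main term
  have h1 : (1 - θ / 4) * m * ((3 - θ / 64) / 2) ≤ M * ((3 - e) / (3 - 1)) := by
    have e1 : (3 - θ / 64) / 2 ≤ (3 - e) / (3 - 1) := by
      rw [show (3 : ℝ) - 1 = 2 by norm_num]
      linarith
    have e2 : 0 ≤ (3 - θ / 64) / 2 := by linarith
    exact mul_le_mul hM e1 e2 hM0
  have hA : (3 / 2 - 3 / 5 * θ) * m ≤ M * ((3 - e) / (3 - 1)) - 3 * δ := by
    nlinarith [mul_pos hθ hm0, mul_pos (mul_pos hθ hθ) hm0]
  have hA2 : (3 / 2 - 3 / 5 * θ) * m * (u ^ 2 / 2) ≤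
      (M * ((3 - e) / (3 - 1)) - 3 * δ) * (u ^ 2 / 2) :=
    mul_le_mul_of_nonneg_right hA (by linarith)
  have hB1 : M * (4 * j + 6) * u ≤ 2 * m * (4 * j + 6) * u :=
    mul_le_mul_of_nonneg_right (mul_le_mul_of_nonneg_right hM2 (by linarith)) hu0
  have hB2 : 4 * (u * lN) ≤ 4 * (u * lN) * m := by
    have : 0 ≤ 4 * (u * lN) := by positivity
    nlinarith
  have hB3 : 2 * m * u * (4 * j + 6 + 2 * lN) ≤ 2 * m * u * (θ / 64 * N) :=
    mul_le_mul_of_nonneg_left (by linarith) (by positivity)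
  have hB4 : 2 * m * (θ / 64) * (u * N) ≤ 2 * m * (θ / 64) * (N * N) :=
    mul_le_mul_of_nonneg_left (mul_le_mul_of_nonneg_right huN hN0) (by positivity)
  have hC1 : u ^ 2 * l2 ≤ u ^ 2 * (θ / 16 * m) := mul_le_mul_of_nonneg_left hl2' hu2
  have hC2 : θ * m * u ^ 2 ≤ θ * m * N ^ 2 := mul_le_mul_of_nonneg_left huN2 (by positivity)
  have hC3 : 0 ≤ θ * m * N ^ 2 := by positivity
  have hE : 4 * u * lu ≤ 4 * (u * lN) := by linarith
  nlinarith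

end F0744E
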