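import Pool.Agent.Lib.MP_f0744f_nt.E.Rb
import Pool.Agent.Lib.MP_f0744f_nt.E.Rc
import Pool.Agent.Lib.MP_f0744f_nt.E.Rd
import Pool.Agent.Lib.MP_f0744f_nt.E.Bc
import Pool.Agent.Lib.MP_f0744f_nt.E.Loc
import Pool.Agent.Lib.MP_f0744f_nt.D.R5

/-! # Row Re: a tight real place is a good place -/

set_option autoImplicit false

open Polynomial

namespace F0744E

open F0744C F0744D

variable {S : Finset ℤ} {a b : ℤ}

/-- all roots are near the centres -/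
theorem Re_roots {F : ℚ[X]} (hF : F.natDegree = 3) {L ρ1 ρ2 : ℝ} {C : Finset ℂ}
    (h0 : 0 < ρ1) (h12 : 3 * ρ1 ≤ ρ2) (h2 : ρ2 ≤ L)
    (hC : ∀ c ∈ C, ∀ c' ∈ C, c ≠ c' → ρ2 ≤ ‖c - c'‖) (hn : ∀ c ∈ C, ‖c‖ ≤ L + 2 * ρ1)
    (h : 3 ≤ ∑ c ∈ C, cnt F c ρ1) : |((s3 F : ℚ) : ℝ)| ≤ 6 * L := by
  refine s3_r hF ?_
  intro z hz
  obtain ⟨c, hc, hzc⟩ := all_cnt3 hF (fun c hc c' hc' hne =>
    lt_of_lt_of_le (by linarith) (hC c hc c' hc' hne)) h z hz
  have h1 : ‖z‖ ≤ ‖z - c‖ + ‖c‖ := by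
    have e : z = (z - c) + c := by ring
    calc ‖z‖ = ‖(z - c) + c‖ := by rw [← e]
      _ ≤ _ := norm_add_le _ _
  have h3 := hn c hc
  linarith

/-- `η = θ / 16`, `ξ = min (θ κ / 64) (η κ / 8)` (so `ξ ≤ κ`), `Λ0` from `exists_clus3` and at least `log 8 / (2 θ κ)`, `1 / κ`: `m = mm real L 3 f.F ≥ 2 κ log L`. `cls_r`. `mkPB`: `atwo`,
`athree`: `|2|, |3| ≥ 1`; `sf`, `sg`: in both cases the multiplicities of the centres sum to 3, so by `all_cnt3` every root is within `ρ1` of one of these centres, `‖z‖ ≤ L + 3 ρ1 ≤ 2 L`; `s3_r`,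
`6 ≤ 8 ≤ exp (θ m)`. First case: `cl x` = an `i` with `‖x - c i‖ ≤ 2 ρ1` (`0` if there is none); `sep`: `ρ2 - 4 ρ1 ≥ ρ2 / 2 ≥ L exp (- ξ log L)` (`del`); `simf`: `simple_r`,
`(ρ2 / 2) ^ 2 ≥ L ^ 2 exp (- 2 ξ log L)`. Second case: `cl x = decide (‖x - c2‖ ≤ 2 ρ1)`; `simple_r`, `double_r`, `low1_r` (for `g` with `m = mm real L 3 f.F`, `msize` gives `(1 - θ / 4) m ≤ mm g ≤ 2 m`).
`Rat.AbsoluteValue.real q = |q| = ‖(q : ℂ)‖`: `R5_abs` in `D/R5.lean`. Model: `tp_r` in `D/R5.lean`. -/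
theorem loc_r {κ θ : ℝ} (hκ : 0 < κ) (hκ1 : κ ≤ 1) (hθ : 0 < θ) (hθ1 : θ ≤ 1 / 1000) :
    ∃ Λ0 : ℝ, ∀ (S : Finset ℤ) (a b : ℤ) (f : PM S a 3) (g : PM S b 3) (L : ℝ) (J : ℕ)
      (T : Finset ℤ), a ≠ b → (0 : ℤ) ∈ S → (∀ y ∈ S, |((y : ℤ) : ℝ)| ≤ L) →
      (∃ y ∈ S, |((y : ℤ) : ℝ)| = L) → 1 ≤ L → Λ0 ≤ Real.log L → 1 ≤ θ * S.card →
      T ⊆ Dm S a f.ph (J + 3) → T ⊆ Dm S b g.ph (J + 3) →
      (∀ x ∈ T, x ∈ S0 S a b ∧ f.ph x ∈ S0 S a b ∧ g.ph x ∈ S0 S a b) →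
      (1 - θ / 16) * S.card ≤ T.card → Lg J θ S.card → Big 3 (2 * J) (θ / 16) T.card →
      κ * (2 * Real.log L) ≤ mm Rat.AbsoluteValue.real L 3 f.F →
      κ * (2 * Real.log L) ≤ mm Rat.AbsoluteValue.real L 3 g.F →
      En Rat.AbsoluteValue.real L T ≤
        (1 + θ / 16) * (T.card : ℝ) ^ 2 * (mm Rat.AbsoluteValue.real L 3 f.F / 2) →
      En Rat.AbsoluteValue.real L T ≤
        (1 + θ / 16) * (T.card : ℝ) ^ 2 * (mm Rat.AbsoluteValue.real L 3 g.F / 2) →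
      Loc f g Rat.AbsoluteValue.real L (mm Rat.AbsoluteValue.real L 3 f.F) θ J T := by
  classical
  obtain ⟨η, hη⟩ : ∃ η, η = θ / 16 := ⟨_, rfl⟩
  have hη0 : 0 < η := by rw [hη]; positivity
  have hη1 : η ≤ 1 / 10000 := by rw [hη]; linarith
  obtain ⟨ξ, hξdef⟩ : ∃ ξ, ξ = min (θ * κ / 64) (η * κ / 8) := ⟨_, rfl⟩
  have hξ : 0 < ξ := by rw [hξdef]; positivity
  have hξ1 : ξ ≤ θ * κ / 64 := by rw [hξdef]; exact min_le_left _ _
  have hξ2 : ξ ≤ η * κ / 8 := by rw [hξdef]; exact min_le_right _ _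
  have hξ3 : ξ ≤ κ := by
    have : η * κ ≤ 1 * κ := mul_le_mul_of_nonneg_right (by linarith) hκ.le
    linarith
  obtain ⟨Λ0, hΛ⟩ := exists_clus3 hξ hκ hξ3
  refine ⟨max Λ0 (max (Real.log 8 / (2 * θ * κ)) (1 / κ)), ?_⟩
  intro S a b f g L J T hab hz hL hy hL1 hlog hN Tf Tg Tm hc hLg hB hMf hMg hEf hEg
  have hlog1 : Real.log 8 / (2 * θ * κ) ≤ Real.log L :=
    ((le_max_left _ _).trans (le_max_right _ _)).trans hlog
  have hlog2 : 1 / κ ≤ Real.log L := ((le_max_right _ _).trans (le_max_right _ _)).trans hlog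
  obtain ⟨ρ1, ρ2, C, hC⟩ := hΛ f.F g.F L f.deg g.deg hL1 ((le_max_left _ _).trans hlog) hMf hMg
  have hLpos : 0 < L := by linarith
  have hκL : 1 ≤ κ * Real.log L := by
    rw [div_le_iff₀ hκ] at hlog2
    linarith
  have hκL8 : Real.log 8 ≤ 2 * θ * (κ * Real.log L) := by
    rw [div_le_iff₀ (by positivity)] at hlog1
    linarith
  obtain ⟨m, hm⟩ : ∃ m, m = mm Rat.AbsoluteValue.real L 3 f.F := ⟨_, rfl⟩
  rw [← hm] at hMf
  have hm1 : 1 ≤ m := by linarith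
  have hg1 : 1 ≤ mm Rat.AbsoluteValue.real L 3 g.F := by linarith
  have hθm : 0 < θ * m := by positivity
  have h8 : Real.log 8 ≤ θ * m := by
    have := mul_le_mul_of_nonneg_left hMf hθ.le
    linarith
  have hξm : ξ * Real.log L ≤ θ / 128 * m := by
    have hlog0 : 0 ≤ Real.log L := by
      by_contra hneg
      have := mul_neg_of_pos_of_neg hκ (not_le.1 hneg)
      linarith
    calc ξ * Real.log L ≤ θ * κ / 64 * Real.log L := mul_le_mul_of_nonneg_right hξ1 hlog0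
      _ = θ / 128 * (κ * (2 * Real.log L)) := by ring
      _ ≤ θ / 128 * m := mul_le_mul_of_nonneg_left hMf (by positivity)
  have hρ1 := hC.pos
  have h16 : 1048576 * ρ1 ≤ ρ2 := by
    have := hC.sep
    norm_num at this
    linarith
  have hρ2 : 0 < ρ2 := by linarith
  have hρL := hC.leL
  -- the size of `ρ2`
  have hE : L * Real.exp (-(θ / 128 * m)) ≤ ρ2 / 2 := by
    have h1 : Real.log L - θ / 128 * m ≤ Real.log (ρ2 / 2) := by
      have := hC.del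
      linarith
    have h2 : L * Real.exp (-(θ / 128 * m)) = Real.exp (Real.log L - θ / 128 * m) := by
      rw [sub_eq_add_neg, Real.exp_add, Real.exp_log hLpos]
    rw [h2, ← Real.exp_log (half_pos hρ2)]
    exact Real.exp_le_exp.2 h1
  have hmain : L * Real.exp (-(θ * m)) ≤ ρ2 / 2 := by
    refine le_trans (mul_le_mul_of_nonneg_left (Real.exp_le_exp.2 ?_) hLpos.le) hE
    linarith
  have hmain2 : L ^ 2 * Real.exp (-(θ * m)) ≤ (ρ2 / 2) ^ 2 := by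
    have h1 : (L * Real.exp (-(θ / 128 * m))) ^ 2 ≤ (ρ2 / 2) ^ 2 :=
      pow_le_pow_left₀ (mul_nonneg hLpos.le (Real.exp_pos _).le) hE 2
    refine le_trans ?_ h1
    rw [mul_pow]
    refine mul_le_mul_of_nonneg_left ?_ (sq_nonneg L)
    rw [← Real.exp_nat_mul]
    refine Real.exp_le_exp.2 ?_
    push_cast
    linarith
  -- the common data
  have hN0 : 0 < (S.card : ℝ) := by
    by_contra hneg
    have := mul_nonpos_of_nonneg_of_nonpos hθ.le (not_lt.1 hneg)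
    linarith
  have hT0 : T.Nonempty := by
    rw [← Finset.card_pos]
    have h1 : 0 < (1 - θ / 16) * (S.card : ℝ) := mul_pos (by linarith) hN0
    have h2 : (0 : ℝ) < (T.card : ℝ) := lt_of_lt_of_le h1 hc
    exact_mod_cast h2
  have h8e : 8 ≤ Real.exp (θ * m) := by
    rw [← Real.exp_log (by norm_num : (0 : ℝ) < 8)]
    exact Real.exp_le_exp.2 h8
  have hexp1 : Real.exp (-(θ * m)) ≤ 1 := by
    rw [Real.exp_le_one_iff]
    linarith
  have hbd : ∀ x ∈ S, Rat.AbsoluteValue.real ((x : ℤ) : ℚ) ≤ L := by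
    intro x hx
    rw [Rat.AbsoluteValue.real_eq_abs]
    push_cast
    exact hL x hx
  have hbase : ∀ C' : Finset ℂ, (∀ c ∈ C', c ∈ C ∧ ‖c‖ ≤ L + 2 * ρ1) →
      3 ≤ ∑ c ∈ C', cnt f.F c ρ1 → 3 ≤ ∑ c ∈ C', cnt g.F c ρ1 →
      PB f g Rat.AbsoluteValue.real L (mm Rat.AbsoluteValue.real L 3 f.F) θ J T := by
    intro C' hC' hf3 hg3
    have hsep' : ∀ c ∈ C', ∀ c' ∈ C', c ≠ c' → ρ2 ≤ ‖c - c'‖ := fun c hc c' hc' hne =>
      hC.sepC c (hC' c hc).1 c' (hC' c' hc').1 hne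
    have s3b : ∀ F : ℚ[X], F.natDegree = 3 → 3 ≤ ∑ c ∈ C', cnt F c ρ1 →
        Rat.AbsoluteValue.real (s3 F) ≤ L * Real.exp (θ * mm Rat.AbsoluteValue.real L 3 f.F) := by
      intro F hF hF3
      rw [Rat.AbsoluteValue.real_eq_abs, Rat.cast_abs, ← hm]
      have h1 := Re_roots hF hρ1 (by linarith) hρL hsep' (fun c hc => (hC' c hc).2) hF3
      have h2 := mul_le_mul_of_nonneg_left h8e hLpos.le
      linarith
    refine mkPB f g hθ (by linarith) hL1 (by rw [← hm]; exact h8) hg1 ?_ ?_ hbd (s3b f.F f.deg hf3)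
      (s3b g.F g.deg hg3) hN Tf Tg Tm hc hLg hEf hEg
    · rw [← hm, R5_abs]
      refine hexp1.trans ?_
      norm_num
    · rw [← hm, R5_abs]
      refine hexp1.trans ?_
      norm_num
  have hdiff : ∀ (x y : ℤ) (c c' : ℂ), ‖(x : ℂ) - c‖ ≤ 2 * ρ1 → ‖(y : ℂ) - c'‖ ≤ 2 * ρ1 →
      ρ2 ≤ ‖c - c'‖ → L * Real.exp (-(θ * m)) ≤ Rat.AbsoluteValue.real ((x : ℚ) - y) := by
    intro x y c c' hx hy' hcc
    rw [R5_abs]
    push_cast
    have := R5_diff hx hy' hcc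
    linarith
  have hsimp : ∀ F : ℚ[X], F.natDegree = 3 → ∀ c : ℂ,
      (∀ z ∈ (F.map (algebraMap ℚ ℂ)).roots, ‖z - c‖ ≤ ρ1 ∨ ρ2 ≤ ‖z - c‖) → cnt F c ρ1 = 1 →
      ∀ x y : ℤ, ‖(x : ℂ) - c‖ ≤ 2 * ρ1 → ‖(y : ℂ) - c‖ ≤ 2 * ρ1 →
      L ^ 2 * Real.exp (-(θ * m)) ≤ Rat.AbsoluteValue.real (qq F x y) := by
    intro F hF c hr hcn x y hx hy'
    rw [Rat.AbsoluteValue.real_eq_abs, Rat.cast_abs]
    exact hmain2.trans (simple_r hF hρ1 (by linarith) hr hcn hx hy')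
  have hdbl : ∀ F : ℚ[X], F.natDegree = 3 → ∀ c : ℂ,
      (∀ z ∈ (F.map (algebraMap ℚ ℂ)).roots, ‖z - c‖ ≤ ρ1 ∨ ρ2 ≤ ‖z - c‖) → cnt F c ρ1 = 2 →
      ∀ x y z : ℤ, ‖(x : ℂ) - c‖ ≤ 2 * ρ1 → ‖(y : ℂ) - c‖ ≤ 2 * ρ1 → ‖(z : ℂ) - c‖ ≤ 2 * ρ1 →
      L * Real.exp (-(θ * m)) ≤ Rat.AbsoluteValue.real ((x : ℚ) + y + z - s3 F) := by
    intro F hF c hr hcn x y z hx hy' hz'
    rw [Rat.AbsoluteValue.real_eq_abs, Rat.cast_abs]
    exact hmain.trans (double_r hF hρ1 (by linarith) hr hcn hx hy' hz')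
  have hms := msize f g hL1 hbd hθ (by linarith) (by rw [← hm]; exact hm1) hg1
    (Tf.trans (Dm_mono S a f.ph (by omega : J ≤ J + 3)))
    (Tg.trans (Dm_mono S b g.ph (by omega : J ≤ J + 3))) hc hLg hEf hEg
  rcases cls_r hab f g hz hL hy hL1 J (Tf.trans (Dm_mono S a f.ph (by omega : J + 1 ≤ J + 3)))
    (Tg.trans (Dm_mono S b g.ph (by omega : J + 1 ≤ J + 3))) hT0 hη0 hη1 hκ (by linarith)
    (by rw [hη]; have := hLg.1; linarith) (by rw [hη]; exact hB) (by rw [← hm]; exact hMf) hMg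
    (by rw [hη]; exact hEf) (by rw [hη]; exact hEg) hC with
    ⟨c, hcC, hcinj, hcnt, hcov⟩ | ⟨c2, hc2, c1, hc1, hne, hn2, hn1, hf2, hg2, hf1, hg1', hcov⟩
  · left
    have hcl0 : ∀ x : ℤ, ∃ i : Fin 3, x ∈ S0 S a b → ‖(x : ℂ) - c i‖ ≤ 2 * ρ1 := by
      intro x
      by_cases hx : x ∈ S0 S a b
      · obtain ⟨i, hi⟩ := hcov x hx
        exact ⟨i, fun _ => hi⟩
      · exact ⟨0, fun h => absurd h hx⟩
    choose cl hcl using hcl0
    refine ⟨cl, ?_, ?_, ?_, ?_⟩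
    · refine hbase (Finset.univ.image c) ?_ ?_ ?_
      · intro c' hc'
        obtain ⟨i, _, rfl⟩ := Finset.mem_image.1 hc'
        exact hcC i
      · rw [Finset.sum_image (fun i _ j _ h => hcinj h)]
        rw [Finset.sum_congr rfl (fun i _ => (hcnt i).1)]
        simp
      · rw [Finset.sum_image (fun i _ j _ h => hcinj h)]
        rw [Finset.sum_congr rfl (fun i _ => (hcnt i).2)]
        simp
    · intro x hx y hy' hxy
      rw [← hm]
      exact hdiff x y _ _ (hcl x hx) (hcl y hy') (hC.sepC _ (hcC _).1 _ (hcC _).1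
        (fun h => hxy (hcinj h)))
    · intro x hx y hy' hxy
      rw [← hm]
      exact hsimp f.F f.deg _ (hC.rF _ (hcC (cl x)).1) (hcnt (cl x)).1 x y (hcl x hx)
        (by rw [hxy]; exact hcl y hy')
    · intro x hx y hy' hxy
      rw [← hm]
      exact hsimp g.F g.deg _ (hC.rG _ (hcC (cl x)).1) (hcnt (cl x)).2 x y (hcl x hx)
        (by rw [hxy]; exact hcl y hy')
  · right
    obtain ⟨cl, hcl⟩ : ∃ cl : ℤ → Bool, ∀ x, cl x = decide (‖(x : ℂ) - c2‖ ≤ 2 * ρ1) :=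
      ⟨_, fun _ => rfl⟩
    have hclT : ∀ x, cl x = true → ‖(x : ℂ) - c2‖ ≤ 2 * ρ1 := by
      intro x hx
      rw [hcl] at hx
      exact of_decide_eq_true hx
    have hclF : ∀ x ∈ S0 S a b, cl x = false → ‖(x : ℂ) - c1‖ ≤ 2 * ρ1 := by
      intro x hxS hx
      rw [hcl] at hx
      rcases hcov x hxS with h | h
      · exact absurd h (of_decide_eq_false hx)
      · exact h
    have hs21 : ρ2 ≤ ‖c2 - c1‖ := hC.sepC c2 hc2 c1 hc1 hne
    have hs12 : ρ2 ≤ ‖c1 - c2‖ := hC.sepC c1 hc1 c2 hc2 (Ne.symm hne)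
    have hξ16 : ξ * Real.log L ≤ θ / 16 * m := by linarith
    refine ⟨cl, ?_, ?_, ?_, ?_, ?_, ?_, ?_, ?_⟩
    · refine hbase {c2, c1} ?_ ?_ ?_
      · intro c' hc'
        rcases Finset.mem_insert.1 hc' with h | h
        · rw [h]
          exact ⟨hc2, hn2⟩
        · rw [Finset.mem_singleton.1 h]
          exact ⟨hc1, hn1⟩
      · rw [Finset.sum_pair hne, hf2, hf1]
      · rw [Finset.sum_pair hne, hg2, hg1']
    · intro x hx y hy' hxy
      rw [← hm]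
      rcases hb : cl x with _ | _
      · have hb' : cl y = true := by
          rcases hd : cl y with _ | _
          · exact absurd (by rw [hb, hd]) hxy
          · rfl
        exact hdiff x y _ _ (hclF x hx hb) (hclT y hb') hs12
      · have hb' : cl y = false := by
          rcases hd : cl y with _ | _
          · rfl
          · exact absurd (by rw [hb, hd]) hxy
        exact hdiff x y _ _ (hclT x hb) (hclF y hy' hb') hs21
    · intro x hx y hy' hcx hcy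
      rw [← hm]
      exact hsimp f.F f.deg c1 (hC.rF c1 hc1) hf1 x y (hclF x hx hcx) (hclF y hy' hcy)
    · intro x hx y hy' hcx hcy
      rw [← hm]
      exact hsimp g.F g.deg c1 (hC.rG c1 hc1) hg1' x y (hclF x hx hcx) (hclF y hy' hcy)
    · intro x _ y _ z _ hcx hcy hcz
      rw [← hm]
      exact hdbl f.F f.deg c2 (hC.rF c2 hc2) hf2 x y z (hclT x hcx) (hclT y hcy) (hclT z hcz)
    · intro x _ y _ z _ hcx hcy hcz
      rw [← hm]
      exact hdbl g.F g.deg c2 (hC.rG c2 hc2) hg2 x y z (hclT x hcx) (hclT y hcy) (hclT z hcz)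
    · intro U hU hUc
      rw [← hm]
      exact low1_r f hL1 hL hm1 hθ (by linarith)
        (by rw [← hm]; have := mul_pos hθ (lt_of_lt_of_le one_pos hm1); linarith)
        (by rw [← hm]; linarith) hLg hξ16 hρ1 hC.sep hρL hC.two hC.del hC.aF hC.sepC hC.rF hc2 hf2 hU
        (fun x hx => hclT x (hUc x hx).2)
    · intro U hU hUc
      rw [← hm]
      exact low1_r g hL1 hL hm1 hθ (by linarith)
        (by rw [hm]; exact hms.1)
        (by
          rw [hm]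
          refine hms.2.trans ?_
          rw [← hm]
          exact mul_le_mul_of_nonneg_right (by linarith) (by linarith)) hLg hξ16 hρ1 hC.sep hρL
        hC.two hC.del hC.aG hC.sepC hC.rG hc2 hg2 hU (fun x hx => hclT x (hUc x hx).2)

end F0744E
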