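import Pool.Agent.Lib.MP_f0744f_nt.E.Cx
import Pool.Agent.Lib.MP_f0744f_nt.D.X2

/-! # Row Xb: which places carry the energy -/

set_option autoImplicit false

open Polynomial

namespace F0744E

open F0744C F0744D

variable {S : Finset ℤ} {a b : ℤ}

/-- The same proof as `glob` in `D/X2.lean` with `M p = max 0 (mP p f.F) / 2`, `M' p = max 0 (mP p g.F) / 2`, `M0 = mm real L 3 f.F / 2`, `M0' = mm real L 3 g.F / 2`,
`Q = T.card ^ 2`, `Λ = log L` and the threshold `H / 2` in `places`; `sum_mP`: `∑ mP p F = - log |α|` (as in its proof, `pf`), `mm real L 3 F = log |α| + 2 log L`. `1 ≤ mP p g.F`: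
`(1 - ε) Q H / 2 ≤ EnP p T ≤ (1 + η) Q mP p g.F / 2` (`lower_p`), `H ≥ 4`. -/
theorem glob3 (f : PM S a 3) (g : PM S b 3) {T : Finset ℤ} {J : ℕ}
    (hTf : T ⊆ Dm S a f.ph J) (hTg : T ⊆ Dm S b g.ph J) (hT : T.Nonempty) {ε η κ H L : ℝ}
    (hε : 0 < ε) (hη : 0 < η) (hη1 : η ≤ 1 / 2) (h : 32 * ε ≤ η * κ) (hκ : κ ≤ 1 / 32)
    (hH : 4 ≤ H) (hJ : 1 / (3 : ℝ) ^ J ≤ ε / 2) (hB3 : Big 3 (2 * J) (ε / 2) T.card)
    (hL1 : 1 ≤ L) (hL : ∀ y ∈ S, |((y : ℤ) : ℝ)| ≤ L) (hΛ : Real.log 2 ≤ ε * Real.log L)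
    (hΛH : (Real.exp H + 1) * H ≤ κ * Real.log L) {B : ℕ} (hB : 2 * L ≤ B)
    (h1 : f.F.leadingCoeff.num.natAbs ≤ B) (h2 : f.F.leadingCoeff.den ≤ B)
    (h3 : g.F.leadingCoeff.den ≤ B) :
    ∃ (TT : Finset ℕ) (rt : Bool), TT ⊆ Ps B ∧
      (∀ p ∈ TT, H ≤ mP p f.F ∧ 1 ≤ mP p g.F ∧
        EnP p T ≤ (1 + η) * (T.card : ℝ) ^ 2 * (mP p f.F / 2) ∧
        EnP p T ≤ (1 + η) * (T.card : ℝ) ^ 2 * (mP p g.F / 2)) ∧
      (rt = true → κ * (2 * Real.log L) ≤ mm Rat.AbsoluteValue.real L 3 f.F ∧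
        κ * (2 * Real.log L) ≤ mm Rat.AbsoluteValue.real L 3 g.F ∧
        En Rat.AbsoluteValue.real L T ≤
          (1 + η) * (T.card : ℝ) ^ 2 * (mm Rat.AbsoluteValue.real L 3 f.F / 2) ∧
        En Rat.AbsoluteValue.real L T ≤
          (1 + η) * (T.card : ℝ) ^ 2 * (mm Rat.AbsoluteValue.real L 3 g.F / 2)) ∧
      (1 - 16 * κ) * (2 * Real.log L) ≤ mass3 f.F L TT rt ∧
      mass3 f.F L TT rt ≤ (1 + 16 * κ) * (2 * Real.log L) ∧
      ∑ p ∈ Ps B \ TT, EnP p T +
        (if rt = true then 0 else EnX Rat.AbsoluteValue.real L T) ≤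
          33 * κ * (T.card : ℝ) ^ 2 * Real.log L ∧
      ∑ p ∈ Ps B, max 0 (-mP p f.F) + max 0 (-mm Rat.AbsoluteValue.real L 3 f.F) ≤
        32 * κ * Real.log L := by
  have hκ0 : 0 < κ := by
    by_contra hcon
    push Not at hcon
    have h4 : η * κ ≤ 0 := mul_nonpos_of_nonneg_of_nonpos hη.le hcon
    linarith
  have hεκ : 64 * ε ≤ κ := by nlinarith
  have hε1 : ε ≤ 1 := by linarith
  have hε2 : ε ≤ 1 / 2048 := by linarith
  have hlog2 : 0 < Real.log 2 := Real.log_pos (by norm_num)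
  have hΛpos : 0 < Real.log L := by
    by_contra hcon
    push Not at hcon
    have : ε * Real.log L ≤ 0 := mul_nonpos_of_nonneg_of_nonpos hε.le hcon
    linarith
  have hF0 : f.F ≠ 0 := by
    intro h; have := f.deg; rw [h, natDegree_zero] at this; omega
  have hG0 : g.F ≠ 0 := by
    intro h; have := g.deg; rw [h, natDegree_zero] at this; omega
  have ht : (0 : ℝ) < T.card := by exact_mod_cast Finset.card_pos.2 hT
  have hTS : T ⊆ S := hTf.trans (G4_Dm_subset S a f.ph J)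
  have hes := energy_sum T (fun x hx => hL x (hTS hx)) hB
  have hfac : ∀ p ∈ Ps B, p.Prime := fun p hp => (Finset.mem_filter.1 hp).2
  have e3 : (((3 : ℕ) : ℝ) - 1) = 2 := by norm_num
  have hJ' : 1 / ((3 : ℕ) : ℝ) ^ J ≤ ε / 2 := by exact_mod_cast hJ
  have hsm := small_primes f.F B (by linarith : (0 : ℝ) ≤ H)
  have hsp := sum_mP hF0 h1 h2 L
  have hmm : mm Rat.AbsoluteValue.real L 3 f.F =
      mm Rat.AbsoluteValue.real L 2 f.F + Real.log L := by
    unfold mm
    push_cast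
    ring
  obtain ⟨Q, hQdef⟩ : ∃ Q : ℝ, Q = (T.card : ℝ) ^ 2 := ⟨_, rfl⟩
  have hQ : 0 < Q := by rw [hQdef]; positivity
  obtain ⟨TT, hTT⟩ : ∃ TT : Finset ℕ, TT = (Ps B).filter (fun p => H / 2 ≤ max 0 (mP p f.F) / 2 ∧
    EnP p T ≤ (1 + η) * Q * (max 0 (mP p f.F) / 2) ∧
    EnP p T ≤ (1 + η) * Q * (max 0 (mP p g.F) / 2)) := ⟨_, rfl⟩
  have hLp : ∀ p ∈ Ps B, (1 - ε) * Q * (max 0 (mP p f.F) / 2) ≤ EnP p T := by
    intro p hp
    have h4 := lower_p f (by norm_num) (hfac p hp) J hTf hε hε1 hJ' hB3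
    rw [e3, ← hQdef] at h4
    exact h4
  have hhalf : ∀ x : ℝ, max 0 (x / 2) = max 0 x / 2 := by
    intro x
    rcases le_total 0 x with h4 | h4
    · rw [max_eq_right h4, max_eq_right (by linarith)]
    · rw [max_eq_left h4, max_eq_left (by linarith), zero_div]
  have hpl := places (Ps B) (fun p => EnP p T) (fun p => max 0 (mP p f.F) / 2)
    (fun p => max 0 (mP p g.F) / 2) (E0 := En Rat.AbsoluteValue.real L T)
    (M0 := mm Rat.AbsoluteValue.real L 3 f.F / 2)
    (M0' := mm Rat.AbsoluteValue.real L 3 g.F / 2) (Q := Q)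
    (Λ := Real.log L) (ε := ε) (η := η) (κ := κ) hQ hΛpos hε hη hη1 h hκ
    (by rw [hes, hQdef]; nlinarith [mul_pos ht hΛpos])
    (fun p hp => EnP_nonneg (hfac p hp) T)
    (fun p _ => div_nonneg (le_max_left _ _) (by norm_num))
    (fun p _ => div_nonneg (le_max_left _ _) (by norm_num))
    hLp
    (fun p hp => by
      have h4 := lower_p g (by norm_num) (hfac p hp) J hTg hε hε1 hJ' hB3
      rw [e3, ← hQdef] at h4
      exact h4)
    (by
      have h4 := lower_r f (by norm_num) J hTf hε hε1 hJ' hB3 hL1 hL hΛ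
      rw [e3, ← hQdef] at h4
      exact h4)
    (by
      have h4 := lower_r g (by norm_num) J hTg hε hε1 hJ' hB3 hL1 hL hΛ
      rw [e3, ← hQdef] at h4
      exact h4)
    (by
      have h4 := sum_mm hF0 3 h2 L
      rw [e3] at h4
      rw [← Finset.sum_div]
      linarith)
    (by
      have h4 := sum_mm hG0 3 h3 L
      rw [e3] at h4
      rw [← Finset.sum_div]
      linarith)
    (H := H / 2) (by
      rw [← Finset.sum_div]
      have e4 : (Ps B).filter (fun p => max 0 (mP p f.F) / 2 < H / 2) =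
          (Ps B).filter (fun p => max 0 (mP p f.F) < H) := by
        refine Finset.filter_congr fun p _ => ?_
        constructor <;> intro h5 <;> linarith
      rw [e4]
      have h5 : 0 ≤ κ * Real.log L := by positivity
      linarith) (TT := TT)
    (fun p => by rw [hTT, Finset.mem_filter])
  obtain ⟨o1, o2, o3, o4⟩ := hpl
  rw [hhalf] at o2 o3
  rw [← Finset.sum_div] at o2 o3
  have hTTs : TT ⊆ Ps B := by rw [hTT]; exact Finset.filter_subset _ _
  have hmax : ∀ x : ℝ, 0 < max 0 x → max 0 x = x := by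
    intro x hx
    rcases le_total 0 x with h4 | h4
    · exact max_eq_right h4
    · rw [max_eq_left h4] at hx
      exact absurd hx (lt_irrefl 0)
  have hTT1 : ∀ p ∈ TT, max 0 (mP p f.F) = mP p f.F := by
    intro p hp
    rw [hTT, Finset.mem_filter] at hp
    exact hmax _ (by linarith [hp.2.1])
  have hTT2 : ∀ p ∈ TT, H ≤ mP p f.F ∧ 1 ≤ mP p g.F ∧
        EnP p T ≤ (1 + η) * (T.card : ℝ) ^ 2 * (mP p f.F / 2) ∧
        EnP p T ≤ (1 + η) * (T.card : ℝ) ^ 2 * (mP p g.F / 2) := by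
    intro p hp
    have hp1 := hTT1 p hp
    rw [hTT, Finset.mem_filter] at hp
    obtain ⟨hpB, q1, q2, q3⟩ := hp
    have hg : 1 ≤ max 0 (mP p g.F) := by
      by_contra hcon
      push Not at hcon
      have h4 := hLp p hpB
      have h5 : (1 - ε) * Q * 2 ≤ (1 - ε) * Q * (max 0 (mP p f.F) / 2) :=
        mul_le_mul_of_nonneg_left (by linarith) (mul_nonneg (by linarith) hQ.le)
      have h6 : (1 + η) * Q * (max 0 (mP p g.F) / 2) ≤ (1 + η) * Q * (1 / 2) :=
        mul_le_mul_of_nonneg_left (by linarith) (by positivity)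
      have h7 : (1 - ε) * Q * 2 ≤ (1 + η) * Q * (1 / 2) := by linarith
      nlinarith
    have hg' := hmax _ (lt_of_lt_of_le one_pos hg)
    rw [hp1] at q1 q2
    rw [hg'] at q3 hg
    rw [← hQdef]
    exact ⟨by linarith, hg, q2, q3⟩
  have hsumTT : ∑ p ∈ TT, max 0 (mP p f.F) = ∑ p ∈ TT, mP p f.F := Finset.sum_congr rfl hTT1
  have hsumle : ∑ p ∈ TT, max 0 (mP p f.F) ≤ ∑ p ∈ Ps B, max 0 (mP p f.F) :=
    Finset.sum_le_sum_of_subset_of_nonneg hTTs (fun p _ _ => le_max_left _ _)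
  have hmu : ∑ p ∈ Ps B, max 0 (-mP p f.F) + max 0 (-mm Rat.AbsoluteValue.real L 3 f.F) ≤
        32 * κ * Real.log L := by
    have h4 : ∑ p ∈ Ps B, max 0 (-mP p f.F) =
        ∑ p ∈ Ps B, max 0 (mP p f.F) - ∑ p ∈ Ps B, mP p f.F := by
      rw [← Finset.sum_sub_distrib]
      exact Finset.sum_congr rfl fun p _ => X2_max _
    rw [h4, X2_max]
    linarith
  have hQΛ : 0 < κ * Q * Real.log L := by positivity
  have hX := EnX_real_le (T := T) hL1 (fun y hy => hL y (hTS hy))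
  rw [← hQdef] at hX
  rcases o4 with ⟨r1, r2, r3, r4⟩ | ⟨r1, r2⟩
  · have hM0 : max 0 (mm Rat.AbsoluteValue.real L 3 f.F) = mm Rat.AbsoluteValue.real L 3 f.F := by
      have h4 : 0 < κ * Real.log L := by positivity
      exact max_eq_right (by linarith)
    rw [hM0] at o2 o3
    refine ⟨TT, true, hTTs, hTT2, fun _ => ⟨by linarith, by linarith, ?_, ?_⟩, ?_, ?_, ?_, hmu⟩
    · rw [← hQdef]
      exact r3
    · rw [← hQdef]
      exact r4
    · unfold mass3
      rw [if_pos rfl, ← hsumTT]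
      linarith
    · unfold mass3
      rw [if_pos rfl, ← hsumTT]
      linarith
    · rw [if_pos rfl, ← hQdef]
      linarith
  · rw [← Finset.sum_div] at r2
    refine ⟨TT, false, hTTs, hTT2, fun h4 => absurd h4 (by decide), ?_, ?_, ?_, hmu⟩
    · unfold mass3
      rw [if_neg (by decide), ← hsumTT, add_zero]
      linarith
    · unfold mass3
      rw [if_neg (by decide), ← hsumTT, add_zero]
      have h4 := le_max_left 0 (mm Rat.AbsoluteValue.real L 3 f.F)
      linarith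
    · rw [if_neg (by decide), ← hQdef]
      have h4 : Q * Real.log 2 ≤ κ * Q * Real.log L := by
        have h5 : Q * Real.log 2 ≤ Q * (ε * Real.log L) := mul_le_mul_of_nonneg_left hΛ hQ.le
        have h6 : ε * (Q * Real.log L) ≤ κ * (Q * Real.log L) :=
          mul_le_mul_of_nonneg_right (by linarith) (by positivity)
        nlinarith
      linarith

end F0744E
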