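import Pool.Agent.Lib.MP_f0744f_nt.E.Xa
import Pool.Agent.Lib.MP_f0744f_nt.E.Xb
import Pool.Agent.Lib.MP_f0744f_nt.E.Pc
import Pool.Agent.Lib.MP_f0744f_nt.E.Re
import Pool.Agent.Lib.MP_f0744f_nt.D.X3a
import Pool.Agent.Lib.MP_f0744f_nt.C.G5
import Pool.Agent.Lib.MP_f0744f_nt.C.Main

/-! # Row Xc: the data exist -/

set_option autoImplicit false

open Polynomial

namespace F0744E

open F0744C F0744D

variable {S : Finset ℤ} {a b : ℤ}

theorem Xc_EnP (p : ℕ) {U T : Finset ℤ} (h : U ⊆ T) : EnP p U ≤ EnP p T := by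
  unfold EnP
  refine le_trans (Finset.sum_le_sum fun x _ => Finset.sum_le_sum_of_subset_of_nonneg
    (Finset.erase_subset_erase _ h) (fun y _ _ => P4a_vp_nonneg p x y)) ?_
  exact Finset.sum_le_sum_of_subset_of_nonneg h
    (fun x _ _ => Finset.sum_nonneg fun y _ => P4a_vp_nonneg p x y)

theorem Xc_EnX (A : AbsoluteValue ℚ ℝ) (R : ℝ) {U T : Finset ℤ} (h : U ⊆ T) :
    EnX A R U ≤ EnX A R T := by
  unfold EnX
  refine le_trans (Finset.sum_le_sum fun x _ => Finset.sum_le_sum_of_subset_of_nonneg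
    (Finset.erase_subset_erase _ h) (fun y _ _ => le_max_left _ _)) ?_
  exact Finset.sum_le_sum_of_subset_of_nonneg h
    (fun x _ _ => Finset.sum_nonneg fun y _ => le_max_left _ _)

/-- Model: `exists_ctx` in `D/X3.lean`. `κ' = min (1 / 32) (κ / 2000)`; `η = θ / 16`; `ε = η κ' / 32`; `H = max 4 (log 8 / θ)`; `J` with `1 / 3 ^ J ≤ min (θ / 64) (ε / 2)` and
`J ≥` the `J0` of `exists_Lg`; `T` from `exists_T3 f g (J + 3)`; `N = S.card` so large that `Lg J θ N`, `1 ≤ θ N`, `(1 - θ / 16) N ≤ t`, `t ≥ 100`, `Big 3 (2 (J + 3)) (ε / 2) t`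
(`exists_big`, `big_mono`, and `Big 3 (2 J) (θ / 16) t`); `L` from `exists_L`, and `log L` is large because `N ≤ 2 L + 1` (`card_le`): `log 2 ≤ ε log L`, `(exp H + 1) H ≤ κ' log L`, `Λ0` of
`loc_r` for `κ'`, `θ`, and `C ≤ κ log L`. `B = max B0 (⌈2 L⌉₊, num, den of the leading coefficients)`. `glob3` (with `J + 3`), `loc_p` (`H ≤ mP p f.F`), `loc_r`. `U` from `exists_U` (`e = 3`) for
`T \ W` (`(T \ W).card ≥ t - 10`, so `t ^ 2 ≤ 2 (T \ W).card ^ 2`; the energies `EnP`, `EnX` of a subset are smaller because all terms are `≥ 0`): `2 * 4 * 3 * 66 κ' log L ≤ κ / 2 log L`. -/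
theorem exists_ctx3 {κ θ : ℝ} (hκ : 0 < κ) (hθ : 0 < θ) (hθ1 : θ ≤ 1 / 1000) (C : ℝ) :
    ∃ N0 : ℕ, ∀ (S : Finset ℤ) (a b : ℤ) (f : PM S a 3) (g : PM S b 3), a ∈ S → b ∈ S → a ≠ b →
      (0 : ℤ) ∈ S → N0 ≤ S.card → (∀ p : ℕ, p.Prime → ∃ x ∈ S, ∃ y ∈ S, ¬ (p : ℤ) ∣ x - y) →
      ∀ (B0 : ℕ) (W : Finset ℤ), W.card ≤ 10 →
        ∃ (L : ℝ) (J B : ℕ) (TT : Finset ℕ) (rt : Bool) (T U : Finset ℤ), B0 ≤ B ∧
          Ctx3 f g L κ θ C J B TT rt T U W := by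
  obtain ⟨κ', hκ'⟩ : ∃ x : ℝ, x = min (1 / 32) (κ / 2000) := ⟨_, rfl⟩
  have hκ'0 : 0 < κ' := by rw [hκ']; exact lt_min (by norm_num) (by positivity)
  have hκ'1 : κ' ≤ 1 / 32 := by rw [hκ']; exact min_le_left _ _
  have hκ'2 : 2000 * κ' ≤ κ := by
    have : κ' ≤ κ / 2000 := by rw [hκ']; exact min_le_right _ _
    linarith
  obtain ⟨η, hη⟩ : ∃ x : ℝ, x = θ / 16 := ⟨_, rfl⟩
  have hηp : 0 < η := by rw [hη]; positivity
  have hη1 : η ≤ 1 / 2 := by rw [hη]; linarith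
  obtain ⟨ε, hε⟩ : ∃ x : ℝ, x = η * κ' / 32 := ⟨_, rfl⟩
  have hεp : 0 < ε := by rw [hε]; positivity
  have hε32 : 32 * ε ≤ η * κ' := by rw [hε]; linarith
  have hεη : ε / 2 ≤ θ / 16 := by
    have h1 : η * κ' ≤ η * 1 := mul_le_mul_of_nonneg_left (by linarith) hηp.le
    rw [← hη]
    linarith
  have hlog8 : 0 < Real.log 8 := Real.log_pos (by norm_num)
  obtain ⟨H, hH⟩ : ∃ x : ℝ, x = max 4 (Real.log 8 / θ) := ⟨_, rfl⟩
  have hH4 : 4 ≤ H := by rw [hH]; exact le_max_left _ _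
  have hHθ : Real.log 8 ≤ θ * H := by
    have h1 : Real.log 8 / θ ≤ H := by rw [hH]; exact le_max_right _ _
    rw [div_le_iff₀ hθ] at h1
    linarith
  obtain ⟨J0, hJ0⟩ := exists_Lg hθ
  obtain ⟨J2, hJ2⟩ : ∃ J2 : ℕ, (1 / 3 : ℝ) ^ J2 < ε / 2 :=
    exists_pow_lt_of_lt_one (by positivity) (by norm_num)
  obtain ⟨J, hJ⟩ : ∃ x : ℕ, x = J2 + J0 := ⟨_, rfl⟩
  have hJε : 1 / (3 : ℝ) ^ (J + 3) ≤ ε / 2 := by
    rw [← one_div_pow]
    refine le_trans ?_ hJ2.le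
    exact pow_le_pow_of_le_one (by norm_num) (by norm_num) (by omega)
  obtain ⟨N1, hN1⟩ := hJ0 J (by omega)
  obtain ⟨Λ0, hΛ0⟩ := loc_r hκ'0 (by linarith) hθ hθ1
  obtain ⟨t1, ht1⟩ := exists_big 3 (2 * (J + 3)) (ε := ε / 2) (by positivity)
  obtain ⟨t2, ht2⟩ := exists_big 3 (2 * J) (ε := θ / 16) (by positivity)
  obtain ⟨Y, hY⟩ : ∃ x : ℝ, x = max (max Λ0 (Real.log 2 / ε))
    (max ((Real.exp H + 1) * H / κ') (C / κ)) := ⟨_, rfl⟩
  refine ⟨N1 + t1 + t2 + 2 * (J + 3) + 200 + ⌈2 * Real.exp Y + 1⌉₊ + ⌈1 / θ⌉₊ +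
    ⌈16 * (2 * ((J : ℝ) + 3) + 8) / θ⌉₊, ?_⟩
  intro S a b f g ha hb hab h0 hN prim B0 W hW
  obtain ⟨L, hL1, hL, hL'⟩ := exists_L (S := S) (by omega)
  have hcard := card_le (by linarith : (0 : ℝ) ≤ L) hL
  have hNθ : 1 ≤ θ * S.card := by
    have h1 : 1 / θ ≤ S.card := by
      refine le_trans (Nat.le_ceil _) ?_
      exact_mod_cast le_trans (by omega) hN
    rw [div_le_iff₀ hθ] at h1
    linarith
  have hN16 : 2 * ((J : ℝ) + 3) + 8 ≤ θ / 16 * S.card := by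
    have h0 : ⌈16 * (2 * ((J : ℝ) + 3) + 8) / θ⌉₊ ≤ S.card := by omega
    have h1 : 16 * (2 * ((J : ℝ) + 3) + 8) / θ ≤ S.card :=
      le_trans (Nat.le_ceil _) (Nat.cast_le.2 h0)
    rw [div_le_iff₀ hθ] at h1
    linarith
  have hΛ : Y ≤ Real.log L := by
    rw [Real.le_log_iff_exp_le (by linarith)]
    have h1 : (2 * Real.exp Y + 1 : ℝ) ≤ S.card := by
      refine le_trans (Nat.le_ceil _) ?_
      exact_mod_cast le_trans (by omega) hN
    linarith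
  have hΛ1 : Λ0 ≤ Real.log L :=
    le_trans (le_trans (le_max_left _ _) (le_max_left _ _)) (hY ▸ hΛ)
  have hΛ2 : Real.log 2 ≤ ε * Real.log L := by
    have := le_trans (le_trans (le_max_right _ _) (le_max_left _ _)) (hY ▸ hΛ)
    rw [div_le_iff₀ hεp] at this
    linarith
  have hΛ3 : (Real.exp H + 1) * H ≤ κ' * Real.log L := by
    have := le_trans (le_trans (le_max_left _ _) (le_max_right _ _)) (hY ▸ hΛ)
    rw [div_le_iff₀ hκ'0] at this
    linarith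
  have hΛ4 : C ≤ κ * Real.log L := by
    have := le_trans (le_trans (le_max_right _ _) (le_max_right _ _)) (hY ▸ hΛ)
    rw [div_le_iff₀ hκ] at this
    linarith
  have hlog2 : 0 < Real.log 2 := Real.log_pos (by norm_num)
  have hΛpos : 0 < Real.log L := by
    by_contra hcon
    push Not at hcon
    have : ε * Real.log L ≤ 0 := mul_nonpos_of_nonneg_of_nonpos hεp.le hcon
    linarith
  obtain ⟨T, hTf, hTg, hTm, hTcard⟩ := exists_T3 f g (J + 3)
  have hTbig : t1 + t2 + 100 ≤ T.card := by omega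
  have hTne : T.Nonempty := Finset.card_pos.1 (by omega)
  have hB1 : Big 3 (2 * (J + 3)) (ε / 2) T.card := ht1 _ (by omega)
  have hB2 : Big 3 (2 * J) (θ / 16) T.card := ht2 _ (by omega)
  have hLg : Lg J θ S.card := hN1 _ (by omega)
  have hc : (1 - θ / 16) * S.card ≤ T.card := by
    have h1 : (S.card : ℝ) ≤ T.card + 2 * ((J : ℝ) + 3) + 8 := by exact_mod_cast hTcard
    linarith
  obtain ⟨B, hB⟩ : ∃ B : ℕ, B = B0 + ⌈2 * L⌉₊ + f.F.leadingCoeff.num.natAbs +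
    f.F.leadingCoeff.den + g.F.leadingCoeff.den := ⟨_, rfl⟩
  have hB2L : 2 * L ≤ B := by
    refine le_trans (Nat.le_ceil _) ?_
    rw [hB]; exact_mod_cast (by omega)
  have ht : (100 : ℝ) ≤ T.card := by exact_mod_cast (by omega : 100 ≤ T.card)
  obtain ⟨TT, rt, hTTs, hTT, hrt, hlo, hup, hnt, hneg⟩ := glob3 f g hTf hTg hTne hεp hηp hη1
    hε32 hκ'1 hH4 hJε hB1 hL1 hL hΛ2 hΛ3 hB2L (by omega) (by omega) (by omega)
  -- the four points
  have hTW : T.card ≤ (T \ W).card + 10 := by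
    have h1 := Finset.card_le_card_sdiff_add_card (s := T) (t := W)
    omega
  have hTWr : (T.card : ℝ) ≤ (T \ W).card + 10 := by exact_mod_cast hTW
  have hsq : (T.card : ℝ) ^ 2 ≤ 2 * ((T \ W).card : ℝ) ^ 2 := by nlinarith
  have hen : ∑ p ∈ Ps B \ TT, EnP p (T \ W) +
      (if rt = true then 0 else EnX Rat.AbsoluteValue.real L (T \ W)) ≤
      66 * κ' * Real.log L * ((T \ W).card : ℝ) ^ 2 := by
    have h1 : ∑ p ∈ Ps B \ TT, EnP p (T \ W) ≤ ∑ p ∈ Ps B \ TT, EnP p T :=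
      Finset.sum_le_sum fun p _ => Xc_EnP p Finset.sdiff_subset
    have h2 : (if rt = true then (0 : ℝ) else EnX Rat.AbsoluteValue.real L (T \ W)) ≤
        (if rt = true then 0 else EnX Rat.AbsoluteValue.real L T) := by
      split_ifs
      · exact le_rfl
      · exact Xc_EnX _ _ Finset.sdiff_subset
    have h3 : 33 * κ' * (T.card : ℝ) ^ 2 * Real.log L ≤
        66 * κ' * Real.log L * ((T \ W).card : ℝ) ^ 2 := by
      have h4 : 0 ≤ 33 * κ' * Real.log L := by positivity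
      have h5 := mul_le_mul_of_nonneg_left hsq h4
      linarith
    linarith
  obtain ⟨U, hUT, hUc, hUn⟩ := exists_U (T := T \ W) (X := 66 * κ' * Real.log L) (L := L) (e := 3)
    (by positivity) (by norm_num) (by omega) (Ps B \ TT) rt hen
  have hUT' : U ⊆ T := hUT.trans Finset.sdiff_subset
  refine ⟨L, J, B, TT, rt, T, U, by omega, ?_⟩
  refine ⟨hL1, hL, hκ, hΛ4, hTTs, ?_, ?_, ?_, ?_, fun x hx => (hTm x (hUT' hx)).1, hUc, ?_, ?_⟩
  · intro p hp hpT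
    obtain ⟨h1, h2, h3, h4⟩ := hTT p hpT
    rw [hη] at h3 h4
    refine loc_p hab f g (prim p hp.out) hθ hθ1 ?_ h2 hNθ hTf hTg hTm hc hLg hB2 h3 h4
    exact hHθ.trans (mul_le_mul_of_nonneg_left h1 hθ.le)
  · intro hr
    obtain ⟨h1, h2, h3, h4⟩ := hrt hr
    rw [hη] at h3 h4
    exact hΛ0 S a b f g L J T hab h0 hL hL' hL1 hΛ1 hNθ hTf hTg hTm hc hLg hB2 h1 h2 h3 h4
  · refine le_trans ?_ hlo
    exact mul_le_mul_of_nonneg_right (by linarith) (by linarith)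
  · refine hup.trans ?_
    exact mul_le_mul_of_nonneg_right (by linarith) (by linarith)
  · rw [Finset.disjoint_left]
    intro x hx
    exact (Finset.mem_sdiff.1 (hUT hx)).2
  · have h1 : ∑ p ∈ Ps B \ TT, max 0 (-mP p f.F) ≤ ∑ p ∈ Ps B, max 0 (-mP p f.F) :=
      Finset.sum_le_sum_of_subset_of_nonneg Finset.sdiff_subset (fun _ _ _ => le_max_left _ _)
    have h2 : (if rt = true then (0 : ℝ) else EnX Rat.AbsoluteValue.real L U +
        max 0 (-mm Rat.AbsoluteValue.real L 3 f.F)) ≤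
        (if rt = true then 0 else EnX Rat.AbsoluteValue.real L U) +
          max 0 (-mm Rat.AbsoluteValue.real L 3 f.F) := by
      split_ifs
      · rw [zero_add]; exact le_max_left _ _
      · exact le_rfl
    rw [Finset.sum_add_distrib]
    have h3 : 2000 * κ' * Real.log L ≤ κ * Real.log L :=
      mul_le_mul_of_nonneg_right hκ'2 hΛpos.le
    have h4 : 0 ≤ κ' * Real.log L := by positivity
    have h5 : 2 * (((3 : ℕ) : ℝ) + 1) * ((3 : ℕ) : ℝ) * (66 * κ' * Real.log L) =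
        1584 * (κ' * Real.log L) := by push_cast; ring
    rw [h5] at hUn
    linarith

end F0744E
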