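import Pool.Agent.Lib.MP_f0744f_nt.E.K1
import Pool.Agent.Lib.MP_f0744f_nt.E.K2
import Pool.Agent.Lib.MP_f0744f_nt.E.K3
import Pool.Agent.Lib.MP_f0744f_nt.E.K4
import Pool.Agent.Lib.MP_f0744f_nt.E.K5
import Pool.Agent.Lib.MP_f0744f_nt.E.K6
import Pool.Agent.Lib.MP_f0744f_nt.E.Xc

/-! # Row K8: the integral theorem -/

set_option autoImplicit false

open Polynomial

namespace F0744E

open F0744C F0744D

variable {S : Finset ℤ} {a b : ℤ}

/-- the conclusion for rational polynomials -/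
def Sym3 (F G : ℚ[X]) : Prop := G = F ∨ ∃ c : ℚ, G = C c - F ∧ F.comp (C c - X) = C c - F

/-- the integral core -/
def Main3 : Prop := ∃ N0 : ℕ, ∀ (S : Finset ℤ) (a b : ℤ), a ∈ S → b ∈ S → a ≠ b → (0 : ℤ) ∈ S →
  N0 ≤ S.card → (∀ p : ℕ, p.Prime → ∃ x ∈ S, ∃ y ∈ S, ¬ (p : ℤ) ∣ x - y) →
  ∀ (f : PM S a 3) (g : PM S b 3), Sym3 f.F g.F

/-- `θ = 1 / 10 ^ 8`, `κ` the minimum and `C` the maximum of the constants of `c2_zero`, `c1_zero`, `c3_one`, `d2_zero`; `N0` at least those of `exists_ctx3`, `no_trans3`, `refl_zero`. `decomp`; a `Ctx3` with `W = ∅` and `B` at least the numerators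
and denominators of `c2, c1, c3 ^ 6 - 1`: `c2 = 0`, `c1 = 0`, `c3 = ± 1`. `c3 = 1`: `no_trans3`. `c3 = -1`: `refl_card`, `refl_poly`, a second `Ctx3` with this `W` and `B ≥` the numerator and denominator of `d2`: `d2_zero`, so `d1 = 0`, `refl_zero`. -/
theorem main3 : Main3 := by
  obtain ⟨κ1, C1, hκ1, H1⟩ := c2_zero
  obtain ⟨κ2, C2, hκ2, H2⟩ := c1_zero
  obtain ⟨κ3, C3, hκ3, H3⟩ := c3_one
  obtain ⟨κ5, C5, hκ5, H5⟩ := d2_zero
  obtain ⟨N4, H4⟩ := no_trans3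
  obtain ⟨N6, H6⟩ := refl_zero
  obtain ⟨κ, hκ, k1, k2, k3, k5⟩ : ∃ κ : ℝ, 0 < κ ∧ κ ≤ κ1 ∧ κ ≤ κ2 ∧ κ ≤ κ3 ∧ κ ≤ κ5 := by
    refine ⟨min κ1 (min κ2 (min κ3 κ5)), ?_, ?_, ?_, ?_, ?_⟩
    · exact lt_min hκ1 (lt_min hκ2 (lt_min hκ3 hκ5))
    · exact min_le_left _ _
    · exact (min_le_right _ _).trans (min_le_left _ _)
    · exact (min_le_right _ _).trans ((min_le_right _ _).trans (min_le_left _ _))
    · exact (min_le_right _ _).trans ((min_le_right _ _).trans (min_le_right _ _))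
  obtain ⟨C0, e1, e2, e3, e5⟩ : ∃ C0 : ℝ, C1 ≤ C0 ∧ C2 ≤ C0 ∧ C3 ≤ C0 ∧ C5 ≤ C0 := by
    refine ⟨max C1 (max C2 (max C3 C5)), ?_, ?_, ?_, ?_⟩
    · exact le_max_left _ _
    · exact (le_max_left _ _).trans (le_max_right _ _)
    · exact ((le_max_left _ _).trans (le_max_right _ _)).trans (le_max_right _ _)
    · exact ((le_max_right _ _).trans (le_max_right _ _)).trans (le_max_right _ _)
  obtain ⟨θ, hθ⟩ : ∃ θ : ℝ, θ = 1 / 100000000 := ⟨_, rfl⟩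
  have hθ0 : 0 < θ := by rw [hθ]; norm_num
  have hθ1 : θ ≤ 1 / 1000 := by rw [hθ]; norm_num
  obtain ⟨N0, hN0⟩ := exists_ctx3 hκ hθ0 hθ1 C0
  refine ⟨max N0 (max N4 N6), fun S a b ha hb hab h0 hN hp f g => ?_⟩
  have hN0' : N0 ≤ S.card := (le_max_left _ _).trans hN
  have hN4 : N4 ≤ S.card := ((le_max_left _ _).trans (le_max_right _ _)).trans hN
  have hN6 : N6 ≤ S.card := ((le_max_right _ _).trans (le_max_right _ _)).trans hN
  obtain ⟨c0, c1, c2, hg⟩ := decomp f g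
  obtain ⟨q, hq⟩ : ∃ q : ℚ, q = (g.F.leadingCoeff / f.F.leadingCoeff) ^ 6 - 1 := ⟨_, rfl⟩
  obtain ⟨L, J, B, TT, rt, T, U, hB, ctx⟩ := hN0 S a b f g ha hb hab h0 hN0' hp
    ((c2.num.natAbs + c2.den) + ((c1.num.natAbs + c1.den) + (q.num.natAbs + q.den))) ∅
    (by simp)
  have hc2 : c2 = 0 := H1 S a b f g L κ θ C0 J B TT rt T U ∅ ctx k1 hθ.le e1 c0 c1 c2 hg
    (by omega) (by omega)
  rw [hc2] at hg
  have hc1 : c1 = 0 := H2 S a b f g L κ θ C0 J B TT rt T U ∅ ctx k2 hθ.le e2 c0 c1 hg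
    (by omega) (by omega)
  have hc3 := H3 S a b f g L κ θ C0 J B TT rt T U ∅ ctx k3 hθ.le e3 c0 c1 hg
    (by rw [← hq]; omega) (by rw [← hq]; omega)
  rw [hc1] at hg
  rcases hc3 with hc3 | hc3
  · left
    have hg' : g.F = C c0 + f.F := by
      rw [hg, hc3]
      simp only [C_0, C_1]
      ring
    have hz : c0 = 0 := H4 S a b f g hN4 c0 hg'
    rw [hg', hz, C_0, zero_add]
  · right
    have hg' : g.F = C c0 - f.F := by
      rw [hg, hc3]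
      simp only [C_0, C_neg, C_1]
      ring
    refine ⟨c0, hg', ?_⟩
    obtain ⟨W, hW, hW'⟩ := refl_card f g hg'
    obtain ⟨d0, d1, d2, hD, hd1⟩ := refl_poly f.deg c0
    obtain ⟨L', J', B', TT', rt', T', U', hB', ctx'⟩ := hN0 S a b f g ha hb hab h0 hN0' hp
      (d2.num.natAbs + d2.den) W (hW.trans (by norm_num))
    have hd2 : d2 = 0 := H5 S a b f g L' κ θ C0 J' B' TT' rt' T' U' W ctx' k5 hθ.le e5
      (hW.trans (by norm_num)) c0 d0 d1 d2 hg'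
      (fun x hx hxW => hW' x (Finset.mem_filter.1 hx).1 hxW) hD (by omega) (by omega)
    have hd1' : d1 = 0 := by rw [hd1, hd2, mul_zero]
    have hD' : f.F.comp (C c0 - X) + f.F - C c0 = C d0 := by
      rw [hD, hd2, hd1']
      simp only [C_0]
      ring
    have hd0 : d0 = 0 := H6 S a b f g hN6 c0 d0 hg' hD'
    rw [hd0, C_0] at hD'
    linear_combination hD'

end F0744E
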