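import Pool.Agent.Lib.MP_f0744f_nt.E.Q1_1

/-! # Row Q1_2: the double class: small values of qq -/

set_option autoImplicit false

open Polynomial

namespace F0744E

open F0744C F0744D

variable {S : Finset ℤ} {a b : ℤ}

variable {f : PM S a 3} {g : PM S b 3} {A : AbsoluteValue ℚ ℝ} {R m θ : ℝ} {J : ℕ} {T : Finset ℤ} {cl : ℤ → Bool}

/-- `qsmall` and `PB.qvar`: `R ^ 2 exp (- 7 / 10 m) + 2 R exp (- ρ m) R exp (2 θ m)`, `3 ≤ exp (θ m)` (`e8`). -/
theorem TB.qall (h : TB f g A R m θ J T cl) (hθ : θ ≤ 1 / 100000000) {ρ : ℝ} (hρ : ρ ≤ 69 / 100)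
    (hD : ∀ x ∈ S0 S a b, ∀ y ∈ S0 S a b, cl x = true → cl y = true →
      A ((x : ℚ) - y) ≤ R * Real.exp (-(ρ * m)))
    {x y : ℤ} (hx : x ∈ S0 S a b) (hy : y ∈ S0 S a b) (hxc : cl x = true) (hyc : cl y = true) :
    A (qq f.F x y) ≤ R ^ 2 * Real.exp (-((ρ - 3 * θ) * m)) := by
  have hb := h.base
  obtain ⟨z, hzT, w, hwT, -, hzc, hwc, hlt⟩ := h.qsmall hθ
  have hS : ∀ {x : ℤ}, x ∈ S0 S a b → x ∈ S := fun hx => (Finset.mem_filter.1 hx).1
  have hz := (hb.Tm z hzT).1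
  have hw := (hb.Tm w hwT).1
  have h1 := hb.qvar (hS hx) (hS hy) (hS hz) (hS hw)
  have h2 := hD x hx z hz hxc hzc
  have h3 := hD y hy w hw hyc hwc
  have hR : 0 < R := lt_of_lt_of_le one_pos hb.R1
  have hR2 : 0 < R ^ 2 := by positivity
  have ht := hb.t0
  have hm := hb.m0
  have h8 := hb.e8
  have e2 : 0 < Real.exp (2 * θ * m) := Real.exp_pos _
  have k1 : (A ((x : ℚ) - z) + A ((y : ℚ) - w)) * (R * Real.exp (2 * θ * m)) ≤
      R ^ 2 * (2 * (Real.exp (-(ρ * m)) * Real.exp (2 * θ * m))) := by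
    refine (mul_le_mul_of_nonneg_right (add_le_add h2 h3) (mul_nonneg hR.le e2.le)).trans
      (le_of_eq ?_)
    ring
  have hθm : 0 < θ * m := mul_pos ht hm
  have n1 : Real.exp (-(7 / 10 * m)) ≤ Real.exp (-(ρ * m)) * Real.exp (2 * θ * m) := by
    rw [← Real.exp_add]
    apply Real.exp_le_exp.2
    have h4 : ρ * m ≤ 69 / 100 * m := mul_le_mul_of_nonneg_right hρ hm.le
    linarith only [h4, hθm, hm]
  have n2 : 8 * (Real.exp (-(ρ * m)) * Real.exp (2 * θ * m)) ≤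
      Real.exp (-((ρ - 3 * θ) * m)) := by
    have e3 : Real.exp (-((ρ - 3 * θ) * m)) =
        Real.exp (θ * m) * (Real.exp (-(ρ * m)) * Real.exp (2 * θ * m)) := by
      rw [← Real.exp_add, ← Real.exp_add]
      congr 1
      ring
    rw [e3]
    exact mul_le_mul_of_nonneg_right h8 (by positivity)
  have n3 : 0 < Real.exp (-(ρ * m)) * Real.exp (2 * θ * m) := by positivity
  have m1 := mul_le_mul_of_nonneg_left n1 hR2.le
  have m2 := mul_le_mul_of_nonneg_left n2 hR2.le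
  have m3 := mul_pos hR2 n3
  linarith only [h1, hlt, k1, m1, m2, m3]

end F0744E
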