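import Pool.Agent.Lib.MP_f0744f_nt.E.Q1_1
import Pool.Agent.Lib.MP_f0744f_nt.E.Q1_2

/-! # the double class: small values of qq -/
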