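import Pool.Agent.Lib.MP_f0744f_nt.E.Tau
import Pool.Agent.Lib.MP_f0744f_nt.E.Q1

/-! # Row L0: the bad case: definition -/

set_option autoImplicit false

open Polynomial

namespace F0744E

open F0744C F0744D

variable {S : Finset ℤ} {a b : ℤ}

/-- The double class has a small diameter and `c2` is large (to be excluded). -/
structure Bad (f : PM S a 3) (g : PM S b 3) (A : AbsoluteValue ℚ ℝ) (R m θ : ℝ) (J : ℕ)
    (T : Finset ℤ) (cl : ℤ → Bool) (c0 c1 c2 c3 : ℚ) : Prop where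
  tb : TB f g A R m θ J T cl
  small : θ ≤ 1 / 100000000
  rel : Rel f g A m θ c0 c1 c2 c3
  hD : ∀ x ∈ S0 S a b, ∀ y ∈ S0 S a b, cl x = true → cl y = true →
    A ((x : ℚ) - y) ≤ R * Real.exp (-(12 / 25 * m))
  hc : Real.exp (489 / 1000 * m) ≤ A c2 * R

end F0744E
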