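import Pool.Agent.Lib.MP_f0744f_nt.E.L0

/-! # Row L1: the bad case: slopes -/

set_option autoImplicit false

open Polynomial

namespace F0744E

open F0744C F0744D

variable {S : Finset ℤ} {a b : ℤ}

variable {f : PM S a 3} {g : PM S b 3} {A : AbsoluteValue ℚ ℝ} {R m θ : ℝ} {J : ℕ} {T : Finset ℤ} {cl : ℤ → Bool} {c0 c1 c2 c3 : ℚ}

/-- auxiliary points of the two classes -/
theorem L1_pts (h : Bad f g A R m θ J T cl c0 c1 c2 c3) :
    ∃ x1 ∈ S0 S a b, ∃ z2 ∈ S0 S a b, cl x1 = true ∧ cl z2 = false ∧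
      R * Real.exp (-(θ * m)) ≤ A ((x1 : ℚ) - z2) ∧
      A (c2 * ((x1 : ℚ) + z2) + c1) ≤ Real.exp (5 * θ * m) := by
  obtain ⟨x1, hx1T, hx1c, -, -⟩ := h.tb.both h.small true
  obtain ⟨z2, hz2T, hz2c, -, -⟩ := h.tb.both h.small false
  have hx1 : x1 ∈ S0 S a b := (h.tb.base.Tm x1 hx1T).1
  have hz2 : z2 ∈ S0 S a b := (h.tb.base.Tm z2 hz2T).1
  have hs : R * Real.exp (-(θ * m)) ≤ A ((x1 : ℚ) - z2) :=
    h.tb.sep x1 hx1 z2 hz2 (by rw [hx1c, hz2c]; decide)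
  refine ⟨x1, hx1, z2, hz2, hx1c, hz2c, hs, ?_⟩
  have h1 := h.tb.base.lam0 h.rel hx1 hz2 hs
  have h2 : (θ + 4 * θ) * m = 5 * θ * m := by ring
  rwa [h2] at h1

/-- numerical facts -/
theorem L1_num (h : Bad f g A R m θ J T cl c0 c1 c2 c3) :
    8 ≤ Real.exp (θ * m) ∧ 0 < R ∧ 0 ≤ A c2 ∧ 10 * (θ * m) ≤ 12 / 25 * m ∧
      Real.exp (5 * θ * m) ≤ A c2 * R * Real.exp (-(5 * θ * m)) := by
  have h8 := h.tb.base.e8
  have hm := h.tb.base.m0
  have ht := h.tb.base.t0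
  have hR : 0 < R := lt_of_lt_of_le one_pos h.tb.base.R1
  have hsm := h.small
  have h10 : 10 * (θ * m) ≤ 12 / 25 * m := by nlinarith
  refine ⟨h8, hR, A.nonneg c2, h10, ?_⟩
  have h1 : Real.exp (5 * θ * m) = Real.exp (10 * (θ * m)) * Real.exp (-(5 * θ * m)) := by
    rw [← Real.exp_add]
    congr 1
    ring
  rw [h1]
  refine mul_le_mul_of_nonneg_right ?_ (Real.exp_pos _).le
  refine le_trans (Real.exp_le_exp.mpr ?_) h.hc
  nlinarith

/-- `x1, z2 ∈ T` of the classes `true`, `false` (`TB.both`); `lam0` (`sep`, `u = θ`): `A (c2 (x1 + z2) + c1) ≤ exp (5 θ m)`. Add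
`c2 ((x - x1) + (y - z2))`, of size at most `4 R A c2` (`PB.two`); `5 ≤ exp (θ m)`, `exp (5 θ m) ≤ A c2 R` (`hc`). -/
theorem Bad.lam_up (h : Bad f g A R m θ J T cl c0 c1 c2 c3) {x y : ℤ} (hx : x ∈ S0 S a b)
    (hy : y ∈ S0 S a b) : A (c2 * ((x : ℚ) + y) + c1) ≤ A c2 * R * Real.exp (2 * θ * m) := by
  obtain ⟨h8, hR, hc2, h10, h5⟩ := L1_num h
  obtain ⟨x1, hx1, z2, hz2, -, -, -, hl⟩ := L1_pts h
  have hxx : A ((x : ℚ) - x1) ≤ 2 * R := h.tb.base.two (mem_S0.1 hx).1 (mem_S0.1 hx1).1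
  have hyz : A ((y : ℚ) - z2) ≤ 2 * R := h.tb.base.two (mem_S0.1 hy).1 (mem_S0.1 hz2).1
  have hE : 0 < Real.exp (θ * m) := Real.exp_pos _
  have htm : 0 < θ * m := mul_pos h.tb.base.t0 h.tb.base.m0
  have h5' : Real.exp (5 * θ * m) ≤ A c2 * R := by
    refine le_trans h5 ?_
    have : Real.exp (-(5 * θ * m)) ≤ 1 := by
      rw [Real.exp_le_one_iff]
      nlinarith
    have h0 : 0 ≤ A c2 * R := mul_nonneg hc2 hR.le
    nlinarith
  have hid : c2 * ((x : ℚ) + y) + c1 =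
      (c2 * ((x1 : ℚ) + z2) + c1) + c2 * (((x : ℚ) - x1) + ((y : ℚ) - z2)) := by ring
  have hsum : A (((x : ℚ) - x1) + ((y : ℚ) - z2)) ≤ 4 * R := by
    refine le_trans (A.add_le _ _) ?_
    linarith
  have hmul : A (c2 * (((x : ℚ) - x1) + ((y : ℚ) - z2))) ≤ A c2 * (4 * R) := by
    rw [map_mul]
    exact mul_le_mul_of_nonneg_left hsum hc2
  have htot : A (c2 * ((x : ℚ) + y) + c1) ≤ 5 * (A c2 * R) := by
    rw [hid]
    refine le_trans (A.add_le _ _) ?_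
    nlinarith
  have h2 : Real.exp (2 * θ * m) = Real.exp (θ * m) * Real.exp (θ * m) := by
    rw [← Real.exp_add]
    congr 1
    ring
  rw [h2]
  have h0 : 0 ≤ A c2 * R := mul_nonneg hc2 hR.le
  have h64 : (5 : ℝ) ≤ Real.exp (θ * m) * Real.exp (θ * m) := by nlinarith
  nlinarith

/-- The same: `A (x - x1) ≤ R exp (- 12 / 25 m)` (`hD`), `A (y - z2) ≥ R exp (- θ m)` (`sep`), so the size is at least
`A c2 R (exp (- θ m) - exp (- 12 / 25 m)) - exp (5 θ m)`; `exp (5 θ m) ≤ A c2 R exp (- 12 / 25 m + 5 θ m)` by `hc`. -/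
theorem Bad.lam_lo (h : Bad f g A R m θ J T cl c0 c1 c2 c3) {x y : ℤ} (hx : x ∈ S0 S a b)
    (hy : y ∈ S0 S a b) (hxc : cl x = true) (hyc : cl y = true) :
    A c2 * R * Real.exp (-(3 * θ * m)) ≤ A (c2 * ((x : ℚ) + y) + c1) := by
  obtain ⟨h8, hR, hc2, h10, h5⟩ := L1_num h
  obtain ⟨x1, hx1, z2, hz2, hx1c, hz2c, -, hl⟩ := L1_pts h
  have h0 : 0 ≤ A c2 * R := mul_nonneg hc2 hR.le
  have htm : 0 < θ * m := mul_pos h.tb.base.t0 h.tb.base.m0
  have hxx : A ((x : ℚ) - x1) ≤ R * Real.exp (-(12 / 25 * m)) := h.hD x hx x1 hx1 hxc hx1c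
  have hyz : R * Real.exp (-(θ * m)) ≤ A ((y : ℚ) - z2) :=
    h.tb.sep y hy z2 hz2 (by rw [hyc, hz2c]; decide)
  have hsub : A ((y : ℚ) - z2) ≤ A (((x : ℚ) - x1) + ((y : ℚ) - z2)) + A ((x : ℚ) - x1) := by
    have hid : ((y : ℚ) - z2) = (((x : ℚ) - x1) + ((y : ℚ) - z2)) + (-((x : ℚ) - x1)) := by ring
    calc A ((y : ℚ) - z2) = A ((((x : ℚ) - x1) + ((y : ℚ) - z2)) + (-((x : ℚ) - x1))) := by
          rw [← hid]
      _ ≤ A (((x : ℚ) - x1) + ((y : ℚ) - z2)) + A (-((x : ℚ) - x1)) := A.add_le _ _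
      _ = A (((x : ℚ) - x1) + ((y : ℚ) - z2)) + A ((x : ℚ) - x1) := by rw [AbsoluteValue.map_neg]
  have hmul : A (c2 * (((x : ℚ) - x1) + ((y : ℚ) - z2))) ≤
      A (c2 * ((x : ℚ) + y) + c1) + A (c2 * ((x1 : ℚ) + z2) + c1) := by
    have hid : c2 * (((x : ℚ) - x1) + ((y : ℚ) - z2)) =
        (c2 * ((x : ℚ) + y) + c1) + (-(c2 * ((x1 : ℚ) + z2) + c1)) := by ring
    rw [hid]
    refine le_trans (A.add_le _ _) ?_
    rw [AbsoluteValue.map_neg]
  rw [map_mul] at hmul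
  have hge : R * Real.exp (-(θ * m)) - R * Real.exp (-(12 / 25 * m)) ≤
      A (((x : ℚ) - x1) + ((y : ℚ) - z2)) := by linarith
  have hge2 : A c2 * (R * Real.exp (-(θ * m)) - R * Real.exp (-(12 / 25 * m))) ≤
      A c2 * A (((x : ℚ) - x1) + ((y : ℚ) - z2)) := mul_le_mul_of_nonneg_left hge hc2
  have hE1 : 0 < Real.exp (-(θ * m)) := Real.exp_pos _
  have hE8 : Real.exp (-(θ * m)) ≤ 1 / 8 := by
    rw [Real.exp_neg, ← one_div]
    exact one_div_le_one_div_of_le (by norm_num) h8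
  have hq5 : Real.exp (-(5 * θ * m)) = Real.exp (-(θ * m)) * Real.exp (-(θ * m)) *
      Real.exp (-(θ * m)) * Real.exp (-(θ * m)) * Real.exp (-(θ * m)) := by
    rw [← Real.exp_add, ← Real.exp_add, ← Real.exp_add, ← Real.exp_add]
    congr 1
    ring
  have hq3 : Real.exp (-(3 * θ * m)) = Real.exp (-(θ * m)) * Real.exp (-(θ * m)) *
      Real.exp (-(θ * m)) := by
    rw [← Real.exp_add, ← Real.exp_add]
    congr 1
    ring
  have hq12 : Real.exp (-(12 / 25 * m)) ≤ Real.exp (-(5 * θ * m)) := by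
    refine Real.exp_le_exp.mpr ?_
    nlinarith
  generalize Real.exp (-(θ * m)) = e at *
  have he2 : e * e ≤ 1 / 64 := by nlinarith
  have he2' : 0 < e * e := mul_pos hE1 hE1
  have he3 : e * e * e ≤ e / 64 := by nlinarith
  have he4 : e * e * e * e ≤ 1 / 4096 := by nlinarith
  have he5 : e * e * e * e * e ≤ e / 4096 := by nlinarith
  rw [hq5] at h5 hq12
  rw [hq3]
  have hk : e * e * e + 2 * (e * e * e * e * e) ≤ e := by linarith
  have h6 : A c2 * R * (e * e * e + 2 * (e * e * e * e * e)) ≤ A c2 * R * e :=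
    mul_le_mul_of_nonneg_left hk h0
  have h7 : A c2 * R * Real.exp (-(12 / 25 * m)) ≤ A c2 * R * (e * e * e * e * e) :=
    mul_le_mul_of_nonneg_left hq12 h0
  nlinarith

/-- `H x - H y = (x - y) (c2 (x + y) + c1)`, `PB.hle`, `lam_lo`, `2 ≤ exp (θ m)`. -/
theorem Bad.diam (h : Bad f g A R m θ J T cl c0 c1 c2 c3) {x y : ℤ} (hx : x ∈ S0 S a b)
    (hy : y ∈ S0 S a b) (hxc : cl x = true) (hyc : cl y = true) :
    A ((x : ℚ) - y) * (A c2 * R) ≤ R * Real.exp (7 * θ * m) := by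
  obtain ⟨h8, hR, hc2, h10, h5⟩ := L1_num h
  have hl := h.lam_lo hx hy hxc hyc
  have hHx := h.tb.base.hle h.rel hx
  have hHy := h.tb.base.hle h.rel hy
  have hid : ((x : ℚ) - y) * (c2 * ((x : ℚ) + y) + c1) =
      (c2 * (x : ℚ) ^ 2 + c1 * x + c0) + (-(c2 * (y : ℚ) ^ 2 + c1 * y + c0)) := by ring
  have h1 : A ((x : ℚ) - y) * A (c2 * ((x : ℚ) + y) + c1) ≤ 2 * (R * Real.exp (3 * θ * m)) := by
    rw [← map_mul, hid]
    refine le_trans (A.add_le _ _) ?_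
    rw [AbsoluteValue.map_neg]
    linarith
  have h2 : A ((x : ℚ) - y) * (A c2 * R * Real.exp (-(3 * θ * m))) ≤
      2 * (R * Real.exp (3 * θ * m)) :=
    le_trans (mul_le_mul_of_nonneg_left hl (A.nonneg _)) h1
  have h3 : Real.exp (-(3 * θ * m)) * Real.exp (3 * θ * m) = 1 := by
    rw [← Real.exp_add]
    simp
  have h4 : Real.exp (7 * θ * m) =
      Real.exp (3 * θ * m) * Real.exp (3 * θ * m) * Real.exp (θ * m) := by
    rw [← Real.exp_add, ← Real.exp_add]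
    congr 1
    ring
  have hp : 0 < Real.exp (3 * θ * m) := Real.exp_pos _
  have h6 := mul_le_mul_of_nonneg_right h2 hp.le
  have h7 : A ((x : ℚ) - y) * (A c2 * R * Real.exp (-(3 * θ * m))) * Real.exp (3 * θ * m) =
      A ((x : ℚ) - y) * (A c2 * R) := by
    calc A ((x : ℚ) - y) * (A c2 * R * Real.exp (-(3 * θ * m))) * Real.exp (3 * θ * m)
        = A ((x : ℚ) - y) * (A c2 * R) * (Real.exp (-(3 * θ * m)) * Real.exp (3 * θ * m)) := by
          ring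
      _ = A ((x : ℚ) - y) * (A c2 * R) := by rw [h3, mul_one]
  rw [h7] at h6
  refine le_trans h6 ?_
  rw [h4]
  have hRp : 0 < R * (Real.exp (3 * θ * m) * Real.exp (3 * θ * m)) := by positivity
  nlinarith

end F0744E
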