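import Pool.Agent.Lib.MP_f0744f_nt.E.L2_1

/-! # Row L2_2: the bad case: the size of c2 -/

set_option autoImplicit false

open Polynomial

namespace F0744E

open F0744C F0744D

variable {S : Finset ℤ} {a b : ℤ}

variable {f : PM S a 3} {g : PM S b 3} {A : AbsoluteValue ℚ ℝ} {R m θ : ℝ} {J : ℕ} {T : Finset ℤ} {cl : ℤ → Bool} {c0 c1 c2 c3 : ℚ}

/-- `w ∈ T` of the class `false` (`TB.both`), `k = H w`. For `x ∈ T` of the class `false`: `c3 F x + k - G x = H w - H x = (w - x) (c2 (w + x) + c1)`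
(`Rel.eq`), of size at most `R exp (- (1 - 3 θ) m) exp (501 / 1000 m) exp (2 θ m)` (`PB.close`, `lam_up`, `c2up`). `TB.tau3` with
`ρ = 12 / 25`, `i = false`. -/
theorem Bad.c31 (h : Bad f g A R m θ J T cl c0 c1 c2 c3) :
    A (c3 - 1) ≤ Real.exp (-(47 / 100 * m)) := by
  have hb := h.tb.base
  have hθ := h.small
  have hm := hb.m0
  have hR : 0 < R := lt_of_lt_of_le one_pos hb.R1
  obtain ⟨w, hwT, hwc, _, _⟩ := h.tb.both hθ false
  have hw0 : w ∈ S0 S a b := (hb.Tm w hwT).1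
  have hk : ∀ x ∈ T, cl x = false →
      A (c3 * (f.ph x : ℚ) + (c2 * (w : ℚ) ^ 2 + c1 * w + c0) - g.ph x) ≤
        R * Real.exp (-(12 / 25 * m)) := by
    intro x hxT hxc
    have hx0 : x ∈ S0 S a b := (hb.Tm x hxT).1
    have e1 : c3 * (f.ph x : ℚ) + (c2 * (w : ℚ) ^ 2 + c1 * w + c0) - g.ph x =
        ((w : ℚ) - x) * (c2 * ((w : ℚ) + x) + c1) := by
      rw [h.rel.eq x hx0]
      ring
    have e2 := hb.close hw0 hx0 (h.tb.simf w hw0 x hx0 hwc hxc)
    have e3 := h.lam_up hw0 hx0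
    have e4 : A c2 * R * Real.exp (2 * θ * m) ≤
        Real.exp (501 / 1000 * m) * Real.exp (2 * θ * m) :=
      mul_le_mul_of_nonneg_right h.c2up (Real.exp_pos _).le
    rw [e1, map_mul]
    have e5 : A ((w : ℚ) - x) * A (c2 * ((w : ℚ) + x) + c1) ≤
        R * Real.exp (-((1 - 3 * θ) * m)) *
          (Real.exp (501 / 1000 * m) * Real.exp (2 * θ * m)) :=
      mul_le_mul e2 (e3.trans e4) (A.nonneg _) (by positivity)
    refine e5.trans ?_
    rw [mul_assoc, ← Real.exp_add, ← Real.exp_add]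
    refine mul_le_mul_of_nonneg_left (Real.exp_le_exp.2 ?_) hR.le
    nlinarith
  have h1 := h.tb.tau3 hθ h.rel.u3 (ρ := 12 / 25) (by norm_num) (by norm_num) h.hD hk
  refine h1.trans (Real.exp_le_exp.2 ?_)
  nlinarith

end F0744E
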