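import Pool.Agent.Lib.MP_f0744f_nt.E.L1

/-! # Row L2_1: the bad case: the size of c2 -/

set_option autoImplicit false

open Polynomial

namespace F0744E

open F0744C F0744D

variable {S : Finset ℤ} {a b : ℤ}

variable {f : PM S a 3} {g : PM S b 3} {A : AbsoluteValue ℚ ℝ} {R m θ : ℝ} {J : ℕ} {T : Finset ℤ} {cl : ℤ → Bool} {c0 c1 c2 c3 : ℚ}

/-- The final comparison of exponentials. -/
theorem L2_1_final {m θ C' : ℝ} (hθ0 : 0 < θ) (hθ : θ ≤ 1 / 100000000) (hm : 0 < m)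
    (h8 : 8 ≤ Real.exp (θ * m)) (hC : 0 < C')
    (h : C' ^ 2 ≤ C' * Real.exp ((3 / 10 + 9 * θ) * m) + 2 * Real.exp ((1 + 18 * θ) * m)) :
    C' ≤ Real.exp (501 / 1000 * m) := by
  by_contra hcon
  have hD : Real.exp (501 / 1000 * m) < C' := not_le.mp hcon
  have hθm : 0 < θ * m := mul_pos hθ0 hm
  -- `exp (θ m)` times the terms is small
  have hsm : θ * m ≤ 1 / 100000000 * m := mul_le_mul_of_nonneg_right hθ hm.le
  have a1 : Real.exp ((3 / 10 + 9 * θ) * m) * Real.exp (θ * m) ≤ Real.exp (501 / 1000 * m) := by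
    rw [← Real.exp_add]
    apply Real.exp_le_exp.mpr
    have e : (3 / 10 + 9 * θ) * m + θ * m = 3 / 10 * m + 10 * (θ * m) := by ring
    rw [e]
    linarith only [hsm, hm]
  have a2 : Real.exp ((1 + 18 * θ) * m) * Real.exp (θ * m) ≤ Real.exp (501 / 1000 * m) ^ 2 := by
    rw [← Real.exp_add, ← Real.exp_nat_mul]
    apply Real.exp_le_exp.mpr
    have e : (1 + 18 * θ) * m + θ * m = m + 19 * (θ * m) := by ring
    rw [e]
    push_cast
    linarith only [hsm, hm]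
  have p1 := Real.exp_pos ((3 / 10 + 9 * θ) * m)
  have p2 := Real.exp_pos ((1 + 18 * θ) * m)
  have pD := Real.exp_pos (501 / 1000 * m)
  have b1 : 8 * Real.exp ((3 / 10 + 9 * θ) * m) ≤ C' := by
    have := mul_le_mul_of_nonneg_left h8 p1.le
    linarith only [this, a1, hD]
  have b2 : 8 * Real.exp ((1 + 18 * θ) * m) ≤ C' ^ 2 := by
    have h1 := mul_le_mul_of_nonneg_left h8 p2.le
    have h2 : Real.exp (501 / 1000 * m) ^ 2 ≤ C' ^ 2 := pow_le_pow_left₀ pD.le hD.le 2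
    linarith only [h1, h2, a2]
  have b3 := mul_le_mul_of_nonneg_left b1 hC.le
  have b4 : 0 < C' ^ 2 := pow_pos hC 2
  have e2 : C' * C' = C' ^ 2 := by ring
  have e3 : C' * (8 * Real.exp ((3 / 10 + 9 * θ) * m)) =
      8 * (C' * Real.exp ((3 / 10 + 9 * θ) * m)) := by ring
  rw [e2, e3] at b3
  linarith only [b2, b3, b4, h]

/-- Put `c = A c2 R`. Points `x, y ∈ T` with `cl x = cl y = true`, `cl (f.ph x) = true`, `cl (f.ph y) = false` (`TB.both`, `TB.hitf`): `sep` and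
`PB.upf` give `R exp (- θ m) R ^ 2 ≤ exp ((1 + θ) m) A (x - y) A (qq x y)`; `A (x - y) ≤ R exp (7 θ m) / c` (`diam`), and by `qsmall`, `qvar`, `diam`
`A (qq x y) ≤ R ^ 2 exp (- 7 / 10 m) + 2 (R exp (7 θ m) / c) R exp (2 θ m)`. So `c ≤ exp ((1 + 9 θ) m) (exp (- 7 / 10 m) + 2 exp (9 θ m) / c)`.
If `c ≥ exp (7 / 10 m)` the right side is at most `3 exp ((3 / 10 + 18 θ) m) < c`. Otherwise `exp (- 7 / 10 m) ≤ 1 / c`,
`c ^ 2 ≤ 3 exp ((1 + 18 θ) m)`. -/
theorem Bad.c2up (h : Bad f g A R m θ J T cl c0 c1 c2 c3) :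
    A c2 * R ≤ Real.exp (501 / 1000 * m) := by
  have hb := h.tb.base
  have hθ0 := hb.t0
  have hm := hb.m0
  have hR0 : 0 < R := zero_lt_one.trans_le hb.R1
  obtain ⟨x, hxT, hxc, hfx, -⟩ := h.tb.both h.small true
  obtain ⟨y, hyT, hyc, hfy⟩ := h.tb.hitf h.small true
  obtain ⟨z, hzT, w, hwT, -, hzc, hwc, hq⟩ := h.tb.qsmall h.small
  obtain ⟨hx0, hfx0, -⟩ := hb.Tm x hxT
  obtain ⟨hy0, hfy0, -⟩ := hb.Tm y hyT
  obtain ⟨hz0, -, -⟩ := hb.Tm z hzT
  obtain ⟨hw0, -, -⟩ := hb.Tm w hwT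
  have hsep := h.tb.sep (f.ph x) hfx0 (f.ph y) hfy0 (by rw [hfx, hfy]; decide)
  have hup := hb.upf hx0 hy0
  have hd := h.diam hx0 hy0 hxc hyc
  have hd1 := h.diam hx0 hz0 hxc hzc
  have hd2 := h.diam hy0 hw0 hyc hwc
  have hqv := hb.qvar (mem_S0.mp hx0).1 (mem_S0.mp hy0).1 (mem_S0.mp hz0).1 (mem_S0.mp hw0).1
  have hC0 : 0 < A c2 * R := lt_of_lt_of_le (Real.exp_pos _) h.hc
  have na : 0 ≤ A ((x : ℚ) - y) := AbsoluteValue.nonneg _ _
  have nq : 0 ≤ A (qq f.F x y) := AbsoluteValue.nonneg _ _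
  generalize A c2 * R = c at *
  generalize A ((x : ℚ) - y) = u at *
  generalize A (qq f.F x y) = q at *
  generalize A (qq f.F z w) = q1 at *
  generalize A ((x : ℚ) - z) = d1 at *
  generalize A ((y : ℚ) - w) = d2 at *
  generalize A (((f.ph x : ℤ) : ℚ) - ((f.ph y : ℤ) : ℚ)) = v at *
  have e7 := Real.exp_pos (7 * θ * m)
  have e2 := Real.exp_pos (2 * θ * m)
  have e9 : Real.exp (7 * θ * m) * Real.exp (2 * θ * m) = Real.exp (9 * θ * m) := by
    rw [← Real.exp_add]; congr 1; ring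
  -- the bound for `q c`
  have hqc : q * c ≤ R ^ 2 * (c * Real.exp (-(7 / 10 * m)) + 2 * Real.exp (9 * θ * m)) := by
    have k1 : q * c ≤ (q1 + (d1 + d2) * (R * Real.exp (2 * θ * m))) * c :=
      mul_le_mul_of_nonneg_right hqv hC0.le
    have k2 : q1 * c ≤ R ^ 2 * Real.exp (-(7 / 10 * m)) * c :=
      mul_le_mul_of_nonneg_right hq.le hC0.le
    have k3 : (d1 * c + d2 * c) * (R * Real.exp (2 * θ * m)) ≤
        (R * Real.exp (7 * θ * m) + R * Real.exp (7 * θ * m)) * (R * Real.exp (2 * θ * m)) :=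
      mul_le_mul_of_nonneg_right (add_le_add hd1 hd2) (mul_pos hR0 e2).le
    have k4 : (R * Real.exp (7 * θ * m) + R * Real.exp (7 * θ * m)) * (R * Real.exp (2 * θ * m)) =
        R ^ 2 * (2 * Real.exp (9 * θ * m)) := by rw [← e9]; ring
    rw [k4] at k3
    calc q * c ≤ (q1 + (d1 + d2) * (R * Real.exp (2 * θ * m))) * c := k1
      _ = q1 * c + (d1 * c + d2 * c) * (R * Real.exp (2 * θ * m)) := by ring
      _ ≤ R ^ 2 * Real.exp (-(7 / 10 * m)) * c + R ^ 2 * (2 * Real.exp (9 * θ * m)) :=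
          add_le_add k2 k3
      _ = _ := by ring
  -- the product
  have hmain : R ^ 3 * (Real.exp (-(θ * m)) * c ^ 2) ≤ R ^ 3 * (Real.exp ((1 + θ) * m) *
      (Real.exp (7 * θ * m) * (c * Real.exp (-(7 / 10 * m)) + 2 * Real.exp (9 * θ * m)))) := by
    have k1 : R * Real.exp (-(θ * m)) * R ^ 2 ≤ Real.exp ((1 + θ) * m) * (u * q) :=
      (mul_le_mul_of_nonneg_right hsep (pow_pos hR0 2).le).trans hup
    have k2 : (u * c) * (q * c) ≤ (R * Real.exp (7 * θ * m)) *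
        (R ^ 2 * (c * Real.exp (-(7 / 10 * m)) + 2 * Real.exp (9 * θ * m))) :=
      mul_le_mul hd hqc (mul_nonneg nq hC0.le) (mul_pos hR0 e7).le
    calc R ^ 3 * (Real.exp (-(θ * m)) * c ^ 2) = (R * Real.exp (-(θ * m)) * R ^ 2) * c ^ 2 := by ring
      _ ≤ (Real.exp ((1 + θ) * m) * (u * q)) * c ^ 2 :=
          mul_le_mul_of_nonneg_right k1 (pow_pos hC0 2).le
      _ = Real.exp ((1 + θ) * m) * ((u * c) * (q * c)) := by ring
      _ ≤ Real.exp ((1 + θ) * m) * ((R * Real.exp (7 * θ * m)) *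
        (R ^ 2 * (c * Real.exp (-(7 / 10 * m)) + 2 * Real.exp (9 * θ * m)))) :=
          mul_le_mul_of_nonneg_left k2 (Real.exp_pos _).le
      _ = _ := by ring
  have hmain2 := le_of_mul_le_mul_left hmain (pow_pos hR0 3)
  apply L2_1_final hθ0 h.small hm hb.e8 hC0
  have k1 := mul_le_mul_of_nonneg_left hmain2 (Real.exp_pos (θ * m)).le
  have f0 : Real.exp (θ * m) * (Real.exp (-(θ * m)) * c ^ 2) = c ^ 2 := by
    rw [← mul_assoc, ← Real.exp_add, add_neg_cancel, Real.exp_zero, one_mul]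
  have f1 : Real.exp (θ * m) * (Real.exp ((1 + θ) * m) * (Real.exp (7 * θ * m) *
      (c * Real.exp (-(7 / 10 * m)) + 2 * Real.exp (9 * θ * m)))) =
      c * Real.exp ((3 / 10 + 9 * θ) * m) + 2 * Real.exp ((1 + 18 * θ) * m) := by
    have g1 : Real.exp ((3 / 10 + 9 * θ) * m) = Real.exp (θ * m) * (Real.exp ((1 + θ) * m) *
        (Real.exp (7 * θ * m) * Real.exp (-(7 / 10 * m)))) := by
      rw [← Real.exp_add, ← Real.exp_add, ← Real.exp_add]; congr 1; ring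
    have g2 : Real.exp ((1 + 18 * θ) * m) = Real.exp (θ * m) * (Real.exp ((1 + θ) * m) *
        (Real.exp (7 * θ * m) * Real.exp (9 * θ * m))) := by
      rw [← Real.exp_add, ← Real.exp_add, ← Real.exp_add]; congr 1; ring
    rw [g1, g2]; ring
  rw [f0, f1] at k1
  exact k1

end F0744E
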