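import Pool.Agent.Lib.MP_f0744f_nt.E.L2

/-! # Row L4: the bad case: no point goes to the simple class twice -/

set_option autoImplicit false

open Polynomial

namespace F0744E

open F0744C F0744D

variable {S : Finset ℤ} {a b : ℤ}

variable {f : PM S a 3} {g : PM S b 3} {A : AbsoluteValue ℚ ℝ} {R m θ : ℝ} {J : ℕ} {T : Finset ℤ} {cl : ℤ → Bool} {c0 c1 c2 c3 : ℚ}

/-- `o ∈ T` with `cl o = cl (f.ph o) = cl (g.ph o) = true` (`TB.both`). Suppose both images of `y` are in the class `false`. With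
`H o - H y = (G o - F o) - (G y - F y) + (1 - c3) (F o - F y)` (`Rel.eq`): `A (G o - F o) ≤ R exp (- 12 / 25 m)` (`hD`),
`A (G y - F y) ≤ R exp (- (1 - 3 θ) m)` (`PB.close`), `c31`, `PB.two`: size at most `R exp (- 46 / 100 m)`. So by `lam_lo`, `hc`
`A (o - y) ≤ R exp (- 94 / 100 m)`; `TB.qall` with `ρ = 12 / 25`; `PB.upf`: `A (F o - F y) ≤ R exp (- 4 / 10 m) < R exp (- θ m)`, against `sep`. -/
theorem Bad.none (h : Bad f g A R m θ J T cl c0 c1 c2 c3) {y : ℤ} (hy : y ∈ T)
    (hyc : cl y = true) (hf : cl (f.ph y) = false) : cl (g.ph y) = true := by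
  by_contra hg0
  have hg : cl (g.ph y) = false := by simpa using hg0
  have hB := h.tb.base
  obtain ⟨o, hoT, hoc, hof, hog⟩ := h.tb.both h.small true
  obtain ⟨hy0, hFy, hGy⟩ := hB.Tm y hy
  obtain ⟨ho0, hFo, hGo⟩ := hB.Tm o hoT
  have hR1 : 1 ≤ R := hB.R1
  have hR : 0 < R := by linarith
  have hm : 0 < m := hB.m0
  have h8 := hB.eight
  have hlog8 : 0 < Real.log 8 := Real.log_pos (by norm_num)
  have hθm : 0 < θ * m := by linarith
  have hθ : 0 < θ := by
    by_contra hc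
    have : θ * m ≤ 0 := mul_nonpos_of_nonpos_of_nonneg (by linarith) hm.le
    linarith
  have hθs : θ ≤ 1 / 100000000 := h.small
  have hexp8 : (8 : ℝ) ≤ Real.exp (θ * m) := by
    calc (8 : ℝ) = Real.exp (Real.log 8) := (Real.exp_log (by norm_num)).symm
      _ ≤ Real.exp (θ * m) := Real.exp_le_exp.mpr h8
  have hSo : (o : ℤ) ∈ S := (Finset.mem_filter.mp ho0).1
  have hSFo : f.ph o ∈ S := (Finset.mem_filter.mp hFo).1
  have hSFy : f.ph y ∈ S := (Finset.mem_filter.mp hFy).1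
  -- the three sizes
  have e1 : A ((g.ph o : ℚ) - f.ph o) ≤ R * Real.exp (-(12 / 25 * m)) :=
    h.hD _ hGo _ hFo hog hof
  have e2 : A ((g.ph y : ℚ) - f.ph y) ≤ R * Real.exp (-((1 - 3 * θ) * m)) :=
    hB.close hGy hFy (h.tb.simf _ hGy _ hFy hg hf)
  have e3 : A ((f.ph o : ℚ) - f.ph y) ≤ 2 * R := hB.two hSFo hSFy
  have e4 : A (1 - c3) ≤ Real.exp (-(47 / 100 * m)) := by
    have := h.c31
    rw [← A.map_neg] at this
    simpa using this
  have key : ((o : ℚ) - y) * (c2 * ((o : ℚ) + y) + c1) =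
      ((g.ph o : ℚ) - f.ph o) - ((g.ph y : ℚ) - f.ph y) + (1 - c3) * ((f.ph o : ℚ) - f.ph y) := by
    have r1 := h.rel.eq o ho0
    have r2 := h.rel.eq y hy0
    rw [r1, r2]
    ring
  have hq1 : Real.exp (-(12 / 25 * m)) ≤ Real.exp (-(47 / 100 * m)) :=
    Real.exp_le_exp.mpr (by linarith)
  have hq2 : Real.exp (-((1 - 3 * θ) * m)) ≤ Real.exp (-(47 / 100 * m)) := by
    apply Real.exp_le_exp.mpr
    have : 3 * θ * m ≤ 3 / 100000000 * m := by
      apply mul_le_mul_of_nonneg_right _ hm.le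
      linarith
    nlinarith
  have hq3 : 4 * Real.exp (-(47 / 100 * m)) ≤ Real.exp (-(46 / 100 * m)) := by
    have h1 : (4 : ℝ) ≤ Real.exp (1 / 100 * m) := by
      have : Real.exp (θ * m) ≤ Real.exp (1 / 100 * m) := by
        apply Real.exp_le_exp.mpr
        apply mul_le_mul_of_nonneg_right _ hm.le
        linarith
      linarith
    calc 4 * Real.exp (-(47 / 100 * m)) ≤ Real.exp (1 / 100 * m) * Real.exp (-(47 / 100 * m)) :=
          mul_le_mul_of_nonneg_right h1 (Real.exp_pos _).le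
      _ = Real.exp (-(46 / 100 * m)) := by
          rw [← Real.exp_add]; congr 1; ring
  have tot : A (((o : ℚ) - y) * (c2 * ((o : ℚ) + y) + c1)) ≤ R * Real.exp (-(46 / 100 * m)) := by
    rw [key]
    have t1 : A (((g.ph o : ℚ) - f.ph o) - ((g.ph y : ℚ) - f.ph y) +
        (1 - c3) * ((f.ph o : ℚ) - f.ph y)) ≤
        A ((g.ph o : ℚ) - f.ph o) + A ((g.ph y : ℚ) - f.ph y) +
        A (1 - c3) * A ((f.ph o : ℚ) - f.ph y) := by
      calc _ ≤ A (((g.ph o : ℚ) - f.ph o) - ((g.ph y : ℚ) - f.ph y)) +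
            A ((1 - c3) * ((f.ph o : ℚ) - f.ph y)) := A.add_le _ _
        _ ≤ _ := by
          rw [A.map_mul]
          have : A (((g.ph o : ℚ) - f.ph o) - ((g.ph y : ℚ) - f.ph y)) ≤
              A ((g.ph o : ℚ) - f.ph o) + A ((g.ph y : ℚ) - f.ph y) := by
            rw [sub_eq_add_neg]
            refine (A.add_le _ _).trans ?_
            rw [A.map_neg]
          linarith
    have t2 : A (1 - c3) * A ((f.ph o : ℚ) - f.ph y) ≤
        Real.exp (-(47 / 100 * m)) * (2 * R) :=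
      mul_le_mul e4 e3 (A.nonneg _) (Real.exp_pos _).le
    have t3 : R * Real.exp (-(12 / 25 * m)) ≤ R * Real.exp (-(47 / 100 * m)) :=
      mul_le_mul_of_nonneg_left hq1 hR.le
    have t4 : R * Real.exp (-((1 - 3 * θ) * m)) ≤ R * Real.exp (-(47 / 100 * m)) :=
      mul_le_mul_of_nonneg_left hq2 hR.le
    have t5 : R * (4 * Real.exp (-(47 / 100 * m))) ≤ R * Real.exp (-(46 / 100 * m)) :=
      mul_le_mul_of_nonneg_left hq3 hR.le
    nlinarith
  have lam := h.lam_lo ho0 hy0 hoc hyc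
  have lam2 : Real.exp ((489 / 1000 - 3 * θ) * m) ≤ A (c2 * ((o : ℚ) + y) + c1) := by
    refine le_trans ?_ lam
    calc Real.exp ((489 / 1000 - 3 * θ) * m) =
          Real.exp (489 / 1000 * m) * Real.exp (-(3 * θ * m)) := by
            rw [← Real.exp_add]; congr 1; ring
      _ ≤ A c2 * R * Real.exp (-(3 * θ * m)) :=
          mul_le_mul_of_nonneg_right h.hc (Real.exp_pos _).le
  have hoy : A ((o : ℚ) - y) ≤ R * Real.exp (-(94 / 100 * m)) := by
    rw [A.map_mul] at tot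
    have h1 : A ((o : ℚ) - y) * Real.exp ((489 / 1000 - 3 * θ) * m) ≤
        R * Real.exp (-(46 / 100 * m)) :=
      (mul_le_mul_of_nonneg_left lam2 (A.nonneg _)).trans tot
    have h2 : A ((o : ℚ) - y) ≤
        R * Real.exp (-(46 / 100 * m)) * Real.exp (-((489 / 1000 - 3 * θ) * m)) := by
      have := mul_le_mul_of_nonneg_right h1 (Real.exp_pos (-((489 / 1000 - 3 * θ) * m))).le
      rwa [mul_assoc, ← Real.exp_add, add_neg_cancel, Real.exp_zero, mul_one] at this
    refine h2.trans ?_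
    rw [mul_assoc, ← Real.exp_add]
    apply mul_le_mul_of_nonneg_left _ hR.le
    apply Real.exp_le_exp.mpr
    have : 3 * θ * m ≤ 3 / 100000000 * m := by
      apply mul_le_mul_of_nonneg_right _ hm.le
      linarith
    nlinarith
  have hqq : A (qq f.F o y) ≤ R ^ 2 * Real.exp (-((12 / 25 - 3 * θ) * m)) :=
    h.tb.qall h.small (by norm_num) h.hD ho0 hy0 hoc hyc
  have hup := hB.upf ho0 hy0
  have hsep := h.tb.sep _ hFo _ hFy (by rw [hof, hf]; decide)
  have hprod : Real.exp ((1 + θ) * m) * (A ((o : ℚ) - y) * A (qq f.F o y)) ≤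
      R ^ 3 * Real.exp (-(4 / 10 * m)) := by
    have h1 : A ((o : ℚ) - y) * A (qq f.F o y) ≤
        (R * Real.exp (-(94 / 100 * m))) * (R ^ 2 * Real.exp (-((12 / 25 - 3 * θ) * m))) :=
      mul_le_mul hoy hqq (A.nonneg _) (mul_nonneg hR.le (Real.exp_pos _).le)
    calc Real.exp ((1 + θ) * m) * (A ((o : ℚ) - y) * A (qq f.F o y)) ≤
          Real.exp ((1 + θ) * m) * ((R * Real.exp (-(94 / 100 * m))) *
            (R ^ 2 * Real.exp (-((12 / 25 - 3 * θ) * m)))) :=
          mul_le_mul_of_nonneg_left h1 (Real.exp_pos _).le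
      _ = R ^ 3 * (Real.exp ((1 + θ) * m) * Real.exp (-(94 / 100 * m)) *
            Real.exp (-((12 / 25 - 3 * θ) * m))) := by ring
      _ = R ^ 3 * Real.exp ((1 + θ) * m + -(94 / 100 * m) + -((12 / 25 - 3 * θ) * m)) := by
          rw [← Real.exp_add, ← Real.exp_add]
      _ ≤ R ^ 3 * Real.exp (-(4 / 10 * m)) := by
          apply mul_le_mul_of_nonneg_left _ (by positivity)
          apply Real.exp_le_exp.mpr
          have : 4 * θ * m ≤ 4 / 100000000 * m := by
            apply mul_le_mul_of_nonneg_right _ hm.le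
            linarith
          nlinarith
  have h5 : R * Real.exp (-(θ * m)) * R ^ 2 ≤ R ^ 3 * Real.exp (-(4 / 10 * m)) :=
    (mul_le_mul_of_nonneg_right hsep (by positivity)).trans (hup.trans hprod)
  have h6 : Real.exp (-(4 / 10 * m)) < Real.exp (-(θ * m)) := by
    apply Real.exp_lt_exp.mpr
    have : θ * m ≤ 1 / 100000000 * m := mul_le_mul_of_nonneg_right hθs hm.le
    nlinarith
  have hR3 : 0 < R ^ 3 := by positivity
  have h7 : R ^ 3 * Real.exp (-(4 / 10 * m)) < R ^ 3 * Real.exp (-(θ * m)) :=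
    mul_lt_mul_of_pos_left h6 hR3
  have h8' : R * Real.exp (-(θ * m)) * R ^ 2 = R ^ 3 * Real.exp (-(θ * m)) := by ring
  linarith

end F0744E
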