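import Pool.Agent.Lib.MP_f0744f_nt.E.L5_1

/-! # Row L5_2: the bad case: an arithmetic progression -/

set_option autoImplicit false

open Polynomial

namespace F0744E

open F0744C F0744D

variable {S : Finset ℤ} {a b : ℤ}

variable {f : PM S a 3} {g : PM S b 3} {A : AbsoluteValue ℚ ℝ} {R m θ : ℝ} {J : ℕ} {T : Finset ℤ} {cl : ℤ → Bool} {c0 c1 c2 c3 : ℚ}

/-- `H q - H o = (G q - G o) - c3 (F q - F o)` has size at least `R exp (- θ m) - R exp (- (12 / 25 - 2 θ) m) ≥ R exp (- 2 θ m)` (`sep`, `hD`), and it is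
`(q - o) (c2 (q + o) + c1)` (`lam_up`, `c2up`). -/
theorem Bad.qo (h : Bad f g A R m θ J T cl c0 c1 c2 c3) {o q : ℤ} (ho : o ∈ T) (hq : q ∈ T)
    (hoc : cl o = true) (hof : cl (f.ph o) = true) (hog : cl (g.ph o) = true)
    (hqc : cl q = true) (hqf : cl (f.ph q) = true) (hqg : cl (g.ph q) = false) :
    R * Real.exp (-(51 / 100 * m)) ≤ A ((q : ℚ) - o) ∧
      A (qq f.F q o) ≤ R ^ 2 * Real.exp (-(95 / 100 * m)) := by
  have hb := h.tb.base
  have hm := hb.m0
  have hθ0 := hb.t0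
  have hθ1 := h.small
  have he8 := hb.e8
  have hR : 0 < R := lt_of_lt_of_le one_pos hb.R1
  have hoS := hb.Tm o ho
  have hqS := hb.Tm q hq
  have hθm : θ * m ≤ 1 / 100000000 * m := mul_le_mul_of_nonneg_right hθ1 hm.le
  have hθm0 : 0 < θ * m := by positivity
  -- the difference of the values of `H`
  have e1 := h.rel.eq q hqS.1
  have e2 := h.rel.eq o hoS.1
  have e3 : ((g.ph q : ℤ) : ℚ) - g.ph o =
      ((q : ℚ) - o) * (c2 * ((q : ℚ) + o) + c1) + c3 * (((f.ph q : ℤ) : ℚ) - f.ph o) := by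
    rw [e1, e2]
    ring
  have h1 : R * Real.exp (-(θ * m)) ≤ A (((g.ph q : ℤ) : ℚ) - g.ph o) :=
    h.tb.sep _ hqS.2.2 _ hoS.2.2 (by rw [hqg, hog]; decide)
  have h2 : A (((g.ph q : ℤ) : ℚ) - g.ph o) ≤
      A ((q : ℚ) - o) * A (c2 * ((q : ℚ) + o) + c1) +
        A c3 * A (((f.ph q : ℤ) : ℚ) - f.ph o) := by
    rw [e3, ← map_mul, ← map_mul]
    exact A.add_le _ _
  have h3 := h.lam_up hqS.1 hoS.1
  have h4 : A c2 * R ≤ Real.exp (501 / 1000 * m) := h.c2up
  have h5 := h.hD _ hqS.2.1 _ hoS.2.1 hqf hof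
  have h6 := h.rel.u3
  have h7 : A (c2 * ((q : ℚ) + o) + c1) ≤ Real.exp (501 / 1000 * m) * Real.exp (2 * θ * m) :=
    h3.trans (mul_le_mul_of_nonneg_right h4 (Real.exp_pos _).le)
  have h8 : A c3 * A (((f.ph q : ℤ) : ℚ) - f.ph o) ≤
      Real.exp (2 * θ * m) * (R * Real.exp (-(12 / 25 * m))) :=
    mul_le_mul h6 h5 (A.nonneg _) (Real.exp_pos _).le
  have h9 : Real.exp (2 * θ * m) * (R * Real.exp (-(12 / 25 * m))) ≤
      R * Real.exp (-(θ * m)) * Real.exp (-(θ * m)) := by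
    have e : Real.exp (2 * θ * m) * (R * Real.exp (-(12 / 25 * m))) =
        R * Real.exp (2 * θ * m + -(12 / 25 * m)) := by
      rw [Real.exp_add]
      ring
    have e' : R * Real.exp (-(θ * m)) * Real.exp (-(θ * m)) =
        R * Real.exp (-(θ * m) + -(θ * m)) := by
      rw [Real.exp_add]
      ring
    rw [e, e']
    exact mul_le_mul_of_nonneg_left (Real.exp_le_exp.2 (by linarith)) hR.le
  have h10 : Real.exp (-(θ * m)) ≤ 1 / 8 := by
    rw [Real.exp_neg, one_div]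
    exact inv_anti₀ (by norm_num) he8
  have hx0 : 0 < R * Real.exp (-(θ * m)) := by positivity
  have h11 : R * Real.exp (-(θ * m)) * Real.exp (-(θ * m)) ≤ R * Real.exp (-(θ * m)) * (1 / 8) :=
    mul_le_mul_of_nonneg_left h10 hx0.le
  have h12 : R * Real.exp (-(θ * m)) * Real.exp (-(θ * m)) ≤
      A ((q : ℚ) - o) * (Real.exp (501 / 1000 * m) * Real.exp (2 * θ * m)) := by
    have h13 : A ((q : ℚ) - o) * A (c2 * ((q : ℚ) + o) + c1) ≤
        A ((q : ℚ) - o) * (Real.exp (501 / 1000 * m) * Real.exp (2 * θ * m)) :=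
      mul_le_mul_of_nonneg_left h7 (A.nonneg _)
    linarith
  have hc1 : R * Real.exp (-(51 / 100 * m)) ≤ A ((q : ℚ) - o) := by
    have hE : 0 < Real.exp (501 / 1000 * m) * Real.exp (2 * θ * m) := by positivity
    refine le_of_mul_le_mul_right ?_ hE
    refine le_trans ?_ h12
    have e : R * Real.exp (-(51 / 100 * m)) * (Real.exp (501 / 1000 * m) *
        Real.exp (2 * θ * m)) = R * Real.exp (-(51 / 100 * m) + 501 / 1000 * m + 2 * θ * m) := by
      rw [Real.exp_add, Real.exp_add]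
      ring
    have e' : R * Real.exp (-(θ * m)) * Real.exp (-(θ * m)) =
        R * Real.exp (-(θ * m) + -(θ * m)) := by
      rw [Real.exp_add]
      ring
    rw [e, e']
    exact mul_le_mul_of_nonneg_left (Real.exp_le_exp.2 (by linarith)) hR.le
  refine ⟨hc1, ?_⟩
  have h14 := hb.lof hqS.1 hoS.1
  have h15 : A (((f.ph q : ℤ) : ℚ) - f.ph o) * R ^ 2 ≤
      R * Real.exp (-(12 / 25 * m)) * R ^ 2 :=
    mul_le_mul_of_nonneg_right h5 (by positivity)
  have h16 : Real.exp ((1 - θ) * m) * (R * Real.exp (-(51 / 100 * m)) * A (qq f.F q o)) ≤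
      R * Real.exp (-(12 / 25 * m)) * R ^ 2 := by
    refine le_trans ?_ (h14.trans h15)
    exact mul_le_mul_of_nonneg_left (mul_le_mul_of_nonneg_right hc1 (A.nonneg _))
      (Real.exp_pos _).le
  have hE : 0 < R * (Real.exp ((1 - θ) * m) * Real.exp (-(51 / 100 * m))) := by positivity
  refine le_of_mul_le_mul_left ?_ hE
  calc R * (Real.exp ((1 - θ) * m) * Real.exp (-(51 / 100 * m))) * A (qq f.F q o) =
      Real.exp ((1 - θ) * m) * (R * Real.exp (-(51 / 100 * m)) * A (qq f.F q o)) := by ring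
    _ ≤ R * Real.exp (-(12 / 25 * m)) * R ^ 2 := h16
    _ = R * R ^ 2 * Real.exp (-(12 / 25 * m)) := by ring
    _ ≤ R * R ^ 2 * Real.exp ((1 - θ) * m + -(51 / 100 * m) + -(95 / 100 * m)) :=
        mul_le_mul_of_nonneg_left (Real.exp_le_exp.2 (by linarith)) (by positivity)
    _ = R * (Real.exp ((1 - θ) * m) * Real.exp (-(51 / 100 * m))) *
        (R ^ 2 * Real.exp (-(95 / 100 * m))) := by
        rw [Real.exp_add, Real.exp_add]
        ring

end F0744E
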