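import Pool.Agent.Lib.MP_f0744f_nt.E.L4

/-! # Row L5_1: the bad case: an arithmetic progression -/

set_option autoImplicit false

open Polynomial

namespace F0744E

open F0744C F0744D

variable {S : Finset ℤ} {a b : ℤ}

variable {f : PM S a 3} {g : PM S b 3} {A : AbsoluteValue ℚ ℝ} {R m θ : ℝ} {J : ℕ} {T : Finset ℤ} {cl : ℤ → Bool} {c0 c1 c2 c3 : ℚ}

/-- `(H n - H o) + (H q - H o) = (G n - G o) + (G q - F n) - c3 (F q - F o) + (1 - c3) (F n - F o) + …`: precisely it is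
`(G n - G o) - c3 (F n - F o) + (G q - G o) - c3 (F q - F o)`, where `G n - G o`, `F q - F o`, `G o - F o` are differences of points of the class
`true` (`hD`) and `G q - F n` of points of the class `false` (`PB.close`), and `G q - G o - c3 (F n - F o) = (G q - F n) - (G o - F o) + (1 - c3) (F n - F o)`
(`c31`): size at most `R exp (- 46 / 100 m)`. The left side is `(n - o) λ + (q - o) λ'` with `λ = c2 (n + o) + c1`, `λ' = c2 (q + o) + c1`,
`λ - λ' = c2 (n - q)`, `A (n - q) ≤ R exp (- 12 / 25 m)`, `c2up`: so `A ((n + q - 2 o) λ') ≤ R exp (- 44 / 100 m)`; `lam_lo`, `hc`. -/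
theorem Bad.ap (h : Bad f g A R m θ J T cl c0 c1 c2 c3) {o q n : ℤ} (ho : o ∈ T) (hq : q ∈ T)
    (hn : n ∈ T) (hoc : cl o = true) (hof : cl (f.ph o) = true) (hog : cl (g.ph o) = true)
    (hqc : cl q = true) (hqf : cl (f.ph q) = true) (hqg : cl (g.ph q) = false)
    (hnc : cl n = true) (hnf : cl (f.ph n) = false) :
    A ((n : ℚ) + q - 2 * o) ≤ R * Real.exp (-(92 / 100 * m)) := by
  have hb := h.tb.base
  have hm := hb.m0
  have hθ0 := hb.t0
  have hθ1 := h.small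
  have he8 := hb.e8
  have hR : 0 < R := lt_of_lt_of_le one_pos hb.R1
  have hoS := hb.Tm o ho
  have hqS := hb.Tm q hq
  have hnS := hb.Tm n hn
  have hng : cl (g.ph n) = true := h.none hn hnc hnf
  have hθm : θ * m ≤ 1 / 100000000 * m := mul_le_mul_of_nonneg_right hθ1 hm.le
  have hθm0 : 0 < θ * m := by positivity
  have inS : ∀ x, x ∈ S0 S a b → x ∈ S := fun x hx => (Finset.mem_filter.1 hx).1
  have e1 := h.rel.eq q hqS.1
  have e2 := h.rel.eq o hoS.1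
  have e3 := h.rel.eq n hnS.1
  -- the identity
  have hid : ((n : ℚ) + q - 2 * o) * (c2 * ((q : ℚ) + o) + c1) =
      (((g.ph n : ℤ) : ℚ) - g.ph o) + (((g.ph q : ℤ) : ℚ) - f.ph n)
        + (-(((g.ph o : ℤ) : ℚ) - f.ph o)) + (-((c3 - 1) * (((f.ph n : ℤ) : ℚ) - f.ph o)))
        + (-(c3 * (((f.ph q : ℤ) : ℚ) - f.ph o)))
        + (-(((n : ℚ) - o) * c2 * ((n : ℚ) - q))) := by
    rw [e1, e2, e3]
    ring
  have b1 : A (((g.ph n : ℤ) : ℚ) - g.ph o) ≤ R * Real.exp (-(12 / 25 * m)) :=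
    h.hD _ hnS.2.2 _ hoS.2.2 hng hog
  have b2 : A (((g.ph q : ℤ) : ℚ) - f.ph n) ≤ R * Real.exp (-((1 - 3 * θ) * m)) :=
    hb.close hqS.2.2 hnS.2.1 (h.tb.simf _ hqS.2.2 _ hnS.2.1 hqg hnf)
  have b3 : A (((g.ph o : ℤ) : ℚ) - f.ph o) ≤ R * Real.exp (-(12 / 25 * m)) :=
    h.hD _ hoS.2.2 _ hoS.2.1 hog hof
  have b4 : A (((f.ph n : ℤ) : ℚ) - f.ph o) ≤ 2 * R := hb.two (inS _ hnS.2.1) (inS _ hoS.2.1)
  have b5 : A (((f.ph q : ℤ) : ℚ) - f.ph o) ≤ R * Real.exp (-(12 / 25 * m)) :=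
    h.hD _ hqS.2.1 _ hoS.2.1 hqf hof
  have b6 : A ((n : ℚ) - o) ≤ R * Real.exp (-(12 / 25 * m)) := h.hD _ hnS.1 _ hoS.1 hnc hoc
  have b7 : A ((n : ℚ) - q) ≤ R * Real.exp (-(12 / 25 * m)) := h.hD _ hnS.1 _ hqS.1 hnc hqc
  have c31 := h.c31
  have c3u := h.rel.u3
  have c2u : A c2 * R ≤ Real.exp (501 / 1000 * m) := h.c2up
  have hlo := h.lam_lo hqS.1 hoS.1 hqc hoc
  have hc := h.hc
  -- all the terms are at most `E = R exp (- 45 / 100 m)` with a factor `exp (- θ m) ≤ 1 / 8`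
  set E : ℝ := R * Real.exp (-(455 / 1000 * m)) with hE
  have hE0 : 0 < E := by positivity
  have h18 : Real.exp (-(θ * m)) ≤ 1 / 8 := by
    rw [Real.exp_neg, one_div]
    exact inv_anti₀ (by norm_num) he8
  have key : ∀ t : ℝ, t ≤ -(455 / 1000 * m) - θ * m → R * Real.exp t ≤ E / 8 := by
    intro t ht
    have : R * Real.exp t ≤ E * Real.exp (-(θ * m)) := by
      rw [hE, mul_assoc, ← Real.exp_add]
      exact mul_le_mul_of_nonneg_left (Real.exp_le_exp.2 (by linarith)) hR.le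
    have h2 : E * Real.exp (-(θ * m)) ≤ E * (1 / 8) := mul_le_mul_of_nonneg_left h18 hE0.le
    linarith
  have d1 : A (((g.ph n : ℤ) : ℚ) - g.ph o) ≤ E / 8 := b1.trans (key _ (by linarith))
  have d2 : A (((g.ph q : ℤ) : ℚ) - f.ph n) ≤ E / 8 := b2.trans (key _ (by nlinarith))
  have d3 : A (-(((g.ph o : ℤ) : ℚ) - f.ph o)) ≤ E / 8 := by
    rw [A.map_neg]; exact b3.trans (key _ (by linarith))
  have d4 : A (-((c3 - 1) * (((f.ph n : ℤ) : ℚ) - f.ph o))) ≤ E / 4 := by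
    rw [A.map_neg, map_mul]
    have : A (c3 - 1) * A (((f.ph n : ℤ) : ℚ) - f.ph o) ≤
        Real.exp (-(47 / 100 * m)) * (2 * R) :=
      mul_le_mul c31 b4 (A.nonneg _) (Real.exp_pos _).le
    have h2 := key (-(47 / 100 * m)) (by linarith)
    nlinarith
  have d5 : A (-(c3 * (((f.ph q : ℤ) : ℚ) - f.ph o))) ≤ E / 8 := by
    rw [A.map_neg, map_mul]
    have h1 : A c3 * A (((f.ph q : ℤ) : ℚ) - f.ph o) ≤
        Real.exp (2 * θ * m) * (R * Real.exp (-(12 / 25 * m))) :=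
      mul_le_mul c3u b5 (A.nonneg _) (Real.exp_pos _).le
    have h2 : Real.exp (2 * θ * m) * (R * Real.exp (-(12 / 25 * m))) =
        R * Real.exp (2 * θ * m + -(12 / 25 * m)) := by
      rw [Real.exp_add]; ring
    rw [h2] at h1
    exact h1.trans (key _ (by linarith))
  have d6 : A (-(((n : ℚ) - o) * c2 * ((n : ℚ) - q))) ≤ E / 8 := by
    rw [A.map_neg, map_mul, map_mul]
    have h1 : A ((n : ℚ) - o) * A c2 * A ((n : ℚ) - q) ≤
        (R * Real.exp (-(12 / 25 * m))) * A c2 * (R * Real.exp (-(12 / 25 * m))) := by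
      refine mul_le_mul (mul_le_mul_of_nonneg_right b6 (A.nonneg _)) b7 (A.nonneg _) ?_
      have := A.nonneg c2
      positivity
    have h2 : (R * Real.exp (-(12 / 25 * m))) * A c2 * (R * Real.exp (-(12 / 25 * m))) =
        (A c2 * R) * (R * Real.exp (-(12 / 25 * m) + -(12 / 25 * m))) := by
      rw [Real.exp_add]; ring
    have h3 : (A c2 * R) * (R * Real.exp (-(12 / 25 * m) + -(12 / 25 * m))) ≤
        Real.exp (501 / 1000 * m) * (R * Real.exp (-(12 / 25 * m) + -(12 / 25 * m))) :=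
      mul_le_mul_of_nonneg_right c2u (by positivity)
    have h4 : Real.exp (501 / 1000 * m) * (R * Real.exp (-(12 / 25 * m) + -(12 / 25 * m))) =
        R * Real.exp (501 / 1000 * m + (-(12 / 25 * m) + -(12 / 25 * m))) := by
      rw [Real.exp_add (501 / 1000 * m)]; ring
    have h5 := key (501 / 1000 * m + (-(12 / 25 * m) + -(12 / 25 * m))) (by linarith)
    linarith
  have hprod : A ((n : ℚ) + q - 2 * o) * A (c2 * ((q : ℚ) + o) + c1) ≤ E := by
    rw [← map_mul, hid]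
    have t1 := A.add_le ((((g.ph n : ℤ) : ℚ) - g.ph o) + (((g.ph q : ℤ) : ℚ) - f.ph n)
        + (-(((g.ph o : ℤ) : ℚ) - f.ph o)) + (-((c3 - 1) * (((f.ph n : ℤ) : ℚ) - f.ph o)))
        + (-(c3 * (((f.ph q : ℤ) : ℚ) - f.ph o)))) (-(((n : ℚ) - o) * c2 * ((n : ℚ) - q)))
    have t2 := A.add_le ((((g.ph n : ℤ) : ℚ) - g.ph o) + (((g.ph q : ℤ) : ℚ) - f.ph n)
        + (-(((g.ph o : ℤ) : ℚ) - f.ph o)) + (-((c3 - 1) * (((f.ph n : ℤ) : ℚ) - f.ph o))))
        (-(c3 * (((f.ph q : ℤ) : ℚ) - f.ph o)))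
    have t3 := A.add_le ((((g.ph n : ℤ) : ℚ) - g.ph o) + (((g.ph q : ℤ) : ℚ) - f.ph n)
        + (-(((g.ph o : ℤ) : ℚ) - f.ph o))) (-((c3 - 1) * (((f.ph n : ℤ) : ℚ) - f.ph o)))
    have t4 := A.add_le ((((g.ph n : ℤ) : ℚ) - g.ph o) + (((g.ph q : ℤ) : ℚ) - f.ph n))
        (-(((g.ph o : ℤ) : ℚ) - f.ph o))
    have t5 := A.add_le (((g.ph n : ℤ) : ℚ) - g.ph o) (((g.ph q : ℤ) : ℚ) - f.ph n)
    linarith
  -- the lower bound of the slope
  have hl : Real.exp (489 / 1000 * m) * Real.exp (-(3 * θ * m)) ≤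
      A (c2 * ((q : ℚ) + o) + c1) :=
    (mul_le_mul_of_nonneg_right hc (Real.exp_pos _).le).trans hlo
  have hl0 : 0 < Real.exp (489 / 1000 * m) * Real.exp (-(3 * θ * m)) := by positivity
  have hfin : A ((n : ℚ) + q - 2 * o) *
      (Real.exp (489 / 1000 * m) * Real.exp (-(3 * θ * m))) ≤ E :=
    (mul_le_mul_of_nonneg_left hl (A.nonneg _)).trans hprod
  refine le_of_mul_le_mul_right (hfin.trans ?_) hl0
  have e : R * Real.exp (-(92 / 100 * m)) * (Real.exp (489 / 1000 * m) *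
      Real.exp (-(3 * θ * m))) =
      R * Real.exp (-(92 / 100 * m) + 489 / 1000 * m + -(3 * θ * m)) := by
    rw [Real.exp_add, Real.exp_add]; ring
  rw [e, hE]
  exact mul_le_mul_of_nonneg_left (Real.exp_le_exp.2 (by linarith)) hR.le

end F0744E
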