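import Pool.Agent.Lib.MP_f0744f_nt.E.L6_1

/-! # Row L6_2: the bad case: qq is large on the points which go to the simple class -/

set_option autoImplicit false

open Polynomial

namespace F0744E

open F0744C F0744D

variable {S : Finset ℤ} {a b : ℤ}

variable {f : PM S a 3} {g : PM S b 3} {A : AbsoluteValue ℚ ℝ} {R m θ : ℝ} {J : ℕ} {T : Finset ℤ} {cl : ℤ → Bool} {c0 c1 c2 c3 : ℚ}

/-- `U` = the set, `u` its cardinality, `u ≤ N = S.card`. `en_step` with `M = (1 - θ) m`, `ω = 53 / 100 m` (`Bad.qn`), and `PB.en_simple` for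
`U.image f.ph ⊆ Dm S a f.ph (J + 1)` (`Tf`, `Dm_succ`, `Dm_mono`), all its points are in `S0` (`Tm`) and in the class `false` (`simf`); it has `u`
elements (`f.inj`): `En U ≥ (47 / 100 - θ) m (u ^ 2 - u) + (3 / 2) u ^ 2 m - 4 θ N ^ 2 m`; `u m ≤ N m ≤ θ N ^ 2 m` (`big`). -/
theorem Bad.en (h : Bad f g A R m θ J T cl c0 c1 c2 c3) :
    49 / 25 * ((T.filter (fun x => cl x = true ∧ cl (f.ph x) = false)).card : ℝ) ^ 2 * m -
        1 / 10000 * (S.card : ℝ) ^ 2 * m ≤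
      En A R (T.filter (fun x => cl x = true ∧ cl (f.ph x) = false)) := by
  obtain ⟨U, hU⟩ : ∃ U, U = T.filter (fun x => cl x = true ∧ cl (f.ph x) = false) := ⟨_, rfl⟩
  rw [← hU]
  have hb := h.tb.base
  have hm := hb.m0
  have hUm : ∀ x ∈ U, x ∈ T ∧ cl x = true ∧ cl (f.ph x) = false := fun x hx => by
    rw [hU, Finset.mem_filter] at hx
    exact hx
  have hUS : ∀ x ∈ U, x ∈ S ∧ x ≠ a := fun x hx => by
    have h1 := mem_S0.1 (hb.Tm x (hUm x hx).1).1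
    exact ⟨h1.1, h1.2.1⟩
  have h1 := en_step f (A := A) hb.R1 hUS hb.mf1 (ω := 53 / 100 * m)
    (fun x hx y hy _ => h.qn (hUm x hx).1 (hUm y hy).1 (hUm x hx).2.1 (hUm x hx).2.2
      (hUm y hy).2.1 (hUm y hy).2.2)
  have h2 := hb.en_simple (U := U.image f.ph) (by
    intro y hy
    obtain ⟨x, hx, rfl⟩ := Finset.mem_image.1 hy
    exact Dm_anti f.ph (J + 1) (Dm_succ (hb.Tf (hUm x hx).1)).2.2) (by
    intro x hx y hy _
    obtain ⟨x', hx', rfl⟩ := Finset.mem_image.1 hx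
    obtain ⟨y', hy', rfl⟩ := Finset.mem_image.1 hy
    exact h.tb.simf _ (hb.Tm x' (hUm x' hx').1).2.1 _ (hb.Tm y' (hUm y' hy').1).2.1
      (hUm x' hx').2.2 (hUm y' hy').2.2)
  have h3 : (U.image f.ph).card = U.card := Finset.card_image_of_injOn (fun x hx y hy hxy =>
    f.inj x (hUS x hx).1 y (hUS y hy).1 (hUS x hx).2 (hUS y hy).2 hxy)
  rw [h3] at h2
  have h4 : U.card ≤ S.card := Finset.card_le_card (fun x hx => (hUS x hx).1)
  have h4' : (U.card : ℝ) ≤ S.card := by exact_mod_cast h4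
  have hu0 : (0 : ℝ) ≤ U.card := Nat.cast_nonneg _
  have hN0 : (0 : ℝ) ≤ S.card := Nat.cast_nonneg _
  have hθ0 := hb.t0
  have hθ1 := h.small
  have h5 : (S.card : ℝ) ≤ θ * (S.card : ℝ) ^ 2 := by
    have := hb.big
    nlinarith
  have h6 : (U.card : ℝ) * m ≤ θ * (S.card : ℝ) ^ 2 * m :=
    mul_le_mul_of_nonneg_right (h4'.trans h5) hm.le
  have h7 : 0 ≤ (U.card : ℝ) ^ 2 * m := by positivity
  have h8 : 0 ≤ (S.card : ℝ) ^ 2 * m := by positivity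
  have h9 : θ * (S.card : ℝ) ^ 2 * m ≤ 1 / 100000000 * ((S.card : ℝ) ^ 2 * m) := by
    rw [mul_assoc]
    exact mul_le_mul_of_nonneg_right hθ1 h8
  have h10 : θ * ((U.card : ℝ) ^ 2 * m) ≤ 1 / 100000000 * ((U.card : ℝ) ^ 2 * m) :=
    mul_le_mul_of_nonneg_right hθ1 h7
  have h11 : 0 ≤ θ * ((U.card : ℝ) * m) := by positivity
  have h12 : ((1 - θ) * m - 53 / 100 * m) * ((U.card : ℝ) ^ 2 - U.card) =
      47 / 100 * ((U.card : ℝ) ^ 2 * m) - θ * ((U.card : ℝ) ^ 2 * m) -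
        47 / 100 * ((U.card : ℝ) * m) + θ * ((U.card : ℝ) * m) := by ring
  rw [h12] at h1
  have h13 : 49 / 25 * (U.card : ℝ) ^ 2 * m - 1 / 10000 * (S.card : ℝ) ^ 2 * m =
      49 / 25 * ((U.card : ℝ) ^ 2 * m) - 1 / 10000 * ((S.card : ℝ) ^ 2 * m) := by ring
  rw [h13]
  have h14 : 3 / 2 * (U.card : ℝ) ^ 2 * m - 4 * θ * (S.card : ℝ) ^ 2 * m =
      3 / 2 * ((U.card : ℝ) ^ 2 * m) - 4 * (θ * (S.card : ℝ) ^ 2 * m) := by ring
  rw [h14] at h2
  linarith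

end F0744E
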