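import Pool.Agent.Lib.MP_f0744f_nt.E.L5

/-! # Row L6_1: the bad case: qq is large on the points which go to the simple class -/

set_option autoImplicit false

open Polynomial

namespace F0744E

open F0744C F0744D

variable {S : Finset ℤ} {a b : ℤ}

variable {f : PM S a 3} {g : PM S b 3} {A : AbsoluteValue ℚ ℝ} {R m θ : ℝ} {J : ℕ} {T : Finset ℤ} {cl : ℤ → Bool} {c0 c1 c2 c3 : ℚ}

/-- the numbers -/
theorem L6_1_num {R m θ Ar A3 Ad AK Au Au' Av Av' AX : ℝ} (hR : 0 < R) (hm : 0 < m)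
    (hθ : θ ≤ 1 / 100000000) (h8e : 8 ≤ Real.exp (θ * m))
    (h1 : R * Real.exp (-(θ * m)) ≤ Ar) (h2 : Ar ≤ R * Real.exp (2 * θ * m))
    (h3 : Real.exp (-(θ * m)) ≤ A3) (h4 : R * Real.exp (-(51 / 100 * m)) ≤ Ad)
    (h5 : AK ≤ R ^ 2 * Real.exp (-(95 / 100 * m))) (h6 : Au ≤ R * Real.exp (-(92 / 100 * m)))
    (h7 : Au' ≤ R * Real.exp (-(92 / 100 * m))) (h8 : Av ≤ R * Real.exp (-(12 / 25 * m)))
    (h9 : Av' ≤ R * Real.exp (-(12 / 25 * m))) (p1 : 0 ≤ Au) (p2 : 0 ≤ Au') (p4 : 0 ≤ Av')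
    (h : Ar * (A3 * Ad) ≤ AK + Ar * (Au' + Au) + Av * Av' + AX) :
    R ^ 2 * Real.exp (-(53 / 100 * m)) ≤ AX := by
  have e1 : 0 < Real.exp (-(θ * m)) := Real.exp_pos _
  have e2 : 0 < Real.exp (2 * θ * m) := Real.exp_pos _
  have e51 : 0 < Real.exp (-(51 / 100 * m)) := Real.exp_pos _
  have e92 : 0 < Real.exp (-(92 / 100 * m)) := Real.exp_pos _
  have e48 : 0 < Real.exp (-(12 / 25 * m)) := Real.exp_pos _
  have hR2 : 0 < R ^ 2 := by positivity
  have k1 : R ^ 2 * (Real.exp (-(θ * m)) * Real.exp (-(θ * m)) * Real.exp (-(51 / 100 * m))) ≤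
      Ar * (A3 * Ad) := by
    have s1 : Real.exp (-(θ * m)) * (R * Real.exp (-(51 / 100 * m))) ≤ A3 * Ad :=
      mul_le_mul h3 h4 (mul_nonneg hR.le e51.le) (e1.le.trans h3)
    have s2 : (R * Real.exp (-(θ * m))) * (Real.exp (-(θ * m)) * (R * Real.exp (-(51 / 100 * m)))) ≤
        Ar * (A3 * Ad) :=
      mul_le_mul h1 s1 (mul_nonneg e1.le (mul_nonneg hR.le e51.le))
        ((mul_nonneg hR.le e1.le).trans h1)
    refine le_trans (le_of_eq ?_) s2
    ring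
  have k2 : Ar * (Au' + Au) ≤ R ^ 2 * (2 * (Real.exp (2 * θ * m) * Real.exp (-(92 / 100 * m)))) := by
    have s1 : Ar * (Au' + Au) ≤ (R * Real.exp (2 * θ * m)) *
        (R * Real.exp (-(92 / 100 * m)) + R * Real.exp (-(92 / 100 * m))) :=
      mul_le_mul h2 (add_le_add h7 h6) (add_nonneg p2 p1) (mul_nonneg hR.le e2.le)
    refine s1.trans (le_of_eq ?_)
    ring
  have k3 : Av * Av' ≤ R ^ 2 * (Real.exp (-(12 / 25 * m)) * Real.exp (-(12 / 25 * m))) := by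
    have s1 : Av * Av' ≤ (R * Real.exp (-(12 / 25 * m))) * (R * Real.exp (-(12 / 25 * m))) :=
      mul_le_mul h8 h9 p4 (mul_nonneg hR.le e48.le)
    refine s1.trans (le_of_eq ?_)
    ring
  have hE : 0 < Real.exp (-(53 / 100 * m)) := Real.exp_pos _
  have hθm : θ * m ≤ 1 / 100000000 * m := mul_le_mul_of_nonneg_right hθ hm.le
  have n1 : 8 * Real.exp (-(53 / 100 * m)) ≤
      Real.exp (-(θ * m)) * Real.exp (-(θ * m)) * Real.exp (-(51 / 100 * m)) := by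
    have s1 : Real.exp (θ * m) * Real.exp (-(53 / 100 * m)) ≤
        Real.exp (-(θ * m)) * Real.exp (-(θ * m)) * Real.exp (-(51 / 100 * m)) := by
      rw [← Real.exp_add, ← Real.exp_add, ← Real.exp_add]
      apply Real.exp_le_exp.2
      linarith only [hθm, hm]
    exact (mul_le_mul_of_nonneg_right h8e hE.le).trans s1
  have n2 : Real.exp (2 * θ * m) * Real.exp (-(92 / 100 * m)) ≤ Real.exp (-(53 / 100 * m)) := by
    rw [← Real.exp_add]
    apply Real.exp_le_exp.2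
    linarith only [hθm, hm]
  have n3 : Real.exp (-(12 / 25 * m)) * Real.exp (-(12 / 25 * m)) ≤ Real.exp (-(53 / 100 * m)) := by
    rw [← Real.exp_add]
    apply Real.exp_le_exp.2
    linarith only [hm]
  have n4 : Real.exp (-(95 / 100 * m)) ≤ Real.exp (-(53 / 100 * m)) := by
    apply Real.exp_le_exp.2
    linarith only [hm]
  have m1 := mul_le_mul_of_nonneg_left n1 hR2.le
  have m2 := mul_le_mul_of_nonneg_left n2 hR2.le
  have m3 := mul_le_mul_of_nonneg_left n3 hR2.le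
  have m4 := mul_le_mul_of_nonneg_left n4 hR2.le
  have m5 : 0 < R ^ 2 * Real.exp (-(53 / 100 * m)) := mul_pos hR2 hE
  linarith only [k1, k2, k3, m1, m2, m3, m4, m5, h, h5]

/-- `o` from `TB.both`, `q ∈ T` with `cl q = true`, `cl (g.ph q) = false` (`TB.hitf` for `h.tb.symm`), so `cl (f.ph q) = true` by `Bad.none`
(contrapositive). With `r = n + q + o - s3` (`dblf`: `A r ≥ R exp (- θ m)`; `sum3`: `A r ≤ R exp (2 θ m)`):
`qq n n' = qq q o + r ((n' - o) + (n - q)) + (n' - o) (n' - q)` (`qdiff`) and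
`(n' - o) + (n - q) = - 3 (q - o) + (n' + q - 2 o) + (n + q - 2 o)`. `athree`, `Bad.qo`, `Bad.ap`, `hD`: the size is at least
`R ^ 2 (exp (- (51 / 100 + 2 θ) m) - 2 exp ((2 θ - 92 / 100) m) - exp (- 95 / 100 m) - exp (- 96 / 100 m))`. -/
theorem Bad.qn (h : Bad f g A R m θ J T cl c0 c1 c2 c3) {n n' : ℤ} (hn : n ∈ T) (hn' : n' ∈ T)
    (hnc : cl n = true) (hnf : cl (f.ph n) = false) (hnc' : cl n' = true)
    (hnf' : cl (f.ph n') = false) : R ^ 2 * Real.exp (-(53 / 100 * m)) ≤ A (qq f.F n n') := by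
  have hb := h.tb.base
  obtain ⟨o, hoT, hoc, hof, hog⟩ := h.tb.both h.small true
  obtain ⟨q, hqT, hqc, hqg⟩ := h.tb.symm.hitf h.small true
  have hqf : cl (f.ph q) = true := by
    by_contra hcon
    rw [Bool.not_eq_true] at hcon
    have h1 := h.none hqT hqc hcon
    rw [hqg] at h1
    exact Bool.false_ne_true h1
  obtain ⟨h4, h5⟩ := h.qo hoT hqT hoc hof hog hqc hqf hqg
  have h6 := h.ap hoT hqT hn hoc hof hog hqc hqf hqg hnc hnf
  have h7 := h.ap hoT hqT hn' hoc hof hog hqc hqf hqg hnc' hnf'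
  have hS : ∀ {x : ℤ}, x ∈ T → x ∈ S := fun hx => (Finset.mem_filter.1 (hb.Tm _ hx).1).1
  have hS0 : ∀ {x : ℤ}, x ∈ T → x ∈ S0 S a b := fun hx => (hb.Tm _ hx).1
  have h8 := h.hD n' (hS0 hn') o (hS0 hoT) hnc' hoc
  have h9 := h.hD n' (hS0 hn') q (hS0 hqT) hnc' hqc
  have h1 := h.tb.dblf n (hS0 hn) q (hS0 hqT) o (hS0 hoT) hnc hqc hoc
  have h2 := hb.sum3 (hS hn) (hS hqT) (hS hoT)
  have h3 := hb.athree
  have hid : ((n : ℚ) + q + o - s3 f.F) * (3 * ((q : ℚ) - o)) = qq f.F q o +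
      ((n : ℚ) + q + o - s3 f.F) * (((n' : ℚ) + q - 2 * o) + ((n : ℚ) + q - 2 * o)) +
      ((n' : ℚ) - o) * ((n' : ℚ) - q) - qq f.F n n' := by
    have e1 := qdiff f.F n n' o
    have e2 := qdiff f.F o n q
    have e3 := qq_comm f.F o n
    have e4 := qq_comm f.F o q
    rw [e3, e4] at e2
    linear_combination e1 + e2
  have hA := congrArg A hid
  rw [map_mul, map_mul] at hA
  have hA2 : A (qq f.F q o +
      ((n : ℚ) + q + o - s3 f.F) * (((n' : ℚ) + q - 2 * o) + ((n : ℚ) + q - 2 * o)) +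
      ((n' : ℚ) - o) * ((n' : ℚ) - q) - qq f.F n n') ≤ A (qq f.F q o) +
      A ((n : ℚ) + q + o - s3 f.F) * (A ((n' : ℚ) + q - 2 * o) + A ((n : ℚ) + q - 2 * o)) +
      A ((n' : ℚ) - o) * A ((n' : ℚ) - q) + A (qq f.F n n') := by
    have g1 := A.sub_le_add (qq f.F q o +
      ((n : ℚ) + q + o - s3 f.F) * (((n' : ℚ) + q - 2 * o) + ((n : ℚ) + q - 2 * o)) +
      ((n' : ℚ) - o) * ((n' : ℚ) - q)) (qq f.F n n')
    have g2 := A.add_le (qq f.F q o +
      ((n : ℚ) + q + o - s3 f.F) * (((n' : ℚ) + q - 2 * o) + ((n : ℚ) + q - 2 * o)))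
      (((n' : ℚ) - o) * ((n' : ℚ) - q))
    have g3 := A.add_le (qq f.F q o)
      (((n : ℚ) + q + o - s3 f.F) * (((n' : ℚ) + q - 2 * o) + ((n : ℚ) + q - 2 * o)))
    have g4 := A.add_le ((n' : ℚ) + q - 2 * o) ((n : ℚ) + q - 2 * o)
    have g5 := mul_le_mul_of_nonneg_left g4 (A.nonneg ((n : ℚ) + q + o - s3 f.F))
    rw [← map_mul A (((n' : ℚ) - o)) ((n' : ℚ) - q)]
    rw [map_mul A ((n : ℚ) + q + o - s3 f.F)] at g3
    linarith only [g1, g2, g3, g5]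
  rw [← hA] at hA2
  have hR : 0 < R := lt_of_lt_of_le one_pos hb.R1
  refine L6_1_num hR hb.m0 h.small hb.e8 h1 h2 h3 h4 h5 h6 h7 h8 h9 (A.nonneg _) (A.nonneg _)
    (A.nonneg _) hA2

end F0744E
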