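import Pool.Agent.Lib.MP_f0744f_nt.E.L8_1

/-! # Row L8_2: the bad case is impossible -/

set_option autoImplicit false

open Polynomial

namespace F0744E

open F0744C F0744D

variable {S : Finset ℤ} {a b : ℤ}

variable {f : PM S a 3} {g : PM S b 3} {A : AbsoluteValue ℚ ℝ} {R m θ : ℝ} {J : ℕ} {T : Finset ℤ} {cl : ℤ → Bool} {c0 c1 c2 c3 : ℚ}

/-- If `hD` of `no_bad` holds use `no_bad`. Otherwise there are `x, y ∈ S0` of the class `true` with `A (x - y) > R exp (- 12 / 25 m)`; with a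
`z ∈ T` of the class `false` (`TB.both`) `PB.nodes` (`u = 12 / 25`, `v = w = θ`) and `PB.hle`: `A c2 R ≤ exp ((12 / 25 + 6 θ) m)`. -/
theorem TB.c2le (h : TB f g A R m θ J T cl) (hθ : θ ≤ 1 / 100000000)
    (hr : Rel f g A m θ c0 c1 c2 c3) : A c2 * R ≤ Real.exp (49 / 100 * m) := by
  have hm : 0 < m := h.base.m0
  have hR : 0 < R := zero_lt_one.trans_le h.base.R1
  by_cases hD : ∀ x ∈ S0 S a b, ∀ y ∈ S0 S a b, cl x = true → cl y = true →
      A ((x : ℚ) - y) ≤ R * Real.exp (-(12 / 25 * m))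
  · rcases le_total (A c2 * R) (Real.exp (49 / 100 * m)) with h1 | h1
    · exact h1
    · exact (h.no_bad hθ hr hD h1).elim
  · push Not at hD
    obtain ⟨x, hx, y, hy, cx, cy, hxy⟩ := hD
    obtain ⟨z, hzT, cz, -, -⟩ := h.both hθ false
    have hz : z ∈ S0 S a b := (h.base.Tm z hzT).1
    have h1 := h.base.nodes (Finset.mem_filter.1 hx).1 (Finset.mem_filter.1 hy).1 (Finset.mem_filter.1 hz).1
      (u := 12 / 25) (v := θ) (w := θ) hxy.le (h.sep x hx z hz (by rw [cx, cz]; exact Bool.noConfusion))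
      (h.sep y hy z hz (by rw [cy, cz]; exact Bool.noConfusion)) (h.base.hle hr hx) (h.base.hle hr hy) (h.base.hle hr hz)
    have h2 : R * (A c2 * R) ≤ R * Real.exp ((12 / 25 + 6 * θ) * m) := by
      calc R * (A c2 * R) = A c2 * R ^ 2 := by ring
        _ ≤ R * Real.exp (3 * θ * m) * Real.exp ((12 / 25 + θ + θ + θ) * m) := h1
        _ = R * Real.exp ((12 / 25 + 6 * θ) * m) := by
          rw [mul_assoc, ← Real.exp_add]
          congr 2
          ring
    refine (le_of_mul_le_mul_left h2 hR).trans (Real.exp_le_exp.2 ?_)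
    exact mul_le_mul_of_nonneg_right (by linarith) hm.le

end F0744E
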