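import Pool.Agent.Lib.MP_f0744f_nt.E.L6

/-! # Row L8_1: the bad case is impossible -/

set_option autoImplicit false

open Polynomial

namespace F0744E

open F0744C F0744D

variable {S : Finset ℤ} {a b : ℤ}

variable {f : PM S a 3} {g : PM S b 3} {A : AbsoluteValue ℚ ℝ} {R m θ : ℝ} {J : ℕ} {T : Finset ℤ} {cl : ℤ → Bool} {c0 c1 c2 c3 : ℚ}

theorem L8_1_arith {N u v w m EU EV EW : ℝ} (hm : 0 < m) (hN : 100000000 ≤ N)
    (hu1 : (2 / 3 - 1 / 1000) * N ≤ u) (hu2 : u ≤ N)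
    (hv : (2 / 9 - 1 / 100) * N ≤ v) (hw : (2 / 9 - 1 / 100) * N ≤ w)
    (hV : 49 / 25 * v ^ 2 * m - 1 / 10000 * N ^ 2 * m ≤ EV)
    (hW : 49 / 25 * w ^ 2 * m - 1 / 10000 * N ^ 2 * m ≤ EW)
    (hU : EU ≤ (1 / 3 + 1 / 500) * N ^ 2 * m)
    (hE : EV + EW + 12 / 25 * m * (u ^ 2 - u - v ^ 2 - w ^ 2) ≤ EU) : False := by
  have hN0 : 0 < N := by linarith
  have hNN : N * 100000000 ≤ N ^ 2 := by nlinarith
  have hu3 : ((2 / 3 - 1 / 1000) * N) ^ 2 ≤ u ^ 2 :=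
    pow_le_pow_left₀ (by nlinarith) hu1 2
  have hv3 : ((2 / 9 - 1 / 100) * N) ^ 2 ≤ v ^ 2 :=
    pow_le_pow_left₀ (by nlinarith) hv 2
  have hw3 : ((2 / 9 - 1 / 100) * N) ^ 2 ≤ w ^ 2 :=
    pow_le_pow_left₀ (by nlinarith) hw 2
  have key : (1 / 3 + 1 / 500) * N ^ 2 <
      37 / 25 * (v ^ 2 + w ^ 2) + 12 / 25 * (u ^ 2 - u) - 2 / 10000 * N ^ 2 := by
    nlinarith
  have h1 : (1 / 3 + 1 / 500) * N ^ 2 * m <
      (37 / 25 * (v ^ 2 + w ^ 2) + 12 / 25 * (u ^ 2 - u) - 2 / 10000 * N ^ 2) * m :=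
    mul_lt_mul_of_pos_right key hm
  nlinarith

theorem L8_1_bad (h : TB f g A R m θ J T cl) (hθ : θ ≤ 1 / 100000000)
    (hr : Rel f g A m θ c0 c1 c2 c3)
    (hD : ∀ x ∈ S0 S a b, ∀ y ∈ S0 S a b, cl x = true → cl y = true →
      A ((x : ℚ) - y) ≤ R * Real.exp (-(12 / 25 * m)))
    (hc : Real.exp (49 / 100 * m) ≤ A c2 * R) :
    Bad f g A R m θ J T cl c0 c1 c2 c3 := by
  have hm : 0 < m := h.base.m0
  refine ⟨h, hθ, hr, hD, le_trans (Real.exp_le_exp.2 ?_) hc⟩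
  nlinarith

theorem L8_1_bad' (h : TB f g A R m θ J T cl) (hθ : θ ≤ 1 / 100000000)
    (hr : Rel f g A m θ c0 c1 c2 c3)
    (hD : ∀ x ∈ S0 S a b, ∀ y ∈ S0 S a b, cl x = true → cl y = true →
      A ((x : ℚ) - y) ≤ R * Real.exp (-(12 / 25 * m)))
    (hc : Real.exp (49 / 100 * m) ≤ A c2 * R) :
    Bad g f A R m θ J T cl (-c0 / c3) (-c1 / c3) (-c2 / c3) (1 / c3) := by
  have hm : 0 < m := h.base.m0
  have hA3 : 0 < A c3 := lt_of_lt_of_le (Real.exp_pos _) hr.l3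
  refine ⟨h.symm, hθ, hr.symm, ?_, ?_⟩
  · intro x hx y hy
    rw [S0_comm] at hx hy
    exact hD x hx y hy
  · have h1 : A (-c2 / c3) * R = A c2 * R / A c3 := by
      rw [map_div₀, A.map_neg]
      ring
    rw [h1, le_div_iff₀ hA3]
    calc Real.exp (489 / 1000 * m) * A c3 ≤ Real.exp (489 / 1000 * m) * Real.exp (2 * θ * m) :=
          mul_le_mul_of_nonneg_left hr.u3 (Real.exp_pos _).le
      _ = Real.exp (489 / 1000 * m + 2 * θ * m) := (Real.exp_add _ _).symm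
      _ ≤ Real.exp (49 / 100 * m) := Real.exp_le_exp.2 (by nlinarith)
      _ ≤ A c2 * R := hc

/-- `h` is `Bad` for `f, g` and (`Rel.symm`, `TB.symm`, `S0_comm`) for `g, f` with `- c2 / c3` (`A (c2 / c3) R ≥ exp (49 / 100 m - 2 θ m)`). `V` = the
`x ∈ T` with `cl x = true`, `cl (f.ph x) = false`, `W` the same with `g`; they are disjoint (`Bad.none`), `v, w ≥ (2 / 9 - 1 / 100) N` (`TB.m3`).
`en_two` for `U = T.filter (cl = true)` with `ω = 12 / 25 m` (`hD`) and `Bad.en`: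
`En U ≥ (49 / 25 - 12 / 25) (v ^ 2 + w ^ 2) m + 12 / 25 (u ^ 2 - u) m - 2 / 10000 N ^ 2 m ≥ 0.345 N ^ 2 m` (`u ≥ (2 / 3 - 1 / 1000) N`, `TB.m1`), but
`En U ≤ (1 / 3 + 1 / 500) N ^ 2 m` (`TB.en`). -/
theorem TB.no_bad (h : TB f g A R m θ J T cl) (hθ : θ ≤ 1 / 100000000)
    (hr : Rel f g A m θ c0 c1 c2 c3)
    (hD : ∀ x ∈ S0 S a b, ∀ y ∈ S0 S a b, cl x = true → cl y = true →
      A ((x : ℚ) - y) ≤ R * Real.exp (-(12 / 25 * m)))
    (hc : Real.exp (49 / 100 * m) ≤ A c2 * R) : False := by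
  have hm : 0 < m := h.base.m0
  have hB := L8_1_bad h hθ hr hD hc
  have hB' := L8_1_bad' h hθ hr hD hc
  have hTS : ∀ x ∈ T, x ∈ S0 S a b := fun x hx => (h.base.Tm x hx).1
  have hTsub : T ⊆ S := fun x hx => (mem_S0.1 (hTS x hx)).1
  have hN : (100000000 : ℝ) ≤ (S.card : ℝ) := by
    have h1 := h.base.big
    have h2 : θ * (S.card : ℝ) ≤ 1 / 100000000 * (S.card : ℝ) :=
      mul_le_mul_of_nonneg_right hθ (Nat.cast_nonneg _)
    linarith
  have hd : Disjoint (T.filter (fun x => cl x = true ∧ cl (f.ph x) = false))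
      (T.filter (fun x => cl x = true ∧ cl (g.ph x) = false)) := by
    rw [Finset.disjoint_left]
    intro x hx hx'
    rw [Finset.mem_filter] at hx hx'
    have h1 := hB.none hx.1 hx.2.1 hx.2.2
    rw [hx'.2.2] at h1
    exact Bool.false_ne_true h1
  have hV : T.filter (fun x => cl x = true ∧ cl (f.ph x) = false) ⊆
      T.filter (fun x => cl x = true) := by
    intro x hx
    rw [Finset.mem_filter] at hx ⊢
    exact ⟨hx.1, hx.2.1⟩
  have hW : T.filter (fun x => cl x = true ∧ cl (g.ph x) = false) ⊆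
      T.filter (fun x => cl x = true) := by
    intro x hx
    rw [Finset.mem_filter] at hx ⊢
    exact ⟨hx.1, hx.2.1⟩
  have hE := en_two (A := A) h.base.R1 hV hW hd (ω := 12 / 25 * m) (by positivity) (by
    intro x hx y hy _
    rw [Finset.mem_filter] at hx hy
    exact hD x (hTS x hx.1) y (hTS y hy.1) hx.2 hy.2)
  have hu := abs_le.1 (h.m1 hθ).1
  have hv := abs_le.1 (h.m3 hθ).2
  have hw := abs_le.1 (h.symm.m3 hθ).2
  have hu2 : ((T.filter (fun x => cl x = true)).card : ℝ) ≤ (S.card : ℝ) := by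
    exact_mod_cast Finset.card_le_card ((Finset.filter_subset _ _).trans hTsub)
  exact L8_1_arith hm hN (by linarith [hu.1]) hu2 (by linarith [hv.1]) (by linarith [hw.1])
    hB.en hB'.en (h.en hθ).1 hE

end F0744E
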