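import Pool.Agent.Lib.MP_f0744f_nt.E.Tau

/-! # Row T2: double class of small diameter: the coefficients -/

set_option autoImplicit false

open Polynomial

namespace F0744E

open F0744C F0744D

variable {S : Finset ℤ} {a b : ℤ}

variable {f : PM S a 3} {g : PM S b 3} {A : AbsoluteValue ℚ ℝ} {R m θ : ℝ} {J : ℕ} {T : Finset ℤ} {cl : ℤ → Bool}

/-- the translation estimate for one class with known diameter -/
theorem T2_key (h : TB f g A R m θ J T cl) {c0 c1 c3 : ℚ} (hr : Rel f g A m θ c0 c1 0 c3)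
    (hc1 : A c1 ≤ Real.exp ((θ + 4 * θ) * m)) {u v : ℝ} (huv : v ≤ u - 5 * θ) {w x : ℤ}
    (hx : x ∈ S0 S a b)
    (hwx : A ((w : ℚ) - x) ≤ R * Real.exp (-(u * m))) :
    A (c3 * (f.ph x : ℚ) + (c1 * w + c0) - g.ph x) ≤ R * Real.exp (-(v * m)) := by
  have hm := h.base.m0
  have hR : 0 < R := lt_of_lt_of_le one_pos h.base.R1
  have e : c3 * (f.ph x : ℚ) + (c1 * w + c0) - g.ph x = c1 * ((w : ℚ) - x) := by
    rw [hr.eq x hx]; ring
  rw [e, map_mul]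
  calc A c1 * A ((w : ℚ) - x) ≤ Real.exp ((θ + 4 * θ) * m) * (R * Real.exp (-(u * m))) := by
        apply mul_le_mul hc1 hwx (AbsoluteValue.nonneg _ _) (Real.exp_pos _).le
    _ = R * Real.exp ((θ + 4 * θ) * m + -(u * m)) := by rw [Real.exp_add]; ring
    _ ≤ R * Real.exp (-(v * m)) := by
        apply mul_le_mul_of_nonneg_left _ hR.le
        apply Real.exp_le_exp.mpr
        nlinarith

/-- `c2 = 0`. Points `w1, w2 ∈ T` of the two classes (`TB.both`); `lam0` (`sep`): `A c1 ≤ exp (5 θ m)`. For `x ∈ T` of the class of `w i`: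
`c3 F x + (c1 w i + c0) - G x = c1 (w i - x)` (`Rel.eq`), of size at most `exp (5 θ m) R exp (- m / 20000) ≤ R exp (- ρ m)`, `ρ = 1 / 20000 - 10 θ`
(class `true`: `hD`; class `false`: `PB.close`). `tau3` with `ρ` gives the second inequality (`ρ - 6 θ ≥ 1 / 50000`). `tau` for both classes
and `z1`: `A (c1 (w1 - w2)) ≤ 2 R exp (- (ρ - 4 θ) m)`, `sep`. -/
theorem TB.c13 (h : TB f g A R m θ J T cl) (hθ : θ ≤ 1 / 100000000) {c0 c1 c3 : ℚ}
    (hr : Rel f g A m θ c0 c1 0 c3)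
    (hD : ∀ x ∈ S0 S a b, ∀ y ∈ S0 S a b, cl x = true → cl y = true →
      A ((x : ℚ) - y) ≤ R * Real.exp (-(1 / 20000 * m))) :
    A c1 ≤ Real.exp (-(1 / 50000 * m)) ∧ A (c3 - 1) ≤ Real.exp (-(1 / 50000 * m)) := by
  have hm := h.base.m0
  have hR : 0 < R := lt_of_lt_of_le one_pos h.base.R1
  have ht := h.base.t0
  have h8 := h.base.e8
  obtain ⟨w1, hw1T, hw1c, -, -⟩ := h.both hθ true
  obtain ⟨w2, hw2T, hw2c, -, -⟩ := h.both hθ false
  have hw1 := (h.base.Tm w1 hw1T).1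
  have hw2 := (h.base.Tm w2 hw2T).1
  have hsep := h.sep w1 hw1 w2 hw2 (by rw [hw1c, hw2c]; decide)
  have hc1 : A c1 ≤ Real.exp ((θ + 4 * θ) * m) := by
    have := h.base.lam0 hr hw1 hw2 hsep
    simpa using this
  obtain ⟨ρ, hρdef⟩ : ∃ ρ : ℝ, ρ = 1 / 20000 - 10 * θ := ⟨_, rfl⟩
  have hρ : 1 / 50000 ≤ ρ := by rw [hρdef]; linarith
  have hρ1 : ρ ≤ 1 / 2 := by rw [hρdef]; linarith
  have hD' : ∀ x ∈ S0 S a b, ∀ y ∈ S0 S a b, cl x = true → cl y = true →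
      A ((x : ℚ) - y) ≤ R * Real.exp (-(ρ * m)) := by
    intro x hx y hy hxc hyc
    refine (hD x hx y hy hxc hyc).trans ?_
    apply mul_le_mul_of_nonneg_left _ hR.le
    apply Real.exp_le_exp.mpr
    have : ρ ≤ 1 / 20000 := by rw [hρdef]; linarith
    nlinarith
  have k1 : ∀ x ∈ T, cl x = true →
      A (c3 * (f.ph x : ℚ) + (c1 * w1 + c0) - g.ph x) ≤ R * Real.exp (-(ρ * m)) := by
    intro x hx hxc
    have hx0 := (h.base.Tm x hx).1
    exact T2_key h hr hc1 (u := 1 / 20000) (by rw [hρdef]; linarith) hx0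
      (hD w1 hw1 x hx0 hw1c hxc)
  have k2 : ∀ x ∈ T, cl x = false →
      A (c3 * (f.ph x : ℚ) + (c1 * w2 + c0) - g.ph x) ≤ R * Real.exp (-(ρ * m)) := by
    intro x hx hxc
    have hx0 := (h.base.Tm x hx).1
    exact T2_key h hr hc1 (u := 1 - 3 * θ) (by rw [hρdef]; linarith) hx0
      (h.base.close hw2 hx0 (h.simf w2 hw2 x hx0 hw2c hxc))
  have t1 := (h.tau hθ hr.u3 hρ hρ1 hD' k1 hw1 hw1c hw2 hw2c).1
  have t2 := (h.tau hθ hr.u3 hρ hρ1 hD' k2 hw1 hw1c hw2 hw2c).1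
  have t3 := h.tau3 hθ hr.u3 hρ hρ1 hD' k1
  have hfin : Real.exp (-((ρ - 6 * θ) * m)) ≤ Real.exp (-(1 / 50000 * m)) := by
    apply Real.exp_le_exp.mpr
    have : 1 / 50000 ≤ ρ - 6 * θ := by rw [hρdef]; linarith
    nlinarith
  refine ⟨?_, t3.trans hfin⟩
  refine le_trans ?_ hfin
  -- `A (c1 (w1 - w2)) ≤ 2 R exp (- (ρ - 4 θ) m)`
  have hdiff : A (c1 * ((w1 : ℚ) - w2)) ≤ 2 * (R * Real.exp (-((ρ - 4 * θ) * m))) := by
    have e : c1 * ((w1 : ℚ) - w2) =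
        (c3 * (w1 : ℚ) + (c1 * w1 + c0) - w1) - (c3 * (w1 : ℚ) + (c1 * w2 + c0) - w1) := by ring
    rw [e]
    calc A ((c3 * (w1 : ℚ) + (c1 * w1 + c0) - w1) - (c3 * (w1 : ℚ) + (c1 * w2 + c0) - w1))
        ≤ A (c3 * (w1 : ℚ) + (c1 * w1 + c0) - w1) + A (c3 * (w1 : ℚ) + (c1 * w2 + c0) - w1) :=
          AbsoluteValue.sub_le_add A _ _
      _ ≤ 2 * (R * Real.exp (-((ρ - 4 * θ) * m))) := by linarith
  rw [map_mul] at hdiff
  have h1 : A c1 * (R * Real.exp (-(θ * m))) ≤ 2 * (R * Real.exp (-((ρ - 4 * θ) * m))) :=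
    (mul_le_mul_of_nonneg_left hsep (AbsoluteValue.nonneg _ _)).trans hdiff
  have hpos : 0 < R * Real.exp (-(θ * m)) := mul_pos hR (Real.exp_pos _)
  have e2 : Real.exp (-((ρ - 6 * θ) * m)) * (R * Real.exp (-(θ * m))) =
      Real.exp (θ * m) * (R * Real.exp (-((ρ - 4 * θ) * m))) := by
    have : Real.exp (-((ρ - 6 * θ) * m)) * Real.exp (-(θ * m)) =
        Real.exp (θ * m) * Real.exp (-((ρ - 4 * θ) * m)) := by
      rw [← Real.exp_add, ← Real.exp_add]; congr 1; ring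
    calc Real.exp (-((ρ - 6 * θ) * m)) * (R * Real.exp (-(θ * m)))
        = R * (Real.exp (-((ρ - 6 * θ) * m)) * Real.exp (-(θ * m))) := by ring
      _ = R * (Real.exp (θ * m) * Real.exp (-((ρ - 4 * θ) * m))) := by rw [this]
      _ = Real.exp (θ * m) * (R * Real.exp (-((ρ - 4 * θ) * m))) := by ring
  have h3 : 2 * (R * Real.exp (-((ρ - 4 * θ) * m))) ≤
      Real.exp (θ * m) * (R * Real.exp (-((ρ - 4 * θ) * m))) := by
    apply mul_le_mul_of_nonneg_right (by linarith)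
    exact (mul_pos hR (Real.exp_pos _)).le
  have h4 : A c1 * (R * Real.exp (-(θ * m))) ≤
      Real.exp (-((ρ - 6 * θ) * m)) * (R * Real.exp (-(θ * m))) := by
    rw [e2]; exact h1.trans h3
  exact le_of_mul_le_mul_right h4 hpos

end F0744E
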