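import Pool.Agent.Lib.MP_f0744f_nt.E.L8
import Pool.Agent.Lib.MP_f0744f_nt.E.C1b
import Pool.Agent.Lib.MP_f0744f_nt.E.T2
import Pool.Agent.Lib.MP_f0744f_nt.E.A2b

/-! # Row Loc_1: a good place -/

set_option autoImplicit false

open Polynomial

namespace F0744E

open F0744C F0744D

variable {S : Finset ℤ} {a b : ℤ}

/-- a good place of one of the two kinds -/
def Loc (f : PM S a 3) (g : PM S b 3) (A : AbsoluteValue ℚ ℝ) (R m θ : ℝ) (J : ℕ)
    (T : Finset ℤ) : Prop :=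
  (∃ cl : ℤ → Fin 3, TA f g A R m θ J T cl) ∨ ∃ cl : ℤ → Bool, TB f g A R m θ J T cl

variable {f : PM S a 3} {g : PM S b 3} {A : AbsoluteValue ℚ ℝ} {R m θ : ℝ} {J : ℕ} {T : Finset ℤ}

theorem Loc.base (h : Loc f g A R m θ J T) : PB f g A R m θ J T := by
  rcases h with ⟨cl, h⟩ | ⟨cl, h⟩
  · exact h.base
  · exact h.base

/-- `TA.c2`, `TB.c2le`. -/
theorem Loc.c2 (h : Loc f g A R m θ J T) (hθ : θ ≤ 1 / 100000000) {c0 c1 c2 c3 : ℚ}
    (hr : Rel f g A m θ c0 c1 c2 c3) : A c2 * R ≤ Real.exp (49 / 100 * m) := by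
  rcases h with ⟨cl, h⟩ | ⟨cl, h⟩
  · have hm : 0 < m := h.base.m0
    exact (h.c2 (hθ.trans (by norm_num)) hr).trans (Real.exp_le_exp.2 (by linarith))
  · exact h.c2le hθ hr

/-- `TA.c1`; for `TB` use `TB.split`: `TB.c13`, or `TA.c1` with `1 / 10000` (`Rel.mono`). -/
theorem Loc.c1 (h : Loc f g A R m θ J T) (hθ : θ ≤ 1 / 100000000) {c0 c1 c3 : ℚ}
    (hr : Rel f g A m θ c0 c1 0 c3) : A c1 ≤ Real.exp (-(1 / 50000 * m)) := by
  have hm : 0 < m := h.base.m0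
  have hle : Real.exp (-(1 / 2 * m)) ≤ Real.exp (-(1 / 50000 * m)) := Real.exp_le_exp.2 (by linarith)
  rcases h with ⟨cl, h⟩ | ⟨cl, h⟩
  · exact (h.c1 (hθ.trans (by norm_num)) hr).trans hle
  · rcases h.split hθ with hD | ⟨cl', h'⟩
    · exact (h.c13 hθ hr hD).1
    · exact (h'.c1 le_rfl (hr.mono hm (hθ.trans (by norm_num)))).trans hle

end F0744E
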