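import Pool.Agent.Lib.MP_f0744f_nt.E.Defs

/-! # Row M0: real arithmetic of the masses -/

set_option autoImplicit false

open Polynomial

namespace F0744E

open F0744C F0744D

variable {S : Finset ℤ} {a b : ℤ}

/-- `(3 / 2) ∑ (u i - u / 3) ^ 2 = (3 / 2) ∑ u i ^ 2 - u ^ 2 / 2`. -/
theorem mass_three {u0 u1 u2 u δ : ℝ} (h : u0 + u1 + u2 = u)
    (hE : 3 / 2 * (u0 ^ 2 + u1 ^ 2 + u2 ^ 2) ≤ 1 / 2 * u ^ 2 + δ) :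
    (u0 - u / 3) ^ 2 ≤ δ ∧ (u1 - u / 3) ^ 2 ≤ δ ∧ (u2 - u / 3) ^ 2 ≤ δ := by
  obtain ⟨d0, e0⟩ : ∃ d0, d0 = u0 - u / 3 := ⟨_, rfl⟩
  obtain ⟨d1, e1⟩ : ∃ d1, d1 = u1 - u / 3 := ⟨_, rfl⟩
  obtain ⟨d2, e2⟩ : ∃ d2, d2 = u2 - u / 3 := ⟨_, rfl⟩
  have h0 : u0 = d0 + u / 3 := by linarith
  have h1 : u1 = d1 + u / 3 := by linarith
  have h2 : u2 = d2 + u / 3 := by linarith
  have hs : d0 + d1 + d2 = 0 := by linarith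
  have key : 3 / 2 * (d0 ^ 2 + d1 ^ 2 + d2 ^ 2) ≤ δ := by
    have e : 3 / 2 * (u0 ^ 2 + u1 ^ 2 + u2 ^ 2) =
        3 / 2 * (d0 ^ 2 + d1 ^ 2 + d2 ^ 2) + u * (d0 + d1 + d2) + 1 / 2 * u ^ 2 := by
      rw [h0, h1, h2]
      ring
    rw [hs] at e
    linarith
  rw [← e0, ← e1, ← e2]
  have q0 := sq_nonneg d0
  have q1 := sq_nonneg d1
  have q2 := sq_nonneg d2
  exact ⟨by linarith, by linarith, by linarith⟩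

/-- `(9 / 4) (u1 - 2 u / 3) ^ 2 = (3 / 4) u1 ^ 2 + (3 / 2) u2 ^ 2 - u ^ 2 / 2`. -/
theorem mass_two {u1 u2 u δ : ℝ} (h : u1 + u2 = u)
    (hE : 3 / 4 * u1 ^ 2 + 3 / 2 * u2 ^ 2 ≤ 1 / 2 * u ^ 2 + δ) :
    (u1 - 2 * u / 3) ^ 2 ≤ δ ∧ (u2 - u / 3) ^ 2 ≤ δ := by
  have hu : u2 = u - u1 := by linarith
  have key : 9 / 4 * (u1 - 2 * u / 3) ^ 2 ≤ δ := by
    rw [hu] at hE
    have e : 9 / 4 * (u1 - 2 * u / 3) ^ 2 =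
        3 / 4 * u1 ^ 2 + 3 / 2 * (u - u1) ^ 2 - 1 / 2 * u ^ 2 := by ring
    linarith
  have e2 : (u2 - u / 3) ^ 2 = (u1 - 2 * u / 3) ^ 2 := by
    rw [hu]
    ring
  have q := sq_nonneg (u1 - 2 * u / 3)
  rw [e2]
  exact ⟨by linarith, by linarith⟩

end F0744E
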