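import Pool.Agent.Lib.MP_f0744f_nt.E.M1_1

/-! # Row M1_2: energies -/

set_option autoImplicit false

open Polynomial

namespace F0744E

open F0744C F0744D

variable {S : Finset ℤ} {a b : ℤ}

/-- The pairs in different classes contribute at least `- θ m` each (`PB.uu_any`). -/
theorem PB.en_parts {f : PM S a 3} {g : PM S b 3} {A : AbsoluteValue ℚ ℝ} {R m θ : ℝ} {J : ℕ}
    {T : Finset ℤ} (h : PB f g A R m θ J T) {ι : Type} [Fintype ι] [DecidableEq ι] (cl : ℤ → ι)
    {U : Finset ℤ} (hU : U ⊆ S) :
    ∑ i, En A R (U.filter (fun x => cl x = i)) - θ * m * (U.card : ℝ) ^ 2 ≤ En A R U := by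
  classical
  have hθ : 0 ≤ θ * m := le_trans (Real.log_nonneg (by norm_num)) h.eight
  have h1 : ∑ i, En A R (U.filter (fun x => cl x = i)) =
      ∑ x ∈ U, ∑ y ∈ (U.erase x).filter (fun y => cl y = cl x), uu A R x y := by
    rw [← Finset.sum_fiberwise U cl (fun x => ∑ y ∈ (U.erase x).filter (fun y => cl y = cl x), uu A R x y)]
    refine Finset.sum_congr rfl (fun i _ => ?_)
    unfold En
    refine Finset.sum_congr rfl (fun x hx => ?_)
    have hxi : cl x = i := (Finset.mem_filter.1 hx).2
    have e : (U.filter (fun x => cl x = i)).erase x = (U.erase x).filter (fun y => cl y = cl x) := by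
      ext y
      simp only [Finset.mem_erase, Finset.mem_filter]
      rw [hxi]
      tauto
    rw [e]
  have h2 : ∀ x ∈ U, ∑ y ∈ (U.erase x).filter (fun y => cl y = cl x), uu A R x y - θ * m * (U.card : ℝ) ≤
      ∑ y ∈ U.erase x, uu A R x y := by
    intro x hx
    rw [← Finset.sum_filter_add_sum_filter_not (U.erase x) (fun y => cl y = cl x)]
    have h3 : -(θ * m) * (((U.erase x).filter (fun y => ¬ cl y = cl x)).card : ℝ) ≤
        ∑ y ∈ (U.erase x).filter (fun y => ¬ cl y = cl x), uu A R x y := by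
      have h4 : ∀ y ∈ (U.erase x).filter (fun y => ¬ cl y = cl x), -(θ * m) ≤ uu A R x y := by
        intro y hy
        have hy1 := (Finset.mem_filter.1 hy).1
        exact h.uu_any (hU hx) (hU (Finset.mem_of_mem_erase hy1)) (Finset.ne_of_mem_erase hy1).symm
      have h5 := Finset.card_nsmul_le_sum _ _ _ h4
      rw [nsmul_eq_mul] at h5
      linarith
    have h6 : (((U.erase x).filter (fun y => ¬ cl y = cl x)).card : ℝ) ≤ (U.card : ℝ) := by
      exact_mod_cast (Finset.card_filter_le _ _).trans (Finset.card_erase_le)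
    have h7 := mul_le_mul_of_nonneg_left h6 hθ
    linarith
  have h8 := Finset.sum_le_sum h2
  rw [Finset.sum_sub_distrib, Finset.sum_const, nsmul_eq_mul] at h8
  rw [h1]
  unfold En
  have h9 : θ * m * (U.card : ℝ) ^ 2 = (U.card : ℝ) * (θ * m * (U.card : ℝ)) := by ring
  rw [h9]
  exact h8

end F0744E
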