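import Pool.Agent.Lib.MP_f0744f_nt.E.M1_2

/-! # Row M1_3: energies -/

set_option autoImplicit false

open Polynomial

namespace F0744E

open F0744C F0744D

variable {S : Finset ℤ} {a b : ℤ}

theorem M1_3_En (A : AbsoluteValue ℚ ℝ) (R ω : ℝ) (T : Finset ℤ) :
    ∑ p ∈ T.offDiag, (uu A R p.1 p.2 - ω) = En A R T - ω * ((T.card : ℝ) ^ 2 - T.card) := by
  have h1 : ∑ p ∈ T.offDiag, (uu A R p.1 p.2) = En A R T := by
    unfold En
    rw [Finset.sum_sigma' T (fun x => T.erase x) (fun x y => uu A R x y)]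
    refine Finset.sum_bij' (fun p _ => (⟨p.1, p.2⟩ : (_ : ℤ) × ℤ)) (fun q _ => (q.1, q.2))
      ?_ ?_ ?_ ?_ ?_
    · intro p hp
      rw [Finset.mem_offDiag] at hp
      rw [Finset.mem_sigma]
      exact ⟨hp.1, Finset.mem_erase.mpr ⟨fun h => hp.2.2 h.symm, hp.2.1⟩⟩
    · intro q hq
      rw [Finset.mem_sigma] at hq
      rw [Finset.mem_offDiag]
      exact ⟨hq.1, (Finset.mem_erase.mp hq.2).2, fun h => (Finset.mem_erase.mp hq.2).1 h.symm⟩
    · intro p _; rfl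
    · intro q _; rfl
    · intro p _; rfl
  rw [Finset.sum_sub_distrib, h1, Finset.sum_const, Finset.offDiag_card, nsmul_eq_mul]
  have h2 : T.card ≤ T.card * T.card := Nat.le_mul_self _
  rw [Nat.cast_sub h2]
  push_cast
  ring

/-- `V`, `W` disjoint subsets of `U`; the ordered pairs `x ≠ y` of `U` which are not pairs of `V` or of `W` contribute at least `ω`
each, their number is `u ^ 2 - u - (v ^ 2 - v) - (w ^ 2 - w)`. (`A (x - y) ≤ R exp (- ω)` gives `uu x y ≥ ω`.) -/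
theorem en_two {A : AbsoluteValue ℚ ℝ} {R : ℝ} (hR : 1 ≤ R) {U V W : Finset ℤ} (hV : V ⊆ U)
    (hW : W ⊆ U) (hd : Disjoint V W) {ω : ℝ} (hω0 : 0 ≤ ω)
    (hω : ∀ x ∈ U, ∀ y ∈ U, x ≠ y → A ((x : ℚ) - y) ≤ R * Real.exp (-ω)) :
    En A R V + En A R W + ω * ((U.card : ℝ) ^ 2 - U.card - (V.card : ℝ) ^ 2 - (W.card : ℝ) ^ 2) ≤
      En A R U := by
  have hR0 : 0 < R := by linarith
  have h1 : ∀ p ∈ U.offDiag, 0 ≤ uu A R p.1 p.2 - ω := by
    intro p hp
    rw [Finset.mem_offDiag] at hp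
    have h2 := hω p.1 hp.1 p.2 hp.2.1 hp.2.2
    have h3 : 0 < A ((p.1 : ℚ) - p.2) := by
      apply A.pos
      rw [sub_ne_zero]
      exact_mod_cast hp.2.2
    have h4 := Real.log_le_log h3 h2
    rw [Real.log_mul hR0.ne' (Real.exp_pos _).ne', Real.log_exp] at h4
    unfold uu
    linarith
  have h5 : Disjoint V.offDiag W.offDiag := by
    rw [Finset.disjoint_left]
    intro p hp hq
    rw [Finset.mem_offDiag] at hp hq
    exact (Finset.disjoint_left.mp hd) hp.1 hq.1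
  have h6 : V.offDiag ∪ W.offDiag ⊆ U.offDiag := by
    intro p hp
    rw [Finset.mem_union, Finset.mem_offDiag, Finset.mem_offDiag] at hp
    rw [Finset.mem_offDiag]
    rcases hp with hp | hp
    · exact ⟨hV hp.1, hV hp.2.1, hp.2.2⟩
    · exact ⟨hW hp.1, hW hp.2.1, hp.2.2⟩
  have h7 := Finset.sum_le_sum_of_subset_of_nonneg (f := fun p : ℤ × ℤ => uu A R p.1 p.2 - ω) h6
    (fun p hp _ => h1 p hp)
  rw [Finset.sum_union h5, M1_3_En, M1_3_En, M1_3_En] at h7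
  have h8 : (0 : ℝ) ≤ V.card := Nat.cast_nonneg _
  have h9 : (0 : ℝ) ≤ W.card := Nat.cast_nonneg _
  nlinarith [mul_nonneg hω0 h8, mul_nonneg hω0 h9]

end F0744E
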