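import Pool.Agent.Lib.MP_f0744f_nt.E.B1b
import Pool.Agent.Lib.MP_f0744f_nt.D.C1

/-! # Row M1_1: energies -/

set_option autoImplicit false

open Polynomial

namespace F0744E

open F0744C F0744D

variable {S : Finset ℤ} {a b : ℤ}

/-- For `x ≠ y` in `U`, by `fdiff3`, `lead3`: `uu x y = uu (ph x) (ph y) + mm - (2 log R - log A (qq x y))`, and the bracket is at most `ω`.
The sum over the image is the sum over `U` (`F0744D.C1_image` in `D/C1.lean`, `f.inj`); `∑_x ∑_y 1 = u ^ 2 - u`. -/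
theorem en_step (f : PM S a 3) {A : AbsoluteValue ℚ ℝ} {R : ℝ} (hR : 1 ≤ R) {U : Finset ℤ}
    (hU : ∀ x ∈ U, x ∈ S ∧ x ≠ a) {M ω : ℝ} (hM : M ≤ mm A R 3 f.F)
    (hω : ∀ x ∈ U, ∀ y ∈ U, x ≠ y → R ^ 2 * Real.exp (-ω) ≤ A (qq f.F x y)) :
    (M - ω) * ((U.card : ℝ) ^ 2 - U.card) + En A R (U.image f.ph) ≤ En A R U := by
  have hR0 : 0 < R := lt_of_lt_of_le one_pos hR
  rw [C1_image A R U f.ph (fun x hx y hy hxy => f.inj x (hU x hx).1 y (hU y hy).1 (hU x hx).2
    (hU y hy).2 hxy)]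
  have hpt : ∀ x ∈ U, ∀ y ∈ U.erase x, (M - ω) + uu A R (f.ph x) (f.ph y) ≤ uu A R x y := by
    intro x hx y hy
    have hy' := Finset.mem_of_mem_erase hy
    have hne : x ≠ y := fun h => (Finset.mem_erase.1 hy).1 h.symm
    have hxS := hU x hx
    have hyS := hU y hy'
    have h1 : ((f.ph x : ℤ) : ℚ) - f.ph y = f.F.leadingCoeff * ((x : ℚ) - y) * qq f.F x y := by
      rw [f.val x hxS.1 hxS.2, f.val y hyS.1 hyS.2]
      exact fdiff3 f.deg _ _
    have h2 : A (((f.ph x : ℤ) : ℚ) - f.ph y) =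
        Real.exp (mm A R 3 f.F) / R ^ 2 * A ((x : ℚ) - y) * A (qq f.F x y) := by
      rw [h1, map_mul, map_mul, lead3 A hR0 f.deg]
    have h3 : 0 < A (qq f.F x y) := lt_of_lt_of_le (by positivity) (hω x hx y hy' hne)
    have h4 : 0 < A ((x : ℚ) - y) := A.pos (by
      rw [sub_ne_zero]
      exact_mod_cast hne)
    have h5 : Real.log (A (((f.ph x : ℤ) : ℚ) - f.ph y)) =
        mm A R 3 f.F - 2 * Real.log R + Real.log (A ((x : ℚ) - y)) +
          Real.log (A (qq f.F x y)) := by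
      rw [h2, Real.log_mul (by positivity) h3.ne', Real.log_mul (by positivity) h4.ne',
        Real.log_div (Real.exp_pos _).ne' (by positivity), Real.log_exp, Real.log_pow]
      push_cast
      ring
    have h6 : 2 * Real.log R - ω ≤ Real.log (A (qq f.F x y)) := by
      have h7 := Real.log_le_log (by positivity) (hω x hx y hy' hne)
      rw [Real.log_mul (by positivity) (Real.exp_pos _).ne', Real.log_exp, Real.log_pow] at h7
      push_cast at h7
      linarith
    unfold uu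
    rw [h5]
    linarith
  have h1 : (M - ω) * ((U.card : ℝ) ^ 2 - U.card) = ∑ x ∈ U, ∑ y ∈ U.erase x, (M - ω) := by
    have h2 : ∀ x ∈ U, ∑ y ∈ U.erase x, (M - ω) = ((U.card : ℝ) - 1) * (M - ω) := by
      intro x hx
      have h3 : 1 ≤ U.card := Finset.card_pos.2 ⟨x, hx⟩
      rw [Finset.sum_const, Finset.card_erase_of_mem hx, nsmul_eq_mul, Nat.cast_sub h3,
        Nat.cast_one]
    rw [Finset.sum_congr rfl h2, Finset.sum_const, nsmul_eq_mul]
    ring
  rw [h1, ← Finset.sum_add_distrib]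
  unfold En
  refine Finset.sum_le_sum fun x hx => ?_
  rw [← Finset.sum_add_distrib]
  exact Finset.sum_le_sum fun y hy => hpt x hx y hy

end F0744E
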