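import Pool.Agent.Lib.MP_f0744f_nt.E.M2_1

/-! # Row M2_2: energies and masses of classes -/

set_option autoImplicit false

open Polynomial

namespace F0744E

open F0744C F0744D

variable {S : Finset ℤ} {a b : ℤ}

variable {f : PM S a 3} {g : PM S b 3} {A : AbsoluteValue ℚ ℝ} {R m θ : ℝ} {J : ℕ} {T : Finset ℤ}

/-- `PB.en_parts` (with `cl`), `en_simple` for the three parts, `mass_three` (divide by `m`) with `δ N ^ 2 + 13 θ N ^ 2`. -/
theorem TA.mass {cl : ℤ → Fin 3} (h : TA f g A R m θ J T cl) {U : Finset ℤ}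
    (hU : U ⊆ Dm S a f.ph (J + 1)) (hc : U ⊆ S0 S a b) {δ : ℝ}
    (hE : En A R U ≤ 1 / 2 * (U.card : ℝ) ^ 2 * m + δ * (S.card : ℝ) ^ 2 * m) (i : Fin 3) :
    (((U.filter (fun x => cl x = i)).card : ℝ) - U.card / 3) ^ 2 ≤
      (δ + 13 * θ) * (S.card : ℝ) ^ 2 := by
  have hb := h.base
  have hm := hb.m0
  have hθ := hb.t0
  have hUS : U ⊆ S := fun x hx => (Dm_sub S a f.ph (J + 1)) (hU hx)
  have h1 := hb.en_parts cl hUS
  have h2 : ∀ j : Fin 3, 3 / 2 * ((U.filter (fun x => cl x = j)).card : ℝ) ^ 2 * m -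
      4 * θ * (S.card : ℝ) ^ 2 * m ≤ En A R (U.filter (fun x => cl x = j)) := by
    intro j
    refine hb.en_simple ((Finset.filter_subset _ _).trans hU) ?_
    intro x hx y hy _
    rw [Finset.mem_filter] at hx hy
    exact h.simf x (hc hx.1) y (hc hy.1) (hx.2.trans hy.2.symm)
  have hu : ∑ j : Fin 3, (U.filter (fun x => cl x = j)).card = U.card :=
    (Finset.card_eq_sum_card_fiberwise (f := cl) (t := Finset.univ)
      (fun x _ => Finset.mem_coe.2 (Finset.mem_univ _))).symm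
  rw [Fin.sum_univ_three] at h1 hu
  have h20 := h2 0
  have h21 := h2 1
  have h22 := h2 2
  have hu' : ((U.filter (fun x => cl x = 0)).card : ℝ) + (U.filter (fun x => cl x = 1)).card +
      (U.filter (fun x => cl x = 2)).card = U.card := by exact_mod_cast hu
  have hcard : (U.card : ℝ) ≤ S.card := by exact_mod_cast Finset.card_le_card hUS
  have hcard2 : (U.card : ℝ) ^ 2 ≤ (S.card : ℝ) ^ 2 := by
    have : (0 : ℝ) ≤ U.card := Nat.cast_nonneg _
    nlinarith
  have h3 : θ * m * (U.card : ℝ) ^ 2 ≤ θ * m * (S.card : ℝ) ^ 2 :=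
    mul_le_mul_of_nonneg_left hcard2 (by positivity)
  have h4 : (3 / 2 * (((U.filter (fun x => cl x = 0)).card : ℝ) ^ 2 +
      ((U.filter (fun x => cl x = 1)).card : ℝ) ^ 2 +
      ((U.filter (fun x => cl x = 2)).card : ℝ) ^ 2)) * m ≤
      (1 / 2 * (U.card : ℝ) ^ 2 + (δ + 13 * θ) * (S.card : ℝ) ^ 2) * m := by
    linarith
  have h5 := le_of_mul_le_mul_right h4 hm
  obtain ⟨m0, m1, m2⟩ := mass_three hu' h5
  match i with
  | 0 => exact m0
  | 1 => exact m1
  | 2 => exact m2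

end F0744E
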