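import Pool.Agent.Lib.MP_f0744f_nt.E.M2_2

/-! # Row M2_3: energies and masses of classes -/

set_option autoImplicit false

open Polynomial

namespace F0744E

open F0744C F0744D

variable {S : Finset ℤ} {a b : ℤ}

variable {f : PM S a 3} {g : PM S b 3} {A : AbsoluteValue ℚ ℝ} {R m θ : ℝ} {J : ℕ} {T : Finset ℤ}

/-- the same with `lowf1` (class `true`), `en_simple` (class `false`), `mass_two`. -/
theorem TB.mass {cl : ℤ → Bool} (h : TB f g A R m θ J T cl) {U : Finset ℤ}
    (hU : U ⊆ Dm S a f.ph (J + 1)) (hc : U ⊆ S0 S a b) {δ : ℝ}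
    (hE : En A R U ≤ 1 / 2 * (U.card : ℝ) ^ 2 * m + δ * (S.card : ℝ) ^ 2 * m) :
    (((U.filter (fun x => cl x = true)).card : ℝ) - 2 * U.card / 3) ^ 2 ≤
        (δ + 6 * θ) * (S.card : ℝ) ^ 2 ∧
      (((U.filter (fun x => cl x = false)).card : ℝ) - U.card / 3) ^ 2 ≤
        (δ + 6 * θ) * (S.card : ℝ) ^ 2 := by
  have hm : 0 < m := h.base.m0
  have hθm : 0 ≤ θ * m := le_trans (Real.log_nonneg (by norm_num)) h.base.eight
  have hUS : U ⊆ S := fun x hx => (Finset.mem_filter.1 (hc hx)).1
  have e1 := PB.en_parts h.base cl hUS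
  rw [Fintype.sum_bool] at e1
  have e2 := h.lowf1 (U.filter (fun x => cl x = true)) ((Finset.filter_subset _ _).trans hU)
    (fun x hx => ⟨hc (Finset.mem_filter.1 hx).1, (Finset.mem_filter.1 hx).2⟩)
  have e3 := h.base.en_simple (U := U.filter (fun x => cl x = false)) ((Finset.filter_subset _ _).trans hU)
    (fun x hx y hy _ => h.simf x (hc (Finset.mem_filter.1 hx).1) y (hc (Finset.mem_filter.1 hy).1)
      (Finset.mem_filter.1 hx).2 (Finset.mem_filter.1 hy).2)
  have hcard : ((U.filter (fun x => cl x = true)).card : ℝ) + ((U.filter (fun x => cl x = false)).card : ℝ) =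
      (U.card : ℝ) := by
    have h1 := Finset.card_filter_add_card_filter_not (s := U) (fun x => cl x = true)
    have h2 : (U.filter (fun x => ¬ cl x = true)) = U.filter (fun x => cl x = false) :=
      Finset.filter_congr (fun x _ => by simp)
    rw [h2] at h1
    exact_mod_cast h1
  have hle : (U.card : ℝ) ≤ (S.card : ℝ) := by
    exact_mod_cast Finset.card_le_card hUS
  have hsq : (U.card : ℝ) ^ 2 ≤ (S.card : ℝ) ^ 2 := pow_le_pow_left₀ (by positivity) hle 2
  have hsq2 := mul_le_mul_of_nonneg_left hsq hθm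
  refine mass_two hcard ?_
  have key : (3 / 4 * ((U.filter (fun x => cl x = true)).card : ℝ) ^ 2 +
      3 / 2 * ((U.filter (fun x => cl x = false)).card : ℝ) ^ 2) * m ≤
      (1 / 2 * (U.card : ℝ) ^ 2 + (δ + 6 * θ) * (S.card : ℝ) ^ 2) * m := by
    nlinarith [e1, e2, e3, hE, hsq2]
  exact le_of_mul_le_mul_right key hm

end F0744E
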