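import Pool.Agent.Lib.MP_f0744f_nt.E.M1
import Pool.Agent.Lib.MP_f0744f_nt.E.M0

/-! # Row M2_1: energies and masses of classes -/

set_option autoImplicit false

open Polynomial

namespace F0744E

open F0744C F0744D

variable {S : Finset ℤ} {a b : ℤ}

variable {f : PM S a 3} {g : PM S b 3} {A : AbsoluteValue ℚ ℝ} {R m θ : ℝ} {J : ℕ} {T : Finset ℤ}

/-- `en_step` with `M = (1 - θ) m`, `ω = θ m`; `U.image f.ph ⊆ Dm S a f.ph J` (`Dm_succ`) has `u` elements (`f.inj`), so `lowf`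
gives the energy of the image; `u ≤ N = S.card`, `u m ≤ θ N ^ 2 m` (`big`). -/
theorem PB.en_simple (h : PB f g A R m θ J T) {U : Finset ℤ} (hU : U ⊆ Dm S a f.ph (J + 1))
    (hq : ∀ x ∈ U, ∀ y ∈ U, x ≠ y → R ^ 2 * Real.exp (-(θ * m)) ≤ A (qq f.F x y)) :
    3 / 2 * (U.card : ℝ) ^ 2 * m - 4 * θ * (S.card : ℝ) ^ 2 * m ≤ En A R U := by
  have hmem : ∀ x ∈ U, x ∈ S ∧ x ≠ a ∧ f.ph x ∈ Dm S a f.ph J := by
    intro x hx
    have h1 := hU hx
    simp only [Dm, Finset.mem_filter] at h1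
    exact h1
  have hstep := en_step f h.R1 (U := U) (fun x hx => ⟨(hmem x hx).1, (hmem x hx).2.1⟩)
    (M := (1 - θ) * m) (ω := θ * m) h.mf1 hq
  have himg : U.image f.ph ⊆ Dm S a f.ph J := by
    intro y hy
    obtain ⟨x, hx, rfl⟩ := Finset.mem_image.1 hy
    exact (hmem x hx).2.2
  have hcard : (U.image f.ph).card = U.card := by
    apply Finset.card_image_of_injOn
    intro x hx y hy hxy
    exact f.inj x (hmem x hx).1 y (hmem y hy).1 (hmem x hx).2.1 (hmem y hy).2.1 hxy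
  have hlow := h.lowf _ himg
  rw [hcard] at hlow
  have hm := h.m0
  have hθ : 0 < θ := by
    have h8 : 0 < Real.log 8 := Real.log_pos (by norm_num)
    by_contra hc
    have h9 : θ * m ≤ 0 := mul_nonpos_of_nonpos_of_nonneg (not_lt.1 hc) hm.le
    linarith [h.eight]
  have huN : (U.card : ℝ) ≤ S.card := by
    exact_mod_cast Finset.card_le_card (fun x hx => (hmem x hx).1)
  have hu0 : (0 : ℝ) ≤ U.card := Nat.cast_nonneg _
  have hbig := h.big
  generalize (U.card : ℝ) = u at *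
  generalize (S.card : ℝ) = N at *
  have hN0 : 0 ≤ N := le_trans hu0 huN
  have hmθ : 0 ≤ θ * m := (mul_pos hθ hm).le
  have e1 : θ * m * u ^ 2 ≤ θ * m * N ^ 2 := by
    apply mul_le_mul_of_nonneg_left _ hmθ
    exact pow_le_pow_left₀ hu0 huN 2
  have e2 : m * u ≤ θ * m * N ^ 2 := by
    calc m * u ≤ m * N := mul_le_mul_of_nonneg_left huN hm.le
      _ = m * N * 1 := by ring
      _ ≤ m * N * (θ * N) := mul_le_mul_of_nonneg_left hbig (mul_nonneg hm.le hN0)
      _ = θ * m * N ^ 2 := by ring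
  have e3 : 0 ≤ θ * m * u := mul_nonneg hmθ hu0
  nlinarith [hstep, hlow, e1, e2, e3]

end F0744E
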