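import Pool.Agent.Lib.MP_f0744f_nt.E.M4_1

/-! # Row M4_2: three simple classes: all transitions occur -/

set_option autoImplicit false

open Polynomial

namespace F0744E

open F0744C F0744D

variable {S : Finset ℤ} {a b : ℤ}

variable {f : PM S a 3} {g : PM S b 3} {A : AbsoluteValue ℚ ℝ} {R m θ : ℝ} {J : ℕ} {T : Finset ℤ}

theorem M4_2_arith {N t t0 t1 t2 m θ E E0 E1 E2 EI : ℝ} (hm : 0 < m) (hθ0 : 0 < θ)
    (hθ : θ ≤ 1 / 10000) (hbig : 1 ≤ θ * N) (h1 : (1 - θ) * N ≤ t) (h2 : t ≤ N)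
    (hsum : t0 + t1 + t2 = t) (h00 : 0 ≤ t0) (h0N : t0 ≤ N)
    (hup : E ≤ (1 / 2 + θ) * N ^ 2 * m)
    (hpar : E0 + E1 + E2 - θ * m * t ^ 2 ≤ E)
    (hs1 : 3 / 2 * t1 ^ 2 * m - 4 * θ * N ^ 2 * m ≤ E1)
    (hs2 : 3 / 2 * t2 ^ 2 * m - 4 * θ * N ^ 2 * m ≤ E2)
    (hst : ((1 - θ) * m - θ * m) * (t0 ^ 2 - t0) + EI ≤ E0) :
    EI ≤ 1 / 2 * t0 ^ 2 * m + 14 * θ * N ^ 2 * m := by
  have hN : 0 < N := by
    by_contra hcon
    have : θ * N ≤ 0 := mul_nonpos_of_nonneg_of_nonpos hθ0.le (not_lt.1 hcon)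
    linarith
  have ht0 : 0 ≤ (1 - θ) * N := mul_nonneg (by linarith) hN.le
  have ht : 0 ≤ t := ht0.trans h1
  have hsq : ((1 - θ) * N) ^ 2 ≤ t ^ 2 := by
    exact pow_le_pow_left₀ ht0 h1 2
  have htN : t ^ 2 ≤ N ^ 2 := pow_le_pow_left₀ ht h2 2
  have hcs : t ^ 2 ≤ 3 * (t0 ^ 2 + t1 ^ 2 + t2 ^ 2) := by
    rw [← hsum]
    nlinarith [sq_nonneg (t0 - t1), sq_nonneg (t0 - t2), sq_nonneg (t1 - t2)]
  have hN2 : 0 ≤ θ ^ 2 * N ^ 2 := by positivity
  -- (1 - 2 θ) N ^ 2 ≤ 3 (sum of squares)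
  have hA : (1 - 2 * θ) * N ^ 2 ≤ 3 * (t0 ^ 2 + t1 ^ 2 + t2 ^ 2) := by
    nlinarith [hsq, hcs, hN2]
  have hAm := mul_le_mul_of_nonneg_right hA hm.le
  have hθm : θ * m * t ^ 2 ≤ θ * m * N ^ 2 :=
    mul_le_mul_of_nonneg_left htN (by positivity)
  have hNN : N ≤ θ * N ^ 2 := by nlinarith [mul_le_mul_of_nonneg_right hbig hN.le]
  have ht0m : t0 * m ≤ θ * N ^ 2 * m := by
    exact mul_le_mul_of_nonneg_right (h0N.trans hNN) hm.le
  have ht0sq : t0 ^ 2 ≤ N ^ 2 := pow_le_pow_left₀ h00 h0N 2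
  have ht0s : θ * m * t0 ^ 2 ≤ θ * m * N ^ 2 :=
    mul_le_mul_of_nonneg_left ht0sq (by positivity)
  have hpos : 0 ≤ θ * m * t0 := by positivity
  -- the energy of the class
  have hE0 : E0 ≤ 3 / 2 * t0 ^ 2 * m + 11 * θ * N ^ 2 * m := by
    nlinarith [hAm, hθm, hup, hpar, hs1, hs2]
  nlinarith [hE0, hst, ht0m, ht0s, hpos]

theorem M4_2_contra {N t0 u θ : ℝ} (hN : 0 < N) (hθ : θ ≤ 1 / 10000)
    (ht : 1 / 4 * N ≤ t0) (hu : u = 0)
    (h : (u - t0 / 3) ^ 2 ≤ (14 * θ + 13 * θ) * N ^ 2) : False := by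
  subst hu
  have h1 : (1 / 4 * N) ^ 2 ≤ t0 ^ 2 := pow_le_pow_left₀ (by positivity) ht 2
  have h2 : 0 < N ^ 2 := by positivity
  have h3 : θ * N ^ 2 ≤ 1 / 10000 * N ^ 2 := mul_le_mul_of_nonneg_right hθ h2.le
  nlinarith

/-- With `T_i = T.filter (cl = i)`, `t_i` its cardinality: by `PB.en_parts` for `T`, `en_simple` for the `T_j`, `j ≠ i`, and
`∑_j t_j ^ 2 ≥ t ^ 2 / 3`: `En (T_i) ≤ (3 / 2) t_i ^ 2 m + 14 θ N ^ 2 m`. By `en_step` (`M = (1 - θ) m`, `ω = θ m`)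
`En (f.ph (T_i)) ≤ (1 / 2) t_i ^ 2 m + 20 θ N ^ 2 m`, so by `TA.mass` for `U = f.ph (T_i)` (`U ⊆ Dm (J + 1)`: `Dm_succ`, `Dm_mono`;
`U ⊆ S0`: `Tm`) the class `j` of `U` has at least `t_i / 3 - √(33 θ) N > 0` elements (`TA.many`). -/
theorem TA.hit {cl : ℤ → Fin 3} (h : TA f g A R m θ J T cl) (hθ : θ ≤ 1 / 10000) (i j : Fin 3) :
    ∃ x ∈ T, cl x = i ∧ cl (f.ph x) = j := by
  classical
  have hB := h.base
  have hθ0 := hB.t0
  have hm := hB.m0
  have hTS0 : ∀ x ∈ T, x ∈ S0 S a b := fun x hx => (hB.Tm x hx).1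
  have hS0 : ∀ x, x ∈ S0 S a b → x ∈ S ∧ x ≠ a ∧ x ≠ b := by
    intro x hx
    have := Finset.mem_filter.1 hx
    exact ⟨this.1, this.2.1, this.2.2⟩
  have hTS : T ⊆ S := fun x hx => (hS0 x (hTS0 x hx)).1
  have hN : (0 : ℝ) < (S.card : ℝ) := by
    by_contra hcon
    have : θ * (S.card : ℝ) ≤ 0 := mul_nonpos_of_nonneg_of_nonpos hθ0.le (not_lt.1 hcon)
    linarith [hB.big]
  set P : Fin 3 → Finset ℤ := fun k => T.filter (fun x => cl x = k) with hP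
  have hPT : ∀ k, P k ⊆ T := fun k => Finset.filter_subset _ _
  have hPcl : ∀ k, ∀ x ∈ P k, cl x = k := fun k x hx => (Finset.mem_filter.1 hx).2
  have hsimple : ∀ k, ∀ x ∈ P k, ∀ y ∈ P k, x ≠ y →
      R ^ 2 * Real.exp (-(θ * m)) ≤ A (qq f.F x y) := by
    intro k x hx y hy _
    exact h.simf x (hTS0 x (hPT k hx)) y (hTS0 y (hPT k hy))
      ((hPcl k x hx).trans (hPcl k y hy).symm)
  have hPD : ∀ k, P k ⊆ Dm S a f.ph (J + 1) := by
    intro k x hx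
    exact Dm_mono S a f.ph (by omega) (hB.Tf (hPT k hx))
  have hes : ∀ k, 3 / 2 * ((P k).card : ℝ) ^ 2 * m - 4 * θ * (S.card : ℝ) ^ 2 * m ≤
      En A R (P k) := fun k => hB.en_simple (hPD k) (hsimple k)
  -- the image
  set U : Finset ℤ := (P i).image f.ph with hU
  have hUcard : U.card = (P i).card := by
    apply Finset.card_image_of_injOn
    intro x hx y hy hxy
    have hx' := hS0 x (hTS0 x (hPT i hx))
    have hy' := hS0 y (hTS0 y (hPT i hy))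
    exact f.inj x hx'.1 y hy'.1 hx'.2.1 hy'.2.1 hxy
  have hUD : U ⊆ Dm S a f.ph (J + 1) := by
    intro y hy
    obtain ⟨x, hx, rfl⟩ := Finset.mem_image.1 hy
    have h1 : x ∈ Dm S a f.ph (J + 1 + 1) :=
      Dm_mono S a f.ph (by omega) (hB.Tf (hPT i hx))
    exact (Dm_succ h1).2.2
  have hUS0 : U ⊆ S0 S a b := by
    intro y hy
    obtain ⟨x, hx, rfl⟩ := Finset.mem_image.1 hy
    exact (hB.Tm x (hPT i hx)).2.1
  have hst := en_step f hB.R1 (U := P i)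
    (fun x hx => ⟨(hS0 x (hTS0 x (hPT i hx))).1, (hS0 x (hTS0 x (hPT i hx))).2.1⟩)
    (M := (1 - θ) * m) (ω := θ * m) hB.mf1 (hsimple i)
  -- the sum of the cardinalities
  have hcard : ∑ k, ((P k).card : ℝ) = (T.card : ℝ) := by
    have h1 : T.card = ∑ k, (P k).card := by
      have := Finset.card_eq_sum_card_fiberwise (f := cl) (s := T) (t := Finset.univ)
        (fun x _ => Finset.mem_univ _)
      exact this
    rw [h1]
    push_cast
    rfl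
  have hpar := hB.en_parts cl hTS
  have hpar' : ∑ k, En A R (P k) - θ * m * (T.card : ℝ) ^ 2 ≤ En A R T := hpar
  have htN : (T.card : ℝ) ≤ (S.card : ℝ) := by exact_mod_cast Finset.card_le_card hTS
  have hiN : ((P i).card : ℝ) ≤ (S.card : ℝ) := by
    exact_mod_cast (Finset.card_le_card ((hPT i).trans hTS))
  have hEI : En A R U ≤ 1 / 2 * ((P i).card : ℝ) ^ 2 * m + 14 * θ * (S.card : ℝ) ^ 2 * m := by
    rw [Fin.sum_univ_three] at hcard hpar'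
    have key : ∀ j1 j2 : Fin 3,
        ((P i).card : ℝ) + ((P j1).card : ℝ) + ((P j2).card : ℝ) = (T.card : ℝ) →
        En A R (P i) + En A R (P j1) + En A R (P j2) - θ * m * (T.card : ℝ) ^ 2 ≤ En A R T →
        En A R U ≤ 1 / 2 * ((P i).card : ℝ) ^ 2 * m + 14 * θ * (S.card : ℝ) ^ 2 * m := by
      intro j1 j2 e1 e2
      exact M4_2_arith hm hθ0 hθ hB.big hB.card htN e1 (Nat.cast_nonneg _) hiN hB.up e2
        (hes j1) (hes j2) hst
    have hi3 : i = 0 ∨ i = 1 ∨ i = 2 := by fin_cases i <;> simp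
    rcases hi3 with hi | hi | hi
    · rw [hi] at key
      rw [hi]
      exact key 1 2 (by linarith) (by linarith)
    · rw [hi] at key
      rw [hi]
      exact key 0 2 (by linarith) (by linarith)
    · rw [hi] at key
      rw [hi]
      exact key 0 1 (by linarith) (by linarith)
  have hmass := h.mass hUD hUS0 (δ := 14 * θ) (by
    rw [hUcard]
    exact hEI) j
  by_contra hcon
  push Not at hcon
  have hempty : U.filter (fun x => cl x = j) = ∅ := by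
    apply Finset.filter_eq_empty_iff.2
    intro y hy
    obtain ⟨x, hx, rfl⟩ := Finset.mem_image.1 hy
    exact hcon x (hPT i hx) (hPcl i x hx)
  rw [hempty, hUcard] at hmass
  exact M4_2_contra hN hθ (h.many hθ i) (by simp) hmass

end F0744E
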