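import Pool.Agent.Lib.MP_f0744f_nt.E.M2
import Pool.Agent.Lib.MP_f0744f_nt.D.X1

/-! # Row M4_1: three simple classes: all transitions occur -/

set_option autoImplicit false

open Polynomial

namespace F0744E

open F0744C F0744D

variable {S : Finset ℤ} {a b : ℤ}

variable {f : PM S a 3} {g : PM S b 3} {A : AbsoluteValue ℚ ℝ} {R m θ : ℝ} {J : ℕ} {T : Finset ℤ}

/-- `T` itself: `up`, `card` give `En T ≤ 1/2 t ^ 2 m + 3 θ N ^ 2 m`, `TA.mass` (`T ⊆ Dm (J + 1)` by `Dm_mono`): `|t_i - t / 3| ≤ N / 20`. -/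
theorem TA.many {cl : ℤ → Fin 3} (h : TA f g A R m θ J T cl) (hθ : θ ≤ 1 / 10000) (i : Fin 3) :
    1 / 4 * (S.card : ℝ) ≤ ((T.filter (fun x => cl x = i)).card : ℝ) := by
  have hN : (0 : ℝ) ≤ (S.card : ℝ) := Nat.cast_nonneg _
  have hbig := h.base.big
  have hθ0 : 0 < θ := by
    by_contra hne
    push Not at hne
    have : θ * (S.card : ℝ) ≤ 0 := mul_nonpos_of_nonpos_of_nonneg hne hN
    linarith
  have hcard := h.base.card
  have hup := h.base.up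
  have hm := h.base.m0
  have ht2 : (1 - 2 * θ) * (S.card : ℝ) ^ 2 ≤ (T.card : ℝ) ^ 2 := by
    have h1 : 0 ≤ (1 - θ) * (S.card : ℝ) := mul_nonneg (by linarith) hN
    have h2 : ((1 - θ) * (S.card : ℝ)) ^ 2 ≤ (T.card : ℝ) ^ 2 := pow_le_pow_left₀ h1 hcard 2
    nlinarith [sq_nonneg (θ * (S.card : ℝ))]
  have hE : En A R T ≤ 1 / 2 * (T.card : ℝ) ^ 2 * m + 2 * θ * (S.card : ℝ) ^ 2 * m := by
    have h1 : (1 / 2 + θ) * (S.card : ℝ) ^ 2 * m ≤
        (1 / 2 * (T.card : ℝ) ^ 2 + 2 * θ * (S.card : ℝ) ^ 2) * m :=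
      mul_le_mul_of_nonneg_right (by linarith) hm.le
    calc En A R T ≤ (1 / 2 + θ) * (S.card : ℝ) ^ 2 * m := hup
      _ ≤ (1 / 2 * (T.card : ℝ) ^ 2 + 2 * θ * (S.card : ℝ) ^ 2) * m := h1
      _ = _ := by ring
  have hU : T ⊆ Dm S a f.ph (J + 1) := h.base.Tf.trans (Dm_mono S a f.ph (by omega))
  have hc : T ⊆ S0 S a b := fun x hx => (h.base.Tm x hx).1
  have hmass := h.mass hU hc hE i
  have h3 : (((T.filter (fun x => cl x = i)).card : ℝ) - T.card / 3) ^ 2 ≤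
      (1 / 20 * (S.card : ℝ)) ^ 2 := by
    calc (((T.filter (fun x => cl x = i)).card : ℝ) - T.card / 3) ^ 2
        ≤ (2 * θ + 13 * θ) * (S.card : ℝ) ^ 2 := hmass
      _ ≤ (1 / 400) * (S.card : ℝ) ^ 2 :=
          mul_le_mul_of_nonneg_right (by linarith) (sq_nonneg _)
      _ = _ := by ring
  have h4 := (abs_le.mp (abs_le_of_sq_le_sq h3 (by positivity))).1
  have h5 : (1 - 1 / 10000) * (S.card : ℝ) ≤ (1 - θ) * (S.card : ℝ) :=
    mul_le_mul_of_nonneg_right (by linarith) hN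
  nlinarith

end F0744E
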