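import Pool.Agent.Lib.MP_f0744f_nt.E.M5a_1

/-! # Row M5a_2: a double and a simple class: the masses -/

set_option autoImplicit false

open Polynomial

namespace F0744E

open F0744C F0744D

variable {S : Finset ℤ} {a b : ℤ}

variable {f : PM S a 3} {g : PM S b 3} {A : AbsoluteValue ℚ ℝ} {R m θ : ℝ} {J : ℕ} {T : Finset ℤ} {cl : ℤ → Bool}

/-- `PB.en_parts` for `T`, `en_simple` for the class `false`: `En (T_true) ≤ (1 / 2 + 2 θ) N ^ 2 m - (3 / 2) t_false ^ 2 m + 4 θ N ^ 2 m`,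
`m1`. The second inequality: the same with `lowf1` for the class `true`, and `t_true ≥ 2 t_false - 3 √(9 θ) N` (`TB.mass`), so
`En (T_false) ≤ (3 / 2) t_false ^ 2 m + (small) N ^ 2 m`: use `(3 / 4) t_true ^ 2 + (3 / 2) t_false ^ 2 ≥ t ^ 2 / 2`. -/
theorem TB.en (h : TB f g A R m θ J T cl) (hθ : θ ≤ 1 / 100000000) :
    En A R (T.filter (fun x => cl x = true)) ≤ (1 / 3 + 1 / 500) * (S.card : ℝ) ^ 2 * m ∧
      En A R (T.filter (fun x => cl x = false)) ≤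
        3 / 2 * ((T.filter (fun x => cl x = false)).card : ℝ) ^ 2 * m +
          20 * θ * (S.card : ℝ) ^ 2 * m := by
  obtain ⟨m1, m0⟩ := h.m1 hθ
  have hB := h.base
  have hm := hB.m0
  have hN0 : (0 : ℝ) ≤ (S.card : ℝ) := Nat.cast_nonneg _
  have hbig := hB.big
  have hθ0 : 0 < θ := by
    by_contra hc
    have h1 : θ * (S.card : ℝ) ≤ 0 := mul_nonpos_of_nonpos_of_nonneg (not_lt.1 hc) hN0
    linarith
  have hTS0 : ∀ x ∈ T, x ∈ S0 S a b := fun x hx => (hB.Tm x hx).1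
  have hTS : T ⊆ S := fun x hx => (Finset.mem_filter.1 (hTS0 x hx)).1
  have hcard : (T.card : ℝ) ≤ S.card := by exact_mod_cast Finset.card_le_card hTS
  have hsum : ((T.filter (fun x => cl x = true)).card : ℝ) +
      ((T.filter (fun x => cl x = false)).card : ℝ) = T.card := by
    rw [← Nat.cast_add, ← Finset.card_filter_add_card_filter_not (s := T) (fun x => cl x = true)]
    simp only [Bool.not_eq_true]
  have hparts := hB.en_parts cl hTS
  rw [Fintype.sum_bool] at hparts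
  have hDm : T ⊆ Dm S a f.ph (J + 1) := hB.Tf.trans (Dm_mono S a f.ph (by omega))
  have hs : 3 / 2 * ((T.filter (fun x => cl x = false)).card : ℝ) ^ 2 * m - 4 * θ * (S.card : ℝ) ^ 2 * m ≤
      En A R (T.filter (fun x => cl x = false)) := by
    refine hB.en_simple ((Finset.filter_subset _ _).trans hDm) ?_
    intro x hx y hy _
    obtain ⟨hx1, hx2⟩ := Finset.mem_filter.1 hx
    obtain ⟨hy1, hy2⟩ := Finset.mem_filter.1 hy
    exact h.simf x (hTS0 x hx1) y (hTS0 y hy1) hx2 hy2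
  have hd : 3 / 4 * ((T.filter (fun x => cl x = true)).card : ℝ) ^ 2 * m - θ * (S.card : ℝ) ^ 2 * m ≤
      En A R (T.filter (fun x => cl x = true)) := by
    refine h.lowf1 _ ((Finset.filter_subset _ _).trans hDm) ?_
    intro x hx
    obtain ⟨hx1, hx2⟩ := Finset.mem_filter.1 hx
    exact ⟨hTS0 x hx1, hx2⟩
  have hup := hB.up
  have htc := hB.card
  obtain ⟨N, hN⟩ : ∃ N, N = (S.card : ℝ) := ⟨_, rfl⟩
  obtain ⟨t, ht⟩ : ∃ t, t = (T.card : ℝ) := ⟨_, rfl⟩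
  obtain ⟨t1, ht1⟩ : ∃ t1, t1 = ((T.filter (fun x => cl x = true)).card : ℝ) := ⟨_, rfl⟩
  obtain ⟨t0, ht0⟩ : ∃ t0, t0 = ((T.filter (fun x => cl x = false)).card : ℝ) := ⟨_, rfl⟩
  obtain ⟨e1, he1⟩ : ∃ e1, e1 = En A R (T.filter (fun x => cl x = true)) := ⟨_, rfl⟩
  obtain ⟨e0, he0⟩ : ∃ e0, e0 = En A R (T.filter (fun x => cl x = false)) := ⟨_, rfl⟩
  rw [← ht1, ← hN] at m1
  rw [← ht0, ← hN] at m0
  rw [← ht, ← hN] at htc hcard
  rw [← hN] at hN0
  rw [← ht1, ← ht0, ← ht] at hsum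
  rw [← he1, ← he0, ← ht] at hparts
  rw [← ht0, ← hN, ← he0] at hs
  rw [← ht1, ← hN, ← he1] at hd
  rw [← hN] at hup
  rw [← he1, ← he0, ← hN, ← ht0]
  have ht2 : t ^ 2 ≤ N ^ 2 := by
    have ht00 : 0 ≤ t := by rw [ht]; exact Nat.cast_nonneg _
    exact pow_le_pow_left₀ ht00 hcard 2
  have h1 : θ * m * t ^ 2 ≤ θ * m * N ^ 2 := mul_le_mul_of_nonneg_left ht2 (by positivity)
  constructor
  · have h2 : (1 / 3 - 1 / 1000) * N ≤ t0 := by
      have := (abs_le.1 m0).1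
      linarith
    have h3 : ((1 / 3 - 1 / 1000) * N) ^ 2 ≤ t0 ^ 2 := pow_le_pow_left₀ (by positivity) h2 2
    have h4 : ((1 / 3 - 1 / 1000) * N) ^ 2 * m ≤ t0 ^ 2 * m := mul_le_mul_of_nonneg_right h3 hm.le
    have h5 : θ * (N ^ 2 * m) ≤ 1 / 100000000 * (N ^ 2 * m) :=
      mul_le_mul_of_nonneg_right hθ (by positivity)
    have h6 : 0 ≤ N ^ 2 * m := by positivity
    nlinarith
  · have h2 : ((1 - θ) * N) ^ 2 ≤ t ^ 2 := by
      apply pow_le_pow_left₀ _ htc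
      have : 0 ≤ 1 - θ := by linarith
      positivity
    have h3 : t ^ 2 / 2 ≤ 3 / 4 * t1 ^ 2 + 3 / 2 * t0 ^ 2 := by
      rw [← hsum]
      nlinarith [sq_nonneg (t1 - 2 * t0)]
    have h4 : (1 - 2 * θ) * N ^ 2 ≤ t ^ 2 := by nlinarith [sq_nonneg (θ * N)]
    have h5 : (1 - 2 * θ) * N ^ 2 / 2 * m ≤ (3 / 4 * t1 ^ 2 + 3 / 2 * t0 ^ 2) * m :=
      mul_le_mul_of_nonneg_right (by linarith) hm.le
    have h6 : 0 ≤ θ * (N ^ 2 * m) := by positivity
    nlinarith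

end F0744E
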