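import Pool.Agent.Lib.MP_f0744f_nt.E.M2
import Pool.Agent.Lib.MP_f0744f_nt.D.X1

/-! # Row M5a_1: a double and a simple class: the masses -/

set_option autoImplicit false

open Polynomial

namespace F0744E

open F0744C F0744D

variable {S : Finset ℤ} {a b : ℤ}

variable {f : PM S a 3} {g : PM S b 3} {A : AbsoluteValue ℚ ℝ} {R m θ : ℝ} {J : ℕ} {T : Finset ℤ} {cl : ℤ → Bool}

theorem M5a_1_abs {c t N θ s : ℝ} (hN : 0 ≤ N) (hθ : θ ≤ 1 / 100000000) (hs0 : 0 ≤ s) (hs : s ≤ 2 / 3)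
    (ht1 : t ≤ N) (ht2 : (1 - θ) * N ≤ t) (h : (c - s * t) ^ 2 ≤ 8 * θ * N ^ 2) :
    |c - s * N| ≤ 1 / 1000 * N := by
  have h1 : (c - s * t) ^ 2 ≤ (1 / 3000 * N) ^ 2 := by
    refine h.trans ?_
    have : 8 * θ * N ^ 2 ≤ 8 * (1 / 100000000) * N ^ 2 := by
      apply mul_le_mul_of_nonneg_right _ (sq_nonneg N)
      linarith
    nlinarith [sq_nonneg N]
  have h2 : |c - s * t| ≤ 1 / 3000 * N := abs_le_of_sq_le_sq h1 (by linarith)
  have h3 := abs_le.mp h2
  have h4 : s * (N - t) ≤ 2 / 3 * (1 / 100000000 * N) := by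
    have h5 : N - t ≤ 1 / 100000000 * N := by nlinarith
    calc s * (N - t) ≤ 2 / 3 * (N - t) := mul_le_mul_of_nonneg_right hs (by linarith)
      _ ≤ 2 / 3 * (1 / 100000000 * N) := by linarith
  have h6 : 0 ≤ s * (N - t) := mul_nonneg hs0 (by linarith)
  rw [abs_le]
  constructor <;> nlinarith [h3.1, h3.2]

/-- `up`, `card`: `En T ≤ (1 / 2) t ^ 2 m + 3 θ N ^ 2 m` (`t ≥ (1 - θ) N`), `TB.mass` (`Dm_mono`): the differences are at most
`√(9 θ) N ≤ N / 3000`. -/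
theorem TB.m1 (h : TB f g A R m θ J T cl) (hθ : θ ≤ 1 / 100000000) :
    |((T.filter (fun x => cl x = true)).card : ℝ) - 2 / 3 * S.card| ≤ 1 / 1000 * S.card ∧
      |((T.filter (fun x => cl x = false)).card : ℝ) - 1 / 3 * S.card| ≤ 1 / 1000 * S.card := by
  have hb := h.base
  have hm := hb.m0
  have hθ0 : 0 < θ := by
    have h1 := hb.eight
    have h2 : 0 < Real.log 8 := Real.log_pos (by norm_num)
    by_contra h3
    push Not at h3
    have : θ * m ≤ 0 := mul_nonpos_of_nonpos_of_nonneg h3 hm.le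
    linarith
  have hTS : T ⊆ S0 S a b := fun x hx => (hb.Tm x hx).1
  have hTN : (T.card : ℝ) ≤ S.card := by
    exact_mod_cast Finset.card_le_card (hTS.trans (Finset.filter_subset _ _))
  have hN0 : (0 : ℝ) ≤ S.card := Nat.cast_nonneg _
  have ht0 : (0 : ℝ) ≤ T.card := Nat.cast_nonneg _
  have hcard := hb.card
  have hE : En A R T ≤ 1 / 2 * (T.card : ℝ) ^ 2 * m + (2 * θ) * (S.card : ℝ) ^ 2 * m := by
    refine hb.up.trans ?_
    rw [← add_mul]
    apply mul_le_mul_of_nonneg_right _ hm.le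
    have h1 : ((1 - θ) * (S.card : ℝ)) ^ 2 ≤ (T.card : ℝ) ^ 2 :=
      pow_le_pow_left₀ (mul_nonneg (by linarith) hN0) hcard 2
    nlinarith [sq_nonneg (S.card : ℝ), sq_nonneg (θ * (S.card : ℝ))]
  obtain ⟨h1, h2⟩ := h.mass (hb.Tf.trans (Dm_mono S a f.ph (by omega))) hTS hE
  constructor
  · refine M5a_1_abs (θ := θ) (t := (T.card : ℝ)) hN0 hθ (by norm_num) le_rfl hTN hcard ?_
    have e : 2 * (T.card : ℝ) / 3 = 2 / 3 * T.card := by ring
    rw [e] at h1
    linarith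
  · refine M5a_1_abs (θ := θ) (t := (T.card : ℝ)) hN0 hθ (by norm_num) (by norm_num) hTN hcard ?_
    have e : (T.card : ℝ) / 3 = 1 / 3 * T.card := by ring
    rw [e] at h2
    linarith

end F0744E
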