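import Pool.Agent.Lib.MP_f0744f_nt.E.M5a

/-! # Row M5b: a double and a simple class: transitions from the simple class -/

set_option autoImplicit false

open Polynomial

namespace F0744E

open F0744C F0744D

variable {S : Finset ℤ} {a b : ℤ}

variable {f : PM S a 3} {g : PM S b 3} {A : AbsoluteValue ℚ ℝ} {R m θ : ℝ} {J : ℕ} {T : Finset ℤ} {cl : ℤ → Bool}

theorem M5b_card {V : Finset ℤ} {ph : ℤ → ℤ} {cl : ℤ → Bool} {c : Bool}
    (hinj : ∀ x ∈ V, ∀ y ∈ V, ph x = ph y → x = y) :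
    ((V.image ph).filter (fun x => cl x = c)).card = (V.filter (fun x => cl (ph x) = c)).card := by
  classical
  rw [Finset.filter_image]
  refine Finset.card_image_of_injOn ?_
  intro x hx y hy hxy
  have hx' : x ∈ V.filter (fun x => cl (ph x) = c) := hx
  have hy' : y ∈ V.filter (fun x => cl (ph x) = c) := hy
  exact hinj x (Finset.mem_filter.1 hx').1 y (Finset.mem_filter.1 hy').1 hxy

theorem M5b_abs {u v N θ : ℝ} (hN : 0 ≤ N) (hθ : θ ≤ 1 / 100000000)
    (h : (u - v) ^ 2 ≤ (30 * θ + 6 * θ) * N ^ 2) : |u - v| ≤ 6 / 10000 * N := by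
  refine abs_le_of_sq_le_sq ?_ (by positivity)
  refine h.trans ?_
  have : (30 * θ + 6 * θ) * N ^ 2 ≤ (36 / 100000000) * N ^ 2 := by
    refine mul_le_mul_of_nonneg_right ?_ (by positivity)
    linarith
  refine this.trans (le_of_eq ?_)
  ring

/-- `V = T.filter (cl = false)`, `U = V.image f.ph ⊆ Dm S a f.ph (J + 1)` (`Tf`, `Dm_succ`, `Dm_mono`), `U ⊆ S0` (`Tm`), `U.card = V.card = v`
(`f.inj`). `en_step` (`M = (1 - θ) m`, `ω = θ m`, `simf`) and `TB.en`: `En U ≤ (1 / 2) v ^ 2 m + 30 θ N ^ 2 m`. `TB.mass` for `U`: the classes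
of `U` have `2 v / 3` and `v / 3` elements up to `√(36 θ) N ≤ N / 1500`; `|v - N / 3| ≤ N / 1000` (`m1`). The number of the `x ∈ V` with
`cl (f.ph x) = true` is the number of the elements `true` of `U`. -/
theorem TB.m2 (h : TB f g A R m θ J T cl) (hθ : θ ≤ 1 / 100000000) :
    |((T.filter (fun x => cl x = false ∧ cl (f.ph x) = true)).card : ℝ) - 2 / 9 * S.card| ≤
        1 / 500 * S.card ∧
      |((T.filter (fun x => cl x = false ∧ cl (f.ph x) = false)).card : ℝ) - 1 / 9 * S.card| ≤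
        1 / 500 * S.card := by
  classical
  have hB := h.base
  obtain ⟨V, hV⟩ : ∃ V, V = T.filter (fun x => cl x = false) := ⟨_, rfl⟩
  have hVm : ∀ x ∈ V, x ∈ T ∧ cl x = false := by
    intro x hx; rw [hV] at hx; exact Finset.mem_filter.1 hx
  have hS0 : ∀ x ∈ S0 S a b, x ∈ S ∧ x ≠ a ∧ x ≠ b := by
    intro x hx
    have := Finset.mem_filter.1 hx
    exact ⟨this.1, this.2.1, this.2.2⟩
  have hVS : ∀ x ∈ V, x ∈ S ∧ x ≠ a := by
    intro x hx
    have h1 := hS0 x (hB.Tm x (hVm x hx).1).1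
    exact ⟨h1.1, h1.2.1⟩
  have hinj : ∀ x ∈ V, ∀ y ∈ V, f.ph x = f.ph y → x = y := by
    intro x hx y hy hxy
    exact f.inj x (hVS x hx).1 y (hVS y hy).1 (hVS x hx).2 (hVS y hy).2 hxy
  have hUc : (V.image f.ph).card = V.card := by
    refine Finset.card_image_of_injOn ?_
    intro x hx y hy hxy
    exact hinj x hx y hy hxy
  have hUD : V.image f.ph ⊆ Dm S a f.ph (J + 1) := by
    intro y hy
    obtain ⟨x, hx, rfl⟩ := Finset.mem_image.1 hy
    have h1 := hB.Tf (hVm x hx).1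
    have h2 : f.ph x ∈ Dm S a f.ph (J + 2) := (Dm_succ h1).2.2
    exact Dm_mono S a f.ph (by omega) h2
  have hU0 : V.image f.ph ⊆ S0 S a b := by
    intro y hy
    obtain ⟨x, hx, rfl⟩ := Finset.mem_image.1 hy
    exact (hB.Tm x (hVm x hx).1).2.1
  have hm := hB.m0
  -- sizes
  have hN0 : (0 : ℝ) ≤ S.card := Nat.cast_nonneg _
  have hv0 : (0 : ℝ) ≤ V.card := Nat.cast_nonneg _
  have hvN : (V.card : ℝ) ≤ S.card := by
    have : V ⊆ S := fun x hx => (hVS x hx).1
    exact_mod_cast Finset.card_le_card this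
  have hbig := hB.big
  have hNpos : (0 : ℝ) < S.card := by
    rcases hN0.lt_or_eq with h1 | h1
    · exact h1
    · rw [← h1] at hbig; norm_num at hbig
  have hθ0 : 0 ≤ θ := by
    by_contra hc
    push Not at hc
    have : θ * (S.card : ℝ) ≤ 0 := mul_nonpos_of_nonpos_of_nonneg hc.le hN0
    linarith
  -- energy of the image
  have hstep := en_step f hB.R1 (U := V) hVS (M := (1 - θ) * m) (ω := θ * m) hB.mf1 (by
    intro x hx y hy _
    exact h.simf x (hB.Tm x (hVm x hx).1).1 y (hB.Tm y (hVm y hy).1).1 (hVm x hx).2 (hVm y hy).2)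
  have hen := (h.en hθ).2
  rw [← hV] at hen
  have hE : En A R (V.image f.ph) ≤ 1 / 2 * ((V.image f.ph).card : ℝ) ^ 2 * m +
      30 * θ * (S.card : ℝ) ^ 2 * m := by
    rw [hUc]
    have e1 : (V.card : ℝ) ^ 2 ≤ (S.card : ℝ) ^ 2 := by gcongr
    have e2 : (V.card : ℝ) ≤ θ * (S.card : ℝ) ^ 2 := by
      have : (S.card : ℝ) * 1 ≤ (S.card : ℝ) * (θ * S.card) := mul_le_mul_of_nonneg_left hbig hN0
      nlinarith
    have e3 : (1 - 2 * θ) * m * (V.card : ℝ) ≤ m * (θ * (S.card : ℝ) ^ 2) := by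
      have h1 : (1 - 2 * θ) * m ≤ m := by nlinarith
      exact mul_le_mul h1 e2 hv0 hm.le
    have e4 : 2 * θ * m * (V.card : ℝ) ^ 2 ≤ 2 * θ * m * (S.card : ℝ) ^ 2 :=
      mul_le_mul_of_nonneg_left e1 (by positivity)
    have e5 : 0 ≤ θ * m * (S.card : ℝ) ^ 2 := by positivity
    nlinarith [hstep, hen, e3, e4, e5]
  have hmass := h.mass hUD hU0 (δ := 30 * θ) hE
  rw [hUc] at hmass
  have hm1 := (h.m1 hθ).2
  rw [← hV] at hm1
  have hc1 := M5b_card (V := V) (ph := f.ph) (cl := cl) (c := true) hinj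
  have hc2 := M5b_card (V := V) (ph := f.ph) (cl := cl) (c := false) hinj
  have hf1 : T.filter (fun x => cl x = false ∧ cl (f.ph x) = true) =
      V.filter (fun x => cl (f.ph x) = true) := by
    rw [hV, Finset.filter_filter]
  have hf2 : T.filter (fun x => cl x = false ∧ cl (f.ph x) = false) =
      V.filter (fun x => cl (f.ph x) = false) := by
    rw [hV, Finset.filter_filter]
  have a1 := M5b_abs hN0 hθ hmass.1
  have a2 := M5b_abs hN0 hθ hmass.2
  rw [hc1] at a1
  rw [hc2] at a2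
  rw [hf1, hf2]
  rw [abs_le] at a1 a2 hm1
  constructor <;> rw [abs_le] <;> constructor <;> linarith [a1.1, a1.2, a2.1, a2.2, hm1.1, hm1.2]

end F0744E
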