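import Pool.Agent.Lib.MP_f0744f_nt.E.M5c_1

/-! # Row M5c_2: a double and a simple class: transitions from the double class -/

set_option autoImplicit false

open Polynomial

namespace F0744E

open F0744C F0744D

variable {S : Finset ℤ} {a b : ℤ}

variable {f : PM S a 3} {g : PM S b 3} {A : AbsoluteValue ℚ ℝ} {R m θ : ℝ} {J : ℕ} {T : Finset ℤ} {cl : ℤ → Bool}

/-- Inclusion and exclusion: in the class `i = false` (`≤ (1 / 3 + 1 / 1000) N` points) there are at least `(2 / 9 - 1 / 500) N` points with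
`cl (f.ph x) = true` and as many with `cl (g.ph x) = true` (`h.symm`); in the class `i = true` (`≤ (2 / 3 + 1 / 1000) N`) at least
`(4 / 9 - 1 / 200) N` of each kind. `S.card > 0` by `big`. -/
theorem TB.both (h : TB f g A R m θ J T cl) (hθ : θ ≤ 1 / 100000000) (i : Bool) :
    ∃ x ∈ T, cl x = i ∧ cl (f.ph x) = true ∧ cl (g.ph x) = true := by
  have hN : (0 : ℝ) < S.card := by
    by_contra hc
    have h1 : (S.card : ℝ) = 0 := le_antisymm (not_lt.1 hc) (Nat.cast_nonneg _)
    have h2 := h.base.big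
    rw [h1, mul_zero] at h2
    linarith
  obtain ⟨UA, hUA⟩ : ∃ UA, UA = T.filter (fun x => cl x = i ∧ cl (f.ph x) = true) := ⟨_, rfl⟩
  obtain ⟨UB, hUB⟩ : ∃ UB, UB = T.filter (fun x => cl x = i ∧ cl (g.ph x) = true) := ⟨_, rfl⟩
  obtain ⟨UT, hUT⟩ : ∃ UT, UT = T.filter (fun x => cl x = i) := ⟨_, rfl⟩
  have hA : UA ⊆ UT := by
    intro x hx
    rw [hUA, Finset.mem_filter] at hx
    rw [hUT, Finset.mem_filter]
    exact ⟨hx.1, hx.2.1⟩
  have hB : UB ⊆ UT := by
    intro x hx
    rw [hUB, Finset.mem_filter] at hx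
    rw [hUT, Finset.mem_filter]
    exact ⟨hx.1, hx.2.1⟩
  have hcard : (UT.card : ℝ) < UA.card + UB.card := by
    rw [hUA, hUB, hUT]
    cases i
    · have h1 := abs_le.1 (h.m1 hθ).2
      have h2 := abs_le.1 (h.m2 hθ).1
      have h3 := abs_le.1 (h.symm.m2 hθ).1
      linarith [h1.2, h2.1, h3.1]
    · have h1 := abs_le.1 (h.m1 hθ).1
      have h2 := abs_le.1 (h.m3 hθ).1
      have h3 := abs_le.1 (h.symm.m3 hθ).1
      linarith [h1.2, h2.1, h3.1]
  have hcard' : UT.card < UA.card + UB.card := by exact_mod_cast hcard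
  have h4 := Finset.card_union_add_card_inter UA UB
  have h5 := Finset.card_le_card (Finset.union_subset hA hB)
  have h6 : 0 < (UA ∩ UB).card := by omega
  obtain ⟨x, hx⟩ := Finset.card_pos.1 h6
  rw [Finset.mem_inter, hUA, hUB, Finset.mem_filter, Finset.mem_filter] at hx
  exact ⟨x, hx.1.1, hx.1.2.1, hx.1.2.2, hx.2.2.2⟩

/-- `m2`, `m3`. -/
theorem TB.hitf (h : TB f g A R m θ J T cl) (hθ : θ ≤ 1 / 100000000) (i : Bool) :
    ∃ x ∈ T, cl x = i ∧ cl (f.ph x) = false := by
  have hN : (0 : ℝ) < S.card := by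
    by_contra hc
    have h1 : (S.card : ℝ) = 0 := le_antisymm (not_lt.1 hc) (Nat.cast_nonneg _)
    have h2 := h.base.big
    rw [h1, mul_zero] at h2
    linarith
  have hcard : (0 : ℝ) < ((T.filter (fun x => cl x = i ∧ cl (f.ph x) = false)).card : ℝ) := by
    cases i
    · have h2 := abs_le.1 (h.m2 hθ).2
      linarith [h2.1]
    · have h2 := abs_le.1 (h.m3 hθ).2
      linarith [h2.1]
  have h6 : 0 < (T.filter (fun x => cl x = i ∧ cl (f.ph x) = false)).card := by
    exact_mod_cast hcard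
  obtain ⟨x, hx⟩ := Finset.card_pos.1 h6
  rw [Finset.mem_filter] at hx
  exact ⟨x, hx.1, hx.2.1, hx.2.2⟩

end F0744E
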