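import Pool.Agent.Lib.MP_f0744f_nt.E.M5b

/-! # Row M5c_1: a double and a simple class: transitions from the double class -/

set_option autoImplicit false

open Polynomial

namespace F0744E

open F0744C F0744D

variable {S : Finset ℤ} {a b : ℤ}

variable {f : PM S a 3} {g : PM S b 3} {A : AbsoluteValue ℚ ℝ} {R m θ : ℝ} {J : ℕ} {T : Finset ℤ} {cl : ℤ → Bool}

/-- Let `D` = the elements of `S0` with `cl = true`. `T ⊆ S0`, so `D.card - t_true ≤ N - t ≤ θ N`. `f.ph` is injective on `T` with values in
`S0` (`Tm`), so the number of the `x ∈ T` with `cl (f.ph x) = true` differs from `D.card` by at most `θ N`. Subtract the number of those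
with `cl x = false` (`m2`). The second: `t_true` minus the first (`m1`). -/
theorem TB.m3 (h : TB f g A R m θ J T cl) (hθ : θ ≤ 1 / 100000000) :
    |((T.filter (fun x => cl x = true ∧ cl (f.ph x) = true)).card : ℝ) - 4 / 9 * S.card| ≤
        1 / 200 * S.card ∧
      |((T.filter (fun x => cl x = true ∧ cl (f.ph x) = false)).card : ℝ) - 2 / 9 * S.card| ≤
        1 / 100 * S.card := by
  classical
  have hm1 := (h.m1 hθ).1
  have hm2 := (h.m2 hθ).1
  have hT0 : T ⊆ S0 S a b := fun x hx => (h.base.Tm x hx).1
  have hS0 : S0 S a b ⊆ S := Finset.filter_subset _ _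
  have hTS : T ⊆ S := hT0.trans hS0
  have hinj : Set.InjOn f.ph (T : Set ℤ) := by
    intro x hx y hy hxy
    have h1 := Finset.mem_filter.1 (hT0 hx)
    have h2 := Finset.mem_filter.1 (hT0 hy)
    exact f.inj x h1.1 y h2.1 h1.2.1 h2.2.1 hxy
  -- the counts
  obtain ⟨tt, htt⟩ : ∃ k, k = (T.filter (fun x => cl x = true ∧ cl (f.ph x) = true)).card := ⟨_, rfl⟩
  obtain ⟨tf, htf⟩ : ∃ k, k = (T.filter (fun x => cl x = true ∧ cl (f.ph x) = false)).card := ⟨_, rfl⟩
  obtain ⟨ft, hft⟩ : ∃ k, k = (T.filter (fun x => cl x = false ∧ cl (f.ph x) = true)).card := ⟨_, rfl⟩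
  obtain ⟨d, hd⟩ : ∃ k, k = ((S0 S a b).filter (fun x => cl x = true)).card := ⟨_, rfl⟩
  have e1 : (T.filter (fun x => cl x = true)).card = tt + tf := by
    rw [htt, htf, ← Finset.card_union_of_disjoint]
    · congr 1
      ext x
      simp only [Finset.mem_filter, Finset.mem_union]
      cases cl (f.ph x) <;> simp
    · refine Finset.disjoint_left.2 fun x hx hx' => ?_
      have h1 := (Finset.mem_filter.1 hx).2.2
      have h2 := (Finset.mem_filter.1 hx').2.2
      rw [h1] at h2
      exact absurd h2 (by decide)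
  have e2 : (T.filter (fun x => cl (f.ph x) = true)).card = tt + ft := by
    rw [htt, hft, ← Finset.card_union_of_disjoint]
    · congr 1
      ext x
      simp only [Finset.mem_filter, Finset.mem_union]
      cases cl x <;> simp
    · refine Finset.disjoint_left.2 fun x hx hx' => ?_
      have h1 := (Finset.mem_filter.1 hx).2.1
      have h2 := (Finset.mem_filter.1 hx').2.1
      rw [h1] at h2
      exact absurd h2 (by decide)
  have e3 : (T.filter (fun x => cl (f.ph x) = true)).card +
      (T.filter (fun x => ¬ cl (f.ph x) = true)).card = T.card :=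
    Finset.card_filter_add_card_filter_not (s := T) (fun x => cl (f.ph x) = true)
  have e4 : ((S0 S a b).filter (fun x => cl x = true)).card +
      ((S0 S a b).filter (fun x => ¬ cl x = true)).card = (S0 S a b).card :=
    Finset.card_filter_add_card_filter_not (s := S0 S a b) (fun x => cl x = true)
  have e5 : (T.filter (fun x => cl x = true)).card +
      (T.filter (fun x => ¬ cl x = true)).card = T.card :=
    Finset.card_filter_add_card_filter_not (s := T) (fun x => cl x = true)
  have i1 : (T.filter (fun x => cl (f.ph x) = true)).card ≤ d := by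
    rw [hd]
    refine Finset.card_le_card_of_injOn f.ph (fun x hx => ?_) (hinj.mono ?_)
    · have h1 := Finset.mem_filter.1 hx
      exact Finset.mem_filter.2 ⟨(h.base.Tm x h1.1).2.1, h1.2⟩
    · exact fun x hx => (Finset.mem_filter.1 hx).1
  have i2 : (T.filter (fun x => ¬ cl (f.ph x) = true)).card ≤
      ((S0 S a b).filter (fun x => ¬ cl x = true)).card := by
    refine Finset.card_le_card_of_injOn f.ph (fun x hx => ?_) (hinj.mono ?_)
    · have h1 := Finset.mem_filter.1 hx
      exact Finset.mem_filter.2 ⟨(h.base.Tm x h1.1).2.1, h1.2⟩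
    · exact fun x hx => (Finset.mem_filter.1 hx).1
  have i3 : (T.filter (fun x => cl x = true)).card ≤ d := by
    rw [hd]
    exact Finset.card_le_card (Finset.filter_subset_filter _ hT0)
  have i4 : (T.filter (fun x => ¬ cl x = true)).card ≤
      ((S0 S a b).filter (fun x => ¬ cl x = true)).card :=
    Finset.card_le_card (Finset.filter_subset_filter _ hT0)
  have i5 : (S0 S a b).card ≤ S.card := Finset.card_le_card hS0
  have hcard := h.base.card
  -- in the reals
  rw [← htt, ← htf]
  rw [e1] at hm1
  rw [← hft] at hm2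
  have hN : (0 : ℝ) ≤ S.card := Nat.cast_nonneg _
  have j1 : ((tt : ℝ) + ft) ≤ (tt + tf) + θ * S.card := by
    have k1 : tt + ft + T.card ≤ tt + tf + S.card := by omega
    have k2 : ((tt : ℝ) + ft) + T.card ≤ (tt + tf) + S.card := by exact_mod_cast k1
    nlinarith
  have j2 : ((tt : ℝ) + tf) ≤ (tt + ft) + θ * S.card := by
    have k1 : tt + tf + T.card ≤ tt + ft + S.card := by omega
    have k2 : ((tt : ℝ) + tf) + T.card ≤ (tt + ft) + S.card := by exact_mod_cast k1
    nlinarith
  have j3 : θ * (S.card : ℝ) ≤ 1 / 100000000 * S.card := mul_le_mul_of_nonneg_right hθ hN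
  push_cast at hm1
  rw [abs_le] at hm1 hm2 ⊢
  rw [abs_le]
  obtain ⟨p1, p2⟩ := hm1
  obtain ⟨p3, p4⟩ := hm2
  refine ⟨⟨?_, ?_⟩, ⟨?_, ?_⟩⟩ <;> linarith

end F0744E
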