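import Pool.Agent.Lib.MP_f0744f_nt.E.N3_1

/-! # Row N3_2: four nodes at the other places -/

set_option autoImplicit false

open Polynomial

namespace F0744E

open F0744C F0744D

variable {S : Finset ℤ} {a b : ℤ}

theorem N3_2_two {A : AbsoluteValue ℚ ℝ} {κs : ℝ} (hsum : SumLe A κs 4) {u v : ℚ} {M : ℝ}
    (hu : A u ≤ M) (hv : A v ≤ M) (hM : 0 ≤ M) : A (u + v) ≤ κs * M := by
  have h := hsum (Fin 2) Finset.univ ![u, v] M (by simp) (by
    intro i _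
    fin_cases i
    · exact hu
    · exact hv) hM
  simpa [Fin.sum_univ_two] using h

theorem N3_2_sub {A : AbsoluteValue ℚ ℝ} {κs : ℝ} (hsum : SumLe A κs 4) {u v : ℚ} {M : ℝ}
    (hu : A u ≤ M) (hv : A v ≤ M) (hM : 0 ≤ M) : A (u - v) ≤ κs * M := by
  rw [sub_eq_add_neg]
  exact N3_2_two hsum hu (by rw [A.map_neg]; exact hv) hM

/-- `K = κs exp (Ω + μ) ≥ 1`. `lag_coeff` for the polynomial `g.F` of degree 3 and the four points of `U` (`A (g.ph x) ≤ R`, `N1_inv`): `A β R ^ 2 ≤ κs exp Ω`, `β` the leading coefficient of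
`g.F`; `A α R ^ 2 = exp mm ≥ exp (- μ)` (`lead3`): `A (β / α) ≤ K`. `P x = g.ph x - (β / α) f.ph x` has size at most `κs K R ≤ K ^ 2 R` (`SumLe`), `node2`: `A c2 R ≤ κs K ^ 2 exp Ω ≤ K ^ 4`
(`κs exp Ω ≤ K`). `P x - c2 x ^ 2` has size at most `K ^ 5 R` on `U`; for two points `x ≠ y` of `U`: `c1 = (…) / (x - y)`, `A (x - y)⁻¹ R ≤ exp Ω`: `A c1 ≤ K ^ 6` (`SumLe` with two terms). -/
theorem nt3 (f : PM S a 3) (g : PM S b 3) {A : AbsoluteValue ℚ ℝ} {R : ℝ} (hR : 1 ≤ R)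
    (hS : ∀ y ∈ S, A ((y : ℤ) : ℚ) ≤ R) {κs : ℝ} (hκ : 1 ≤ κs) (hsum : SumLe A κs 4)
    {U : Finset ℤ} (hU : U ⊆ S0 S a b) (hc : U.card = 4) {Ω μ : ℝ} (hΩ0 : 0 ≤ Ω)
    (hΩ : ∀ x ∈ U, ∑ y ∈ U.erase x, max 0 (uu A R x y) ≤ Ω) (hμ0 : 0 ≤ μ)
    (hμ : -μ ≤ mm A R 3 f.F) {c0 c1 c2 : ℚ}
    (heq : ∀ x ∈ U, ((g.ph x : ℤ) : ℚ) = g.F.leadingCoeff / f.F.leadingCoeff * (f.ph x : ℤ) +
      (c2 * x ^ 2 + c1 * x + c0)) :
    A (g.F.leadingCoeff / f.F.leadingCoeff) ≤ κs * Real.exp (Ω + μ) ∧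
      A c2 * R ≤ (κs * Real.exp (Ω + μ)) ^ 4 ∧ A c1 ≤ (κs * Real.exp (Ω + μ)) ^ 6 := by
  have hR0 : 0 < R := by linarith
  have hκ0 : 0 < κs := by linarith
  obtain ⟨K, hK⟩ : ∃ K, K = κs * Real.exp (Ω + μ) := ⟨_, rfl⟩
  rw [← hK]
  have hE1 : 1 ≤ Real.exp Ω := Real.one_le_exp hΩ0
  have hE2 : 1 ≤ Real.exp μ := Real.one_le_exp hμ0
  have hKe : K = κs * Real.exp Ω * Real.exp μ := by rw [hK, Real.exp_add]; ring
  have hκE : κs * Real.exp Ω ≤ K := by
    rw [hKe]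
    have : 0 ≤ κs * Real.exp Ω := by positivity
    nlinarith
  have hκK : κs ≤ K := by
    refine le_trans ?_ hκE
    nlinarith
  have hEK : Real.exp Ω ≤ K := by
    refine le_trans ?_ hκE
    nlinarith [Real.exp_pos Ω]
  have hK1 : 1 ≤ K := hκ.trans hκK
  have hK0 : 0 < K := by linarith
  -- the two leading coefficients
  have hα0 : f.F.leadingCoeff ≠ 0 := by
    rw [Ne, leadingCoeff_eq_zero]
    intro h
    have := f.deg
    rw [h] at this
    simp at this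
  have hU1 : ∀ x ∈ U, x ∈ S ∧ x ≠ a ∧ x ≠ b := fun x hx => mem_S0.mp (hU hx)
  have hg : ∀ x ∈ U, A ((g.ph x : ℤ) : ℚ) ≤ R := fun x hx =>
    hS _ (g.maps x (hU1 x hx).1 (hU1 x hx).2.2)
  have hf : ∀ x ∈ U, A ((f.ph x : ℤ) : ℚ) ≤ R := fun x hx =>
    hS _ (f.maps x (hU1 x hx).1 (hU1 x hx).2.1)
  have hx1 : ∀ x ∈ U, A (x : ℚ) ≤ R := fun x hx => hS x (hU1 x hx).1
  have hβ : A g.F.leadingCoeff * R ^ 2 ≤ κs * Real.exp Ω := by
    have hlag := lag_coeff U (fun x : ℤ => (x : ℚ)) (fun x _ y _ hxy => Int.cast_injective hxy) g.F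
      (by rw [hc, g.deg]; norm_num)
    have hb := hsum ℤ U (fun i => g.F.eval (i : ℚ) * (∏ j ∈ U.erase i, ((i : ℚ) - (j : ℚ)))⁻¹)
      (R * (Real.exp Ω / R ^ 3)) (by rw [hc]) (fun x hx => by
        rw [map_mul]
        refine mul_le_mul ?_ ?_ (A.nonneg _) hR0.le
        · rw [← g.val x (hU1 x hx).1 (hU1 x hx).2.2]
          exact hg x hx
        · rw [le_div_iff₀ (by positivity)]
          exact N1_inv hR (Finset.Subset.refl U) hΩ (by rw [hc]) hx) (by positivity)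
    have hco : g.F.coeff (U.card - 1) = g.F.leadingCoeff := by
      rw [hc, leadingCoeff, g.deg]
    rw [hlag, hco] at hb
    have h1 := mul_le_mul_of_nonneg_right hb (by positivity : (0 : ℝ) ≤ R ^ 2)
    have h2 : κs * (R * (Real.exp Ω / R ^ 3)) * R ^ 2 = κs * Real.exp Ω := by
      field_simp
    rw [h2] at h1
    exact h1
  have hα : Real.exp (-μ) ≤ A f.F.leadingCoeff * R ^ 2 := by
    rw [lead3 A hR0 f.deg]
    have h1 : Real.exp (mm A R 3 f.F) / R ^ 2 * R ^ 2 = Real.exp (mm A R 3 f.F) := by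
      field_simp
    rw [h1, Real.exp_le_exp]
    exact hμ
  have hq : A (g.F.leadingCoeff / f.F.leadingCoeff) ≤ K := by
    rw [map_div₀]
    have hAα : 0 < A f.F.leadingCoeff := A.pos hα0
    rw [div_le_iff₀ hAα]
    have hR2 : 0 < R ^ 2 := by positivity
    have h1 : κs * Real.exp Ω ≤ K * (A f.F.leadingCoeff * R ^ 2) := by
      have h2 : κs * Real.exp Ω = K * Real.exp (-μ) := by
        rw [hKe, mul_assoc, ← Real.exp_add, add_neg_cancel, Real.exp_zero, mul_one]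
      rw [h2]
      exact mul_le_mul_of_nonneg_left hα hK0.le
    have h3 : A g.F.leadingCoeff * R ^ 2 ≤ K * A f.F.leadingCoeff * R ^ 2 := by
      calc A g.F.leadingCoeff * R ^ 2 ≤ κs * Real.exp Ω := hβ
        _ ≤ K * (A f.F.leadingCoeff * R ^ 2) := h1
        _ = _ := by ring
    exact le_of_mul_le_mul_right h3 hR2
  have hP : ∀ x ∈ U, A (c2 * (x : ℚ) ^ 2 + c1 * x + c0) ≤ κs * (K * R) := by
    intro x hx
    have h1 : c2 * (x : ℚ) ^ 2 + c1 * x + c0 =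
        ((g.ph x : ℤ) : ℚ) - g.F.leadingCoeff / f.F.leadingCoeff * (f.ph x : ℤ) := by
      rw [heq x hx]
      ring
    rw [h1]
    refine N3_2_sub hsum ?_ ?_ (by positivity)
    · refine (hg x hx).trans ?_
      nlinarith
    · rw [map_mul]
      exact mul_le_mul hq (hf x hx) (A.nonneg _) hK0.le
  have hc2 : A c2 * R ≤ K ^ 3 := by
    have h1 := node2 hR hκ hsum hc hΩ hP
    have h2 : A c2 * R * R ≤ K ^ 3 * R := by
      calc A c2 * R * R = A c2 * R ^ 2 := by ring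
        _ ≤ κs * (κs * (K * R)) * Real.exp Ω := h1
        _ = κs * (κs * Real.exp Ω) * (K * R) := by ring
        _ ≤ K * K * (K * R) := by
            refine mul_le_mul_of_nonneg_right ?_ (by positivity)
            exact mul_le_mul hκK hκE (by positivity) hK0.le
        _ = K ^ 3 * R := by ring
    exact le_of_mul_le_mul_right h2 hR0
  refine ⟨hq, hc2.trans (pow_le_pow_right₀ hK1 (by norm_num)), ?_⟩
  -- the coefficient c1
  have hPc : ∀ x ∈ U, A ((c2 * (x : ℚ) ^ 2 + c1 * x + c0) - c2 * (x : ℚ) ^ 2) ≤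
      κs * (K ^ 3 * R) := by
    intro x hx
    refine N3_2_sub hsum ?_ ?_ (by positivity)
    · refine (hP x hx).trans ?_
      have h1 : κs * (K * R) ≤ K * (K * R) := mul_le_mul_of_nonneg_right hκK (by positivity)
      have h2 : K * (K * R) = K ^ 2 * R := by ring
      have h3 : K ^ 2 * R ≤ K ^ 3 * R :=
        mul_le_mul_of_nonneg_right (pow_le_pow_right₀ hK1 (by norm_num)) hR0.le
      linarith
    · rw [map_mul, map_pow]
      have h1 : A (x : ℚ) ^ 2 ≤ R ^ 2 := pow_le_pow_left₀ (A.nonneg _) (hx1 x hx) 2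
      calc A c2 * A (x : ℚ) ^ 2 ≤ A c2 * R ^ 2 := mul_le_mul_of_nonneg_left h1 (A.nonneg _)
        _ = A c2 * R * R := by ring
        _ ≤ K ^ 3 * R := mul_le_mul_of_nonneg_right hc2 hR0.le
  obtain ⟨x, hx, y, hy, hxy⟩ : ∃ x ∈ U, ∃ y ∈ U, x ≠ y :=
    Finset.one_lt_card.mp (by rw [hc]; norm_num)
  have hu : uu A R x y ≤ Ω := by
    have h1 := hΩ x hx
    have h2 : max 0 (uu A R x y) ≤ ∑ z ∈ U.erase x, max 0 (uu A R x z) :=
      Finset.single_le_sum (f := fun z => max 0 (uu A R x z)) (fun z _ => le_max_left _ _)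
        (Finset.mem_erase.mpr ⟨fun h => hxy h.symm, hy⟩)
    exact (le_max_right _ _).trans (h2.trans h1)
  have hpos : 0 < A ((x : ℚ) - (y : ℚ)) := by
    refine A.pos (sub_ne_zero.mpr ?_)
    exact_mod_cast hxy
  have hu2 : R ≤ Real.exp Ω * A ((x : ℚ) - (y : ℚ)) := by
    unfold uu at hu
    have h1 : Real.exp (Real.log R - Real.log (A ((x : ℚ) - (y : ℚ)))) ≤ Real.exp Ω :=
      Real.exp_le_exp.mpr hu
    rw [Real.exp_sub, Real.exp_log hR0, Real.exp_log hpos, div_le_iff₀ hpos] at h1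
    exact h1
  have hc1 : A c1 * A ((x : ℚ) - (y : ℚ)) ≤ K ^ 5 * R := by
    rw [← map_mul]
    have h1 : c1 * ((x : ℚ) - (y : ℚ)) =
        ((c2 * (x : ℚ) ^ 2 + c1 * x + c0) - c2 * (x : ℚ) ^ 2) -
          ((c2 * (y : ℚ) ^ 2 + c1 * y + c0) - c2 * (y : ℚ) ^ 2) := by ring
    rw [h1]
    refine (N3_2_sub hsum (hPc x hx) (hPc y hy) (by positivity)).trans ?_
    calc κs * (κs * (K ^ 3 * R)) ≤ K * (K * (K ^ 3 * R)) := by
          refine mul_le_mul hκK ?_ (by positivity) hK0.le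
          exact mul_le_mul_of_nonneg_right hκK (by positivity)
      _ = K ^ 5 * R := by ring
  have h5 : A c1 * R ≤ K ^ 6 * R := by
    calc A c1 * R ≤ A c1 * (Real.exp Ω * A ((x : ℚ) - (y : ℚ))) :=
          mul_le_mul_of_nonneg_left hu2 (A.nonneg _)
      _ = Real.exp Ω * (A c1 * A ((x : ℚ) - (y : ℚ))) := by ring
      _ ≤ K * (K ^ 5 * R) := mul_le_mul hEK hc1 (mul_nonneg (A.nonneg _) hpos.le) hK0.le
      _ = K ^ 6 * R := by ring
  exact le_of_mul_le_mul_right h5 hR0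

end F0744E
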