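import Pool.Agent.Lib.MP_f0744f_nt.E.B0
import Pool.Agent.Lib.MP_f0744f_nt.D.N1a
import Pool.Agent.Lib.MP_f0744f_nt.D.N1

/-! # Row N3_1: four nodes at the other places -/

set_option autoImplicit false

open Polynomial

namespace F0744E

open F0744C F0744D

variable {S : Finset ℤ} {a b : ℤ}

/-- `lag_coeff`: `c2 = ∑_{x ∈ V} P x ∏_{y ∈ V.erase x} (x - y)⁻¹` for a set `V ⊆ U` of three points, `P = c2 X ^ 2 + c1 X + c0`; `N1_inv` in `D/N1.lean`: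
`A (∏ (x - y)⁻¹) R ^ 2 ≤ exp Ω`. -/
theorem node2 {A : AbsoluteValue ℚ ℝ} {R : ℝ} (hR : 1 ≤ R) {κs : ℝ} (hκ : 1 ≤ κs)
    (hsum : SumLe A κs 4) {U : Finset ℤ} (hc : U.card = 4) {Ω M : ℝ}
    (hΩ : ∀ x ∈ U, ∑ y ∈ U.erase x, max 0 (uu A R x y) ≤ Ω) {c0 c1 c2 : ℚ}
    (hP : ∀ x ∈ U, A (c2 * (x : ℚ) ^ 2 + c1 * x + c0) ≤ M) : A c2 * R ^ 2 ≤ κs * M * Real.exp Ω := by
  have hR0 : 0 < R := by linarith
  obtain ⟨V, hVU, hV⟩ := Finset.exists_subset_card_eq (s := U) (n := 2 + 1) (by omega)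
  have hM0 : 0 ≤ M := by
    obtain ⟨x, hx⟩ : U.Nonempty := Finset.card_pos.1 (by omega)
    exact (A.nonneg _).trans (hP x hx)
  obtain ⟨P, hPdef⟩ : ∃ P : ℚ[X], P = C c2 * X ^ 2 + C c1 * X + C c0 := ⟨_, rfl⟩
  have hev : ∀ x : ℚ, P.eval x = c2 * x ^ 2 + c1 * x + c0 := by
    intro x
    rw [hPdef]
    simp
  have hdeg : P.natDegree < V.card := by
    rw [hV, hPdef]
    have := Polynomial.natDegree_quadratic_le (a := c2) (b := c1) (c := c0)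
    omega
  have hlag := lag_coeff V (fun x : ℤ => (x : ℚ)) (fun x _ y _ hxy => Int.cast_injective hxy) P hdeg
  have hcoef : P.coeff 2 = c2 := by
    rw [hPdef]
    simp
  rw [hV, Nat.add_sub_cancel, hcoef] at hlag
  have hb := hsum ℤ V (fun i => P.eval (i : ℚ) * (∏ j ∈ V.erase i, ((i : ℚ) - (j : ℚ)))⁻¹)
    (M * (Real.exp Ω / R ^ 2)) (by rw [hV]; omega) (fun x hx => by
      rw [map_mul, hev]
      refine mul_le_mul (hP x (hVU hx)) ?_ (A.nonneg _) hM0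
      rw [le_div_iff₀ (by positivity)]
      exact N1_inv hR hVU hΩ hV hx) (by positivity)
  rw [hlag] at hb
  have h4 := mul_le_mul_of_nonneg_right hb (by positivity : (0 : ℝ) ≤ R ^ 2)
  refine h4.trans (le_of_eq ?_)
  field_simp

end F0744E
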