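import Pool.Agent.Lib.MP_f0744f_nt.E.N3
import Pool.Agent.Lib.MP_f0744f_nt.D.N2

/-! # Row Nb_1: bounds of the coefficients at the other places -/

set_option autoImplicit false

open Polynomial

namespace F0744E

open F0744C F0744D

variable {S : Finset ℤ} {a b : ℤ}

/-- `nt3` with `κs = 1`, `R = 1`, `Ω = EnP p U` (`uu_padic`, all terms `≥ 0`: as in `nt_p`, `D/N2.lean`), `μ = max 0 (- mP)`; `(exp (Ω + μ)) ^ k ≤ exp (6 (Ω + μ))` for `k ≤ 6`. -/
theorem nt3_p (f : PM S a 3) (g : PM S b 3) {p : ℕ} [Fact p.Prime] {U : Finset ℤ}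
    (hU : U ⊆ S0 S a b) (hc : U.card = 4) {c0 c1 c2 : ℚ}
    (heq : ∀ x ∈ U, ((g.ph x : ℤ) : ℚ) = g.F.leadingCoeff / f.F.leadingCoeff * (f.ph x : ℤ) +
      (c2 * x ^ 2 + c1 * x + c0)) :
    Rat.AbsoluteValue.padic p (g.F.leadingCoeff / f.F.leadingCoeff) ≤
        Real.exp (EnP p U + max 0 (-mP p f.F)) ∧
      Rat.AbsoluteValue.padic p c2 ≤ Real.exp (6 * (EnP p U + max 0 (-mP p f.F))) ∧
      Rat.AbsoluteValue.padic p c1 ≤ Real.exp (6 * (EnP p U + max 0 (-mP p f.F))) := by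
  have hp : p.Prime := Fact.out
  have hF : f.F ≠ 0 := by
    intro h
    have := f.deg
    rw [h, natDegree_zero] at this
    omega
  have hΩ0 : 0 ≤ EnP p U := EnP_nonneg hp U
  have hμ0 : (0 : ℝ) ≤ max 0 (-mP p f.F) := le_max_left _ _
  have h1 := nt3 f g (A := Rat.AbsoluteValue.padic p) (le_refl (1 : ℝ))
    (fun y _ => N2_int p y) (le_refl (1 : ℝ)) (sumLe_padic p 4) hU hc hΩ0 (by
      intro x hx
      have h2 : ∑ y ∈ U.erase x, max 0 (uu (Rat.AbsoluteValue.padic p) 1 x y) =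
          ∑ y ∈ U.erase x, vp p ((x : ℚ) - y) := by
        refine Finset.sum_congr rfl fun y hy => ?_
        rw [uu_padic p (Finset.ne_of_mem_erase hy).symm]
        exact max_eq_right (N2_vp hp x y)
      rw [h2]
      unfold EnP
      exact Finset.single_le_sum (f := fun x => ∑ y ∈ U.erase x, vp p ((x : ℚ) - y))
        (fun x _ => Finset.sum_nonneg fun y _ => N2_vp hp x y) hx) hμ0 (by
      rw [mm_padic p 3 hF]
      have := le_max_right (0 : ℝ) (-mP p f.F)
      linarith) heq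
  obtain ⟨h3, h4, h5⟩ := h1
  rw [one_mul] at h3
  rw [one_mul, mul_one, ← Real.exp_nat_mul] at h4
  rw [one_mul, ← Real.exp_nat_mul] at h5
  refine ⟨h3, h4.trans (Real.exp_le_exp.2 ?_), h5.trans (Real.exp_le_exp.2 ?_)⟩
  · push_cast
    linarith
  · push_cast
    linarith

end F0744E
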