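import Pool.Agent.Lib.MP_f0744f_nt.E.B1b

/-! # Row P3_1: three nodes -/

set_option autoImplicit false

open Polynomial

namespace F0744E

open F0744C F0744D

variable {S : Finset ℤ} {a b : ℤ}

variable {f : PM S a 3} {g : PM S b 3} {A : AbsoluteValue ℚ ℝ} {R m θ : ℝ} {J : ℕ} {T : Finset ℤ}

/-- `c2 (x - y) (x - z) (y - z) = P x (y - z) - P y (x - z) + P z (x - y)` for `P = c2 X ^ 2 + c1 X + c0`; the right side has size at most
`3 M (2 R)` (`two`), `6 ≤ exp (θ m)` (`e8`). -/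
theorem PB.nodes (h : PB f g A R m θ J T) {x y z : ℤ} (hx : x ∈ S) (hy : y ∈ S) (hz : z ∈ S)
    {u v w M : ℝ} (h1 : R * Real.exp (-(u * m)) ≤ A ((x : ℚ) - y))
    (h2 : R * Real.exp (-(v * m)) ≤ A ((x : ℚ) - z))
    (h3 : R * Real.exp (-(w * m)) ≤ A ((y : ℚ) - z)) {c0 c1 c2 : ℚ}
    (hPx : A (c2 * (x : ℚ) ^ 2 + c1 * x + c0) ≤ M) (hPy : A (c2 * (y : ℚ) ^ 2 + c1 * y + c0) ≤ M)
    (hPz : A (c2 * (z : ℚ) ^ 2 + c1 * z + c0) ≤ M) :
    A c2 * R ^ 2 ≤ M * Real.exp ((u + v + w + θ) * m) := by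
  have hR : 0 < R := lt_of_lt_of_le one_pos h.R1
  have hM : 0 ≤ M := (A.nonneg _).trans hPx
  have e8 := h.e8
  have txy := h.two hx hy
  have txz := h.two hx hz
  have tyz := h.two hy hz
  have hid : c2 * (((x : ℚ) - y) * (((x : ℚ) - z) * ((y : ℚ) - z))) =
      (c2 * (x : ℚ) ^ 2 + c1 * x + c0) * ((y : ℚ) - z) -
        (c2 * (y : ℚ) ^ 2 + c1 * y + c0) * ((x : ℚ) - z) +
        (c2 * (z : ℚ) ^ 2 + c1 * z + c0) * ((x : ℚ) - y) := by ring
  have hA : A c2 * (A ((x : ℚ) - y) * (A ((x : ℚ) - z) * A ((y : ℚ) - z))) ≤ 6 * M * R := by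
    have h4 : A c2 * (A ((x : ℚ) - y) * (A ((x : ℚ) - z) * A ((y : ℚ) - z))) =
        A (c2 * (((x : ℚ) - y) * (((x : ℚ) - z) * ((y : ℚ) - z)))) := by
      rw [map_mul, map_mul, map_mul]
    rw [h4, hid]
    have b1 : A ((c2 * (x : ℚ) ^ 2 + c1 * x + c0) * ((y : ℚ) - z)) ≤ M * (2 * R) := by
      rw [map_mul]
      exact mul_le_mul hPx tyz (A.nonneg _) hM
    have b2 : A ((c2 * (y : ℚ) ^ 2 + c1 * y + c0) * ((x : ℚ) - z)) ≤ M * (2 * R) := by
      rw [map_mul]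
      exact mul_le_mul hPy txz (A.nonneg _) hM
    have b3 : A ((c2 * (z : ℚ) ^ 2 + c1 * z + c0) * ((x : ℚ) - y)) ≤ M * (2 * R) := by
      rw [map_mul]
      exact mul_le_mul hPz txy (A.nonneg _) hM
    have b4 := A.add_le ((c2 * (x : ℚ) ^ 2 + c1 * x + c0) * ((y : ℚ) - z) -
        (c2 * (y : ℚ) ^ 2 + c1 * y + c0) * ((x : ℚ) - z))
        ((c2 * (z : ℚ) ^ 2 + c1 * z + c0) * ((x : ℚ) - y))
    have b5 := A.add_le ((c2 * (x : ℚ) ^ 2 + c1 * x + c0) * ((y : ℚ) - z))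
        (-((c2 * (y : ℚ) ^ 2 + c1 * y + c0) * ((x : ℚ) - z)))
    rw [← sub_eq_add_neg, A.map_neg] at b5
    linarith only [b1, b2, b3, b4, b5]
  have hlow : A c2 * (R * Real.exp (-(u * m)) * (R * Real.exp (-(v * m)) *
      (R * Real.exp (-(w * m))))) ≤
      A c2 * (A ((x : ℚ) - y) * (A ((x : ℚ) - z) * A ((y : ℚ) - z))) := by
    apply mul_le_mul_of_nonneg_left _ (A.nonneg _)
    exact mul_le_mul h1 (mul_le_mul h2 h3 (mul_nonneg hR.le (Real.exp_pos _).le) (A.nonneg _))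
      (mul_nonneg (mul_nonneg hR.le (Real.exp_pos _).le) (mul_nonneg hR.le (Real.exp_pos _).le))
      (A.nonneg _)
  have hE : Real.exp (-(u * m)) * (Real.exp (-(v * m)) * Real.exp (-(w * m))) *
      Real.exp ((u + v + w) * m) = 1 := by
    rw [← Real.exp_add, ← Real.exp_add, ← Real.exp_add]
    have : -(u * m) + (-(v * m) + -(w * m)) + (u + v + w) * m = 0 := by ring
    rw [this, Real.exp_zero]
  have hmain : A c2 * R ^ 2 * R ≤ 6 * M * R * Real.exp ((u + v + w) * m) := by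
    have c1 := mul_le_mul_of_nonneg_right (hlow.trans hA) (Real.exp_pos ((u + v + w) * m)).le
    refine le_trans (le_of_eq ?_) c1
    calc A c2 * R ^ 2 * R = A c2 * R ^ 3 * 1 := by ring
      _ = _ := by
        rw [← hE]
        ring
  have hmain2 : A c2 * R ^ 2 ≤ 6 * M * Real.exp ((u + v + w) * m) := by
    apply le_of_mul_le_mul_right _ hR
    refine hmain.trans (le_of_eq ?_)
    ring
  have hexp : Real.exp ((u + v + w + θ) * m) =
      Real.exp ((u + v + w) * m) * Real.exp (θ * m) := by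
    rw [← Real.exp_add]
    congr 1
    ring
  rw [hexp]
  refine hmain2.trans ?_
  have d1 : 6 * M * Real.exp ((u + v + w) * m) = M * Real.exp ((u + v + w) * m) * 6 := by ring
  rw [d1, ← mul_assoc]
  exact mul_le_mul_of_nonneg_left (by linarith only [e8])
    (mul_nonneg hM (Real.exp_pos _).le)

end F0744E
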