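import Pool.Agent.Lib.MP_f0744f_nt.E.Pa_1

/-! # Row Pa_2: residues of multiplicity one and two -/

set_option autoImplicit false

open Polynomial

namespace F0744E

open F0744C F0744D

variable {S : Finset ℤ} {a b : ℤ}

/-- the second Taylor coefficient of a cubic polynomial -/
theorem Pa_2_cubic {R : Type*} [CommRing R] (u v w k ρ : R) :
    ((C u * X ^ 3 + C v * X ^ 2 + C w * X + C k : R[X]).comp (X + C ρ)).coeff 2 =
      3 * u * ρ + v := by
  have h2 : (C u * X ^ 3 + C v * X ^ 2 + C w * X + C k : R[X]).comp (X + C ρ) =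
      C u * X ^ 3 + C (3 * u * ρ + v) * X ^ 2 + C (3 * u * ρ ^ 2 + 2 * v * ρ + w) * X +
      C (u * ρ ^ 3 + v * ρ ^ 2 + w * ρ + k) := by
    have e3 : (C (3 : R) : R[X]) = 3 := by
      rw [show (3 : R) = ((3 : ℕ) : R) by norm_num, C_eq_natCast]
      norm_num
    have e2 : (C (2 : R) : R[X]) = 2 := by
      rw [show (2 : R) = ((2 : ℕ) : R) by norm_num, C_eq_natCast]
      norm_num
    simp only [add_comp, mul_comp, C_comp, pow_comp, X_comp, C_add, C_mul, C_pow]
    rw [e3, e2]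
    ring
  rw [h2]
  generalize 3 * u * ρ + v = v'
  generalize 3 * u * ρ ^ 2 + 2 * v * ρ + w = w'
  generalize u * ρ ^ 3 + v * ρ ^ 2 + w * ρ + k = k'
  simp

/-- the second Taylor coefficient at `ρ` -/
theorem Pa_2_taylor {F : ℚ[X]} (hF : F.natDegree = 3) {p : ℕ} [Fact p.Prime] (r : Red F p)
    (ρ : ZMod p) :
    ((r.G.map (Int.castRingHom (ZMod p))).comp (X + C ρ)).coeff 2 =
      3 * ((r.G.coeff 3 : ℤ) : ZMod p) * ρ + ((r.G.coeff 2 : ℤ) : ZMod p) := by
  have h : r.G = ∑ i ∈ Finset.range 4, C (r.G.coeff i) * X ^ i := by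
    refine Polynomial.as_sum_range_C_mul_X_pow' (p := r.G) ?_
    rw [r.natDegree, hF]
    norm_num
  have h2 : r.G.map (Int.castRingHom (ZMod p)) =
      C ((r.G.coeff 3 : ℤ) : ZMod p) * X ^ 3 + C ((r.G.coeff 2 : ℤ) : ZMod p) * X ^ 2 +
      C ((r.G.coeff 1 : ℤ) : ZMod p) * X + C ((r.G.coeff 0 : ℤ) : ZMod p) := by
    conv_lhs => rw [h]
    simp only [Finset.sum_range_succ, Finset.sum_range_zero, Polynomial.map_add, Polynomial.map_mul,
      Polynomial.map_pow, Polynomial.map_C, map_X, pow_zero, mul_one, zero_add, pow_one,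
      Int.coe_castRingHom]
    ring
  rw [h2]
  exact Pa_2_cubic _ _ _ _ ρ

/-- `Ḡ = (X - ρ) ^ 2 Q`, `Q = A3 X + B`, `Q (ρ) ≠ 0` (multiplicity exactly 2); comparing the coefficients of `X ^ 2`: `A2 = B - 2 A3 ρ`, so
`Q (ρ) = 3 A3 ρ + A2`. For integers of residue `ρ` the integer `A3 (x + y + z - s3 F) = A3 (x + y + z) + A2` is `Q (ρ)` modulo `p`. -/
theorem double3 {F : ℚ[X]} (hF : F.natDegree = 3) {p : ℕ} [Fact p.Prime] (r : Red F p)
    {x y z : ℤ} (h : (x : ZMod p) = (y : ZMod p)) (h' : (x : ZMod p) = (z : ZMod p))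
    (hx : r.mu (x : ZMod p) = 2) :
    1 ≤ Rat.AbsoluteValue.padic p ((x : ℚ) + y + z - s3 F) := by
  have hlead : F.leadingCoeff = F.coeff 3 := by rw [leadingCoeff, hF]
  have hF0 : F.leadingCoeff ≠ 0 := by
    rw [leadingCoeff_ne_zero]
    intro h0
    rw [h0, natDegree_zero] at hF
    omega
  have hm : (((r.G.coeff 3 * (x + y + z) + r.G.coeff 2 : ℤ)) : ℚ) =
      ((r.G.coeff 3 : ℤ) : ℚ) * ((x : ℚ) + y + z - s3 F) := by
    push_cast
    rw [P2a_coeff r 3, P2a_coeff r 2]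
    unfold s3
    rw [← hlead]
    field_simp
    ring
  have hnd : ¬ (p : ℤ) ∣ (r.G.coeff 3 * (x + y + z) + r.G.coeff 2) := by
    intro hd
    have hz : (((r.G.coeff 3 * (x + y + z) + r.G.coeff 2 : ℤ)) : ZMod p) = 0 :=
      (ZMod.intCast_zmod_eq_zero_iff_dvd _ p).mpr hd
    push_cast at hz
    rw [← h, ← h'] at hz
    have hco : ((r.G.map (Int.castRingHom (ZMod p))).comp (X + C (x : ZMod p))).coeff 2 = 0 := by
      rw [Pa_2_taylor hF r, ← hz]
      ring
    have hmu : ((r.G.map (Int.castRingHom (ZMod p))).comp (X + C (x : ZMod p))).natTrailingDegree = 2 := by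
      rw [← rootMultiplicity_eq_natTrailingDegree]
      exact hx
    have hne : (r.G.map (Int.castRingHom (ZMod p))).comp (X + C (x : ZMod p)) ≠ 0 := by
      intro h0
      rw [h0, natTrailingDegree_zero] at hmu
      omega
    have := (trailingCoeff_nonzero_iff_nonzero (p := (r.G.map (Int.castRingHom (ZMod p))).comp
      (X + C (x : ZMod p)))).mpr hne
    rw [trailingCoeff, hmu] at this
    exact this hco
  have h1 : Rat.AbsoluteValue.padic p (((r.G.coeff 3 * (x + y + z) + r.G.coeff 2 : ℤ)) : ℚ) = 1 := by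
    rw [Rat.AbsoluteValue.padic_eq_padicNorm]
    exact_mod_cast (padicNorm.int_eq_one_iff _).mpr hnd
  rw [hm, map_mul] at h1
  have h2 : Rat.AbsoluteValue.padic p ((r.G.coeff 3 : ℤ) : ℚ) ≤ 1 :=
    Rat.AbsoluteValue.padic_le_one p _
  calc (1 : ℝ) = Rat.AbsoluteValue.padic p ((r.G.coeff 3 : ℤ) : ℚ) *
        Rat.AbsoluteValue.padic p ((x : ℚ) + y + z - s3 F) := h1.symm
    _ ≤ 1 * Rat.AbsoluteValue.padic p ((x : ℚ) + y + z - s3 F) :=
        mul_le_mul_of_nonneg_right h2 (AbsoluteValue.nonneg _ _)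
    _ = _ := one_mul _

end F0744E
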