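import Pool.Agent.Lib.MP_f0744f_nt.E.Pa_2

/-! # Row Pa_3: residues of multiplicity one and two -/

set_option autoImplicit false

open Polynomial

namespace F0744E

open F0744C F0744D

variable {S : Finset ℤ} {a b : ℤ}

/-- `Ḡ` has at least three roots with multiplicity, so its degree is 3 and `p` does not divide `A3`; `s3 F = - A2 / A3`. -/
theorem s3_int {F : ℚ[X]} (hF : F.natDegree = 3) {p : ℕ} [Fact p.Prime] (r : Red F p)
    {C : Finset (ZMod p)} (hC : 3 ≤ ∑ ρ ∈ C, r.mu ρ) :
    Rat.AbsoluteValue.padic p (s3 F) ≤ 1 := by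
  classical
  have hdeg : 3 ≤ (r.G.map (Int.castRingHom (ZMod p))).natDegree := by
    have h1 : ∑ ρ ∈ C, r.mu ρ ≤ ∑ ρ ∈ C ∪ (r.G.map (Int.castRingHom (ZMod p))).roots.toFinset,
        (r.G.map (Int.castRingHom (ZMod p))).roots.count ρ := by
      unfold Red.mu
      simp only [← Polynomial.count_roots]
      exact Finset.sum_le_sum_of_subset Finset.subset_union_left
    have h2 : ∑ ρ ∈ C ∪ (r.G.map (Int.castRingHom (ZMod p))).roots.toFinset,
        (r.G.map (Int.castRingHom (ZMod p))).roots.count ρ =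
        ∑ ρ ∈ (r.G.map (Int.castRingHom (ZMod p))).roots.toFinset,
        (r.G.map (Int.castRingHom (ZMod p))).roots.count ρ := by
      refine (Finset.sum_subset Finset.subset_union_right ?_).symm
      intro x _ hx
      rw [Multiset.mem_toFinset] at hx
      exact Multiset.count_eq_zero_of_notMem hx
    rw [h2, Multiset.toFinset_sum_count_eq] at h1
    exact (hC.trans h1).trans (Polynomial.card_roots' _)
  have hle : (r.G.map (Int.castRingHom (ZMod p))).natDegree ≤ 3 := by
    refine Polynomial.natDegree_map_le.trans ?_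
    rw [r.natDegree, hF]
  have hd3 : (r.G.map (Int.castRingHom (ZMod p))).natDegree = 3 := le_antisymm hle hdeg
  have hne : ((r.G.coeff 3 : ℤ) : ZMod p) ≠ 0 := by
    have h := Polynomial.leadingCoeff_ne_zero.2 r.hne
    rw [Polynomial.leadingCoeff, hd3, Polynomial.coeff_map] at h
    exact h
  have hnd : ¬ (p : ℤ) ∣ r.G.coeff 3 := by
    intro hd
    exact hne ((ZMod.intCast_zmod_eq_zero_iff_dvd _ p).mpr hd)
  have h1 : Rat.AbsoluteValue.padic p ((r.G.coeff 3 : ℤ) : ℚ) = 1 := by
    rw [Rat.AbsoluteValue.padic_eq_padicNorm]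
    exact_mod_cast (padicNorm.int_eq_one_iff _).mpr hnd
  have hlead : F.leadingCoeff = F.coeff 3 := by rw [leadingCoeff, hF]
  have hF0 : F.leadingCoeff ≠ 0 := by
    rw [leadingCoeff_ne_zero]
    intro h0
    rw [h0, natDegree_zero] at hF
    omega
  have hc : (r.c : ℚ) ≠ 0 := Int.cast_ne_zero.mpr r.hc
  have hm : ((r.G.coeff 3 : ℤ) : ℚ) * s3 F = ((-r.G.coeff 2 : ℤ) : ℚ) := by
    push_cast
    rw [P2a_coeff r 3, P2a_coeff r 2]
    unfold s3
    rw [← hlead]
    field_simp
  have h2 : Rat.AbsoluteValue.padic p (((-r.G.coeff 2 : ℤ)) : ℚ) ≤ 1 :=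
    Rat.AbsoluteValue.padic_le_one p _
  rw [← hm, map_mul, h1, one_mul] at h2
  exact h2

end F0744E
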