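import Pool.Agent.Lib.MP_f0744f_nt.E.B0
import Pool.Agent.Lib.MP_f0744f_nt.C.P1
import Pool.Agent.Lib.MP_f0744f_nt.D.P2a

/-! # Row Pa_1: residues of multiplicity one and two -/

set_option autoImplicit false

open Polynomial

namespace F0744E

open F0744C F0744D

variable {S : Finset ℤ} {a b : ℤ}

theorem Pa_1_deg {F : ℚ[X]} (hF : F.natDegree = 3) {p : ℕ} (r : Red F p) : r.G.natDegree ≤ 3 := by
  have h1 : (r.G.map (Int.castRingHom ℚ)).natDegree ≤ 3 := by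
    rw [r.hG, ← hF]
    exact natDegree_C_mul_le _ _
  rwa [natDegree_map_eq_of_injective (Int.castRingHom ℚ).injective_int] at h1

theorem Pa_1_coeff {F : ℚ[X]} {p : ℕ} (r : Red F p) (n : ℕ) :
    ((r.G.coeff n : ℤ) : ℚ) = (r.c : ℚ) * F.coeff n := by
  have h := congrArg (fun q : ℚ[X] => q.coeff n) r.hG
  simpa [coeff_map, coeff_C_mul] using h

theorem Pa_1_form {F : ℚ[X]} (hF : F.natDegree = 3) {p : ℕ} (r : Red F p) :
    r.G = C (r.G.coeff 3) * X ^ 3 + C (r.G.coeff 2) * X ^ 2 + C (r.G.coeff 1) * X +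
      C (r.G.coeff 0) := by
  have h := r.G.as_sum_range_C_mul_X_pow' (n := 4) (by have := Pa_1_deg hF r; omega)
  conv_lhs => rw [h]
  simp only [Finset.sum_range_succ, Finset.sum_range_zero]
  ring

theorem Pa_1_deriv {F : ℚ[X]} (hF : F.natDegree = 3) {p : ℕ} [Fact p.Prime] (r : Red F p)
    (ρ : ZMod p) :
    (derivative (r.G.map (Int.castRingHom (ZMod p)))).eval ρ =
      ((r.G.coeff 3 : ℤ) : ZMod p) * (ρ ^ 2 + ρ * ρ + ρ ^ 2) +
      ((r.G.coeff 2 : ℤ) : ZMod p) * (ρ + ρ) + ((r.G.coeff 1 : ℤ) : ZMod p) := by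
  have h2 : r.G.map (Int.castRingHom (ZMod p)) =
      C ((r.G.coeff 3 : ℤ) : ZMod p) * X ^ 3 + C ((r.G.coeff 2 : ℤ) : ZMod p) * X ^ 2 +
        C ((r.G.coeff 1 : ℤ) : ZMod p) * X + C ((r.G.coeff 0 : ℤ) : ZMod p) := by
    conv_lhs => rw [Pa_1_form hF r]
    simp
  rw [h2]
  simp only [derivative_add, derivative_mul, derivative_C, derivative_X_pow, derivative_X,
    eval_add, eval_mul, eval_C, eval_pow, eval_X, eval_zero, zero_mul, mul_one]
  push_cast
  ring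

/-- `G = r.G = A3 X ^ 3 + A2 X ^ 2 + A1 X + A0 = c F` (`r.hG`). For integers `x, y` of residue `ρ` the integer `A3 qq F x y = A3 (x ^ 2 + x y + y ^ 2) +
A2 (x + y) + A1` is `Ḡ' (ρ)` modulo `p`, not zero because the multiplicity of `ρ` is 1. So `1 = |A3|_p |qq F x y|_p`, `|A3|_p ≤ 1`. Model: `simple_cls`
in `D/P2a.lean`. -/
theorem simple3 {F : ℚ[X]} (hF : F.natDegree = 3) {p : ℕ} [Fact p.Prime] (r : Red F p) {x y : ℤ}
    (h : (x : ZMod p) = (y : ZMod p)) (hx : r.mu (x : ZMod p) = 1) :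
    1 ≤ Rat.AbsoluteValue.padic p (qq F x y) := by
  have hlead : F.leadingCoeff = F.coeff 3 := by rw [leadingCoeff, hF]
  have hF0 : F.leadingCoeff ≠ 0 := by
    rw [leadingCoeff_ne_zero]
    intro h0
    rw [h0, natDegree_zero] at hF
    omega
  have hm : (((r.G.coeff 3 * (x ^ 2 + x * y + y ^ 2) + r.G.coeff 2 * (x + y) +
      r.G.coeff 1 : ℤ)) : ℚ) = ((r.G.coeff 3 : ℤ) : ℚ) * qq F x y := by
    push_cast
    rw [Pa_1_coeff r 3, Pa_1_coeff r 2, Pa_1_coeff r 1]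
    unfold qq s3
    rw [← hlead]
    field_simp
    ring
  have hnd : ¬ (p : ℤ) ∣ (r.G.coeff 3 * (x ^ 2 + x * y + y ^ 2) + r.G.coeff 2 * (x + y) +
      r.G.coeff 1) := by
    intro hd
    have hz : (((r.G.coeff 3 * (x ^ 2 + x * y + y ^ 2) + r.G.coeff 2 * (x + y) +
        r.G.coeff 1 : ℤ)) : ZMod p) = 0 :=
      (ZMod.intCast_zmod_eq_zero_iff_dvd _ p).mpr hd
    push_cast at hz
    rw [← h] at hz
    have hroot : (r.G.map (Int.castRingHom (ZMod p))).IsRoot (x : ZMod p) := by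
      rw [← rootMultiplicity_pos r.hne]
      unfold Red.mu at hx
      omega
    have hder : (derivative (r.G.map (Int.castRingHom (ZMod p)))).IsRoot (x : ZMod p) := by
      rw [IsRoot.def, Pa_1_deriv hF r]
      exact hz
    have hlt := (one_lt_rootMultiplicity_iff_isRoot r.hne).mpr ⟨hroot, hder⟩
    unfold Red.mu at hx
    omega
  have h1 : Rat.AbsoluteValue.padic p (((r.G.coeff 3 * (x ^ 2 + x * y + y ^ 2) +
      r.G.coeff 2 * (x + y) + r.G.coeff 1 : ℤ)) : ℚ) = 1 := by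
    rw [Rat.AbsoluteValue.padic_eq_padicNorm]
    exact_mod_cast (padicNorm.int_eq_one_iff _).mpr hnd
  rw [hm, map_mul] at h1
  have h2 : Rat.AbsoluteValue.padic p ((r.G.coeff 3 : ℤ) : ℚ) ≤ 1 :=
    Rat.AbsoluteValue.padic_le_one p _
  calc (1 : ℝ) = Rat.AbsoluteValue.padic p ((r.G.coeff 3 : ℤ) : ℚ) *
        Rat.AbsoluteValue.padic p (qq F x y) := h1.symm
    _ ≤ 1 * Rat.AbsoluteValue.padic p (qq F x y) :=
        mul_le_mul_of_nonneg_right h2 (AbsoluteValue.nonneg _ _)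
    _ = _ := one_mul _

end F0744E
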