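import Pool.Agent.Lib.MP_f0744f_nt.E.Pb_1

/-! # Row Pb_2: a tight prime: the residues of the points -/

set_option autoImplicit false

open Polynomial

namespace F0744E

open F0744C F0744D

variable {S : Finset ℤ} {a b : ℤ}

theorem Pb_2_num {u N m m' z θ l l' j E : ℝ} (hu : 0 ≤ u) (huN : u ≤ N) (hm : 1 ≤ m)
    (hθ : 0 < θ) (hθ1 : θ ≤ 1) (hM : (1 - θ / 4) * m ≤ m') (hM2 : m' ≤ 2 * m)
    (hz : z ≤ θ / 64) (hj : 0 ≤ j) (hL : (4 * j + 10) + 4 * l' ≤ θ / 64 * N)
    (hl : l ≤ l') (hl0 : 0 ≤ l')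
    (h : m' * ((3 - z) / (3 - 1) * (u ^ 2 / 2) - (4 * j + 6) * u) - 2 * u * l ≤ E) :
    3 / 4 * u ^ 2 * m - θ * N ^ 2 * m ≤ E := by
  have hN : 0 ≤ N := hu.trans huN
  have hm0 : 0 < m := by linarith
  have hu2 : u ^ 2 ≤ N ^ 2 := by nlinarith
  have h1 : m' * ((3 - z) / (3 - 1) * (u ^ 2 / 2)) ≥
      (1 - θ / 4) * m * ((3 - θ / 64) / (3 - 1) * (u ^ 2 / 2)) := by
    have h2 : (3 - θ / 64) / (3 - 1) * (u ^ 2 / 2) ≤ (3 - z) / (3 - 1) * (u ^ 2 / 2) := by
      apply mul_le_mul_of_nonneg_right _ (by positivity)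
      linarith
    have h3 : 0 ≤ (3 - θ / 64) / (3 - 1) * (u ^ 2 / 2) := by
      apply mul_nonneg _ (by positivity)
      linarith
    have h4 : 0 ≤ (1 - θ / 4) * m := by
      apply mul_nonneg _ hm0.le
      linarith
    exact mul_le_mul hM h2 h3 (h4.trans hM)
  have h5 : (1 - θ / 4) * m * ((3 - θ / 64) / (3 - 1) * (u ^ 2 / 2)) ≥
      3 / 4 * u ^ 2 * m - θ / 4 * (u ^ 2 * m) := by
    have hum : 0 ≤ u ^ 2 * m := by positivity
    have : (1 - θ / 4) * m * ((3 - θ / 64) / (3 - 1) * (u ^ 2 / 2)) =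
        (3 / 4 * (1 - θ / 4) * (1 - θ / 192)) * (u ^ 2 * m) := by ring
    rw [this]
    have h6 : 3 / 4 - θ / 4 ≤ 3 / 4 * (1 - θ / 4) * (1 - θ / 192) := by nlinarith
    have := mul_le_mul_of_nonneg_right h6 hum
    linarith
  have h7 : m' * ((4 * j + 6) * u) ≤ 2 * m * ((4 * j + 6) * N) := by
    apply mul_le_mul hM2 _ (by positivity) (by positivity)
    exact mul_le_mul_of_nonneg_left huN (by positivity)
  have h8 : 2 * u * l ≤ 2 * m * (N * l') := by
    have h9 : u * l ≤ N * l' := by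
      calc u * l ≤ u * l' := mul_le_mul_of_nonneg_left hl hu
        _ ≤ N * l' := mul_le_mul_of_nonneg_right huN hl0
    have h10 : N * l' ≤ m * (N * l') := by
      have : 0 ≤ N * l' := mul_nonneg hN hl0
      nlinarith
    linarith
  have h11 : 2 * m * ((4 * j + 6) * N) + 2 * m * (N * l') ≤ θ / 32 * (N ^ 2 * m) := by
    have h12 : (4 * j + 6) + l' ≤ θ / 64 * N := by linarith
    have h13 : 0 ≤ 2 * m * N := by positivity
    have := mul_le_mul_of_nonneg_left h12 h13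
    linarith
  have h14 : θ / 4 * (u ^ 2 * m) ≤ θ / 4 * (N ^ 2 * m) := by
    apply mul_le_mul_of_nonneg_left _ (by positivity)
    exact mul_le_mul_of_nonneg_right hu2 hm0.le
  have h15 : 0 ≤ θ * (N ^ 2 * m) := by positivity
  have h16 : m' * ((3 - z) / (3 - 1) * (u ^ 2 / 2) - (4 * j + 6) * u) =
      m' * ((3 - z) / (3 - 1) * (u ^ 2 / 2)) - m' * ((4 * j + 6) * u) := by ring
  rw [h16] at h
  linarith

/-- `EnP_ge` for `U` (only one residue, `μ = 2`), `m = mP p F`: `m ((3 - 1 / 3 ^ J) / 2 * u ^ 2 / 2 - (4 J + 6) u) - 2 u log u ≤ EnP p U`; compare with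
`Lg`, `u ≤ N`, `m' ≤ 2 m`, `1 ≤ m'`. -/
theorem low1_p (f : PM S a 3) {p : ℕ} [Fact p.Prime] (r : Red f.F p) {J : ℕ} {m θ : ℝ}
    (hm : 1 ≤ m) (hθ : 0 < θ) (hθ1 : θ ≤ 1) (hM : (1 - θ / 4) * m ≤ mP p f.F)
    (hM2 : mP p f.F ≤ 2 * m) (hL : Lg J θ S.card) {ρ : ZMod p} (hρ : r.mu ρ = 2)
    {U : Finset ℤ} (hU : U ⊆ Dm S a f.ph (J + 1)) (hc : ∀ x ∈ U, (x : ZMod p) = ρ) :
    3 / 4 * (U.card : ℝ) ^ 2 * m - θ * (S.card : ℝ) ^ 2 * m ≤
      En (Rat.AbsoluteValue.padic p) 1 U := by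
  classical
  have hEn : EnP p U = En (Rat.AbsoluteValue.padic p) 1 U := by
    unfold EnP En
    refine Finset.sum_congr rfl fun x _ => Finset.sum_congr rfl fun y hy => ?_
    rw [uu_padic p (Finset.ne_of_mem_erase hy).symm]
  rw [← hEn]
  have hp : p.Prime := Fact.out
  rcases U.eq_empty_or_nonempty with rfl | hne
  · have h0 : EnP p ∅ = 0 := by unfold EnP; simp
    rw [h0, Finset.card_empty]
    have : 0 ≤ θ * (S.card : ℝ) ^ 2 * m := by positivity
    simp
    linarith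
  have hUS : U ⊆ S := by
    intro x hx
    exact (Finset.mem_filter.1 (hU hx)).1
  have hα : padicValRat p f.F.leadingCoeff < 0 := by
    have h1 : 0 < mP p f.F := by
      have : 0 < (1 - θ / 4) * m := mul_pos (by linarith) (by linarith)
      linarith
    unfold mP vp at h1
    by_contra h2
    push Not at h2
    have h3 : (0 : ℝ) ≤ (padicValRat p f.F.leadingCoeff : ℝ) := by exact_mod_cast h2
    have h4 : 0 ≤ Real.log p := Real.log_nonneg (by exact_mod_cast hp.one_le)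
    have := mul_nonneg h3 h4
    linarith
  have himg : U.image (fun x : ℤ => (x : ZMod p)) = {ρ} := by
    ext y
    rw [Finset.mem_image, Finset.mem_singleton]
    constructor
    · rintro ⟨x, hx, rfl⟩
      exact hc x hx
    · rintro rfl
      obtain ⟨x, hx⟩ := hne
      exact ⟨x, hx, hc x hx⟩
  have hcls : cls p U ρ = U := by
    unfold cls
    exact Finset.filter_true_of_mem hc
  have key := EnP_ge f (by norm_num : 2 ≤ 3) r hα J hU
  rw [himg, Finset.sum_singleton, hcls, hρ] at key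
  have hN1 : 1 ≤ S.card := (Finset.card_pos.2 hne).trans_le (Finset.card_le_card hUS)
  have hlogN : 0 ≤ Real.log S.card := Real.log_nonneg (by exact_mod_cast hN1)
  have hlog : Real.log U.card ≤ Real.log S.card :=
    Real.log_le_log (by exact_mod_cast Finset.card_pos.2 hne)
      (by exact_mod_cast Finset.card_le_card hUS)
  exact Pb_2_num (u := (U.card : ℝ)) (N := (S.card : ℝ)) (m := m) (m' := mP p f.F)
    (z := 1 / (3 : ℝ) ^ J) (θ := θ) (l := Real.log U.card) (l' := Real.log S.card) (j := (J : ℝ))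
    (by positivity) (by exact_mod_cast Finset.card_le_card hUS) hm hθ hθ1 hM hM2 hL.1
    (by positivity) hL.2 hlog hlogN (by exact_mod_cast key)

end F0744E
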