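import Pool.Agent.Lib.MP_f0744f_nt.E.Pa
import Pool.Agent.Lib.MP_f0744f_nt.E.Ba
import Pool.Agent.Lib.MP_f0744f_nt.C.P5

/-! # Row Pb_1: a tight prime: the residues of the points -/

set_option autoImplicit false

open Polynomial

namespace F0744E

open F0744C F0744D

variable {S : Finset ℤ} {a b : ℤ}

theorem Pb_1_abs {η x : ℝ} {k : ℕ} (hη : η ≤ 1 / 10000) (h : (x - (k : ℝ) / (3 : ℕ)) ^ 2 ≤ 4 * η) :
    |x - (k : ℝ) / (3 : ℕ)| ≤ 1 / 50 := by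
  refine abs_le_of_sq_le_sq ?_ (by norm_num)
  nlinarith

theorem Pb_1_eq {η x : ℝ} {k l : ℕ} (hη : η ≤ 1 / 10000) (h : (x - (k : ℝ) / (3 : ℕ)) ^ 2 ≤ 4 * η)
    (h' : (x - (l : ℝ) / (3 : ℕ)) ^ 2 ≤ 4 * η) : l = k := by
  have h1 := abs_le.mp (Pb_1_abs hη h)
  have h2 := abs_le.mp (Pb_1_abs hη h')
  push_cast at h1 h2
  by_contra hne
  rcases Nat.lt_or_gt_of_ne hne with h3 | h3
  · have h4 : (l : ℝ) + 1 ≤ k := by exact_mod_cast h3
    linarith [h1.1, h2.2]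
  · have h4 : (k : ℝ) + 1 ≤ l := by exact_mod_cast h3
    linarith [h1.2, h2.1]

/-- `P5_mass` for `f` and `g` (`d = 3`): for every residue `ρ` of `T`: `(t_ρ / t - μ / 3) ^ 2 ≤ 4 η`, `(t_ρ / t - μ' / 3) ^ 2 ≤ 4 η`, so `μ = μ'`
(`η ≤ 1 / 10000`), `1 ≤ μ ≤ 3`. There are at most three residues (`Red.sum_mu`) and `∑ t_ρ = t` (`P5_sum`), so `∑ μ = 3`. (1) One residue: `μ = μ' = 3`,
by `Red.single`, `Red.one_le_mu` all elements of `S \ {a}` and all of `S \ {b}` have it: contradiction to `prim` (`a ≠ b`). (2) Two residues: `2, 1`.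
(3) Three residues: `1, 1, 1`. Every `x ∈ S0` has `1 ≤ r.mu x` (`Red.one_le_mu`), so its residue is one of them (`Red.sum_mu`). Model: `two_cls` in
`D/P1.lean`, `local_p` in `C/P5.lean`. -/
theorem cls_p (hab : a ≠ b) (f : PM S a 3) (g : PM S b 3) {p : ℕ} [Fact p.Prime]
    (prim : ∃ x ∈ S, ∃ y ∈ S, ¬ (p : ℤ) ∣ x - y) (J : ℕ) {T : Finset ℤ}
    (hTf : T ⊆ Dm S a f.ph (J + 1)) (hTg : T ⊆ Dm S b g.ph (J + 1)) (hT : T.Nonempty) {η : ℝ}
    (h0 : 0 < η) (hη : η ≤ 1 / 10000) (hJ : 1 / (3 : ℝ) ^ J ≤ η) (hB : Big 3 (2 * J) η T.card)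
    (hf : 0 < mP p f.F) (hg : 0 < mP p g.F)
    (hEf : EnP p T ≤ (1 + η) * (T.card : ℝ) ^ 2 * (mP p f.F / 2))
    (hEg : EnP p T ≤ (1 + η) * (T.card : ℝ) ^ 2 * (mP p g.F / 2)) (r : Red f.F p)
    (r' : Red g.F p) :
    (∃ ρ : Fin 3 → ZMod p, Function.Injective ρ ∧
      (∀ i, r.mu (ρ i) = 1 ∧ r'.mu (ρ i) = 1) ∧ ∀ x ∈ S0 S a b, ∃ i, (x : ZMod p) = ρ i) ∨
    (∃ ρ2 ρ1 : ZMod p, ρ2 ≠ ρ1 ∧ r.mu ρ2 = 2 ∧ r'.mu ρ2 = 2 ∧ r.mu ρ1 = 1 ∧ r'.mu ρ1 = 1 ∧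
      ∀ x ∈ S0 S a b, (x : ZMod p) = ρ2 ∨ (x : ZMod p) = ρ1) := by
  have hαf := P5_neg hf
  have hαg := P5_neg hg
  have hJ3 : 1 / ((3 : ℕ) : ℝ) ^ J ≤ η := by push_cast; exact hJ
  have h1 : η ≤ 1 / 2 := by linarith
  have hEf2 : EnP p T ≤ (1 + η) * (T.card : ℝ) ^ 2 * (mP p f.F / (((3 : ℕ) : ℝ) - 1)) := by
    have : mP p f.F / (((3 : ℕ) : ℝ) - 1) = mP p f.F / 2 := by push_cast; norm_num
    rw [this]
    exact hEf
  have hEg2 : EnP p T ≤ (1 + η) * (T.card : ℝ) ^ 2 * (mP p g.F / (((3 : ℕ) : ℝ) - 1)) := by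
    have : mP p g.F / (((3 : ℕ) : ℝ) - 1) = mP p g.F / 2 := by push_cast; norm_num
    rw [this]
    exact hEg
  have hmf := P5_mass (by norm_num) f r hαf J hTf hT h0 h1 hJ3 hB hEf2
  have hmg := P5_mass (by norm_num) g r' hαg J hTg hT h0 h1 hJ3 hB hEg2
  set I := T.image (fun x : ℤ => (x : ZMod p)) with hI
  have hpos : (0 : ℝ) < T.card := by exact_mod_cast hT.card_pos
  -- the multiplicities agree
  have hmm : ∀ ρ ∈ I, r'.mu ρ = r.mu ρ := by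
    intro ρ hρ
    obtain ⟨hf1, hf2, hf3⟩ := hmf ρ hρ
    obtain ⟨hg1, hg2, hg3⟩ := hmg ρ hρ
    exact Pb_1_eq hη hf3 hg3
  -- the sum of the multiplicities
  have hle : ∑ ρ ∈ I, r.mu ρ ≤ 3 := by
    have := r.sum_mu I
    rwa [f.deg] at this
  have hcard : I.card ≤ 3 := by
    calc I.card = ∑ ρ ∈ I, 1 := by simp
      _ ≤ ∑ ρ ∈ I, r.mu ρ := Finset.sum_le_sum fun ρ hρ => (hmf ρ hρ).1
      _ ≤ 3 := hle
  have hx1 : ∑ ρ ∈ I, ((cls p T ρ).card : ℝ) / T.card = 1 := by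
    rw [← Finset.sum_div, hI, P5_sum, div_self hpos.ne']
  have hsum : ∑ ρ ∈ I, r.mu ρ = 3 := by
    have h2 : |∑ ρ ∈ I, (((cls p T ρ).card : ℝ) / T.card - (r.mu ρ : ℝ) / (3 : ℕ))| ≤ 3 * (1 / 50) := by
      calc |∑ ρ ∈ I, (((cls p T ρ).card : ℝ) / T.card - (r.mu ρ : ℝ) / (3 : ℕ))|
          ≤ ∑ ρ ∈ I, |((cls p T ρ).card : ℝ) / T.card - (r.mu ρ : ℝ) / (3 : ℕ)| :=
            Finset.abs_sum_le_sum_abs _ _
        _ ≤ ∑ ρ ∈ I, (1 / 50 : ℝ) := Finset.sum_le_sum fun ρ hρ => Pb_1_abs hη (hmf ρ hρ).2.2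
        _ = I.card * (1 / 50 : ℝ) := by rw [Finset.sum_const, nsmul_eq_mul]
        _ ≤ 3 * (1 / 50) := by
          have : (I.card : ℝ) ≤ 3 := by exact_mod_cast hcard
          linarith
    rw [Finset.sum_sub_distrib, hx1, ← Finset.sum_div, ← Nat.cast_sum] at h2
    have h3 := (abs_le.mp h2).2
    push_cast at h3
    have h4 : (2 : ℝ) < ((∑ ρ ∈ I, r.mu ρ : ℕ) : ℝ) := by
      push_cast
      linarith
    have h5 : 2 < ∑ ρ ∈ I, r.mu ρ := by exact_mod_cast h4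
    omega
  have hone : ∀ x ∈ S0 S a b, 1 ≤ r.mu ((x : ℤ) : ZMod p) := by
    intro x hx
    simp only [S0, Finset.mem_filter] at hx
    exact r.one_le_mu hαf (f.val x hx.1 hx.2.1)
  -- no residue of multiplicity three
  have hno3 : ∀ ρ ∈ I, r.mu ρ ≠ 3 := by
    intro ρ hρ hmd
    have hme : r'.mu ρ = 3 := by rw [hmm ρ hρ, hmd]
    have allf : ∀ x ∈ S, x ≠ a → (x : ZMod p) = ρ := by
      intro x hx hxa
      exact r.single (by rw [hmd, f.deg]) (r.one_le_mu hαf (f.val x hx hxa))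
    have allg : ∀ x ∈ S, x ≠ b → (x : ZMod p) = ρ := by
      intro x hx hxb
      exact r'.single (by rw [hme, g.deg]) (r'.one_le_mu hαg (g.val x hx hxb))
    have all : ∀ x ∈ S, (x : ZMod p) = ρ := by
      intro x hx
      by_cases hxa : x = a
      · exact allg x hx (by rw [hxa]; exact hab)
      · exact allf x hx hxa
    obtain ⟨x, hx, y, hy, hxy⟩ := prim
    apply hxy
    rw [← ZMod.intCast_eq_intCast_iff_dvd_sub, all x hx, all y hy]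
  by_cases h2 : ∃ ρ2 ∈ I, r.mu ρ2 = 2
  · right
    obtain ⟨ρ2, hρ2, hmu2⟩ := h2
    have hex : ∃ ρ1 ∈ I, ρ1 ≠ ρ2 := by
      by_contra hcon
      push Not at hcon
      have himg : I = {ρ2} := Finset.eq_singleton_iff_unique_mem.2 ⟨hρ2, hcon⟩
      rw [himg, Finset.sum_singleton, hmu2] at hsum
      omega
    obtain ⟨ρ1, hρ1, hne⟩ := hex
    have hs := r.sum_mu {ρ1, ρ2}
    rw [f.deg, Finset.sum_pair hne, hmu2] at hs
    have hmu1 : r.mu ρ1 = 1 := by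
      have := (hmf ρ1 hρ1).1
      omega
    refine ⟨ρ2, ρ1, hne.symm, hmu2, by rw [hmm ρ2 hρ2, hmu2], hmu1, by rw [hmm ρ1 hρ1, hmu1], ?_⟩
    intro x hx
    by_contra hcon
    push Not at hcon
    have hs3 := r.sum_mu {(x : ZMod p), ρ2, ρ1}
    rw [f.deg, Finset.sum_insert (by
        simp only [Finset.mem_insert, Finset.mem_singleton, not_or]
        exact hcon), Finset.sum_pair hne.symm, hmu1, hmu2] at hs3
    have := hone x hx
    omega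
  · left
    push Not at h2
    have hmu : ∀ ρ ∈ I, r.mu ρ = 1 := by
      intro ρ hρ
      have ha := (hmf ρ hρ).1
      have hb := (hmf ρ hρ).2.1
      have hc := h2 ρ hρ
      have hd := hno3 ρ hρ
      omega
    have hc3 : I.card = 3 := by
      rw [← hsum, Finset.sum_congr rfl hmu]
      simp
    obtain ⟨x0, x1, x2, h01, h02, h12, hIe⟩ := Finset.card_eq_three.mp hc3
    have m0 : x0 ∈ I := by rw [hIe]; simp
    have m1 : x1 ∈ I := by rw [hIe]; simp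
    have m2 : x2 ∈ I := by rw [hIe]; simp
    refine ⟨![x0, x1, x2], ?_, ?_, ?_⟩
    · intro i j hij
      fin_cases i <;> fin_cases j <;> simp_all
    · intro i
      fin_cases i
      · exact ⟨hmu x0 m0, (hmm x0 m0).trans (hmu x0 m0)⟩
      · exact ⟨hmu x1 m1, (hmm x1 m1).trans (hmu x1 m1)⟩
      · exact ⟨hmu x2 m2, (hmm x2 m2).trans (hmu x2 m2)⟩
    · intro x hx
      have hmem : (x : ZMod p) ∈ I := by
        by_contra hcon
        have hs4 := r.sum_mu (insert (x : ZMod p) I)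
        rw [f.deg, Finset.sum_insert hcon, hsum] at hs4
        have := hone x hx
        omega
      rw [hIe] at hmem
      simp only [Finset.mem_insert, Finset.mem_singleton] at hmem
      rcases hmem with h | h | h
      · exact ⟨0, h⟩
      · exact ⟨1, h⟩
      · exact ⟨2, h⟩

end F0744E
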