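import Pool.Agent.Lib.MP_f0744f_nt.E.M5c

/-! # Row Q1_1: the double class: small values of qq -/

set_option autoImplicit false

open Polynomial

namespace F0744E

open F0744C F0744D

variable {S : Finset ℤ} {a b : ℤ}

variable {f : PM S a 3} {g : PM S b 3} {A : AbsoluteValue ℚ ℝ} {R m θ : ℝ} {J : ℕ} {T : Finset ℤ} {cl : ℤ → Bool}

/-- Otherwise `en_step` for `U = T.filter (cl = true)` with `M = (1 - θ) m`, `ω = 7 / 10 m` and `lowf` for `U.image f.ph` (`Tf`, `Dm_succ`,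
`Dm_mono`, `f.inj`) give `En U ≥ (3 / 10 - θ) m (u ^ 2 - u) + (1 / 2) u ^ 2 m - θ N ^ 2 m`, `u ≥ (2 / 3 - 1 / 1000) N` (`TB.m1`): at least
`0.354 N ^ 2 m`, more than `TB.en` allows. -/
theorem TB.qsmall (h : TB f g A R m θ J T cl) (hθ : θ ≤ 1 / 100000000) :
    ∃ x ∈ T, ∃ y ∈ T, x ≠ y ∧ cl x = true ∧ cl y = true ∧
      A (qq f.F x y) < R ^ 2 * Real.exp (-(7 / 10 * m)) := by
  by_contra hcon
  push Not at hcon
  have hB := h.base
  obtain ⟨U, hU⟩ : ∃ U, U = T.filter (fun x => cl x = true) := ⟨_, rfl⟩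
  have hUT : ∀ x ∈ U, x ∈ T ∧ cl x = true := by
    intro x hx
    rw [hU, Finset.mem_filter] at hx
    exact hx
  have hTD : ∀ x ∈ T, x ∈ S ∧ x ≠ a ∧ f.ph x ∈ Dm S a f.ph (J + 2) := fun x hx => Dm_succ (hB.Tf hx)
  have hD : U.image f.ph ⊆ Dm S a f.ph J := by
    intro z hz
    rw [Finset.mem_image] at hz
    obtain ⟨x, hx, rfl⟩ := hz
    exact Dm_mono S a f.ph (Nat.le_add_right J 2) (hTD x (hUT x hx).1).2.2
  have hcard : (U.image f.ph).card = U.card := by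
    apply Finset.card_image_of_injOn
    intro x hx y hy hxy
    have hx' := hTD x (hUT x hx).1
    have hy' := hTD y (hUT y hy).1
    exact f.inj x hx'.1 y hy'.1 hx'.2.1 hy'.2.1 hxy
  have h1 := en_step f hB.R1 (U := U) (fun x hx => ⟨(hTD x (hUT x hx).1).1, (hTD x (hUT x hx).1).2.1⟩)
    hB.mf1 (ω := 7 / 10 * m)
    (fun x hx y hy hxy => hcon x (hUT x hx).1 y (hUT y hy).1 hxy (hUT x hx).2 (hUT y hy).2)
  have h2 := hB.lowf _ hD
  rw [hcard] at h2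
  have h3 := (h.en hθ).1
  rw [← hU] at h3
  have h4 := (h.m1 hθ).1
  rw [← hU, abs_le] at h4
  have hUS : U ⊆ S := fun x hx => (hTD x (hUT x hx).1).1
  have h5 : (U.card : ℝ) ≤ S.card := by exact_mod_cast Finset.card_le_card hUS
  have hb := hB.big
  have hm := hB.m0
  obtain ⟨u, hu⟩ : ∃ u : ℝ, u = U.card := ⟨_, rfl⟩
  obtain ⟨N, hN⟩ : ∃ N : ℝ, N = S.card := ⟨_, rfl⟩
  rw [← hu] at h1 h2 h4 h5
  rw [← hN] at h2 h3 h4 h5 hb
  have hN0 : 0 ≤ N := by rw [hN]; positivity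
  have hu0 : 0 ≤ u := by rw [hu]; positivity
  have hθ0 : 0 < θ := by
    by_contra hneg
    have := mul_nonpos_of_nonpos_of_nonneg (not_lt.1 hneg) hN0
    linarith
  have hNpos : 0 < N := by
    rcases hN0.eq_or_lt with h0 | h0
    · rw [← h0, mul_zero] at hb
      linarith
    · exact h0
  have k1 : m * ((3 / 10 - θ) * (u ^ 2 - u) + 1 / 2 * u ^ 2 - θ * N ^ 2 - (1 / 3 + 1 / 500) * N ^ 2) ≤ 0 := by
    have : m * ((3 / 10 - θ) * (u ^ 2 - u) + 1 / 2 * u ^ 2 - θ * N ^ 2 - (1 / 3 + 1 / 500) * N ^ 2) =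
        ((1 - θ) * m - 7 / 10 * m) * (u ^ 2 - u) + (1 / 2 * u ^ 2 * m - θ * N ^ 2 * m) -
          (1 / 3 + 1 / 500) * N ^ 2 * m := by ring
    rw [this]
    linarith
  have k2 : (3 / 10 - θ) * (u ^ 2 - u) + 1 / 2 * u ^ 2 - θ * N ^ 2 - (1 / 3 + 1 / 500) * N ^ 2 ≤ 0 := by
    by_contra hneg
    have := mul_pos hm (not_le.1 hneg)
    linarith
  have k3 : (2 / 3 - 1 / 1000) ^ 2 * N ^ 2 ≤ u ^ 2 := by
    rw [← mul_pow]
    exact pow_le_pow_left₀ (by positivity) (by linarith [h4.1]) 2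
  have k4 : u ≤ θ * N ^ 2 := by
    calc u ≤ 1 * N := by linarith
      _ ≤ θ * N * N := mul_le_mul_of_nonneg_right hb hN0
      _ = θ * N ^ 2 := by ring
  have k5 : θ * u ^ 2 ≤ θ * N ^ 2 := mul_le_mul_of_nonneg_left (pow_le_pow_left₀ hu0 h5 2) hθ0.le
  have k6 : 0 ≤ θ * u := mul_nonneg hθ0.le hu0
  have k7 : θ * N ^ 2 ≤ 1 / 100000000 * N ^ 2 := mul_le_mul_of_nonneg_right hθ (by positivity)
  have k8 : 0 < N ^ 2 := by positivity
  have k9 : (3 / 10 - θ) * (u ^ 2 - u) + 1 / 2 * u ^ 2 - θ * N ^ 2 - (1 / 3 + 1 / 500) * N ^ 2 =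
      4 / 5 * u ^ 2 - 3 / 10 * u - θ * u ^ 2 + θ * u - θ * N ^ 2 - (1 / 3 + 1 / 500) * N ^ 2 := by ring
  rw [k9] at k2
  norm_num at k3
  linarith

end F0744E
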