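import Pool.Agent.Lib.MP_f0744f_nt.E.Ra
import Pool.Agent.Lib.MP_f0744f_nt.D.R3
import Pool.Agent.Lib.MP_f0744f_nt.C.M1
import Pool.Agent.Lib.MP_f0744f_nt.C.R5b

/-! # Row Rb: a tight real place: the discs of the points -/

set_option autoImplicit false

open Polynomial

namespace F0744E

open F0744C F0744D

variable {S : Finset ℤ} {a b : ℤ}

theorem Rb_abs {x η : ℝ} (hη : η ≤ 1 / 10000) (h : x ^ 2 ≤ 8 * η) : |x| ≤ 3 / 100 := by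
  have h1 : x ^ 2 ≤ (3 / 100 : ℝ) ^ 2 := by
    have : (3 / 100 : ℝ) ^ 2 = 9 / 10000 := by norm_num
    linarith
  exact abs_le_of_sq_le_sq h1 (by norm_num)

theorem Rb_eq {m l : ℕ} {x η : ℝ} (hη : η ≤ 1 / 10000) (h1 : (x - m / (3 : ℕ)) ^ 2 ≤ 8 * η)
    (h2 : (x - l / (3 : ℕ)) ^ 2 ≤ 8 * η) : m = l := by
  have e1 := abs_le.1 (Rb_abs hη h1)
  have e2 := abs_le.1 (Rb_abs hη h2)
  push_cast at e1 e2
  have h3 : ((m : ℤ) : ℝ) - ((l : ℤ) : ℝ) < 1 := by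
    push_cast
    linarith [e1.1, e2.2]
  have h4 : ((l : ℤ) : ℝ) - ((m : ℤ) : ℝ) < 1 := by
    push_cast
    linarith [e1.2, e2.1]
  have h5 : (m : ℤ) - l < 1 := by exact_mod_cast h3
  have h6 : (l : ℤ) - m < 1 := by exact_mod_cast h4
  omega

/-- the multiplicities have the sum `3` -/
theorem Rb_sum {C : Finset ℂ} {t : ℂ → ℝ} {m : ℂ → ℕ} {T η : ℝ} (hη : η ≤ 1 / 10000) (hT : 0 < T)
    (hm : ∀ c ∈ C, 1 ≤ m c) (hs : ∑ c ∈ C, m c ≤ 3) (ht : ∑ c ∈ C, t c = T)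
    (h : ∀ c ∈ C, (t c / T - m c / (3 : ℕ)) ^ 2 ≤ 8 * η) : ∑ c ∈ C, m c = 3 := by
  have hcard : C.card ≤ 3 := by
    calc C.card = ∑ c ∈ C, 1 := by simp
      _ ≤ ∑ c ∈ C, m c := Finset.sum_le_sum hm
      _ ≤ 3 := hs
  have h1 : ∑ c ∈ C, (t c / T - m c / (3 : ℕ)) ≤ ∑ c ∈ C, (3 / 100 : ℝ) :=
    Finset.sum_le_sum fun c hc => (abs_le.1 (Rb_abs hη (h c hc))).2
  rw [Finset.sum_sub_distrib, ← Finset.sum_div, ← Finset.sum_div, ht, div_self hT.ne',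
    Finset.sum_const, nsmul_eq_mul] at h1
  have h2 : ((C.card : ℕ) : ℝ) ≤ 3 := by exact_mod_cast hcard
  have h3 : (2 : ℝ) < ((∑ c ∈ C, m c : ℕ) : ℝ) := by
    push_cast
    push_cast at h1
    linarith
  have h4 : 2 < ∑ c ∈ C, m c := by exact_mod_cast h3
  omega

/-- `C'` = the `c ∈ C` with `(dsc T c (2 ρ1)).Nonempty`; `mass_r'` (`D/R3.lean`) and `mass_abs` (`8 η`) for `f` and `g`: `(t_c / t - μ / 3) ^ 2 ≤ 8 η`,
`(t_c / t - μ' / 3) ^ 2 ≤ 8 η`, `μ = cnt f.F c ρ1 ≥ 1`, `μ' = cnt g.F c ρ1` (`one_le_cnt`), so `μ = μ'`; `∑ μ ≤ 3` (`sum_cnt`), `∑ t_c = t`, so `∑ μ = 3`.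
(1) One disc: `μ = μ' = 3`, `all_near` for `f` and `g` gives the contradiction of `local_r` (`C/R5.lean`) and of `two_dsc` (`D/R4.lean`): all points of `S` are within
`2 ρ1` of `c`, `0 ∈ S`, `|y| = L`. (2), (3): two discs (`2, 1`) or three. Every `x ∈ S0` is within `2 ρ1` of a `c ∈ C` with `1 ≤ cnt f.F c ρ1` (`point_root`, `cF`,
`one_le_cnt`), which is in `C'` by `sum_cnt`. A `c ∈ C'` is within `2 ρ1` of a point of `T`, so `‖c‖ ≤ L + 2 ρ1`. -/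
theorem cls_r (hab : a ≠ b) (f : PM S a 3) (g : PM S b 3) (hz : (0 : ℤ) ∈ S) {L : ℝ}
    (hL : ∀ y ∈ S, |((y : ℤ) : ℝ)| ≤ L) (hy : ∃ y ∈ S, |((y : ℤ) : ℝ)| = L) (hL1 : 1 ≤ L)
    (J : ℕ) {T : Finset ℤ} (hTf : T ⊆ Dm S a f.ph (J + 1)) (hTg : T ⊆ Dm S b g.ph (J + 1))
    (hT : T.Nonempty) {η κ ξ : ℝ} (h0 : 0 < η) (hη : η ≤ 1 / 10000)
    (hκ : 0 < κ) (hξ : 8 * ξ ≤ η * κ) (hJ : 1 / (3 : ℝ) ^ J ≤ η) (hB : Big 3 (2 * J) η T.card)
    (hMf : κ * (2 * Real.log L) ≤ mm Rat.AbsoluteValue.real L 3 f.F)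
    (hMg : κ * (2 * Real.log L) ≤ mm Rat.AbsoluteValue.real L 3 g.F)
    (hEf : En Rat.AbsoluteValue.real L T ≤
      (1 + η) * (T.card : ℝ) ^ 2 * (mm Rat.AbsoluteValue.real L 3 f.F / 2))
    (hEg : En Rat.AbsoluteValue.real L T ≤
      (1 + η) * (T.card : ℝ) ^ 2 * (mm Rat.AbsoluteValue.real L 3 g.F / 2))
    {ρ1 ρ2 : ℝ} {C : Finset ℂ} (hC : Clus3 f.F g.F ξ L ρ1 ρ2 C) :
    (∃ c : Fin 3 → ℂ, (∀ i, c i ∈ C ∧ ‖c i‖ ≤ L + 2 * ρ1) ∧ Function.Injective c ∧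
      (∀ i, cnt f.F (c i) ρ1 = 1 ∧ cnt g.F (c i) ρ1 = 1) ∧
      ∀ x ∈ S0 S a b, ∃ i, ‖(x : ℂ) - c i‖ ≤ 2 * ρ1) ∨
    (∃ c2 ∈ C, ∃ c1 ∈ C, c2 ≠ c1 ∧ ‖c2‖ ≤ L + 2 * ρ1 ∧ ‖c1‖ ≤ L + 2 * ρ1 ∧
      cnt f.F c2 ρ1 = 2 ∧ cnt g.F c2 ρ1 = 2 ∧ cnt f.F c1 ρ1 = 1 ∧ cnt g.F c1 ρ1 = 1 ∧
      ∀ x ∈ S0 S a b, ‖(x : ℂ) - c2‖ ≤ 2 * ρ1 ∨ ‖(x : ℂ) - c1‖ ≤ 2 * ρ1) := by
  classical
  obtain ⟨y, hyS, hyL⟩ := hy
  have hη1 : η ≤ 1 / 2 := by linarith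
  have hpos := hC.pos
  have h16ρ : 16 * ρ1 ≤ ρ2 := by
    have h := hC.sep
    have h2 : (16 : ℝ) ≤ 16 ^ (3 + 2) := by norm_num
    exact le_trans (mul_le_mul_of_nonneg_right h2 hpos.le) h
  have hmem : ∀ (c : ℂ) (x : ℤ), x ∈ dsc T c (2 * ρ1) ↔ x ∈ T ∧ ‖(x : ℂ) - c‖ ≤ 2 * ρ1 := by
    intro c x
    simp [dsc]
  set C' : Finset ℂ := C.filter (fun c => (dsc T c (2 * ρ1)).Nonempty) with hC'
  have hC'C : ∀ c ∈ C', c ∈ C := fun c hc => (Finset.mem_filter.1 hc).1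
  have hfind : ∀ x ∈ S, x ≠ a → ∃ c ∈ C, (∃ z ∈ (f.F.map (algebraMap ℚ ℂ)).roots, ‖z - c‖ ≤ ρ1) ∧
      ‖(x : ℂ) - c‖ ≤ 2 * ρ1 := by
    intro x hxS hxa
    obtain ⟨z, hz1, hz2⟩ := point_root f (by norm_num) hL hpos hC.aF hxS hxa
    obtain ⟨c, hc, hzc⟩ := hC.cF z hz1
    refine ⟨c, hc, ⟨z, hz1, hzc⟩, ?_⟩
    calc ‖(x : ℂ) - c‖ = ‖((x : ℂ) - z) + (z - c)‖ := by ring_nf
      _ ≤ ‖(x : ℂ) - z‖ + ‖z - c‖ := norm_add_le _ _
      _ ≤ 2 * ρ1 := by linarith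
  have hcov : ∀ x ∈ T, ∃ c ∈ C', ‖(x : ℂ) - c‖ ≤ 2 * ρ1 := by
    intro x hx
    obtain ⟨hxS, hxa, -⟩ := Dm_succ (hTf hx)
    obtain ⟨c, hc, -, hxc⟩ := hfind x hxS hxa
    exact ⟨c, Finset.mem_filter.2 ⟨hc, ⟨x, (hmem c x).2 ⟨hx, hxc⟩⟩⟩, hxc⟩
  have hCsep : ∀ c ∈ C', ∀ c' ∈ C', c ≠ c' → ρ2 ≤ ‖c - c'‖ :=
    fun c hc c' hc' hne => hC.sepC c (hC'C c hc) c' (hC'C c' hc') hne
  have hCsep3 : ∀ c ∈ C, ∀ c' ∈ C, c ≠ c' → 2 * ρ1 < ‖c - c'‖ := by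
    intro c hc c' hc' hne
    have := hC.sepC c hc c' hc' hne
    linarith
  have hCsep2 : ∀ c ∈ C', ∀ c' ∈ C', c ≠ c' → 2 * ρ1 < ‖c - c'‖ :=
    fun c hc c' hc' hne => hCsep3 c (hC'C c hc) c' (hC'C c' hc') hne
  have hμf : ∀ c ∈ C', 1 ≤ cnt f.F c ρ1 := by
    intro c hc
    obtain ⟨hcC, x, hx⟩ := Finset.mem_filter.1 hc
    obtain ⟨hxT, hxc⟩ := (hmem c x).1 hx
    obtain ⟨hxS, hxa, -⟩ := Dm_succ (hTf hxT)
    exact one_le_cnt f (by norm_num) hL hpos hC.sep hC.aF (hC.rF c hcC) hxS hxa hxc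
  have hμg : ∀ c ∈ C', 1 ≤ cnt g.F c ρ1 := by
    intro c hc
    obtain ⟨hcC, x, hx⟩ := Finset.mem_filter.1 hc
    obtain ⟨hxT, hxc⟩ := (hmem c x).1 hx
    obtain ⟨hxS, hxb, -⟩ := Dm_succ (hTg hxT)
    exact one_le_cnt g (by norm_num) hL hpos hC.sep hC.aG (hC.rG c hcC) hxS hxb hxc
  have hunion : T = C'.biUnion (fun c => dsc T c (2 * ρ1)) := by
    ext x
    rw [Finset.mem_biUnion]
    constructor
    · intro hx
      obtain ⟨c, hc, hxc⟩ := hcov x hx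
      exact ⟨c, hc, (hmem c x).2 ⟨hx, hxc⟩⟩
    · rintro ⟨c, -, hx⟩
      exact ((hmem c x).1 hx).1
  have hcard : T.card = ∑ c ∈ C', (dsc T c (2 * ρ1)).card := by
    conv_lhs => rw [hunion]
    refine Finset.card_biUnion ?_
    intro c hc c' hc' hne
    change Disjoint (dsc T c (2 * ρ1)) (dsc T c' (2 * ρ1))
    rw [Finset.disjoint_left]
    intro x hx hx'
    have h1 := ((hmem c x).1 hx).2
    have h2 := ((hmem c' x).1 hx').2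
    have h3 := hCsep c hc c' hc' hne
    have h4 : ‖c - c'‖ ≤ ‖(x : ℂ) - c'‖ + ‖(x : ℂ) - c‖ := by
      calc ‖c - c'‖ = ‖((x : ℂ) - c') - ((x : ℂ) - c)‖ := by ring_nf
        _ ≤ ‖(x : ℂ) - c'‖ + ‖(x : ℂ) - c‖ := norm_sub_le _ _
    linarith
  have hTpos : (0 : ℝ) < (T.card : ℝ) := by
    exact_mod_cast Finset.card_pos.2 hT
  have hsum : ∑ c ∈ C', ((dsc T c (2 * ρ1)).card : ℝ) = (T.card : ℝ) := by
    rw [hcard]
    push_cast
    rfl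
  have hsf : ∑ c ∈ C', cnt f.F c ρ1 ≤ 3 := by
    have := sum_cnt f.F hCsep2
    rwa [f.deg] at this
  have hsg : ∑ c ∈ C', cnt g.F c ρ1 ≤ 3 := by
    have := sum_cnt g.F hCsep2
    rwa [g.deg] at this
  have hd1 : (((3 : ℕ) : ℝ) - 1) = 2 := by norm_num
  have hJ' : 1 / ((3 : ℕ) : ℝ) ^ J ≤ η := by
    rw [Nat.cast_ofNat]
    exact hJ
  have hmf := mass_r' f (by norm_num) hL1 hL J hpos hC.sep hC.leL hC.aF hCsep
    (fun c hc => hC.rF c (hC'C c hc)) hμf hTf hcov h0 hη1 hκ hξ hJ' hB (by rw [hd1]; exact hMf)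
    hC.two hC.del (by rw [hd1]; exact hEf)
  have hmg := mass_r' g (by norm_num) hL1 hL J hpos hC.sep hC.leL hC.aG hCsep
    (fun c hc => hC.rG c (hC'C c hc)) hμg hTg hcov h0 hη1 hκ hξ hJ' hB (by rw [hd1]; exact hMg)
    hC.two hC.del (by rw [hd1]; exact hEg)
  have haf := mass_abs C' (fun c => ((dsc T c (2 * ρ1)).card : ℝ)) (fun c => cnt f.F c ρ1)
    (d := 3) (η := 8 * η) hTpos hμf hsf hsum hmf
  have hag := mass_abs C' (fun c => ((dsc T c (2 * ρ1)).card : ℝ)) (fun c => cnt g.F c ρ1)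
    (d := 3) (η := 8 * η) hTpos hμg hsg hsum hmg
  have hfg : ∀ c ∈ C', cnt f.F c ρ1 = cnt g.F c ρ1 := fun c hc => Rb_eq hη (haf c hc) (hag c hc)
  have hs3 : ∑ c ∈ C', cnt f.F c ρ1 = 3 := Rb_sum hη hTpos hμf hsf hsum haf
  have hle : ∀ c ∈ C', cnt f.F c ρ1 ≤ 3 := fun c hc =>
    le_trans (Finset.single_le_sum (f := fun c => cnt f.F c ρ1)
      (fun i _ => Nat.zero_le _) hc) hsf
  -- the norms
  have hnorm : ∀ c ∈ C', ‖c‖ ≤ L + 2 * ρ1 := by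
    intro c hc
    obtain ⟨hcC, x, hx⟩ := Finset.mem_filter.1 hc
    obtain ⟨hxT, hxc⟩ := (hmem c x).1 hx
    obtain ⟨hxS, -, -⟩ := Dm_succ (hTf hxT)
    have h1 : ‖(x : ℂ)‖ ≤ L := by
      rw [Complex.norm_intCast]
      exact hL x hxS
    calc ‖c‖ = ‖(x : ℂ) - ((x : ℂ) - c)‖ := by ring_nf
      _ ≤ ‖(x : ℂ)‖ + ‖(x : ℂ) - c‖ := norm_sub_le _ _
      _ ≤ L + 2 * ρ1 := by linarith
  -- no disc contains all the roots
  have hne3 : ∀ c ∈ C', cnt f.F c ρ1 ≠ 3 := by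
    intro c hc h2
    have hce : cnt g.F c ρ1 = 3 := by rw [← hfg c hc]; exact h2
    have hnear : ∀ x ∈ S, ‖(x : ℂ) - c‖ ≤ 2 * ρ1 := by
      intro x hx
      by_cases hxa : x = a
      · have hxb : x ≠ b := by
          rw [hxa]
          exact hab
        exact all_near g (by norm_num) hL hpos hC.aG hce hx hxb
      · exact all_near f (by norm_num) hL hpos hC.aF h2 hx hxa
    have e1 := hnear 0 hz
    have e2 := hnear y hyS
    have e3 : ‖(y : ℂ)‖ ≤ 4 * ρ1 := by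
      calc ‖(y : ℂ)‖ = ‖((y : ℂ) - c) - (((0 : ℤ) : ℂ) - c)‖ := by
            congr 1
            push_cast
            ring
        _ ≤ ‖(y : ℂ) - c‖ + ‖((0 : ℤ) : ℂ) - c‖ := norm_sub_le _ _
        _ ≤ 4 * ρ1 := by linarith
    have e4 : ‖(y : ℂ)‖ = L := by
      rw [← hyL, Complex.norm_intCast]
    have e5 := hC.leL
    linarith
  -- the disc of a point
  have hpt : ∀ x ∈ S0 S a b, ∃ c ∈ C', ‖(x : ℂ) - c‖ ≤ 2 * ρ1 := by
    intro x hx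
    obtain ⟨hxS, hxa, -⟩ := Finset.mem_filter.1 hx
    obtain ⟨c, hc, ⟨z, hz1, hz2⟩, hxc⟩ := hfind x hxS hxa
    refine ⟨c, ?_, hxc⟩
    by_contra hcC
    have h3 : 1 ≤ cnt f.F c ρ1 := by
      unfold cnt
      exact Multiset.countP_pos.2 ⟨z, hz1, hz2⟩
    have hsub : ∀ w ∈ insert c C', w ∈ C := by
      intro w hw
      rcases Finset.mem_insert.1 hw with rfl | hw
      · exact hc
      · exact hC'C _ hw
    have h4 : ∑ c ∈ insert c C', cnt f.F c ρ1 ≤ f.F.natDegree :=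
      sum_cnt f.F fun w hw w' hw' hww => hCsep3 w (hsub w hw) w' (hsub w' hw') hww
    rw [f.deg, Finset.sum_insert hcC, hs3] at h4
    omega
  by_cases hdbl : ∃ c2 ∈ C', cnt f.F c2 ρ1 = 2
  · right
    obtain ⟨c2, hc2, h2⟩ := hdbl
    have h3 : ∑ c ∈ C'.erase c2, cnt f.F c ρ1 = 1 := by
      have := Finset.add_sum_erase C' (fun c => cnt f.F c ρ1) hc2
      omega
    have hne : (C'.erase c2).Nonempty := by
      rw [Finset.nonempty_iff_ne_empty]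
      intro h
      rw [h] at h3
      simp at h3
    obtain ⟨c1, hc1⟩ := hne
    have hc1' := Finset.mem_of_mem_erase hc1
    have hc12 : c1 ≠ c2 := Finset.ne_of_mem_erase hc1
    have h4 : cnt f.F c1 ρ1 = 1 := by
      have h5 := Finset.single_le_sum (f := fun c => cnt f.F c ρ1)
        (fun i _ => Nat.zero_le _) hc1
      have h6 := hμf c1 hc1'
      omega
    have h5 : C'.erase c2 = {c1} := by
      refine Finset.eq_singleton_iff_unique_mem.2 ⟨hc1, fun c hc => ?_⟩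
      by_contra hcc
      have h6 := Finset.add_sum_erase (C'.erase c2) (fun c => cnt f.F c ρ1) hc1
      have h7 := Finset.single_le_sum (f := fun c => cnt f.F c ρ1)
        (fun i _ => Nat.zero_le _) (Finset.mem_erase.2 ⟨hcc, hc⟩)
      have h8 := hμf c (Finset.mem_of_mem_erase hc)
      omega
    refine ⟨c2, hC'C c2 hc2, c1, hC'C c1 hc1', hc12.symm, hnorm c2 hc2, hnorm c1 hc1', h2,
      by rw [← hfg c2 hc2]; exact h2, h4, by rw [← hfg c1 hc1']; exact h4, fun x hx => ?_⟩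
    obtain ⟨c, hc, hxc⟩ := hpt x hx
    by_cases hcc : c = c2
    · left
      rw [← hcc]
      exact hxc
    · right
      have : c ∈ C'.erase c2 := Finset.mem_erase.2 ⟨hcc, hc⟩
      rw [h5, Finset.mem_singleton] at this
      rw [← this]
      exact hxc
  · left
    have hone : ∀ c ∈ C', cnt f.F c ρ1 = 1 := by
      intro c hc
      have h1 := hμf c hc
      have h2 := hle c hc
      have h3 := hne3 c hc
      have h4 : cnt f.F c ρ1 ≠ 2 := fun h => hdbl ⟨c, hc, h⟩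
      omega
    have hcard3 : C'.card = 3 := by
      rw [← hs3, Finset.sum_congr rfl hone]
      simp
    obtain ⟨c0, c1, c2, h01, h02, h12, hCeq⟩ := Finset.card_eq_three.1 hcard3
    have m0 : c0 ∈ C' := by rw [hCeq]; simp
    have m1 : c1 ∈ C' := by rw [hCeq]; simp
    have m2 : c2 ∈ C' := by rw [hCeq]; simp
    have hm : ∀ i, (![c0, c1, c2] : Fin 3 → ℂ) i ∈ C' := by
      intro i
      fin_cases i
      · exact m0
      · exact m1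
      · exact m2
    refine ⟨![c0, c1, c2], fun i => ⟨hC'C _ (hm i), hnorm _ (hm i)⟩, ?_,
      fun i => ⟨hone _ (hm i), by rw [← hfg _ (hm i)]; exact hone _ (hm i)⟩, fun x hx => ?_⟩
    · intro i j hij
      fin_cases i <;> fin_cases j
      · rfl
      · exact absurd hij h01
      · exact absurd hij h02
      · exact absurd hij h01.symm
      · rfl
      · exact absurd hij h12
      · exact absurd hij h02.symm
      · exact absurd hij h12.symm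
      · rfl
    · obtain ⟨c, hc, hxc⟩ := hpt x hx
      rw [hCeq] at hc
      simp only [Finset.mem_insert, Finset.mem_singleton] at hc
      rcases hc with rfl | rfl | rfl
      · exact ⟨0, hxc⟩
      · exact ⟨1, hxc⟩
      · exact ⟨2, hxc⟩

end F0744E
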