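import Pool.Agent.Lib.MP_f0744f_nt.D.R5a
import Pool.Agent.Lib.MP_f0744f_nt.C.R5b
import Pool.Agent.Lib.MP_f0744f_nt.E.B0

/-! # Row Rc_1: the roots of a cubic polynomial -/

set_option autoImplicit false

open Polynomial

namespace F0744E

open F0744C F0744D

variable {S : Finset ℤ} {a b : ℤ}

/-- Otherwise a root `z` is in none of the discs, and the discs are disjoint, so the counts add up to at most `3 - 1` (`R5b_sum_countP` in `C/R5b.lean` for the multiset of
the roots without `z`, or with the additional predicate `· = z`). -/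
theorem all_cnt3 {F : ℚ[X]} (hF : F.natDegree = 3) {C : Finset ℂ} {ρ1 : ℝ}
    (hC : ∀ c ∈ C, ∀ c' ∈ C, c ≠ c' → 2 * ρ1 < ‖c - c'‖) (h : 3 ≤ ∑ c ∈ C, cnt F c ρ1) :
    ∀ z ∈ (F.map (algebraMap ℚ ℂ)).roots, ∃ c ∈ C, ‖z - c‖ ≤ ρ1 := by
  classical
  intro z hz
  by_contra hcon
  push Not at hcon
  obtain ⟨s, hs⟩ := Multiset.exists_cons_of_mem hz
  have h1 : ∀ c ∈ C, cnt F c ρ1 = s.countP (fun w => ‖w - c‖ ≤ ρ1) := by
    intro c hc
    have h2 : ¬ ‖z - c‖ ≤ ρ1 := not_le.2 (hcon c hc)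
    unfold cnt
    rw [hs, Multiset.countP_cons, if_neg h2, add_zero]
  have h3 : ∑ c ∈ C, s.countP (fun w => ‖w - c‖ ≤ ρ1) ≤ Multiset.card s := by
    refine R5b_sum_countP C (fun c w => ‖w - c‖ ≤ ρ1) ?_ _
    rintro c hc c' hc' hne w ⟨hw, hw'⟩
    have h4 := hC c hc c' hc' hne
    have h5 : ‖c - c'‖ ≤ ‖w - c'‖ + ‖w - c‖ := by
      have h6 : c - c' = (w - c') - (w - c) := by ring
      rw [h6]
      exact norm_sub_le _ _
    linarith
  rw [Finset.sum_congr rfl h1] at h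
  have h7 : Multiset.card (F.map (algebraMap ℚ ℂ)).roots ≤ 3 := by
    refine (Polynomial.card_roots' _).trans ?_
    rw [Polynomial.natDegree_map, hF]
  rw [hs, Multiset.card_cons] at h7
  omega

end F0744E
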