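import Pool.Agent.Lib.MP_f0744f_nt.E.Tau_1

/-! # Row Tau_2: the translation lemma -/

set_option autoImplicit false

open Polynomial

namespace F0744E

open F0744C F0744D

variable {S : Finset ℤ} {a b : ℤ}

variable {f : PM S a 3} {g : PM S b 3} {A : AbsoluteValue ℚ ℝ} {R m θ : ℝ} {J : ℕ} {T : Finset ℤ} {cl : ℤ → Bool}

/-- The difference of the two inequalities of `tau`: `A (c3 - 1) * A (z1 - z2) ≤ 2 R exp (- (ρ - 4 θ) m)`, `sep`, `2 ≤ exp (θ m)`; points `z1, z2`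
of `T` exist by `TB.both`. -/
theorem TB.tau3 (h : TB f g A R m θ J T cl) (hθ : θ ≤ 1 / 100000000) {c3 k : ℚ}
    (hc3 : A c3 ≤ Real.exp (2 * θ * m)) {ρ : ℝ} (hρ : 1 / 50000 ≤ ρ) (hρ1 : ρ ≤ 1 / 2)
    (hD : ∀ x ∈ S0 S a b, ∀ y ∈ S0 S a b, cl x = true → cl y = true →
      A ((x : ℚ) - y) ≤ R * Real.exp (-(ρ * m))) {i : Bool}
    (hk : ∀ x ∈ T, cl x = i → A (c3 * (f.ph x : ℚ) + k - g.ph x) ≤ R * Real.exp (-(ρ * m))) :
    A (c3 - 1) ≤ Real.exp (-((ρ - 6 * θ) * m)) := by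
  obtain ⟨x1, hx1, hx1c, -⟩ := h.both hθ true
  obtain ⟨x2, hx2, hx2c, -⟩ := h.both hθ false
  have hs1 := (h.base.Tm x1 hx1).1
  have hs2 := (h.base.Tm x2 hx2).1
  obtain ⟨e1, e2⟩ := h.tau hθ hc3 hρ hρ1 hD hk hs1 hx1c hs2 hx2c
  have hsep := h.sep x1 hs1 x2 hs2 (by rw [hx1c, hx2c]; decide)
  have hR : 0 < R := lt_of_lt_of_le one_pos h.base.R1
  have e3 : A ((c3 - 1) * ((x1 : ℚ) - x2)) ≤ 2 * (R * Real.exp (-((ρ - 4 * θ) * m))) := by
    have e4 : (c3 - 1) * ((x1 : ℚ) - x2) =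
        (c3 * (x1 : ℚ) + k - x1) + -(c3 * (x2 : ℚ) + k - x2) := by ring
    rw [e4]
    refine (A.add_le _ _).trans ?_
    rw [A.map_neg]
    linarith
  rw [A.map_mul] at e3
  have e5 : A (c3 - 1) * (R * Real.exp (-(θ * m))) ≤ 2 * (R * Real.exp (-((ρ - 4 * θ) * m))) :=
    (mul_le_mul_of_nonneg_left hsep (A.nonneg _)).trans e3
  have h2 : (2 : ℝ) ≤ Real.exp (θ * m) := by
    have h8 : (8 : ℝ) ≤ Real.exp (θ * m) := by
      rw [← Real.log_le_iff_le_exp (by norm_num)]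
      exact h.base.eight
    linarith
  have e6 : 2 * (R * Real.exp (-((ρ - 4 * θ) * m))) ≤
      Real.exp (-((ρ - 6 * θ) * m)) * (R * Real.exp (-(θ * m))) := by
    have e7 : Real.exp (-((ρ - 6 * θ) * m)) * (R * Real.exp (-(θ * m))) =
        Real.exp (θ * m) * (R * Real.exp (-((ρ - 4 * θ) * m))) := by
      have : Real.exp (-((ρ - 6 * θ) * m)) * Real.exp (-(θ * m)) =
          Real.exp (θ * m) * Real.exp (-((ρ - 4 * θ) * m)) := by
        rw [← Real.exp_add, ← Real.exp_add]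
        congr 1
        ring
      calc Real.exp (-((ρ - 6 * θ) * m)) * (R * Real.exp (-(θ * m)))
          = R * (Real.exp (-((ρ - 6 * θ) * m)) * Real.exp (-(θ * m))) := by ring
        _ = _ := by rw [this]; ring
    rw [e7]
    exact mul_le_mul_of_nonneg_right h2 (by positivity)
  exact le_of_mul_le_mul_right (e5.trans e6) (by positivity)

end F0744E
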