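import Pool.Agent.Lib.MP_f0744f_nt.E.M5c
import Pool.Agent.Lib.MP_f0744f_nt.E.P3

/-! # Row Tau_1: the translation lemma -/

set_option autoImplicit false

open Polynomial

namespace F0744E

open F0744C F0744D

variable {S : Finset ℤ} {a b : ℤ}

variable {f : PM S a 3} {g : PM S b 3} {A : AbsoluteValue ℚ ℝ} {R m θ : ℝ} {J : ℕ} {T : Finset ℤ} {cl : ℤ → Bool}

/-- the common computation -/
theorem Tau_1_comp {A : AbsoluteValue ℚ ℝ} {c3 k z p q : ℚ} {c D1 D2 D3 : ℝ} (hc0 : A c3 ≤ c)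
    (hD1 : A (z - p) ≤ D1) (hD2 : A (c3 * p + k - q) ≤ D2) (hD3 : A (q - z) ≤ D3) :
    A (c3 * z + k - z) ≤ c * D1 + D2 + D3 := by
  have h1 : c3 * z + k - z = c3 * (z - p) + (c3 * p + k - q) + (q - z) := by ring
  rw [h1]
  refine (A.add_le _ _).trans (add_le_add ((A.add_le _ _).trans (add_le_add ?_ hD2)) hD3)
  rw [A.map_mul]
  exact mul_le_mul hc0 hD1 (A.nonneg _) ((A.nonneg _).trans hc0)

/-- `x` from `TB.both`: `c3 z1 + k - z1 = c3 (z1 - f.ph x) + (c3 f.ph x + k - g.ph x) + (g.ph x - z1)`, each difference of points of the class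
`true` at most `R exp (- ρ m)` (`hD`): size at most `(2 + exp (2 θ m)) R exp (- ρ m) ≤ R exp (- (ρ - 4 θ) m)`. `x'` from `TB.hitf` for `g`
(`h.symm`): `cl (g.ph x') = false`. If `cl (f.ph x') = true` then
`c3 f.ph x' + k - g.ph x'` small and `c3 z1 + k - z1` small and `f.ph x' - z1` small give `A (g.ph x' - z1) < R exp (- θ m)`, against `sep`. So
`cl (f.ph x') = false`, and two points of the class `false` have distance at most `R exp (- (1 - 3 θ) m)` (`PB.close`, `simf`); the same computation. -/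
theorem TB.tau (h : TB f g A R m θ J T cl) (hθ : θ ≤ 1 / 100000000) {c3 k : ℚ}
    (hc3 : A c3 ≤ Real.exp (2 * θ * m)) {ρ : ℝ} (hρ : 1 / 50000 ≤ ρ) (hρ1 : ρ ≤ 1 / 2)
    (hD : ∀ x ∈ S0 S a b, ∀ y ∈ S0 S a b, cl x = true → cl y = true →
      A ((x : ℚ) - y) ≤ R * Real.exp (-(ρ * m))) {i : Bool}
    (hk : ∀ x ∈ T, cl x = i → A (c3 * (f.ph x : ℚ) + k - g.ph x) ≤ R * Real.exp (-(ρ * m)))
    {z1 z2 : ℤ} (h1 : z1 ∈ S0 S a b) (h1c : cl z1 = true) (h2 : z2 ∈ S0 S a b)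
    (h2c : cl z2 = false) :
    A (c3 * (z1 : ℚ) + k - z1) ≤ R * Real.exp (-((ρ - 4 * θ) * m)) ∧
      A (c3 * (z2 : ℚ) + k - z2) ≤ R * Real.exp (-((ρ - 4 * θ) * m)) := by
  have hm := h.base.m0
  have hR : 0 < R := lt_of_lt_of_le one_pos h.base.R1
  obtain ⟨E, hE⟩ : ∃ E, E = Real.exp (θ * m) := ⟨_, rfl⟩
  have hE8 : 8 ≤ E := hE ▸ h.base.e8
  have hE2 : Real.exp (2 * θ * m) = E ^ 2 := by
    rw [hE, ← Real.exp_nat_mul]
    congr 1
    push_cast
    ring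
  obtain ⟨D, hDd⟩ : ∃ D, D = R * Real.exp (-(ρ * m)) := ⟨_, rfl⟩
  have hD0 : 0 < D := by
    rw [hDd]
    exact mul_pos hR (Real.exp_pos _)
  have hgoal : R * Real.exp (-((ρ - 4 * θ) * m)) = D * E ^ 4 := by
    rw [hDd, hE, ← Real.exp_nat_mul, mul_assoc, ← Real.exp_add]
    congr 2
    push_cast
    ring
  have hEE : E ^ 2 + 2 ≤ E ^ 4 := by
    have h3 : 64 ≤ E ^ 2 := by nlinarith only [hE8]
    nlinarith only [h3]
  rw [hgoal]
  rw [hE2] at hc3
  rw [← hDd] at hD hk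
  -- the first point
  have hz1 : A (c3 * (z1 : ℚ) + k - z1) ≤ D * E ^ 4 := by
    obtain ⟨x, hx, hxi, hxf, hxg⟩ := h.both hθ i
    obtain ⟨-, hf0, hg0⟩ := h.base.Tm x hx
    refine (Tau_1_comp hc3 (hD z1 h1 _ hf0 h1c hxf) (hk x hx hxi) (hD _ hg0 z1 h1 hxg h1c)).trans ?_
    have h4 := mul_le_mul_of_nonneg_left hEE hD0.le
    linarith only [h4]
  refine ⟨hz1, ?_⟩
  obtain ⟨x, hx, hxi, hxg⟩ := h.symm.hitf hθ i
  obtain ⟨-, hf0, hg0⟩ := h.base.Tm x hx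
  have hxf : cl (f.ph x) = false := by
    by_contra hne
    rw [Bool.not_eq_false] at hne
    have h5 : R * Real.exp (-(θ * m)) ≤ A (((g.ph x : ℤ) : ℚ) - z1) := by
      apply h.sep _ hg0 _ h1
      rw [hxg, h1c]
      decide
    have h6 : (((g.ph x : ℤ) : ℚ) - z1) = (c3 * (z1 : ℚ) + k - z1) + (c3 * (((f.ph x : ℤ) : ℚ) - z1) -
        (c3 * ((f.ph x : ℤ) : ℚ) + k - ((g.ph x : ℤ) : ℚ))) := by ring
    have h7 : A (((g.ph x : ℤ) : ℚ) - z1) ≤ D * E ^ 4 + (E ^ 2 * D + D) := by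
      rw [h6]
      refine (A.add_le _ _).trans (add_le_add hz1 ((A.sub_le_add _ _).trans (add_le_add ?_ (hk x hx hxi))))
      rw [A.map_mul]
      exact mul_le_mul hc3 (hD _ hf0 _ h1 hne h1c) (A.nonneg _) (by positivity)
    have h8 : D * E ^ 4 + (E ^ 2 * D + D) ≤ D * E ^ 5 := by
      have h9 : 2 * E ^ 4 ≤ E ^ 5 := by
        have : 0 < E ^ 4 := by positivity
        nlinarith only [this, hE8]
      have h10 : D * (E ^ 4 + E ^ 2 + 1) ≤ D * E ^ 5 := by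
        apply mul_le_mul_of_nonneg_left _ hD0.le
        linarith only [h9, hEE]
      linarith only [h10]
    have h11 : D * E ^ 5 < R * Real.exp (-(θ * m)) := by
      rw [hDd, hE, ← Real.exp_nat_mul, mul_assoc, ← Real.exp_add]
      apply mul_lt_mul_of_pos_left _ hR
      apply Real.exp_lt_exp.2
      push_cast
      have h12 : 0 < (ρ - 6 * θ) * m := mul_pos (by linarith only [hρ, hθ]) hm
      linarith only [h12]
    linarith only [h5, h7, h8, h11]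
  have hcl : R * Real.exp (-((1 - 3 * θ) * m)) ≤ D := by
    rw [hDd]
    apply mul_le_mul_of_nonneg_left _ hR.le
    apply Real.exp_le_exp.2
    have h12 : 0 ≤ (1 - 3 * θ - ρ) * m := mul_nonneg (by linarith only [hρ1, hθ]) hm.le
    linarith only [h12]
  have h13 : A ((z2 : ℚ) - ((f.ph x : ℤ) : ℚ)) ≤ D :=
    (h.base.close h2 hf0 (h.simf _ h2 _ hf0 h2c hxf)).trans hcl
  have h14 : A (((g.ph x : ℤ) : ℚ) - z2) ≤ D :=
    (h.base.close hg0 h2 (h.simf _ hg0 _ h2 hxg h2c)).trans hcl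
  refine (Tau_1_comp hc3 h13 (hk x hx hxi) h14).trans ?_
  have h4 := mul_le_mul_of_nonneg_left hEE hD0.le
  linarith only [h4]

end F0744E
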