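import Pool.Agent.Lib.MP_f0744f_nt.E.B0
import Pool.Agent.Lib.MP_f0744f_nt.D.X1

/-! # Row Xa: the points -/

set_option autoImplicit false

open Polynomial

namespace F0744E

open F0744C F0744D

variable {S : Finset ℤ} {a b : ℤ}

/-- at most two points of `S \ {c}` are mapped outside `S0` -/
theorem Xa_card {c : ℤ} {e : ℕ} (f : PM S c e) :
    ((S.erase c).filter (fun x => f.ph x ∉ S0 S a b)).card ≤ 2 := by
  classical
  have h1 : ((S.erase c).filter (fun x => f.ph x ∉ S0 S a b)).card ≤ ({a, b} : Finset ℤ).card := by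
    apply Finset.card_le_card_of_injOn f.ph
    · intro x hx
      have hx1 := Finset.mem_filter.1 (Finset.mem_coe.1 hx)
      have hx2 := Finset.mem_erase.1 hx1.1
      have hx3 := f.maps x hx2.2 hx2.1
      have hx4 := hx1.2
      rw [mem_S0] at hx4
      rw [Finset.mem_coe, Finset.mem_insert, Finset.mem_singleton]
      by_contra hne
      rw [not_or] at hne
      exact hx4 ⟨hx3, hne.1, hne.2⟩
    · intro x hx y hy hxy
      have hx1 := Finset.mem_erase.1 (Finset.mem_filter.1 (Finset.mem_coe.1 hx)).1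
      have hy1 := Finset.mem_erase.1 (Finset.mem_filter.1 (Finset.mem_coe.1 hy)).1
      exact f.inj x hx1.2 y hy1.2 hx1.1 hy1.1 hxy
  exact h1.trans Finset.card_le_two

/-- `T` = the `x ∈ Dm S a f.ph J ∩ Dm S b g.ph J` with `x, f.ph x, g.ph x ∈ S0 S a b`. By `Dm_card` (used in `exists_T`, `D/X1.lean`) at most `J` points of `S` are not in
`Dm S a f.ph J`, the same for `g`; at most 2 points of `S` are not in `S0`; `f.ph` is injective on `S \ {a}` with values in `S`, so at most `2` points of `S \ {a}` have `f.ph x ∉ S0`; the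
same for `g`. -/
theorem exists_T3 (f : PM S a 3) (g : PM S b 3) (J : ℕ) :
    ∃ T : Finset ℤ, T ⊆ Dm S a f.ph J ∧ T ⊆ Dm S b g.ph J ∧
      (∀ x ∈ T, x ∈ S0 S a b ∧ f.ph x ∈ S0 S a b ∧ g.ph x ∈ S0 S a b) ∧
      S.card ≤ T.card + 2 * J + 8 := by
  classical
  have h1 : (S \ Dm S a f.ph J).card ≤ J := by
    have h := Dm_card f J
    rw [Finset.card_sdiff_of_subset (Dm_sub S a f.ph J)]
    omega
  have h2 : (S \ Dm S b g.ph J).card ≤ J := by
    have h := Dm_card g J
    rw [Finset.card_sdiff_of_subset (Dm_sub S b g.ph J)]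
    omega
  have h3 := Xa_card (a := a) (b := b) f
  have h4 := Xa_card (a := a) (b := b) g
  have h0 : ({a, b} : Finset ℤ).card ≤ 2 := Finset.card_le_two
  refine ⟨(Dm S a f.ph J ∩ Dm S b g.ph J).filter
    (fun x => x ∈ S0 S a b ∧ f.ph x ∈ S0 S a b ∧ g.ph x ∈ S0 S a b), ?_, ?_, ?_, ?_⟩
  · intro x hx
    exact (Finset.mem_inter.1 (Finset.mem_filter.1 hx).1).1
  · intro x hx
    exact (Finset.mem_inter.1 (Finset.mem_filter.1 hx).1).2
  · intro x hx
    exact (Finset.mem_filter.1 hx).2
  · have h5 : S ⊆ ((((((Dm S a f.ph J ∩ Dm S b g.ph J).filter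
        (fun x => x ∈ S0 S a b ∧ f.ph x ∈ S0 S a b ∧ g.ph x ∈ S0 S a b)) ∪
        (S \ Dm S a f.ph J)) ∪ (S \ Dm S b g.ph J)) ∪ {a, b}) ∪
        (S.erase a).filter (fun x => f.ph x ∉ S0 S a b)) ∪
        (S.erase b).filter (fun x => g.ph x ∉ S0 S a b) := by
      intro x hx
      simp only [Finset.mem_union, Finset.mem_filter, Finset.mem_inter, Finset.mem_sdiff,
        Finset.mem_insert, Finset.mem_singleton, Finset.mem_erase]
      by_cases e1 : x ∈ Dm S a f.ph J
      · by_cases e2 : x ∈ Dm S b g.ph J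
        · by_cases e3 : x = a ∨ x = b
          · exact Or.inl (Or.inl (Or.inr e3))
          · rw [not_or] at e3
            by_cases e4 : f.ph x ∈ S0 S a b
            · by_cases e5 : g.ph x ∈ S0 S a b
              · exact Or.inl (Or.inl (Or.inl (Or.inl (Or.inl
                  ⟨⟨e1, e2⟩, mem_S0.2 ⟨hx, e3.1, e3.2⟩, e4, e5⟩))))
              · exact Or.inr ⟨⟨e3.2, hx⟩, e5⟩
            · exact Or.inl (Or.inr ⟨⟨e3.1, hx⟩, e4⟩)
        · exact Or.inl (Or.inl (Or.inl (Or.inr ⟨hx, e2⟩)))
      · exact Or.inl (Or.inl (Or.inl (Or.inl (Or.inr ⟨hx, e1⟩))))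
    refine (Finset.card_le_card h5).trans ?_
    refine (Finset.card_union_le _ _).trans ?_
    refine (Nat.add_le_add_right (Finset.card_union_le _ _) _).trans ?_
    refine (Nat.add_le_add_right (Nat.add_le_add_right (Finset.card_union_le _ _) _) _).trans ?_
    refine (Nat.add_le_add_right (Nat.add_le_add_right (Nat.add_le_add_right
      (Finset.card_union_le _ _) _) _) _).trans ?_
    refine (Nat.add_le_add_right (Nat.add_le_add_right (Nat.add_le_add_right
      (Nat.add_le_add_right (Finset.card_union_le _ _) _) _) _) _).trans ?_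
    omega

end F0744E
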