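import Pool.Agent.Lib.MP_f0744f_nt.E.K8

/-! # Row Z1: the change of variables -/

set_option autoImplicit false

open Polynomial

namespace F0744E

open F0744C F0744D

variable {S : Finset ℤ} {a b : ℤ}

/-- `P_F (t) = mu (F (mu⁻¹ t + s₀) - s₀)`. If `P_G = P_F` then `G = F` (`Polynomial.funext`, `mu ≠ 0`). If `P_G = c' - P_F`, `P_F (c' - t) = c' - P_F (t)` then with `c = mu⁻¹ c' + 2 s₀`: `G (x) = c - F (x)`, `F (c - x) = c - F (x)`. Model:
`conj_iter` in `D/Z1a.lean`. -/
theorem conj3 {F G : ℚ[X]} {s₀ mu : ℚ} (hmu : mu ≠ 0)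
    (h : Sym3 (C mu * (F.comp (C mu⁻¹ * X + C s₀) - C s₀))
      (C mu * (G.comp (C mu⁻¹ * X + C s₀) - C s₀))) : Sym3 F G := by
  have key : ∀ (H : ℚ[X]) (u : ℚ),
      eval (mu * (u - s₀)) (C mu * (H.comp (C mu⁻¹ * X + C s₀) - C s₀)) =
        mu * (eval u H - s₀) := by
    intro H u
    have h2 : mu⁻¹ * (mu * (u - s₀)) + s₀ = u := by
      field_simp
      ring
    simp only [eval_mul, eval_C, eval_sub, eval_comp, eval_add, eval_X, h2]
  rcases h with h | ⟨c', h1, h2⟩
  · left
    refine Polynomial.funext fun u => ?_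
    have h3 := congrArg (eval (mu * (u - s₀))) h
    rw [key, key] at h3
    have h4 := mul_left_cancel₀ hmu h3
    linarith
  · right
    refine ⟨mu⁻¹ * c' + 2 * s₀, ?_, ?_⟩
    · refine Polynomial.funext fun u => ?_
      have h3 := congrArg (eval (mu * (u - s₀))) h1
      rw [eval_sub, key, key, eval_C] at h3
      rw [eval_sub, eval_C]
      have h4 : mu * eval u G = mu * (mu⁻¹ * c' + 2 * s₀ - eval u F) := by
        have h5 : mu * (mu⁻¹ * c') = c' := by
          field_simp
        linear_combination h3 - h5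
      exact mul_left_cancel₀ hmu h4
    · refine Polynomial.funext fun u => ?_
      have h3 := congrArg (eval (mu * (u - s₀))) h2
      rw [eval_comp, eval_sub, eval_sub, key, eval_C, eval_X] at h3
      have h6 : c' - mu * (u - s₀) = mu * ((mu⁻¹ * c' + 2 * s₀ - u) - s₀) := by
        field_simp
        ring
      rw [h6, key] at h3
      rw [eval_comp, eval_sub, eval_sub, eval_C, eval_X]
      have h5 : mu * (mu⁻¹ * c') = c' := by
        field_simp
      have h4 : mu * eval (mu⁻¹ * c' + 2 * s₀ - u) F = mu * (mu⁻¹ * c' + 2 * s₀ - eval u F) := by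
        linear_combination h3 - h5
      exact mul_left_cancel₀ hmu h4

/-- the conclusion for real polynomials -/
def SymR (f g : ℝ[X]) : Prop := g = f ∨ ∃ c : ℚ, g = C (c : ℝ) - f ∧ f.comp (C (c : ℝ) - X) = C (c : ℝ) - f

/-- `Polynomial.map_comp`, `map_sub`, `map_C`. -/
theorem sym_map {F G : ℚ[X]} (h : Sym3 F G) :
    SymR (F.map (algebraMap ℚ ℝ)) (G.map (algebraMap ℚ ℝ)) := by
  rcases h with h | ⟨c, h1, h2⟩
  · left
    rw [h]
  · right
    refine ⟨c, ?_, ?_⟩
    · rw [h1, Polynomial.map_sub, map_C]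
      rfl
    · have h3 := congrArg (Polynomial.map (algebraMap ℚ ℝ)) h2
      rw [Polynomial.map_comp, Polynomial.map_sub, Polynomial.map_sub, map_C, map_X] at h3
      exact h3

end F0744E
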