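import Pool.Agent.Lib.MP_f0744f_nt.E.Z2_1

/-! # Row Z2_2: the reduction to the integral theorem -/

set_option autoImplicit false

open Polynomial

namespace F0744E

open F0744C F0744D

variable {S : Finset ℤ} {a b : ℤ}

/-- `k` common last points are removed. -/
theorem Z2_2_last {N0 : ℕ}
    (h : ∀ (S : Finset ℤ) (a b : ℤ), a ∈ S → b ∈ S → a ≠ b → (0 : ℤ) ∈ S → N0 ≤ S.card →
      (∀ p : ℕ, p.Prime → ∃ x ∈ S, ∃ y ∈ S, ¬ (p : ℤ) ∣ x - y) →
      ∀ (f : PM S a 3) (g : PM S b 3), Sym3 f.F g.F)
    {f g : ℝ[X]} (hf : f.natDegree = 3) (hg : g.natDegree = 3) (k : ℕ) {x y : ℕ → ℚ} {m : ℕ}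
    (hm : N0 ≤ m) (hmd : 4 ≤ m) (hx : F0744.Orb f x (m + k)) (hy : F0744.Orb g y (m + k))
    (himg : (Finset.range (m + k)).image x = (Finset.range (m + k)).image y) :
    SymR f g ∨ ∀ i < k, x (m + i) = y (m + i) := by
  induction k with
  | zero =>
    exact Or.inr fun i hi => absurd hi (Nat.not_lt_zero i)
  | succ k ih =>
    have hx' : F0744.Orb f x ((m + k) + 1) := hx
    have hy' : F0744.Orb g y ((m + k) + 1) := hy
    have himg' : (Finset.range ((m + k) + 1)).image x = (Finset.range ((m + k) + 1)).image y := himg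
    by_cases hlast : x (m + k) = y (m + k)
    swap
    · exact Or.inl (red_ne3 h hf hg (by omega) (by omega) hx' hy' himg' hlast)
    have himg2 := F0744.img_pred hx'.inj hy'.inj himg' hlast
    rcases ih hx'.pred hy'.pred himg2 with h1 | h1
    · exact Or.inl h1
    refine Or.inr fun i hi => ?_
    rcases Nat.lt_succ_iff_lt_or_eq.1 hi with h2 | h2
    · exact h1 i h2
    · rw [h2]
      exact hlast

/-- The same proof as `red_main'` in `D/Z2.lean` (with `Z2_last`): either the conclusion holds or `x (m + i) = y (m + i)` for `i < k`; in the last case with `k = 8` the polynomials agree, `g = f`. -/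
theorem red_main3 (h : Main3) : ∃ M : ℕ, ∀ S : Finset ℚ, M ≤ S.card →
    ∀ f g : ℝ[X], f.natDegree = 3 → g.natDegree = 3 → Compresses f S → Compresses g S →
      SymR f g := by
  obtain ⟨N0, h⟩ := h
  refine ⟨N0 + 20, fun S hS f g hf hg hcf hcg => ?_⟩
  obtain ⟨x, hximg, hx⟩ := F0744.orb_of_compresses (show F0744.Compresses f S from hcf)
  obtain ⟨y, hyimg, hy⟩ := F0744.orb_of_compresses (show F0744.Compresses g S from hcg)
  obtain ⟨m, hm⟩ : ∃ m, S.card = m + 8 := ⟨S.card - 8, by omega⟩
  rw [hm] at hx hy hximg hyimg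
  rcases Z2_2_last h hf hg 8 (by omega) (by omega) hx hy (by rw [hximg, hyimg]) with hlast | hlast
  · exact hlast
  left
  have hfg : f = g := by
    apply Polynomial.eq_of_natDegree_lt_card_of_eval_eq' f g
      ((Finset.range 7).image (fun i => ((x (m + i) : ℚ) : ℝ)))
    · intro t ht
      obtain ⟨i, hi, rfl⟩ := Finset.mem_image.1 ht
      have hi' := Finset.mem_range.1 hi
      have e1 := hx.step (m + i) (by omega)
      have e2 := hy.step (m + i) (by omega)
      have e3 := hlast i (by omega)
      have e4 := hlast (i + 1) (by omega)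
      show f.eval ((x (m + i) : ℚ) : ℝ) = g.eval ((x (m + i) : ℚ) : ℝ)
      have e5 : x (m + i + 1) = y (m + i + 1) := e4
      rw [e1, e5, ← e2, e3]
    · rw [Finset.card_image_of_injOn, Finset.card_range, hf, hg]
      · norm_num
      · intro i hi j hj hij
        have hi' := Finset.mem_range.1 (Finset.mem_coe.1 hi)
        have hj' := Finset.mem_range.1 (Finset.mem_coe.1 hj)
        have h0 : ((x (m + i) : ℚ) : ℝ) = ((x (m + j) : ℚ) : ℝ) := hij
        have h1 : x (m + i) = x (m + j) := by exact_mod_cast h0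
        have h2 := hx.inj (show m + i ∈ Set.Iio (m + 8) from by
            rw [Set.mem_Iio]; omega)
          (show m + j ∈ Set.Iio (m + 8) from by rw [Set.mem_Iio]; omega) h1
        omega
  exact hfg.symm

end F0744E
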