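import Pool.Agent.Lib.MP_f0744f_nt.E.Z3_1

/-! # Row Z3_2: cycles: the reflected map -/

set_option autoImplicit false

open Polynomial

namespace F0744E

open F0744C F0744D

variable {S : Finset ℤ} {a b : ℤ}

theorem Z3_2_mk {φ : ℚ → ℚ} {S : Finset ℚ} {x₀ : ℚ}
    (hx : (Finset.range S.card).image (fun i => φ^[i] x₀) = S) {a b : ℕ} (ha : a ≤ 1)
    (hb : S.card ≤ b) (hb' : b ≤ S.card + 1) (hab : a < b)
    (hinj : ∀ i, a ≤ i → i < b → ∀ j, a ≤ j → j < b → φ^[i] x₀ = φ^[j] x₀ → i = j)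
    (hcyc : φ^[b] x₀ = φ^[a] x₀) :
    ∃ Z : Finset ℚ, Cyc φ Z ∧ (Z \ S).card ≤ 1 ∧ (S \ Z).card ≤ 1 ∧ ∀ x ∈ S, φ x ∈ Z := by
  have hmem : ∀ i, i < S.card → φ^[i] x₀ ∈ S := by
    intro i hi
    have h1 : φ^[i] x₀ ∈ (Finset.range S.card).image (fun i => φ^[i] x₀) :=
      Finset.mem_image.2 ⟨i, Finset.mem_range.2 hi, rfl⟩
    rw [hx] at h1
    exact h1
  have hex : ∀ s ∈ S, ∃ i, i < S.card ∧ φ^[i] x₀ = s := by
    intro s hs
    rw [← hx] at hs
    obtain ⟨i, hi, h⟩ := Finset.mem_image.1 hs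
    exact ⟨i, Finset.mem_range.1 hi, h⟩
  obtain ⟨Z, hZ⟩ : ∃ Z : Finset ℚ, Z = (Finset.Ico a b).image (fun i => φ^[i] x₀) := ⟨_, rfl⟩
  have hZm : ∀ i, a ≤ i → i < b → φ^[i] x₀ ∈ Z := by
    intro i h1 h2
    rw [hZ]
    exact Finset.mem_image.2 ⟨i, Finset.mem_Ico.2 ⟨h1, h2⟩, rfl⟩
  have hZe : ∀ z ∈ Z, ∃ i, a ≤ i ∧ i < b ∧ φ^[i] x₀ = z := by
    intro z hz
    rw [hZ] at hz
    obtain ⟨i, hi, h⟩ := Finset.mem_image.1 hz
    exact ⟨i, (Finset.mem_Ico.1 hi).1, (Finset.mem_Ico.1 hi).2, h⟩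
  have hcard : Z.card = b - a := by
    rw [hZ, Finset.card_image_of_injOn, Nat.card_Ico]
    intro i hi j hj hij
    rw [Finset.coe_Ico, Set.mem_Ico] at hi hj
    exact hinj i hi.1 hi.2 j hj.1 hj.2 hij
  have hit : ∀ i : ℕ, φ^[i] (φ^[a] x₀) = φ^[i + a] x₀ := fun i =>
    (Function.iterate_add_apply φ i a x₀).symm
  refine ⟨Z, ⟨φ^[a] x₀, hZm a le_rfl hab, ?_, ?_⟩, ?_, ?_, ?_⟩
  · rw [hcard]
    ext z
    constructor
    · intro hz
      obtain ⟨i, hi, h⟩ := Finset.mem_image.1 hz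
      have hi' := Finset.mem_range.1 hi
      simp only [hit] at h
      rw [← h]
      exact hZm _ (by omega) (by omega)
    · intro hz
      obtain ⟨i, h1, h2, h⟩ := hZe z hz
      refine Finset.mem_image.2 ⟨i - a, Finset.mem_range.2 (by omega), ?_⟩
      simp only [hit]
      rw [show i - a + a = i by omega]
      exact h
  · rw [hcard, hit, show b - a + a = b by omega]
    exact hcyc
  · refine (Finset.card_le_card (t := {φ^[S.card] x₀}) ?_).trans (by simp)
    intro z hz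
    rw [Finset.mem_sdiff] at hz
    obtain ⟨i, h1, h2, h⟩ := hZe z hz.1
    rw [Finset.mem_singleton, ← h]
    have h3 : ¬ i < S.card := fun h3 => hz.2 (h ▸ hmem i h3)
    rw [show i = S.card by omega]
  · refine (Finset.card_le_card (t := {x₀}) ?_).trans (by simp)
    intro z hz
    rw [Finset.mem_sdiff] at hz
    obtain ⟨i, h1, h⟩ := hex z hz.1
    rw [Finset.mem_singleton, ← h]
    have h3 : ¬ a ≤ i := fun h3 => hz.2 (h ▸ hZm i h3 (by omega))
    rw [show i = 0 by omega]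
    rfl
  · intro x hxS
    obtain ⟨i, h1, h⟩ := hex x hxS
    have h2 : φ x = φ^[i + 1] x₀ := by
      rw [Function.iterate_succ_apply', h]
    rw [h2]
    by_cases h3 : i + 1 < b
    · exact hZm _ (by omega) h3
    · rw [show i + 1 = b by omega, hcyc]
      exact hZm a le_rfl hab

/-- `refl_end`; `N = S.card`, `x i = φ^[i] x₀`, `u = x N`. The cases: `Z = S`; `Z = S \ {x₀}`; `Z = S ∪ {u}` (if `u ∈ S`, `u = x j`, then `x 0 = φ u = x (j + 1)`: impossible, or `j = N - 1`: then `u` is a fixed point and `x 0 = u`); `Z = (S \ {x₀}) ∪ {u}` (if `u ∈ S` then `u = x₀`: first case). -/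
theorem refl_cyc {φ : ℚ → ℚ} {c : ℚ} (hφ : ∀ x, φ (c - x) = c - φ x) {S : Finset ℚ}
    (hS : 8 ≤ S.card) (h1 : Cmp φ S) (h2 : Cmp (fun x => c - φ x) S) :
    ∃ Z : Finset ℚ, Cyc φ Z ∧ (Z \ S).card ≤ 1 ∧ (S \ Z).card ≤ 1 ∧ ∀ x ∈ S, φ x ∈ Z := by
  obtain ⟨x₀, hx₀, hx⟩ := h1
  obtain ⟨y₀, hy₀, hy⟩ := h2
  have hend := refl_end hφ hS hx hy
  have hinjS : ∀ i, i < S.card → ∀ j, j < S.card → φ^[i] x₀ = φ^[j] x₀ → i = j := by
    have hc : ((Finset.range S.card).image (fun i => φ^[i] x₀)).card = (Finset.range S.card).card := by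
      rw [hx, Finset.card_range]
    have hi := Finset.injOn_of_card_image_eq hc
    intro i h1 j h2 h3
    exact hi (by simpa using h1) (by simpa using h2) h3
  have hex : ∀ s ∈ S, ∃ i, i < S.card ∧ φ^[i] x₀ = s := by
    intro s hs
    rw [← hx] at hs
    obtain ⟨i, hi, h⟩ := Finset.mem_image.1 hs
    exact ⟨i, Finset.mem_range.1 hi, h⟩
  have hmem : ∀ i, i < S.card → φ^[i] x₀ ∈ S := by
    intro i hi
    have h1 : φ^[i] x₀ ∈ (Finset.range S.card).image (fun i => φ^[i] x₀) :=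
      Finset.mem_image.2 ⟨i, Finset.mem_range.2 hi, rfl⟩
    rw [hx] at h1
    exact h1
  have caseA : φ^[S.card] x₀ = x₀ → ∃ Z : Finset ℚ, Cyc φ Z ∧ (Z \ S).card ≤ 1 ∧
      (S \ Z).card ≤ 1 ∧ ∀ x ∈ S, φ x ∈ Z := fun h =>
    Z3_2_mk hx (a := 0) (b := S.card) (by omega) le_rfl (by omega) (by omega)
      (fun i _ hi j _ hj hij => hinjS i hi j hj hij) h
  have caseB : φ^[S.card] x₀ = φ x₀ → ∃ Z : Finset ℚ, Cyc φ Z ∧ (Z \ S).card ≤ 1 ∧
      (S \ Z).card ≤ 1 ∧ ∀ x ∈ S, φ x ∈ Z := fun h =>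
    Z3_2_mk hx (a := 1) (b := S.card) (by omega) le_rfl (by omega) (by omega)
      (fun i _ hi j _ hj hij => hinjS i hi j hj hij) h
  -- if `x N` is not in `S`, then `x` is injective on `[0, N]`
  have hinj' : φ^[S.card] x₀ ∉ S → ∀ i, i < S.card + 1 → ∀ j, j < S.card + 1 →
      φ^[i] x₀ = φ^[j] x₀ → i = j := by
    intro hu i hi j hj hij
    by_cases hi' : i < S.card
    · by_cases hj' : j < S.card
      · exact hinjS i hi' j hj' hij
      · exfalso
        apply hu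
        rw [show S.card = j by omega, ← hij]
        exact hmem i hi'
    · by_cases hj' : j < S.card
      · exfalso
        apply hu
        rw [show S.card = i by omega, hij]
        exact hmem j hj'
      · omega
  rcases hend with h | h | h | h
  · exact caseA h
  · exact caseB h
  · by_cases hu : φ^[S.card] x₀ ∈ S
    · apply caseA
      obtain ⟨j, hj, hju⟩ := hex _ hu
      -- `x (j + 1) = x (N + 1) = x 0`
      have e1 : φ^[j + 1] x₀ = x₀ := by
        rw [Function.iterate_succ_apply', hju, ← Function.iterate_succ_apply' φ, h]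
      by_cases hj1 : j + 1 < S.card
      · have := hinjS (j + 1) hj1 0 (by omega) e1
        omega
      · rw [show j + 1 = S.card by omega] at e1
        exact e1
    · exact Z3_2_mk hx (a := 0) (b := S.card + 1) (by omega) (by omega) le_rfl (by omega)
        (fun i _ hi j _ hj hij => hinj' hu i hi j hj hij) h
  · by_cases hu : φ^[S.card] x₀ ∈ S
    · obtain ⟨j, hj, hju⟩ := hex _ hu
      have e1 : φ^[j + 1] x₀ = φ x₀ := by
        rw [Function.iterate_succ_apply', hju, ← Function.iterate_succ_apply' φ, h]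
      by_cases hj1 : j + 1 < S.card
      · have h3 := hinjS (j + 1) hj1 1 (by omega) e1
        have h4 : j = 0 := by omega
        apply caseA
        rw [← hju, h4]
        rfl
      · rw [show j + 1 = S.card by omega] at e1
        exact caseB e1
    · exact Z3_2_mk hx (a := 1) (b := S.card + 1) (by omega) (by omega) le_rfl (by omega)
        (fun i _ hi j _ hj hij => hinj' hu i hi j hj hij) h

end F0744E
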