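import Pool.Agent.Lib.MP_f0744f_nt.D.ZDefs
import Pool.Agent.Lib.MP_f0744f_nt.E.Defs

/-! # Row Z3_1: cycles: the reflected map -/

set_option autoImplicit false

open Polynomial

namespace F0744E

open F0744C F0744D

variable {S : Finset ℤ} {a b : ℤ}

/-- `x i = φ^[i] x₀`, `i < N = S.card`, the elements of `S`; `ψ x = c - φ x`, `y i = ψ^[i] y₀`. `σ x = c - x` commutes with `φ`, so `ψ (ψ x) = φ (φ x)`. Suppose neither `φ (x (N - 1))` nor `φ (φ (x (N - 1)))` is `x 0` or `x 1`. If `x 0 = y i` or `x 1 = y i` with `i ≥ 2` then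
`y (i - 2) = x j` and `φ (φ (x j)) ∈ {x 0, x 1}`, impossible (`j + 2 < N`: the `x` are different; `j = N - 2`, `N - 1`: excluded). So `{x 0, x 1} = {y 0, y 1}`. If `y 0 = x 0`, `y 1 = x 1`: `x 1 = ψ (x 0) = σ (x 1)`, `x 2 = φ (φ (x 0)) = y 2 = ψ (x 1) = σ (x 2)`, so
`2 x 1 = c = 2 x 2`, impossible. If `y 0 = x 1`, `y 1 = x 0`: `x 0 = y 1 = σ (x 2)`, `x 2 = y 3 = ψ (y 2)`, `y 2 = φ (φ (x 1)) = x 3`, so `x 2 = σ (x 4)`, `x 4 = σ (x 2) = x 0`, impossible. -/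
theorem refl_end {φ : ℚ → ℚ} {c : ℚ} (hφ : ∀ x, φ (c - x) = c - φ x) {S : Finset ℚ}
    (hS : 8 ≤ S.card) {x₀ y₀ : ℚ}
    (hx : (Finset.range S.card).image (fun i => φ^[i] x₀) = S)
    (hy : (Finset.range S.card).image (fun i => (fun x => c - φ x)^[i] y₀) = S) :
    φ^[S.card] x₀ = x₀ ∨ φ^[S.card] x₀ = φ x₀ ∨ φ^[S.card + 1] x₀ = x₀ ∨
      φ^[S.card + 1] x₀ = φ x₀ := by
  classical
  by_contra hcon
  push Not at hcon
  obtain ⟨h1, h2, h3, h4⟩ := hcon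
  have hinj : Set.InjOn (fun i => φ^[i] x₀) (Finset.range S.card : Finset ℕ) :=
    Finset.card_image_iff.1 (by rw [hx, Finset.card_range])
  have hne : ∀ i j : ℕ, i < S.card → j < S.card → φ^[i] x₀ = φ^[j] x₀ → i = j := by
    intro i j hi hj h
    exact hinj (Finset.mem_coe.2 (Finset.mem_range.2 hi)) (Finset.mem_coe.2 (Finset.mem_range.2 hj)) h
  have hψ : ∀ x, (fun x => c - φ x) ((fun x => c - φ x) x) = φ (φ x) := by
    intro x
    show c - φ (c - φ x) = φ (φ x)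
    rw [hφ]
    ring
  have hψ2 : ∀ m, (fun x => c - φ x)^[m + 2] y₀ = φ (φ ((fun x => c - φ x)^[m] y₀)) := by
    intro m
    rw [Function.iterate_succ_apply', Function.iterate_succ_apply']
    exact hψ _
  have hφ2 : ∀ m, φ^[m + 2] x₀ = φ (φ (φ^[m] x₀)) := by
    intro m
    rw [Function.iterate_succ_apply', Function.iterate_succ_apply']
  have hxm : ∀ j, j < S.card → φ^[j] x₀ ∈ S := by
    intro j hj
    rw [← hx]
    exact Finset.mem_image.2 ⟨j, Finset.mem_range.2 hj, rfl⟩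
  have hym : ∀ j, j < S.card → (fun x => c - φ x)^[j] y₀ ∈ S := by
    intro j hj
    rw [← hy]
    exact Finset.mem_image.2 ⟨j, Finset.mem_range.2 hj, rfl⟩
  have hxe : ∀ z ∈ S, ∃ j, j < S.card ∧ φ^[j] x₀ = z := by
    intro z hz
    rw [← hx] at hz
    obtain ⟨j, hj, h⟩ := Finset.mem_image.1 hz
    exact ⟨j, Finset.mem_range.1 hj, h⟩
  have hye : ∀ z ∈ S, ∃ j, j < S.card ∧ (fun x => c - φ x)^[j] y₀ = z := by
    intro z hz
    rw [← hy] at hz
    obtain ⟨j, hj, h⟩ := Finset.mem_image.1 hz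
    exact ⟨j, Finset.mem_range.1 hj, h⟩
  have key : ∀ k, k < 2 → ∃ i, i < 2 ∧ (fun x => c - φ x)^[i] y₀ = φ^[k] x₀ := by
    intro k hk
    obtain ⟨i, hi, hi2⟩ := hye _ (hxm k (by omega))
    by_cases hlt : i < 2
    · exact ⟨i, hlt, hi2⟩
    · exfalso
      obtain ⟨m, rfl⟩ : ∃ m, i = m + 2 := ⟨i - 2, by omega⟩
      obtain ⟨j, hj, hj2⟩ := hxe _ (hym m (by omega))
      rw [hψ2, ← hj2, ← hφ2] at hi2
      by_cases hj3 : j + 2 < S.card
      · have := hne _ _ hj3 (by omega) hi2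
        omega
      · have hj4 : j + 2 = S.card ∨ j + 2 = S.card + 1 := by omega
        have hk2 : k = 0 ∨ k = 1 := by omega
        rcases hj4 with hj4 | hj4 <;> rcases hk2 with hk2 | hk2 <;> rw [hj4, hk2] at hi2
        · exact h1 hi2
        · exact h2 hi2
        · exact h3 hi2
        · exact h4 hi2
  have y1e : (fun x => c - φ x)^[1] y₀ = c - φ y₀ := rfl
  have y2e : (fun x => c - φ x)^[2] y₀ = c - φ ((fun x => c - φ x)^[1] y₀) := rfl
  have y3e : (fun x => c - φ x)^[3] y₀ = c - φ ((fun x => c - φ x)^[2] y₀) := rfl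
  have y0e : (fun x => c - φ x)^[0] y₀ = y₀ := rfl
  have y2f : (fun x => c - φ x)^[2] y₀ = φ (φ y₀) := hψ2 0
  have y3f : (fun x => c - φ x)^[3] y₀ = φ (φ ((fun x => c - φ x)^[1] y₀)) := hψ2 1
  have x0e : φ^[0] x₀ = x₀ := rfl
  have x1e : φ^[1] x₀ = φ x₀ := rfl
  have x2e : φ^[2] x₀ = φ (φ x₀) := rfl
  have x3e : φ^[3] x₀ = φ (φ (φ x₀)) := rfl
  have x4e : φ^[4] x₀ = φ (φ (φ (φ x₀))) := rfl
  have n01 : φ^[0] x₀ ≠ φ^[1] x₀ := fun h => by
    have := hne 0 1 (by omega) (by omega) h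
    omega
  have n12 : φ^[1] x₀ ≠ φ^[2] x₀ := fun h => by
    have := hne 1 2 (by omega) (by omega) h
    omega
  have n04 : φ^[0] x₀ ≠ φ^[4] x₀ := fun h => by
    have := hne 0 4 (by omega) (by omega) h
    omega
  obtain ⟨i, hi, hi2⟩ := key 0 (by norm_num)
  obtain ⟨j, hj, hj2⟩ := key 1 (by norm_num)
  have hcase : (i = 0 ∧ j = 1) ∨ (i = 1 ∧ j = 0) := by
    have : i ≠ j := by
      intro h
      rw [h, hj2] at hi2
      exact n01 hi2.symm
    omega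
  rcases hcase with ⟨rfl, rfl⟩ | ⟨rfl, rfl⟩
  · rw [y0e, x0e] at hi2
    rw [y1e, hi2, x1e] at hj2
    have e2 : φ (φ x₀) = c - φ (φ x₀) := by
      have h5 := y2f
      rw [y2e, y1e, hi2, hj2] at h5
      exact h5.symm
    apply n12
    rw [x1e, x2e]
    linarith
  · rw [y0e, x1e] at hj2
    rw [y1e, hj2, x0e] at hi2
    have e2 : (fun x => c - φ x)^[2] y₀ = φ (φ (φ x₀)) := by rw [y2f, hj2]
    have e3 : φ (φ x₀) = c - φ (φ (φ (φ x₀))) := by
      have h5 := y3f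
      rw [y3e, e2, y1e, hj2, hi2] at h5
      exact h5.symm
    apply n04
    rw [x0e, x4e]
    linarith

end F0744E
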