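import Pool.Agent.Lib.MP_f0744f_nt.E.Z4_1

/-! # Row Z4_2: cycles: the reflection on a cycle -/

set_option autoImplicit false

open Polynomial

namespace F0744E

open F0744C F0744D

variable {S : Finset ℤ} {a b : ℤ}

/-- `refl_cyc`. `ψ x = c - φ x`; two successive points `y i, y (i + 1)` of the orbit of `ψ` with `y (i + 1) ∈ Z` (all of `S` except one point is in `Z`): `z = φ (y i) ∈ Z`, `c - z ∈ Z`. `refl_half`: `Z.card = 2 h`, `ψ x = φ^[h + 1] x` for `x ∈ S`. If `h` is odd `φ^[h + 1]`
preserves the two classes `{φ^[2 i] z}`, `{φ^[2 i + 1] z}` of `Z`, each of `h` elements; the points `y 1, …, y (N - 1)` are in `Z` (if `y i ∉ Z`, `i ≥ 1`, then `y i = φ^[h] (φ (y (i - 1))) ∈ Z`) and in the same class: `N - 1 ≤ h`, but `2 h = Z.card ≤ N + 1`: impossible for `N ≥ 8`. So `h` is even. -/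
theorem refl_fwd {φ : ℚ → ℚ} {c : ℚ} (hφ : ∀ x, φ (c - x) = c - φ x) {S : Finset ℚ}
    (hS : 8 ≤ S.card) (h1 : Cmp φ S) (h2 : Cmp (fun x => c - φ x) S) :
    ∃ Z : Finset ℚ, Cyc φ Z ∧ (∀ z ∈ Z, c - z ∈ Z) ∧ 4 ∣ Z.card ∧ (Z \ S).card ≤ 1 ∧
      (S \ Z).card ≤ 1 := by
  obtain ⟨Z, hZ, hZS, hSZ, hφZ⟩ := refl_cyc hφ hS h1 h2
  obtain ⟨y, hy, hyim⟩ := h2
  have hinj : Set.InjOn (fun i => (fun x => c - φ x)^[i] y) (Finset.range S.card : Set ℕ) := by
    rw [← Finset.card_image_iff, hyim, Finset.card_range]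
  have hmem : ∀ i, i < S.card → (fun x => c - φ x)^[i] y ∈ S := by
    intro i hi
    have h : (fun x => c - φ x)^[i] y ∈
        (Finset.range S.card).image (fun i => (fun x => c - φ x)^[i] y) :=
      Finset.mem_image.2 ⟨i, Finset.mem_range.2 hi, rfl⟩
    rwa [hyim] at h
  have hne : ∀ i j, i < j → j < S.card → (fun x => c - φ x)^[i] y ≠ (fun x => c - φ x)^[j] y := by
    intro i j hij hj h
    have h3 := hinj (Finset.mem_coe.2 (Finset.mem_range.2 (lt_trans hij hj)))
      (Finset.mem_coe.2 (Finset.mem_range.2 hj)) h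
    omega
  have hc1 := Finset.card_sdiff_add_card_inter S Z
  have hc2 := Finset.card_sdiff_add_card_inter Z S
  rw [Finset.inter_comm] at hc2
  obtain ⟨i, hi, hiZ⟩ : ∃ i, i < 2 ∧ (fun x => c - φ x)^[i + 1] y ∈ Z := by
    by_contra hcon
    have a1 : (fun x => c - φ x)^[0 + 1] y ∉ Z := fun h => hcon ⟨0, by norm_num, h⟩
    have a2 : (fun x => c - φ x)^[1 + 1] y ∉ Z := fun h => hcon ⟨1, by norm_num, h⟩
    have h3 : ({(fun x => c - φ x)^[0 + 1] y, (fun x => c - φ x)^[1 + 1] y} : Finset ℚ) ⊆ S \ Z := by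
      intro x hx
      rw [Finset.mem_insert, Finset.mem_singleton] at hx
      rcases hx with rfl | rfl
      · exact Finset.mem_sdiff.2 ⟨hmem _ (by omega), a1⟩
      · exact Finset.mem_sdiff.2 ⟨hmem _ (by omega), a2⟩
    have h4 := Finset.card_le_card h3
    rw [Finset.card_pair (hne _ _ (by omega) (by omega))] at h4
    omega
  have hz : φ ((fun x => c - φ x)^[i] y) ∈ Z := hφZ _ (hmem i (by omega))
  have hz' : c - φ ((fun x => c - φ x)^[i] y) ∈ Z := by
    rw [Function.iterate_succ_apply'] at hiZ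
    exact hiZ
  obtain ⟨h, hcard, hh⟩ := refl_half hφ hZ (by omega) hz hz'
  refine ⟨Z, hZ, fun z hz => ?_, ?_, hZS, hSZ⟩
  · rw [hh z hz]
    exact (Z6_cyc hZ hz).1 h
  · rcases Nat.even_or_odd h with he | ho
    · obtain ⟨m, hm⟩ := he
      exact ⟨m, by omega⟩
    · exfalso
      have hstep : ∀ i, i < S.card →
          (fun x => c - φ x)^[i + 1] y = φ^[h + 1] ((fun x => c - φ x)^[i] y) := by
        intro i hi
        rw [Function.iterate_succ_apply', Function.iterate_succ_apply φ h]
        exact hh _ (hφZ _ (hmem i hi))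
      have hy1 : (fun x => c - φ x)^[1] y ∈ Z := by
        have h3 : (fun x => c - φ x)^[0 + 1] y = φ^[h] (φ y) := by
          rw [hstep 0 (by omega), Function.iterate_succ_apply φ h]
          rfl
        have h4 := (Z6_cyc hZ (hφZ _ hy)).1 h
        rw [← h3] at h4
        exact h4
      have hit : ∀ i, i + 1 < S.card →
          (fun x => c - φ x)^[i + 1] y = φ^[(h + 1) * i] ((fun x => c - φ x)^[1] y) := by
        intro i
        induction i with
        | zero => intro _; rfl
        | succ n ih =>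
          intro hn
          rw [hstep (n + 1) (by omega), ih (by omega), ← Function.iterate_add_apply]
          congr 1
          ring
      obtain ⟨m, hm⟩ := ho
      have hh1 : h + 1 < S.card := by omega
      have h5 := hit h hh1
      have h6 : (h + 1) * h = Z.card * (m + 1) := by
        rw [hcard, hm]
        ring
      have h7 : φ^[Z.card * (m + 1)] ((fun x => c - φ x)^[1] y) = (fun x => c - φ x)^[1] y := by
        have hp : Function.IsPeriodicPt φ Z.card ((fun x => c - φ x)^[1] y) := (Z6_cyc hZ hy1).2.1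
        exact hp.mul_const (m + 1)
      rw [h6, h7] at h5
      exact hne 1 (h + 1) (by omega) hh1 h5.symm

end F0744E
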