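import Pool.Agent.Lib.MP_f0744f_nt.E.Z4_2

/-! # Row Z4_3: cycles: the reflection on a cycle -/

set_option autoImplicit false

open Polynomial

namespace F0744E

open F0744C F0744D

variable {S : Finset ℤ} {a b : ℤ}

theorem Z4_3_step {φ : ℚ → ℚ} {S Z : Finset ℚ} (hS : 4 ≤ S.card) (h1 : Cmp φ S) (hZ : Cyc φ Z)
    (h3 : (S \ Z).card ≤ 1) {w : ℚ} (hw : w ∈ S) : φ w ∈ Z := by
  by_cases hwZ : w ∈ Z
  · exact (Z6_cyc hZ hwZ).1 1
  · obtain ⟨x, hx, him⟩ := h1
    have hinj : Set.InjOn (fun i => φ^[i] x) (Finset.range S.card : Set ℕ) := by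
      rw [← Finset.card_image_iff, him, Finset.card_range]
    have hmemS : ∀ i, i < S.card → φ^[i] x ∈ S := by
      intro i hi
      have h : φ^[i] x ∈ (Finset.range S.card).image (fun i => φ^[i] x) :=
        Finset.mem_image.2 ⟨i, Finset.mem_range.2 hi, rfl⟩
      rwa [him] at h
    have huniq : ∀ v ∈ S, v ∉ Z → v = w := by
      intro v hv hvZ
      exact Finset.card_le_one.1 h3 v (Finset.mem_sdiff.2 ⟨hv, hvZ⟩) w (Finset.mem_sdiff.2 ⟨hw, hwZ⟩)
    have hw' : w ∈ (Finset.range S.card).image (fun i => φ^[i] x) := by rw [him]; exact hw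
    obtain ⟨i, hi, hiw⟩ := Finset.mem_image.1 hw'
    have hi' := Finset.mem_range.1 hi
    have hi0 : i = 0 := by
      by_contra hne
      obtain ⟨l, rfl⟩ := Nat.exists_eq_succ_of_ne_zero hne
      have hl : φ^[l] x ∈ S := hmemS l (by omega)
      by_cases hlZ : φ^[l] x ∈ Z
      · apply hwZ
        have h4 := (Z6_cyc hZ hlZ).1 1
        have h5 : φ^[1] (φ^[l] x) = w := by
          rw [← hiw]
          exact (Function.iterate_succ_apply' φ l x).symm
        rwa [h5] at h4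
      · have h4 := huniq _ hl hlZ
        have h5 := hinj (Finset.mem_coe.2 (Finset.mem_range.2 (show l < S.card by omega)))
          (Finset.mem_coe.2 hi) (h4.trans hiw.symm)
        omega
    subst hi0
    have hwx : x = w := hiw
    subst hwx
    by_contra h4
    have h5 := huniq (φ x) (hmemS 1 (by omega)) h4
    have h6 := hinj (Finset.mem_coe.2 (Finset.mem_range.2 (show 1 < S.card by omega)))
      (Finset.mem_coe.2 (Finset.mem_range.2 (show 0 < S.card by omega))) (by simpa using h5)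
    omega

/-- `refl_half`: `Z.card = 2 h`, `h` even, `k = h + 1` is prime to `2 h`; `cycle_conv` (`D/Z6.lean`): `Cmp φ^[k] S`. For `x ∈ S`: `φ x ∈ Z` (if `x ∉ Z` then `x = x₀`: a point `φ (w) ∉ Z` has `w ∉ Z`; so `φ x = x 1 ∈ Z`), `c - φ x = φ^[h] (φ x) = φ^[k] x`. So the orbit of `φ^[k]` in `S` is an
orbit of `fun x => c - φ x`. -/
theorem refl_conv {φ : ℚ → ℚ} {c : ℚ} (hφ : ∀ x, φ (c - x) = c - φ x) {S Z : Finset ℚ}
    (hS : 8 ≤ S.card) (h1 : Cmp φ S) (hZ : Cyc φ Z) (hc : ∀ z ∈ Z, c - z ∈ Z)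
    (h4 : 4 ∣ Z.card) (h2 : (Z \ S).card ≤ 1) (h3 : (S \ Z).card ≤ 1) :
    Cmp (fun x => c - φ x) S := by
  have hc1 := Finset.card_sdiff_add_card_inter S Z
  have hc2 := Finset.card_sdiff_add_card_inter Z S
  rw [Finset.inter_comm] at hc2
  have hZ2 : 2 ≤ Z.card := by omega
  obtain ⟨z, hz⟩ : ∃ z, z ∈ Z := Finset.card_pos.1 (by omega)
  obtain ⟨h, hh, hhw⟩ := refl_half hφ hZ hZ2 hz (hc z hz)
  have hev : ∃ m, h = 2 * m := by
    obtain ⟨m, hm⟩ := h4
    exact ⟨m, by omega⟩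
  have hk : Nat.Coprime (h + 1) Z.card := by
    obtain ⟨m, rfl⟩ := hev
    rw [hh]
    apply Nat.Coprime.mul_right
    · rw [Nat.coprime_comm, Nat.coprime_two_left]
      exact ⟨m, rfl⟩
    · simp
  obtain ⟨y, hy, hyim⟩ := cycle_conv (by omega) h1 hZ h2 h3 hk
  have hstep : ∀ w ∈ S, c - φ w = φ^[h + 1] w := by
    intro w hw
    rw [hhw (φ w) (Z4_3_step (by omega) h1 hZ h3 hw), Function.iterate_succ_apply]
  have hmem : ∀ i, i < S.card → (φ^[h + 1])^[i] y ∈ S := by
    intro i hi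
    have h5 : (φ^[h + 1])^[i] y ∈ (Finset.range S.card).image (fun i => (φ^[h + 1])^[i] y) :=
      Finset.mem_image.2 ⟨i, Finset.mem_range.2 hi, rfl⟩
    rwa [hyim] at h5
  have heq : ∀ i, i < S.card → (fun x => c - φ x)^[i] y = (φ^[h + 1])^[i] y := by
    intro i
    induction i with
    | zero => intro _; rfl
    | succ i ih =>
      intro hi
      rw [Function.iterate_succ_apply', Function.iterate_succ_apply', ih (by omega)]
      exact hstep _ (hmem i (by omega))
  refine ⟨y, hy, ?_⟩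
  rw [← hyim]
  conv_rhs => rw [← hyim]
  apply Finset.image_congr
  intro i hi
  have hi' := Finset.mem_range.1 (Finset.mem_coe.1 hi)
  rw [hyim] at hi'
  exact heq i hi'

end F0744E
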