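import Pool.Agent.Lib.MP_f0744f_nt.D.ZDefs
import Pool.Agent.Lib.MP_f0744f_nt.D.Z6
import Pool.Agent.Lib.MP_f0744f_nt.E.Z3

/-! # Row Z4_1: cycles: the reflection on a cycle -/

set_option autoImplicit false

open Polynomial

namespace F0744E

open F0744C F0744D

variable {S : Finset ℤ} {a b : ℤ}

/-- `z, c - z ∈ Z` for one `z`: `c - z = φ^[j] z`; for all points `w = φ^[i] z` of `Z`: `c - w = φ^[i] (c - z) = φ^[j] w ∈ Z`. Since `c - (c - w) = w`, `φ^[2 j] w = w`, `Z.card ∣ 2 j`; not `Z.card ∣ j` because `c - w = w` for at most one `w` and `Z.card ≥ 2`. So `Z.card = 2 h` is even, `j ≡ h`. (`Z6_cyc` in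
`D/Z6.lean`.) -/
theorem refl_half {φ : ℚ → ℚ} {c : ℚ} (hφ : ∀ x, φ (c - x) = c - φ x) {Z : Finset ℚ}
    (hZ : Cyc φ Z) (h2 : 2 ≤ Z.card) {z : ℚ} (hz : z ∈ Z) (hz' : c - z ∈ Z) :
    ∃ h : ℕ, Z.card = 2 * h ∧ ∀ w ∈ Z, c - w = φ^[h] w := by
  obtain ⟨h1, hN, h3⟩ := Z6_cyc hZ hz
  have himg : (Finset.range Z.card).image (fun i => φ^[i] z) = Z := by
    apply Finset.eq_of_subset_of_card_le
    · intro x hx
      obtain ⟨i, -, rfl⟩ := Finset.mem_image.1 hx
      exact h1 i
    · have hinj : Set.InjOn (fun i => φ^[i] z) (Finset.range Z.card : Set ℕ) := by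
        intro i hi j hj hij
        have hi' := Finset.mem_range.1 (Finset.mem_coe.1 hi)
        have hj' := Finset.mem_range.1 (Finset.mem_coe.1 hj)
        exact Nat.ModEq.eq_of_lt_of_lt (h3 i j hij) hi' hj'
      rw [Finset.card_image_iff.2 hinj, Finset.card_range]
  have hsurj : ∀ w ∈ Z, ∃ i, i < Z.card ∧ φ^[i] z = w := by
    intro w hw
    rw [← himg] at hw
    obtain ⟨i, hi, h⟩ := Finset.mem_image.1 hw
    exact ⟨i, by rw [← himg]; rw [himg]; exact Finset.mem_range.1 hi, h⟩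
  have hit : ∀ (n : ℕ) (x : ℚ), φ^[n] (c - x) = c - φ^[n] x := by
    intro n
    induction n with
    | zero => intro x; rfl
    | succ n ih =>
      intro x
      rw [Function.iterate_succ_apply, Function.iterate_succ_apply, hφ, ih]
  obtain ⟨j, hj, hjz⟩ := hsurj (c - z) hz'
  have hrefl : ∀ w ∈ Z, c - w = φ^[j] w := by
    intro w hw
    obtain ⟨i, -, rfl⟩ := hsurj w hw
    rw [← hit i z, ← hjz, ← Function.iterate_add_apply, ← Function.iterate_add_apply, add_comm]
  have h2j : φ^[2 * j] z = φ^[0] z := by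
    have e1 := hrefl (c - z) hz'
    have e2 := hrefl z hz
    rw [e2, ← Function.iterate_add_apply] at e1
    rw [two_mul, ← e1, ← e2]
    simp
  have hmod := h3 _ _ h2j
  have hdvd : Z.card ∣ 2 * j := (Nat.modEq_zero_iff_dvd).1 hmod
  obtain ⟨q, hq⟩ := hdvd
  have hq2 : q < 2 := by
    by_contra hcon
    have : Z.card * 2 ≤ Z.card * q := Nat.mul_le_mul_left _ (by omega)
    omega
  have hq0 : q ≠ 0 := by
    rintro rfl
    have hj0 : j = 0 := by omega
    obtain ⟨x, hx, y, hy, hxy⟩ := Finset.one_lt_card.1 h2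
    have e1 := hrefl x hx
    have e2 := hrefl y hy
    rw [hj0, Function.iterate_zero, id] at e1 e2
    exact hxy (by linarith)
  have hq1 : q = 1 := by omega
  exact ⟨j, by rw [hq, hq1, mul_one], hrefl⟩

end F0744E
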